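import Pool.Agent.Q50.SR.Gen

/-!
# Generators of a semisimple Lie algebra, with a regular Cartan matrix
-/

set_option linter.unusedSectionVars false
set_option maxHeartbeats 4000000
set_option synthInstance.maxHeartbeats 400000

namespace Pool.Agent.Q50.SR

open Module LieAlgebra LieAlgebra.IsKilling LieModule

universe u v

variable {K : Type u} {𝔤 : Type v} [Field K] [CharZero K] [IsAlgClosed K] [LieRing 𝔤]
  [LieAlgebra K 𝔤] [FiniteDimensional K 𝔤] [IsKilling K 𝔤] {H : LieSubalgebra K 𝔤}
  [H.IsCartanSubalgebra]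

variable (K 𝔤) in
theorem exists_lchev2 : ∃ (ι : Type (max u v)) (_ : Fintype ι) (e f h : ι → 𝔤) (A : ι → ι → K)
    (c : ι → K), LChev e f h A c ∧ ∀ x : ι → K, (∀ j, ∑ i, x i * A i j = 0) → x = 0 := by
  classical
  obtain ⟨x, hx⟩ := LieAlgebra.exists_isCartanSubalgebra_engel K 𝔤
  generalize LieSubalgebra.engel K x = H at hx
  obtain ⟨b⟩ := RootPairing.nonempty_base (rootSystem H)
  have hnz : ∀ i : b.support, (i.1.1 : Weight K H 𝔤).IsNonZero := fun i =>
    LieSubalgebra.isNonZero_coe_root i.1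
  choose h e f t he hf using fun i : b.support => exists_isSl2Triple_of_weight_isNonZero (hnz i)
  have hco : ∀ i, h i = coroot (i.1.1 : Weight K H 𝔤) := fun i =>
    (t i).h_eq_coroot (hnz i) (he i) (hf i)
  have hroot : ∀ i j : b.support, (i.1.1 : Weight K H 𝔤) = j.1.1 → i = j := fun i j hij =>
    Subtype.ext (Subtype.ext hij)
  have hneg : ∀ β : Weight K H 𝔤, ((-β : Weight K H 𝔤) : H → K) = -β := fun β => rfl
  have hlin : ∀ i : b.support, b.toWeightBasis i = Weight.toLinear K H 𝔤 i.1.1 := fun i => by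
    rw [RootPairing.Base.toWeightBasis_apply]
    rfl
  have hcw : ∀ i : b.support, b.toCoweightBasis i = coroot (i.1.1 : Weight K H 𝔤) := fun i => by
    rw [RootPairing.Base.toCoweightBasis_apply]
    rfl
  obtain ⟨c, hc⟩ : ∃ c : b.support → K, ∀ i : b.support, ∑ j : b.support,
      c j * (i.1.1 : Weight K H 𝔤) (coroot (j.1.1 : Weight K H 𝔤)) = 2 := by
    let φ : Dual K (Dual K H) := b.toWeightBasis.constr K fun _ => (2 : K)
    let y : H := (evalEquiv K H).symm φ
    have hy : ∀ g : Dual K H, g y = φ g := fun g => by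
      have h1 := (evalEquiv K H).apply_symm_apply φ
      exact congrArg (fun ψ : Dual K (Dual K H) => ψ g) h1
    refine ⟨fun j => b.toCoweightBasis.repr y j, fun i => ?_⟩
    have h1 : Weight.toLinear K H 𝔤 i.1.1 y = 2 := by
      rw [hy, ← hlin]
      exact Module.Basis.constr_basis _ _ _ _
    rw [← h1]
    conv_rhs => rw [← b.toCoweightBasis.sum_repr y]
    rw [map_sum]
    refine Finset.sum_congr rfl fun j _ => ?_
    rw [map_smul, hcw]
    rfl
  refine ⟨b.support, inferInstance, e, f, h,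
    fun i j => (i.1.1 : Weight K H 𝔤) (coroot (j.1.1 : Weight K H 𝔤)), c,
    ⟨?_, ?_, ?_, fun i => (t i).lie_e_f, ?_, fun i => root_apply_coroot (hnz i), ?_, ?_, hc, ?_⟩,
    ?_⟩
  · intro i j
    rw [hco, hco]
    have h1 : ⁅coroot (i.1.1 : Weight K H 𝔤), coroot (j.1.1 : Weight K H 𝔤)⁆ = 0 :=
      trivial_lie_zero _ _ _ _
    exact congrArg Subtype.val h1
  · intro i j
    rw [hco]
    exact lie_eq_smul_of_mem_rootSpace (he i) (coroot (j.1.1 : Weight K H 𝔤))
  · intro i j
    rw [hco, ← neg_smul]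
    exact lie_eq_smul_of_mem_rootSpace (hf i) (coroot (j.1.1 : Weight K H 𝔤))
  · intro i j hij
    have h1 : ⁅e i, f j⁆ ∈ rootSpace H ((i.1.1 : H → K) + -(j.1.1 : H → K)) :=
      lie_mem_genWeightSpace_of_mem_genWeightSpace (he i) (hf j)
    by_contra h0
    have h2 : rootSpace H ((i.1.1 : H → K) + -(j.1.1 : H → K)) ≠ ⊥ := by
      intro h3
      rw [h3] at h1
      exact h0 ((LieSubmodule.mem_bot _).1 h1)
    let χ : Weight K H 𝔤 := ⟨_, h2⟩
    have hχ : χ.IsNonZero := by
      intro h3
      apply hij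
      apply hroot
      refine Weight.ext fun z => ?_
      have h4 := congrFun h3 z
      exact add_neg_eq_zero.1 h4
    refine b.sub_notMem_range_root i.2 j.2 ⟨⟨χ, by simpa using hχ⟩, ?_⟩
    refine LinearMap.ext fun z => ?_
    change (i.1.1 : H → K) z + -(j.1.1 : H → K) z = (i.1.1 : H → K) z - (j.1.1 : H → K) z
    rw [sub_eq_add_neg]
  · intro i j hij
    exact ((rootSystem H).pairing_eq_zero_iff' (i := i.1) (j := j.1)).1 hij
  · intro i j hij
    apply hroot
    have h1 : Weight.toLinear K H 𝔤 i.1.1 = Weight.toLinear K H 𝔤 j.1.1 := by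
      refine b.toCoweightBasis.ext fun k => ?_
      rw [hcw]
      exact hij k
    exact Weight.ext fun z => congrArg (fun g : H →ₗ[K] K => g z) h1
  · set N := LieSubalgebra.lieSpan K 𝔤 (Set.range e ∪ Set.range f) with hN
    have heN : ∀ i, e i ∈ N := fun i => LieSubalgebra.subset_lieSpan (Or.inl ⟨i, rfl⟩)
    have hfN : ∀ i, f i ∈ N := fun i => LieSubalgebra.subset_lieSpan (Or.inr ⟨i, rfl⟩)
    have key : ∀ i : H.root, (∀ x ∈ rootSpace H (i.1 : H → K), x ∈ N) ∧
        (∀ x ∈ rootSpace H (-(i.1 : H → K)), x ∈ N) := by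
      intro i
      refine RootPairing.Base.induction_add (b := b) i (p := fun i : H.root =>
        (∀ x ∈ rootSpace H (i.1 : H → K), x ∈ N) ∧
        (∀ x ∈ rootSpace H (-(i.1 : H → K)), x ∈ N)) ?_ ?_ ?_
      · intro i hi
        have h1 : (((rootSystem H).reflectionPerm i i).1 : H → K) = -(i.1 : H → K) := by
          have h2 := (rootSystem H).root_reflectionPerm i i
          rw [RootPairing.reflection_apply_self] at h2
          funext z
          exact congrArg (fun g : Dual K H => g z) h2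
        refine ⟨fun x hx => hi.2 x (by rwa [h1] at hx), fun x hx => hi.1 x ?_⟩
        rwa [h1, neg_neg] at hx
      · intro i hi
        refine ⟨fun x hx => ?_, fun x hx => ?_⟩
        · have h2 := (finrank_eq_one_iff_of_nonzero' (⟨_, he ⟨i, hi⟩⟩ : rootSpace H (i.1 : H → K))
            (fun h0 => (t ⟨i, hi⟩).e_ne_zero (congrArg Subtype.val h0))).1
            (finrank_rootSpace_eq_one i.1 (hnz ⟨i, hi⟩)) ⟨x, hx⟩
          obtain ⟨k, hk⟩ := h2
          have h3 : k • e ⟨i, hi⟩ = x := congrArg Subtype.val hk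
          rw [← h3]
          exact N.smul_mem k (heN _)
        · have h2 := (finrank_eq_one_iff_of_nonzero' (⟨_, hf ⟨i, hi⟩⟩ :
            rootSpace H ((-i.1 : Weight K H 𝔤) : H → K))
            (fun h0 => (t ⟨i, hi⟩).f_ne_zero (congrArg Subtype.val h0))).1
            (finrank_rootSpace_eq_one (-i.1) (hnz ⟨i, hi⟩).neg) ⟨x, hx⟩
          obtain ⟨k, hk⟩ := h2
          have h3 : k • f ⟨i, hi⟩ = x := congrArg Subtype.val hk
          rw [← h3]
          exact N.smul_mem k (hfN _)
      · intro i j k hk hi hj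
        have hnz' : ∀ i : H.root, (i.1 : Weight K H 𝔤).IsNonZero := fun i =>
          LieSubalgebra.isNonZero_coe_root i
        have h1 : (k.1 : H → K) = (j.1 : H → K) + (i.1 : H → K) := by
          funext z
          have h2 := congrArg (fun g : Dual K H => g z) hk
          rw [add_comm]
          exact h2
        refine ⟨rootSpace_add_le (hnz' j) (hnz' i) (hnz' k) h1 (t ⟨j, hj⟩) (he ⟨j, hj⟩)
          (hf ⟨j, hj⟩) (heN _) hi.1, ?_⟩
        refine rootSpace_add_le (α := -j.1) (β := -i.1) (γ := -k.1) (hnz' j).neg (hnz' i).neg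
          (hnz' k).neg ?_ (t ⟨j, hj⟩).symm (hf ⟨j, hj⟩) ?_ (hfN _) hi.2
        · rw [hneg, hneg, hneg, h1, neg_add]
        · rw [hneg, neg_neg]
          exact he ⟨j, hj⟩
    have hHN : ∀ x ∈ H, x ∈ N := by
      intro x hx
      have h1 := b.toCoweightBasis.sum_repr ⟨x, hx⟩
      have h2 : x = ∑ i, b.toCoweightBasis.repr ⟨x, hx⟩ i • ((b.toCoweightBasis i : H) : 𝔤) := by
        have h3 := congrArg Subtype.val h1
        rw [AddSubmonoidClass.coe_finsetSum] at h3
        exact h3.symm
      rw [h2]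
      refine sum_mem fun i _ => N.smul_mem _ ?_
      rw [hcw, ← hco, ← (t i).lie_e_f]
      exact N.lie_mem (heN i) (hfN i)
    rw [eq_top_iff]
    intro x _
    have h1 : x ∈ ⨆ χ : Weight K H 𝔤, genWeightSpace 𝔤 χ := by
      rw [LieModule.iSup_genWeightSpace_eq_top']
      trivial
    refine LieSubmodule.iSup_induction (fun χ : Weight K H 𝔤 => genWeightSpace 𝔤 χ)
      (motive := fun x => x ∈ N) h1 ?_ N.zero_mem (fun _ _ => N.add_mem)
    intro χ y hy
    by_cases hχ : χ.IsZero
    · have h2 : y ∈ rootSpace H (0 : H → K) := by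
        have h3 : (χ : H → K) = 0 := hχ
        rw [h3] at hy
        exact hy
      rw [rootSpace_zero_eq] at h2
      exact hHN y h2
    · exact (key ⟨χ, by simpa using hχ⟩).1 y hy
  · intro x hx
    have h1 : ∑ i, x i • b.toWeightBasis i = 0 := by
      refine b.toCoweightBasis.ext fun j => ?_
      rw [hcw, LinearMap.zero_apply, LinearMap.sum_apply, ← hx j]
      refine Finset.sum_congr rfl fun i _ => ?_
      rw [LinearMap.smul_apply, hlin, smul_eq_mul]
      rfl
    funext i
    exact (Fintype.linearIndependent_iff.1 b.toWeightBasis.linearIndependent) x h1 i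

end Pool.Agent.Q50.SR
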