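import Pool.Agent.Q50.LR.Defs

/-!
# Spin representations and period matrices: definitions

In the intended use `K` is the field of the algebraic numbers and `x` is the period matrix of a factor
of the Kuga-Satake variety of a K3 surface with transcendental lattice of odd rank `n`, in suitable
bases over `K`: it is an element of the even Clifford group of a quadratic form in `n` variables,
acting on the spin representation. The matrix `R` of the induced isometry is the period matrix of the
transcendental part of the K3 surface (Tate twisted).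
-/

namespace Pool.Agent.Q50.SR

open Pool.Agent.Q50.LR

variable {K : Type} [Field K] {n N : ℕ}

/-- Gamma matrices: an irreducible representation of the Clifford algebra of the sum of `n`
squares. -/
structure Gamma (γ : Fin n → Matrix (Fin N) (Fin N) K) : Prop where
  rel : ∀ i j, γ i * γ j + γ j * γ i = (if i = j then (2 : K) else 0) • 1
  schur : ∀ M, (∀ j, M * γ j = γ j * M) → ∃ s : K, M = s • 1

variable [Algebra K ℂ]

/-- The matrix `x` induces the matrix `R` on the vectors: `x γ_j x⁻¹ = ∑ R_ij γ_i`. -/
def Acts (γ : Fin n → Matrix (Fin N) (Fin N) K) (x : GL (Fin N) ℂ)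
    (R : Matrix (Fin n) (Fin n) ℂ) : Prop :=
  ∀ j, (x : Matrix (Fin N) (Fin N) ℂ) * (γ j).map (algebraMap K ℂ) =
    (∑ i, R i j • (γ i).map (algebraMap K ℂ)) * (x : Matrix (Fin N) (Fin N) ℂ)

/-- The entries of `x` are linearly independent over `K`. -/
def Indep (K : Type) [Field K] [Algebra K ℂ] (x : GL (Fin N) ℂ) : Prop :=
  ∀ a : Matrix (Fin N) (Fin N) K, ∑ i, ∑ j, algebraMap K ℂ (a i j) * x i j = 0 → a = 0

/-- The complex matrix of the vector with the coordinates `a`. -/
noncomputable def vector (γ : Fin n → Matrix (Fin N) (Fin N) K) (a : Fin n → ℂ) :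
    Matrix (Fin N) (Fin N) ℂ :=
  ∑ i, a i • (γ i).map (algebraMap K ℂ)

/-- The group contains the special orthogonal group. -/
def ContainsSO (H : Subgroup (GL (Fin n) ℂ)) : Prop :=
  ∀ g : GL (Fin n) ℂ, (g : Matrix (Fin n) (Fin n) ℂ).transpose * g = 1 →
    (g : Matrix (Fin n) (Fin n) ℂ).det = 1 → g ∈ H

/-- The group contains the products of two unit vectors. These products generate the spin group. -/
def ContainsSpin (γ : Fin n → Matrix (Fin N) (Fin N) K) (H : Subgroup (GL (Fin N) ℂ)) : Prop :=
  ∀ a b : Fin n → ℂ, ∑ i, a i * a i = 1 → ∑ i, b i * b i = 1 →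
    ∃ h ∈ H, (h : Matrix (Fin N) (Fin N) ℂ) = vector γ a * vector γ b

/-- The group contains the nonzero scalar matrices. -/
def ContainsScalars (H : Subgroup (GL (Fin N) ℂ)) : Prop :=
  ∀ z : ℂ, z ≠ 0 → ∃ h ∈ H, (h : Matrix (Fin N) (Fin N) ℂ) = z • 1

end Pool.Agent.Q50.SR
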