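import Mathlib

/-!
# The orthogonal algebra inside a Clifford algebra
-/

set_option linter.unusedSectionVars false
set_option maxHeartbeats 4000000
set_option synthInstance.maxHeartbeats 400000

namespace Pool.Agent.Q50.SR

variable {F R : Type*} [Field F] [CharZero F] [Ring R] [Algebra F R] {n : ℕ} {γ : Fin n → R}

/-- the relations of the Clifford algebra -/
def Rel (F : Type*) {R : Type*} [Field F] [Ring R] [Algebra F R] {n : ℕ} (γ : Fin n → R) : Prop :=
  ∀ i j, γ i * γ j + γ j * γ i = (if i = j then (2 : F) else 0) • 1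

/-- the map from the orthogonal algebra to the Clifford algebra -/
noncomputable def sg (γ : Fin n → R) : Matrix (Fin n) (Fin n) F →ₗ[F] R where
  toFun Z := (4 : F)⁻¹ • ∑ i, ∑ j, Z i j • (γ i * γ j)
  map_add' Z Z' := by
    rw [← smul_add, ← Finset.sum_add_distrib]
    congr 1
    refine Finset.sum_congr rfl fun i _ => ?_
    rw [← Finset.sum_add_distrib]
    refine Finset.sum_congr rfl fun j _ => ?_
    rw [Matrix.add_apply, add_smul]
  map_smul' r Z := by
    have h1 : ∑ i, ∑ j, (r • Z) i j • (γ i * γ j) = r • ∑ i, ∑ j, Z i j • (γ i * γ j) := by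
      rw [Finset.smul_sum]
      refine Finset.sum_congr rfl fun i _ => ?_
      rw [Finset.smul_sum]
      refine Finset.sum_congr rfl fun j _ => ?_
      rw [Matrix.smul_apply, smul_smul, smul_eq_mul]
    rw [RingHom.id_apply, h1, smul_smul, smul_smul, mul_comm]

theorem sg_apply (Z : Matrix (Fin n) (Fin n) F) :
    sg γ Z = (4 : F)⁻¹ • ∑ i, ∑ j, Z i j • (γ i * γ j) := rfl

theorem sg_single (i j : Fin n) (r : F) :
    sg γ (Matrix.single i j r) = ((4 : F)⁻¹ * r) • (γ i * γ j) := by
  classical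
  rw [sg_apply, Finset.sum_eq_single i, Finset.sum_eq_single j]
  · rw [Matrix.single_apply_same, smul_smul]
  · intro k _ hk
    rw [Matrix.single_apply_of_ne (h := fun h => hk h.2.symm), zero_smul]
  · intro h
    exact absurd (Finset.mem_univ _) h
  · intro k _ hk
    refine Finset.sum_eq_zero fun l _ => ?_
    rw [Matrix.single_apply_of_ne (h := fun h => hk h.1.symm), zero_smul]
  · intro h
    exact absurd (Finset.mem_univ _) h

theorem Rel.comm3 (hγ : Rel F γ) (a b k : Fin n) : γ a * γ b * γ k - γ k * (γ a * γ b) =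
    (if b = k then (2 : F) else 0) • γ a - (if a = k then (2 : F) else 0) • γ b := by
  have h1 : γ a * γ b * γ k - γ k * (γ a * γ b) =
      γ a * (γ b * γ k + γ k * γ b) - (γ a * γ k + γ k * γ a) * γ b := by
    noncomm_ring
  rw [h1, hγ, hγ, mul_smul_comm, mul_one, smul_mul_assoc, one_mul]

theorem Rel.sg_comm (hγ : Rel F γ) (Z : Matrix (Fin n) (Fin n) F) (k : Fin n) :
    sg γ Z * γ k - γ k * sg γ Z = ∑ i, ((2 : F)⁻¹ * (Z i k - Z k i)) • γ i := by
  have h1 : sg γ Z * γ k - γ k * sg γ Z =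
      (4 : F)⁻¹ • ∑ i, ∑ j, Z i j • (γ i * γ j * γ k - γ k * (γ i * γ j)) := by
    rw [sg_apply, smul_mul_assoc, mul_smul_comm, ← smul_sub, Finset.sum_mul, Finset.mul_sum,
      ← Finset.sum_sub_distrib]
    congr 1
    refine Finset.sum_congr rfl fun i _ => ?_
    rw [Finset.sum_mul, Finset.mul_sum, ← Finset.sum_sub_distrib]
    refine Finset.sum_congr rfl fun j _ => ?_
    rw [smul_mul_assoc, mul_smul_comm, ← smul_sub]
  have h2 : ∑ i, ∑ j, Z i j • (γ i * γ j * γ k - γ k * (γ i * γ j)) =
      ∑ i, (2 * Z i k) • γ i - ∑ i, (2 * Z k i) • γ i := by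
    have h3 : ∀ i j, Z i j • (γ i * γ j * γ k - γ k * (γ i * γ j)) =
        (Z i j * (if j = k then (2 : F) else 0)) • γ i -
          (Z i j * (if i = k then (2 : F) else 0)) • γ j := fun i j => by
      rw [hγ.comm3, smul_sub, smul_smul, smul_smul]
    simp only [h3, Finset.sum_sub_distrib]
    congr 1
    · refine Finset.sum_congr rfl fun i _ => ?_
      rw [Finset.sum_eq_single k]
      · rw [if_pos rfl, mul_comm]
      · intro j _ hj
        rw [if_neg hj, mul_zero, zero_smul]
      · intro h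
        exact absurd (Finset.mem_univ _) h
    · rw [Finset.sum_eq_single k]
      · refine Finset.sum_congr rfl fun j _ => ?_
        rw [if_pos rfl, mul_comm]
      · intro i _ hi
        refine Finset.sum_eq_zero fun j _ => ?_
        rw [if_neg hi, mul_zero, zero_smul]
      · intro h
        exact absurd (Finset.mem_univ _) h
  rw [h1, h2, ← Finset.sum_sub_distrib, Finset.smul_sum]
  refine Finset.sum_congr rfl fun i _ => ?_
  rw [← sub_smul, smul_smul]
  congr 1
  have h4 : (4 : F) ≠ 0 := by norm_num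
  have h5 : (2 : F) ≠ 0 := by norm_num
  field_simp
  ring

/-- the skew-symmetric matrices -/
def Skew (Z : Matrix (Fin n) (Fin n) F) : Prop := Z.transpose = -Z

theorem Skew.apply {Z : Matrix (Fin n) (Fin n) F} (h : Skew Z) (i j : Fin n) :
    Z j i = -Z i j := congrFun (congrFun h i) j

theorem Rel.sg_skew (hγ : Rel F γ) {Z : Matrix (Fin n) (Fin n) F} (hZ : Skew Z) (k : Fin n) :
    sg γ Z * γ k - γ k * sg γ Z = ∑ i, Z i k • γ i := by
  rw [hγ.sg_comm]
  refine Finset.sum_congr rfl fun i _ => ?_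
  congr 1
  rw [hZ.apply i k]
  have h5 : (2 : F) ≠ 0 := by norm_num
  field_simp
  ring

theorem Rel.sg_lie (hγ : Rel F γ) {Z Z' : Matrix (Fin n) (Fin n) F} (hZ : Skew Z) :
    sg γ (Z * Z' - Z' * Z) = sg γ Z * sg γ Z' - sg γ Z' * sg γ Z := by
  have h1 : sg γ Z * sg γ Z' - sg γ Z' * sg γ Z = (4 : F)⁻¹ • ∑ i, ∑ j, Z' i j •
      ((sg γ Z * γ i - γ i * sg γ Z) * γ j + γ i * (sg γ Z * γ j - γ j * sg γ Z)) := by
    rw [sg_apply Z', mul_smul_comm, smul_mul_assoc, ← smul_sub, Finset.mul_sum, Finset.sum_mul,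
      ← Finset.sum_sub_distrib]
    congr 1
    refine Finset.sum_congr rfl fun i _ => ?_
    rw [Finset.sum_mul, Finset.mul_sum, ← Finset.sum_sub_distrib]
    refine Finset.sum_congr rfl fun j _ => ?_
    rw [smul_mul_assoc, mul_smul_comm, ← smul_sub]
    congr 1
    noncomm_ring
  rw [h1, sg_apply]
  congr 1
  have h2 : ∀ i j, Z' i j •
      ((sg γ Z * γ i - γ i * sg γ Z) * γ j + γ i * (sg γ Z * γ j - γ j * sg γ Z)) =
      ∑ k, (Z k i * Z' i j) • (γ k * γ j) + ∑ k, (Z' i j * Z k j) • (γ i * γ k) := by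
    intro i j
    rw [hγ.sg_skew hZ, hγ.sg_skew hZ, Finset.sum_mul, Finset.mul_sum, smul_add, Finset.smul_sum,
      Finset.smul_sum]
    congr 1
    · refine Finset.sum_congr rfl fun k _ => ?_
      rw [smul_mul_assoc, smul_smul, mul_comm]
    · refine Finset.sum_congr rfl fun k _ => ?_
      rw [mul_smul_comm, smul_smul]
  simp only [h2, Finset.sum_add_distrib, Matrix.sub_apply, sub_smul, Finset.sum_sub_distrib]
  rw [sub_eq_add_neg]
  congr 1
  · rw [Finset.sum_comm (f := fun i j => ∑ k, (Z k i * Z' i j) • (γ k * γ j))]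
    rw [Finset.sum_comm]
    refine Finset.sum_congr rfl fun j _ => ?_
    rw [Finset.sum_comm]
    refine Finset.sum_congr rfl fun k _ => ?_
    rw [Matrix.mul_apply, Finset.sum_smul]
  · rw [← Finset.sum_neg_distrib]
    refine Finset.sum_congr rfl fun i _ => ?_
    rw [Finset.sum_comm, ← Finset.sum_neg_distrib]
    refine Finset.sum_congr rfl fun k _ => ?_
    rw [Matrix.mul_apply, Finset.sum_smul, ← Finset.sum_neg_distrib]
    refine Finset.sum_congr rfl fun j _ => ?_
    rw [← neg_smul, hZ.apply k j]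
    congr 1
    ring

theorem Rel.indep [Nontrivial R] (hγ : Rel F γ) {a : Fin n → F} (h : ∑ i, a i • γ i = 0) :
    a = 0 := by
  funext k
  have h1 : (∑ i, a i • γ i) * γ k + γ k * (∑ i, a i • γ i) = (2 * a k) • (1 : R) := by
    rw [Finset.sum_mul, Finset.mul_sum, ← Finset.sum_add_distrib, Finset.sum_eq_single k]
    · rw [smul_mul_assoc, mul_smul_comm, ← smul_add, hγ, if_pos rfl, smul_smul, mul_comm]
    · intro i _ hi
      rw [smul_mul_assoc, mul_smul_comm, ← smul_add, hγ, if_neg hi, zero_smul, smul_zero]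
    · intro h
      exact absurd (Finset.mem_univ _) h
  rw [h, zero_mul, mul_zero, add_zero, eq_comm, smul_eq_zero] at h1
  rcases h1 with h2 | h2
  · exact (mul_eq_zero.1 h2).resolve_left two_ne_zero
  · exact absurd h2 one_ne_zero

theorem Rel.sg_inj [Nontrivial R] (hγ : Rel F γ) {Z Z' : Matrix (Fin n) (Fin n) F} (hZ : Skew Z)
    (hZ' : Skew Z') (h : sg γ Z = sg γ Z') : Z = Z' := by
  ext i k
  have h1 := hγ.sg_skew hZ k
  rw [h, hγ.sg_skew hZ' k, eq_comm, ← sub_eq_zero, ← Finset.sum_sub_distrib] at h1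
  have h2 : ∑ i, (Z i k - Z' i k) • γ i = 0 := by
    rw [← h1]
    exact Finset.sum_congr rfl fun i _ => sub_smul _ _ _
  exact sub_eq_zero.1 (congrFun (hγ.indep h2) i)

theorem sg_mem {Z : Matrix (Fin n) (Fin n) F} (hZ : Skew Z) :
    sg γ Z ∈ Submodule.span F {y | ∃ i j, y = γ i * γ j - γ j * γ i} := by
  have h1 : sg γ Z = (8 : F)⁻¹ • ∑ i, ∑ j, Z i j • (γ i * γ j - γ j * γ i) := by
    have h2 : ∑ i, ∑ j, Z i j • (γ i * γ j - γ j * γ i) =
        (2 : F) • ∑ i, ∑ j, Z i j • (γ i * γ j) := by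
      simp only [smul_sub, Finset.sum_sub_distrib]
      rw [two_smul, sub_eq_add_neg]
      congr 1
      rw [Finset.sum_comm, ← Finset.sum_neg_distrib]
      refine Finset.sum_congr rfl fun i _ => ?_
      rw [← Finset.sum_neg_distrib]
      refine Finset.sum_congr rfl fun j _ => ?_
      rw [← neg_smul, hZ.apply i j, neg_neg]
    rw [h2, smul_smul, sg_apply]
    congr 1
    norm_num
  rw [h1]
  exact Submodule.smul_mem _ _ (Submodule.sum_mem _ fun i _ => Submodule.sum_mem _ fun j _ =>
    Submodule.smul_mem _ _ (Submodule.subset_span ⟨i, j, rfl⟩))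

/-- the elementary skew matrices -/
def skw (F : Type*) [Field F] (i j : Fin n) : Matrix (Fin n) (Fin n) F :=
  Matrix.single i j 1 - Matrix.single j i 1

theorem skw_skew (i j : Fin n) : Skew (skw F i j) := by
  unfold Skew skw
  rw [Matrix.transpose_sub, Matrix.transpose_single, Matrix.transpose_single, neg_sub]

theorem sg_skw (i j : Fin n) :
    γ i * γ j - γ j * γ i = sg γ ((4 : F) • skw F i j) := by
  rw [map_smul, skw, map_sub, sg_single, sg_single, ← smul_sub, smul_smul, mul_one]
  have h4 : (4 : F) ≠ 0 := by norm_num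
  rw [mul_inv_cancel₀ h4, one_smul]

theorem skew_sum {Z : Matrix (Fin n) (Fin n) F} (hZ : Skew Z) :
    Z = (2 : F)⁻¹ • ∑ i, ∑ j, Z i j • skw F i j := by
  have h1 : ∑ i, ∑ j, Z i j • skw F i j = Z - Z.transpose := by
    have h2 : Z = ∑ i, ∑ j, Z i j • Matrix.single i j (1 : F) := by
      conv_lhs => rw [Matrix.matrix_eq_sum_single Z]
      refine Finset.sum_congr rfl fun i _ => Finset.sum_congr rfl fun j _ => ?_
      rw [Matrix.smul_single, smul_eq_mul, mul_one]
    have h3 : Z.transpose = ∑ i, ∑ j, Z i j • Matrix.single j i (1 : F) := by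
      conv_lhs => rw [h2]
      rw [Matrix.transpose_sum]
      refine Finset.sum_congr rfl fun i _ => ?_
      rw [Matrix.transpose_sum]
      refine Finset.sum_congr rfl fun j _ => ?_
      rw [Matrix.transpose_smul, Matrix.transpose_single]
    have h4 := congrArg₂ (fun A B : Matrix (Fin n) (Fin n) F => A - B) h2 h3
    rw [h4, ← Finset.sum_sub_distrib]
    refine Finset.sum_congr rfl fun i _ => ?_
    rw [← Finset.sum_sub_distrib]
    refine Finset.sum_congr rfl fun j _ => ?_
    rw [skw, smul_sub]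
  rw [h1, hZ, sub_neg_eq_add, ← two_smul F, smul_smul]
  have h4 : (2 : F) ≠ 0 := by norm_num
  rw [inv_mul_cancel₀ h4, one_smul]

theorem skw_bracket {i j k : Fin n} (hij : i ≠ j) (hik : i ≠ k) (hjk : j ≠ k) :
    skw F i k * skw F k j - skw F k j * skw F i k = skw F i j := by
  unfold skw
  simp only [sub_mul, mul_sub]
  rw [Matrix.single_mul_single_same, Matrix.single_mul_single_of_ne (h := hjk.symm),
    Matrix.single_mul_single_of_ne (h := hik), Matrix.single_mul_single_of_ne (h := hij),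
    Matrix.single_mul_single_of_ne (h := hij.symm), Matrix.single_mul_single_of_ne (h := hjk),
    Matrix.single_mul_single_of_ne (h := hik.symm), Matrix.single_mul_single_same, mul_one]
  abel

end Pool.Agent.Q50.SR
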