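import Pool.Agent.Q50.SR.Per
import Pool.Agent.Q50.SR.Sg
import Pool.Agent.Q50.SR.Defs

/-!
# The Lie algebra of the period torsor
-/

set_option linter.unusedSectionVars false
set_option maxHeartbeats 4000000
set_option synthInstance.maxHeartbeats 400000

namespace Pool.Agent.Q50.SR

open Module Pool.Agent.Q50.LR

section vec

variable {F R : Type*} [Field F] [CharZero F] [Ring R] [Algebra F R] {n : ℕ} {γ : Fin n → R}

theorem Rel.vec (hγ : Rel F γ) (a b : Fin n → F) :
    (∑ i, a i • γ i) * (∑ i, b i • γ i) + (∑ i, b i • γ i) * (∑ i, a i • γ i) =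
      (2 * ∑ i, a i * b i) • 1 := by
  have h1 : (∑ i, a i • γ i) * (∑ i, b i • γ i) + (∑ i, b i • γ i) * (∑ i, a i • γ i) =
      ∑ i, ∑ j, (a i * b j) • (γ i * γ j + γ j * γ i) := by
    rw [Finset.sum_mul_sum, Finset.sum_mul_sum, Finset.sum_comm (f := fun i j =>
      b i • γ i * a j • γ j), ← Finset.sum_add_distrib]
    refine Finset.sum_congr rfl fun i _ => ?_
    rw [← Finset.sum_add_distrib]
    refine Finset.sum_congr rfl fun j _ => ?_
    rw [smul_mul_smul_comm, smul_mul_smul_comm, smul_add, mul_comm (b j)]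
  rw [h1, Finset.mul_sum, Finset.sum_smul]
  refine Finset.sum_congr rfl fun i _ => ?_
  rw [Finset.sum_eq_single i]
  · rw [hγ, if_pos rfl, smul_smul]
    congr 1
    ring
  · intro j _ hj
    rw [hγ, if_neg (Ne.symm hj), zero_smul, smul_zero]
  · intro h
    exact absurd (Finset.mem_univ _) h

end vec

variable {K : Type} [Field K] [Algebra K ℂ] {n N : ℕ} {γ : Fin n → Matrix (Fin N) (Fin N) K}

theorem rel_mc [CharZero K] (hγ : Rel K γ) : Rel ℂ fun i => mc K (γ i) := by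
  intro i j
  have h1 : mc K (γ i * γ j + γ j * γ i) =
      mc K (γ i) * mc K (γ j) + mc K (γ j) * mc K (γ i) := by
    rw [← mc_mul, ← mc_mul]
    ext a b
    exact map_add (algebraMap K ℂ) _ _
  change mc K (γ i) * mc K (γ j) + mc K (γ j) * mc K (γ i) = _
  rw [← h1, hγ]
  by_cases hij : i = j
  · rw [if_pos hij, if_pos hij]
    ext a b
    rw [mc, Matrix.map_apply, Matrix.smul_apply, Matrix.smul_apply, smul_eq_mul, smul_eq_mul,
      map_mul, map_ofNat]
    congr 1
    rw [Matrix.one_apply, Matrix.one_apply]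
    split_ifs
    · exact map_one _
    · exact map_zero _
  · rw [if_neg hij, if_neg hij, zero_smul, zero_smul]
    ext a b
    exact map_zero (algebraMap K ℂ)

/-- the induced matrix is orthogonal -/
theorem acts_orth [CharZero K] (hN : N ≠ 0) (hγ : Rel K γ) {x : GL (Fin N) ℂ}
    {R : Matrix (Fin n) (Fin n) ℂ} (hR : Acts γ x R) : R.transpose * R = 1 := by
  have : NeZero N := ⟨hN⟩
  have hγ' := rel_mc hγ
  have hx : ∀ j, ∑ i, R i j • mc K (γ i) = (x : Matrix (Fin N) (Fin N) ℂ) * mc K (γ j) *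
      ((x⁻¹ : GL (Fin N) ℂ) : Matrix (Fin N) (Fin N) ℂ) := by
    intro j
    have h1 := hR j
    change (x : Matrix (Fin N) (Fin N) ℂ) * mc K (γ j) =
      (∑ i, R i j • mc K (γ i)) * (x : Matrix (Fin N) (Fin N) ℂ) at h1
    rw [h1, mul_assoc, mul_inv_coe, mul_one]
  ext j k
  have h1 := hγ'.vec (fun i => R i j) (fun i => R i k)
  rw [hx, hx] at h1
  have h2 : (x : Matrix (Fin N) (Fin N) ℂ) * mc K (γ j) *
      ((x⁻¹ : GL (Fin N) ℂ) : Matrix (Fin N) (Fin N) ℂ) *
      ((x : Matrix (Fin N) (Fin N) ℂ) * mc K (γ k) *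
      ((x⁻¹ : GL (Fin N) ℂ) : Matrix (Fin N) (Fin N) ℂ)) +
      (x : Matrix (Fin N) (Fin N) ℂ) * mc K (γ k) *
      ((x⁻¹ : GL (Fin N) ℂ) : Matrix (Fin N) (Fin N) ℂ) *
      ((x : Matrix (Fin N) (Fin N) ℂ) * mc K (γ j) *
      ((x⁻¹ : GL (Fin N) ℂ) : Matrix (Fin N) (Fin N) ℂ)) =
      (if j = k then (2 : ℂ) else 0) • 1 := by
    have h3 : ∀ A B : Matrix (Fin N) (Fin N) ℂ, (x : Matrix (Fin N) (Fin N) ℂ) * A *
      ((x⁻¹ : GL (Fin N) ℂ) : Matrix (Fin N) (Fin N) ℂ) *
      ((x : Matrix (Fin N) (Fin N) ℂ) * B *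
      ((x⁻¹ : GL (Fin N) ℂ) : Matrix (Fin N) (Fin N) ℂ)) =
      (x : Matrix (Fin N) (Fin N) ℂ) * (A * B) *
      ((x⁻¹ : GL (Fin N) ℂ) : Matrix (Fin N) (Fin N) ℂ) := by
      intro A B
      simp only [mul_assoc]
      rw [← mul_assoc ((x⁻¹ : GL (Fin N) ℂ) : Matrix (Fin N) (Fin N) ℂ)
        (x : Matrix (Fin N) (Fin N) ℂ), inv_mul_coe, one_mul]
    rw [h3, h3, ← add_mul, ← mul_add]
    have h4 := hγ' j k
    simp only at h4
    rw [h4, mul_smul_comm, mul_one, smul_mul_assoc, mul_inv_coe]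
  rw [h2] at h1
  have h3 := congrFun (congrFun h1 0) 0
  rw [Matrix.smul_apply, Matrix.smul_apply, Matrix.one_apply_eq, smul_eq_mul, smul_eq_mul,
    mul_one, mul_one] at h3
  rw [Matrix.mul_apply, Matrix.one_apply]
  simp only [Matrix.transpose_apply]
  have h4 : (2 : ℂ) * ∑ i, R i j * R i k = 2 * (if j = k then (1 : ℂ) else 0) := by
    rw [← h3]
    split_ifs
    · ring
    · ring
  exact mul_left_cancel₀ two_ne_zero h4

theorem dm_sum_smul (δ : Derivation K ℂ ℂ) (r : Fin n → ℂ) :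
    dm δ (∑ i, r i • mc K (γ i)) = ∑ i, δ (r i) • mc K (γ i) := by
  ext a b
  rw [dm, Matrix.map_apply, Matrix.sum_apply, Matrix.sum_apply, map_sum]
  refine Finset.sum_congr rfl fun i _ => ?_
  rw [Matrix.smul_apply, Matrix.smul_apply, smul_eq_mul, smul_eq_mul, Derivation.leibniz]
  have h1 : δ (mc K (γ i) a b) = 0 := δ.map_algebraMap _
  rw [h1, smul_zero, zero_add, smul_eq_mul, mul_comm]

/-- **The logarithmic derivative** of `x` is the one of `R`, up to a scalar. -/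
theorem ld_sg [CharZero K] (hN : N ≠ 0) (hγ : Gamma γ) {x : GL (Fin N) ℂ}
    {R : Matrix (Fin n) (Fin n) ℂ} (hR : Acts γ x R) (δ : Derivation K ℂ ℂ) :
    Skew (dm δ R * R.transpose) ∧
      ∃ s : ℂ, ld δ x = sg (fun i => mc K (γ i)) (dm δ R * R.transpose) + s • 1 := by
  have hγ' := rel_mc hγ.rel
  have hO := acts_orth hN hγ.rel hR
  have hO' : R * R.transpose = 1 := mul_eq_one_comm.1 hO
  have hsk : Skew (dm δ R * R.transpose) := by
    unfold Skew
    have h1 : dm δ (R * R.transpose) = 0 := by rw [hO', dm_one]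
    rw [dm_mul] at h1
    have h2 : dm δ R.transpose = (dm δ R).transpose := rfl
    rw [h2] at h1
    rw [Matrix.transpose_mul, Matrix.transpose_transpose]
    exact eq_neg_of_add_eq_zero_right h1
  refine ⟨hsk, ?_⟩
  set a := ld δ x with ha
  have h1 : ∀ j, a * (∑ i, R i j • mc K (γ i)) - (∑ i, R i j • mc K (γ i)) * a =
      ∑ i, δ (R i j) • mc K (γ i) := by
    intro j
    have h2 : (x : Matrix (Fin N) (Fin N) ℂ) * mc K (γ j) =
      (∑ i, R i j • mc K (γ i)) * (x : Matrix (Fin N) (Fin N) ℂ) := hR j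
    have h3 := congrArg (dm δ) h2
    rw [dm_mul, dm_mul, dm_mc, mul_zero, add_zero, ld_mul, ← ha, dm_sum_smul, mul_assoc, h2] at h3
    have h4 := congrArg (fun M => M * ((x⁻¹ : GL (Fin N) ℂ) : Matrix (Fin N) (Fin N) ℂ)) h3
    simp only [add_mul, mul_assoc, mul_inv_coe, mul_one] at h4
    rw [h4, add_sub_cancel_right]
  have h2 : ∀ k, a * mc K (γ k) - mc K (γ k) * a =
      ∑ i, (dm δ R * R.transpose) i k • mc K (γ i) := by
    intro k
    have h3 : mc K (γ k) = ∑ j, R k j • ∑ i, R i j • mc K (γ i) := by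
      simp only [Finset.smul_sum, smul_smul]
      rw [Finset.sum_comm, Finset.sum_eq_single k]
      · rw [← Finset.sum_smul]
        have h4 := congrFun (congrFun hO' k) k
        rw [Matrix.mul_apply, Matrix.one_apply_eq] at h4
        have h5 : ∑ j, R k j * R k j = 1 := h4
        rw [h5, one_smul]
      · intro i _ hi
        rw [← Finset.sum_smul]
        have h4 := congrFun (congrFun hO' k) i
        rw [Matrix.mul_apply, Matrix.one_apply_ne (Ne.symm hi)] at h4
        have h5 : ∑ j, R k j * R i j = 0 := h4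
        rw [h5, zero_smul]
      · intro h
        exact absurd (Finset.mem_univ _) h
    have h6 : a * mc K (γ k) - mc K (γ k) * a = ∑ j, R k j • ∑ i, δ (R i j) • mc K (γ i) := by
      conv_lhs => rw [h3]
      rw [Finset.mul_sum, Finset.sum_mul, ← Finset.sum_sub_distrib]
      refine Finset.sum_congr rfl fun j _ => ?_
      rw [mul_smul_comm, smul_mul_assoc, ← smul_sub, h1]
    rw [h6]
    simp only [Finset.smul_sum, smul_smul]
    rw [Finset.sum_comm]
    refine Finset.sum_congr rfl fun i _ => ?_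
    rw [← Finset.sum_smul, Matrix.mul_apply]
    congr 1
    refine Finset.sum_congr rfl fun j _ => ?_
    rw [mul_comm]
    rfl
  set D := dm δ R * R.transpose with hD
  have h3 : ∀ k, (a - sg (fun i => mc K (γ i)) D) * mc K (γ k) =
      mc K (γ k) * (a - sg (fun i => mc K (γ i)) D) := by
    intro k
    have h4 := hγ'.sg_skew hsk k
    rw [sub_mul, mul_sub, sub_eq_sub_iff_sub_eq_sub, h2, h4]
  obtain ⟨s, hs⟩ := scalar_of_comps (K := K) hN (M := a - sg (fun i => mc K (γ i)) D) fun ν =>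
    hγ.schur _ fun k => by
      rw [← map_mul_mc, h3, map_mc_mul]
  exact ⟨s, by rw [← hs, add_sub_cancel]⟩

theorem sg_map (D : Matrix (Fin n) (Fin n) ℂ) (ν : ℂ →ₗ[K] K) [CharZero K] :
    (sg (fun i => mc K (γ i)) D).map ν = sg γ (D.map ν) := by
  ext a b
  rw [Matrix.map_apply, sg_apply, sg_apply, Matrix.smul_apply, Matrix.smul_apply,
    Matrix.sum_apply, Matrix.sum_apply]
  have h1 : ((4 : ℂ)⁻¹) = algebraMap K ℂ (4⁻¹) := by rw [map_inv₀, map_ofNat]
  rw [h1, smul_eq_mul, ← Algebra.smul_def, map_smul, smul_eq_mul, smul_eq_mul]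
  congr 1
  rw [map_sum]
  refine Finset.sum_congr rfl fun i _ => ?_
  rw [Matrix.sum_apply, Matrix.sum_apply, map_sum]
  refine Finset.sum_congr rfl fun j _ => ?_
  rw [Matrix.smul_apply, Matrix.smul_apply, ← mc_mul, smul_eq_mul, smul_eq_mul, mul_comm]
  change ν (algebraMap K ℂ ((γ i * γ j) a b) * D i j) = _
  rw [← Algebra.smul_def, map_smul, smul_eq_mul, mul_comm]
  rfl

/-- **The main step**: a Lie algebra of skew-symmetric matrices which contains the components of the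
logarithmic derivatives is everything. -/
theorem skw_mem [IsAlgClosed K] [CharZero K] (hN : N ≠ 0) (hodd : Odd n) (h5 : n ≠ 5)
    (hγ : Gamma γ) {x : GL (Fin N) ℂ} {R : Matrix (Fin n) (Fin n) ℂ} (hR : Acts γ x R)
    (hx : Indep K x) {𝔥 : Submodule K (Matrix (Fin n) (Fin n) K)} (h1 : ∀ Z ∈ 𝔥, Skew Z)
    (h2 : ∀ Z ∈ 𝔥, ∀ Z' ∈ 𝔥, Z * Z' - Z' * Z ∈ 𝔥)
    (h3 : ∀ (δ : Derivation K ℂ ℂ) (ν : ℂ →ₗ[K] K), (dm δ R * R.transpose).map ν ∈ 𝔥)
    (i j : Fin n) : skw K i j ∈ 𝔥 := by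
  have : NeZero N := ⟨hN⟩
  let L : Submodule K (Matrix (Fin N) (Fin N) K) := 𝔥.map (sg γ)
  have hrel : Rel K γ := hγ.rel
  have hgen : Algebra.adjoin K (L : Set (Matrix (Fin N) (Fin N) K)) = ⊤ := by
    rw [eq_top_iff]
    refine core (x := x) (fun ν => trivial) ?_ ?_
    · intro a ha c _
      have h4 : a = 0 := hx a ha
      rw [h4]
      unfold pr
      refine Finset.sum_eq_zero fun i _ => Finset.sum_eq_zero fun j _ => ?_
      rw [Matrix.zero_apply, map_zero, zero_mul]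
    · intro δ ν
      obtain ⟨-, s, hs⟩ := ld_sg hN hγ hR δ
      have h4 : (ld δ x).map ν = sg γ ((dm δ R * R.transpose).map ν) +
          (ν s) • (1 : Matrix (Fin N) (Fin N) K) := by
        rw [hs, ← sg_map]
        ext a b
        rw [Matrix.map_apply, Matrix.add_apply, Matrix.add_apply, map_add, Matrix.map_apply]
        congr 1
        rw [Matrix.smul_apply, Matrix.smul_apply, smul_eq_mul, smul_eq_mul, Matrix.one_apply,
          Matrix.one_apply]
        split_ifs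
        · rw [mul_one, mul_one]
        · rw [mul_zero, mul_zero, map_zero]
      rw [h4]
      refine Subalgebra.add_mem _ (Algebra.subset_adjoin ⟨_, h3 δ ν, rfl⟩)
        (Subalgebra.smul_mem _ (Subalgebra.one_mem _) _)
  have h4 := rig_mat hN hodd h5 hγ.rel (L := L) (by
    rintro _ ⟨Z, hZ, rfl⟩ _ ⟨Z', hZ', rfl⟩
    exact ⟨_, h2 Z hZ Z' hZ', hrel.sg_lie (h1 Z hZ)⟩) (by
    rintro _ ⟨Z, hZ, rfl⟩
    exact sg_mem (h1 Z hZ)) hgen i j
  obtain ⟨Z, hZ, hZ'⟩ := h4
  have h6 : Z = (4 : K) • skw K i j := by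
    refine hrel.sg_inj (h1 Z hZ) ?_ (by rw [hZ', sg_skw (F := K)])
    have h7 := skw_skew (F := K) i j
    unfold Skew at h7 ⊢
    rw [Matrix.transpose_smul, h7, smul_neg]
  have h8 : skw K i j = (4 : K)⁻¹ • Z := by
    have h4 : (4 : K) ≠ 0 := by norm_num
    rw [h6, smul_smul, inv_mul_cancel₀ h4, one_smul]
  rw [h8]
  exact 𝔥.smul_mem _ hZ

end Pool.Agent.Q50.SR
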