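import Pool.Agent.Q50.SR.Mat
import Pool.Agent.Q50.LR.Main

/-!
# Linear relations and the algebra generated by the logarithmic derivatives
-/

set_option linter.unusedSectionVars false
set_option maxHeartbeats 4000000
set_option synthInstance.maxHeartbeats 400000

namespace Pool.Agent.Q50.SR

open Module Pool.Agent.Q50.LR

variable {K : Type} [Field K] [Algebra K ℂ] {N n : ℕ}

theorem map_mul_mc (M : Matrix (Fin N) (Fin N) ℂ) (A : Matrix (Fin N) (Fin N) K)
    (ν : ℂ →ₗ[K] K) : (M * mc K A).map ν = M.map ν * A := by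
  ext i j
  rw [Matrix.map_apply, Matrix.mul_apply, Matrix.mul_apply, map_sum]
  refine Finset.sum_congr rfl fun l _ => ?_
  rw [Matrix.map_apply, mul_comm]
  change ν (algebraMap K ℂ (A l j) * M i l) = ν (M i l) * A l j
  rw [← Algebra.smul_def, map_smul, smul_eq_mul, mul_comm]

theorem map_mc_mul (M : Matrix (Fin N) (Fin N) ℂ) (A : Matrix (Fin N) (Fin N) K)
    (ν : ℂ →ₗ[K] K) : (mc K A * M).map ν = A * M.map ν := by
  ext i j
  rw [Matrix.map_apply, Matrix.mul_apply, Matrix.mul_apply, map_sum]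
  refine Finset.sum_congr rfl fun l _ => ?_
  change ν (algebraMap K ℂ (A i l) * M l j) = A i l * ν (M l j)
  rw [← Algebra.smul_def, map_smul, smul_eq_mul]

theorem map_smul_mul (c : ℂ) (M : Matrix (Fin N) (Fin N) ℂ) (ν : ℂ →ₗ[K] K) :
    (c • M).map ν = M.map (ν ∘ₗ LinearMap.mulLeft K c) := rfl

theorem mc_mul (A B : Matrix (Fin N) (Fin N) K) : mc K (A * B) = mc K A * mc K B :=
  Matrix.map_mul

theorem mc_one : mc K (1 : Matrix (Fin N) (Fin N) K) = 1 :=
  Matrix.map_one _ (map_zero _) (map_one _)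

/-- the extension of an algebra is stable under products -/
theorem ext_mul {B : Subalgebra K (Matrix (Fin N) (Fin N) K)} {C D : Matrix (Fin N) (Fin N) ℂ}
    (hC : C ∈ ext (Subalgebra.toSubmodule B)) (hD : D ∈ ext (Subalgebra.toSubmodule B)) :
    C * D ∈ ext (Subalgebra.toSubmodule B) := by
  obtain ⟨s, hs⟩ := exists_comb_mat K C
  rw [hs, Finset.sum_mul]
  refine Submodule.sum_mem _ fun j _ => ?_
  rw [smul_mul_assoc]
  intro ν
  rw [map_smul_mul, map_mc_mul]
  exact B.mul_mem (hC _) (hD _)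

/-- if the linear relations of `x` hold on the algebra `C`, and the components of the logarithmic
derivatives are in the algebra `B`, then `B` contains `C`. -/
theorem core [IsAlgClosed K] {x : GL (Fin N) ℂ} {B C : Subalgebra K (Matrix (Fin N) (Fin N) K)}
    (hx : (x : Matrix (Fin N) (Fin N) ℂ) ∈ ext (Subalgebra.toSubmodule C))
    (hlin : ∀ a : Matrix (Fin N) (Fin N) K, pr a (x : Matrix (Fin N) (Fin N) ℂ) = 0 →
      ∀ c ∈ C, pr a (mc K c) = 0)
    (hB : ∀ (δ : Derivation K ℂ ℂ) (ν : ℂ →ₗ[K] K), (ld δ x).map ν ∈ B) : C ≤ B := by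
  -- the orbit of `x`
  let U : Submodule ℂ (Matrix (Fin N) (Fin N) ℂ) :=
    (ext (Subalgebra.toSubmodule B)).map (LinearMap.mulRight ℂ (x : Matrix (Fin N) (Fin N) ℂ))
  have hU : ∀ W, W ∈ U ↔ ∃ D ∈ ext (Subalgebra.toSubmodule B), D * x = W := fun W => Iff.rfl
  have hxU : (x : Matrix (Fin N) (Fin N) ℂ) ∈ U := by
    rw [hU]
    refine ⟨1, ?_, one_mul _⟩
    rw [← mc_one (K := K), mc_mem_ext]
    exact B.one_mem
  have hst : ∀ δ : Derivation K ℂ ℂ, ∀ W ∈ U, dm δ W ∈ U := by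
    intro δ W hW
    rw [hU] at hW ⊢
    obtain ⟨D, hD, rfl⟩ := hW
    refine ⟨dm δ D + D * ld δ x, Submodule.add_mem _ (dm_mem_ext hD δ)
      (ext_mul hD fun ν => hB δ ν), ?_⟩
    rw [dm_mul, ld_mul, add_mul, mul_assoc]
  intro c hc
  have h1 : mc K c * (x : Matrix (Fin N) (Fin N) ℂ) ∈ U := by
    refine cut_mat U hst _ fun a ha => ?_
    have h2 := hlin a (ha _ hxU)
    have h3 : mc K c * (x : Matrix (Fin N) (Fin N) ℂ) ∈ ext (Subalgebra.toSubmodule C) :=
      ext_mul (mc_mem_ext.2 hc) hx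
    obtain ⟨s, hs⟩ := exists_comb_mat K (mc K c * (x : Matrix (Fin N) (Fin N) ℂ))
    have h4 : ∀ M, pr a M = prL a M := fun M => rfl
    rw [hs, h4, map_sum]
    refine Finset.sum_eq_zero fun j _ => ?_
    rw [map_smul, ← h4, h2 _ (h3 _), smul_zero]
  rw [hU] at h1
  obtain ⟨D, hD, hD'⟩ := h1
  have h2 : D = mc K c := by
    have h3 := congrArg (fun M => M * ((x⁻¹ : GL (Fin N) ℂ) : Matrix (Fin N) (Fin N) ℂ)) hD'
    simp only [mul_assoc, mul_inv_coe, mul_one] at h3
    exact h3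
  rw [h2, mc_mem_ext] at hD
  exact hD

/-- a matrix all the components of which are scalar is scalar -/
theorem scalar_of_comps (hN : N ≠ 0) {M : Matrix (Fin N) (Fin N) ℂ}
    (h : ∀ ν : ℂ →ₗ[K] K, ∃ s : K, M.map ν = s • 1) : ∃ s : ℂ, M = s • 1 := by
  have hz : ∀ z : ℂ, (∀ ν : ℂ →ₗ[K] K, ν z = 0) → z = 0 := fun z hz =>
    (Module.forall_dual_apply_eq_zero_iff K z).1 hz
  have : NeZero N := ⟨hN⟩
  refine ⟨M 0 0, ?_⟩
  ext i j
  rw [Matrix.smul_apply, smul_eq_mul, ← sub_eq_zero]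
  refine hz _ fun ν => ?_
  obtain ⟨s, hs⟩ := h ν
  have h1 : ∀ i j, ν (M i j) = s * (1 : Matrix (Fin N) (Fin N) K) i j := fun i j =>
    congrFun (congrFun hs i) j
  rw [map_sub, h1]
  by_cases hij : i = j
  · subst hij
    rw [Matrix.one_apply_eq, Matrix.one_apply_eq, mul_one, mul_one, h1, Matrix.one_apply_eq,
      mul_one, sub_self]
  · rw [Matrix.one_apply_ne hij, Matrix.one_apply_ne hij, mul_zero, mul_zero, map_zero, sub_self]

end Pool.Agent.Q50.SR
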