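import Pool.Agent.Q50.LR.Main

/-!
# The derivative of a determinant
-/

set_option linter.unusedSectionVars false
set_option maxHeartbeats 4000000
set_option synthInstance.maxHeartbeats 400000

namespace Pool.Agent.Q50.SR

open Matrix Pool.Agent.Q50.LR

variable {K : Type} [Field K] [Algebra K ℂ] {n : ℕ}

/-- the homomorphism to the dual numbers given by a derivation -/
noncomputable def dual (δ : Derivation K ℂ ℂ) : ℂ →+* TrivSqZeroExt ℂ ℂ where
  toFun z := TrivSqZeroExt.inl z + TrivSqZeroExt.inr (δ z)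
  map_one' := by
    have h1 : δ 1 = 0 := by
      have h2 := δ.map_algebraMap 1
      rwa [map_one] at h2
    rw [h1, TrivSqZeroExt.inr_zero, add_zero, TrivSqZeroExt.inl_one]
  map_zero' := by rw [map_zero, TrivSqZeroExt.inr_zero, add_zero, TrivSqZeroExt.inl_zero]
  map_mul' z w := by
    refine TrivSqZeroExt.ext ?_ ?_
    · simp
    · simp only [TrivSqZeroExt.snd_add, TrivSqZeroExt.snd_inl, TrivSqZeroExt.snd_inr,
        TrivSqZeroExt.snd_mul, TrivSqZeroExt.fst_add, TrivSqZeroExt.fst_inl,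
        TrivSqZeroExt.fst_inr, Derivation.leibniz, zero_add, add_zero, MulOpposite.smul_eq_mul_unop,
        MulOpposite.unop_op, smul_eq_mul]
      ring
  map_add' z w := by
    rw [map_add, TrivSqZeroExt.inl_add, TrivSqZeroExt.inr_add]
    abel

theorem dual_snd (δ : Derivation K ℂ ℂ) (z : ℂ) : (dual δ z).snd = δ z := by
  change (TrivSqZeroExt.inl z + TrivSqZeroExt.inr (δ z) : TrivSqZeroExt ℂ ℂ).snd = δ z
  rw [TrivSqZeroExt.snd_add, TrivSqZeroExt.snd_inl, TrivSqZeroExt.snd_inr, zero_add]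

/-- **Jacobi's formula** -/
theorem jacobi (δ : Derivation K ℂ ℂ) {M L : Matrix (Fin n) (Fin n) ℂ} (h : dm δ M = L * M) :
    δ M.det = L.trace * M.det := by
  let ι : ℂ →+* TrivSqZeroExt ℂ ℂ := TrivSqZeroExt.inlHom ℂ ℂ
  let ε : TrivSqZeroExt ℂ ℂ := TrivSqZeroExt.inr 1
  have hε : ε ^ 2 = 0 := by
    rw [pow_two]
    exact TrivSqZeroExt.inr_mul_inr ℂ (1 : ℂ) 1
  have h1 : (dual δ).mapMatrix M = (1 + ε • ι.mapMatrix L) * ι.mapMatrix M := by
    rw [add_mul, one_mul, smul_mul_assoc, ← map_mul, ← h]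
    ext1 i j
    change dual δ (M i j) = ι (M i j) + ε * ι (δ (M i j))
    have h2 : ε * ι (δ (M i j)) = TrivSqZeroExt.inr (δ (M i j)) := by
      refine TrivSqZeroExt.ext ?_ ?_
      · simp [ε, ι]
      · simp [ε, ι]
    rw [h2]
    rfl
  have h2 := congrArg det h1
  rw [det_mul, Matrix.det_one_add_smul, hε, mul_zero, add_zero, ← RingHom.map_det,
    ← RingHom.map_det] at h2
  have h3 := congrArg TrivSqZeroExt.snd h2
  rw [dual_snd] at h3
  rw [h3]
  have h4 : (ι.mapMatrix L).trace = ι L.trace := by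
    rw [Matrix.trace, Matrix.trace, map_sum]
    rfl
  rw [h4]
  simp [ε, ι]

/-- if the traces of the logarithmic derivatives are zero then the determinant is in `K` -/
theorem det_of_trace [IsAlgClosed K] {x : GL (Fin n) ℂ}
    (h : ∀ δ : Derivation K ℂ ℂ, (ld δ x).trace = 0) :
    ∃ r, algebraMap K ℂ r = (x : Matrix (Fin n) (Fin n) ℂ).det :=
  const_of_der fun δ => by rw [jacobi δ (ld_mul δ x), h, zero_mul]

end Pool.Agent.Q50.SR
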