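import Pool.Agent.Q50.SR.Crv

/-!
# The special orthogonal group
-/

set_option linter.unusedSectionVars false
set_option maxHeartbeats 4000000
set_option synthInstance.maxHeartbeats 400000

namespace Pool.Agent.Q50.SR

open Matrix MvPolynomial Pool.Agent.Q50.LR

variable {K : Type} [Field K] [Algebra K ℂ] {n : ℕ}

/-- the infinitesimal rotation -/
def jm (u a : Fin n → ℂ) : Matrix (Fin n) (Fin n) ℂ := vecMulVec u a - vecMulVec a u

theorem jm_skew (u a : Fin n → ℂ) : (jm u a).transpose = -jm u a := by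
  unfold jm
  rw [transpose_sub, transpose_vecMulVec, transpose_vecMulVec, neg_sub]

theorem jm_sq (u a : Fin n → ℂ) : jm u a * jm u a = (a ⬝ᵥ u) • vecMulVec u a -
    (a ⬝ᵥ a) • vecMulVec u u - (u ⬝ᵥ u) • vecMulVec a a + (u ⬝ᵥ a) • vecMulVec a u := by
  unfold jm
  rw [sub_mul, mul_sub, mul_sub]
  simp only [vecMulVec_mul_vecMulVec, vecMulVec_smul]
  abel

/-- decomposition of a unit vector -/
theorem unit_dec {a b : Fin n → ℂ} (ha : a ⬝ᵥ a = 1) (hb : b ⬝ᵥ b = 1)
    (hc : (a ⬝ᵥ b) ^ 2 ≠ 1) : ∃ (t : ℂ) (u : Fin n → ℂ), u ⬝ᵥ u = 1 ∧ u ⬝ᵥ a = 0 ∧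
      Complex.cos t = a ⬝ᵥ b ∧ b = Complex.cos t • a + Complex.sin t • u := by
  obtain ⟨t, ht⟩ := Complex.cos_surjective (a ⬝ᵥ b)
  have h1 := Complex.sin_sq_add_cos_sq t
  have hs : Complex.sin t ≠ 0 := by
    intro h0
    rw [h0, ht] at h1
    apply hc
    rw [← h1]
    ring
  refine ⟨t, (Complex.sin t)⁻¹ • (b - Complex.cos t • a), ?_, ?_, ht, ?_⟩
  · rw [smul_dotProduct, dotProduct_smul, sub_dotProduct, dotProduct_sub, dotProduct_sub,
      smul_dotProduct, smul_dotProduct, dotProduct_smul, dotProduct_smul, ha, hb,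
      dotProduct_comm b a, ← ht]
    simp only [smul_eq_mul]
    field_simp
    linear_combination -h1
  · rw [smul_dotProduct, sub_dotProduct, smul_dotProduct, ha, dotProduct_comm b a, ← ht,
      smul_eq_mul, smul_eq_mul]
    ring
  · rw [smul_smul, mul_inv_cancel₀ hs, one_smul, add_sub_cancel]

theorem pair_mem {H : Subgroup (GL (Fin n) ℂ)} (hH : IsAlgebraicGroup K H)
    (hL : ∀ Z : Matrix (Fin n) (Fin n) ℂ, Z.transpose = -Z → Z ∈ LC H) {a b : Fin n → ℂ}
    (ha : a ⬝ᵥ a = 1) (hb : b ⬝ᵥ b = 1) : rf b hb * rf a ha ∈ H := by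
  have key : ∀ (b : Fin n → ℂ) (_ : b ⬝ᵥ b = 1) (_ : a ⬝ᵥ b = 1) (g : GL (Fin n) ℂ),
      (g : Matrix (Fin n) (Fin n) ℂ) = rm b * rm a → g ∈ H := by
    intro b hb hc g hg
    have hwa : (b - a) ⬝ᵥ a = 0 := by
      rw [sub_dotProduct, dotProduct_comm b a, hc, ha, sub_self]
    have haw : a ⬝ᵥ (b - a) = 0 := by rw [dotProduct_comm, hwa]
    have hww : (b - a) ⬝ᵥ (b - a) = 0 := by
      rw [dotProduct_sub, hwa, sub_dotProduct, hb, hc]
      norm_num
    have hJ2 : jm (b - a) a * jm (b - a) a = -vecMulVec (b - a) (b - a) := by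
      rw [jm_sq, ha, hwa, haw, hww]
      module
    refine uni hH (hL _ (jm_skew (b - a) a)) ?_ 2 ?_
    · rw [hJ2, mul_neg, jm, sub_mul, vecMulVec_mul_vecMulVec, vecMulVec_mul_vecMulVec, haw, hww,
        zero_smul, vecMulVec_zero, vecMulVec_zero, sub_zero, neg_zero]
    · rw [hg, rm_mul, hJ2, jm, dotProduct_comm b a, hc]
      ext i j
      simp only [Matrix.add_apply, Matrix.sub_apply, Matrix.smul_apply, Matrix.neg_apply,
        vecMulVec_apply, smul_eq_mul, Pi.sub_apply]
      ring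
  by_cases hc : (a ⬝ᵥ b) ^ 2 = 1
  · have hc' : (a ⬝ᵥ b - 1) * (a ⬝ᵥ b + 1) = 0 := by linear_combination hc
    rcases mul_eq_zero.1 hc' with h1 | h1
    · exact key b hb (sub_eq_zero.1 h1) _ rfl
    · replace h1 := eq_neg_of_add_eq_zero_left h1
      refine key (-b) (by rw [neg_dotProduct_neg, hb]) (by rw [dotProduct_neg, h1, neg_neg]) _ ?_
      rw [rm_neg]
      rfl
  · obtain ⟨t, u, hu, hua, hct, hbt⟩ := unit_dec ha hb hc
    have hau : a ⬝ᵥ u = 0 := by rw [dotProduct_comm, hua]
    have hJ2 : jm u a * jm u a = -vecMulVec u u - vecMulVec a a := by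
      rw [jm_sq, ha, hu, hua, hau]
      module
    refine rot hH (hL _ (jm_skew u a)) ?_ (2 * t) ?_
    · rw [hJ2, jm, mul_sub, mul_neg, sub_mul, sub_mul]
      simp only [vecMulVec_mul_vecMulVec, ha, hu, hua, hau, zero_smul, one_smul, vecMulVec_zero]
      abel
    · have h1 := Complex.sin_sq_add_cos_sq t
      have h2 : (rf b hb * rf a ha : GL (Fin n) ℂ) = rm b * rm a := rfl
      rw [h2, rm_mul, hJ2, jm, dotProduct_comm b a, ← hct, Complex.sin_two_mul,
        Complex.cos_two_mul]
      ext i j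
      have hbi : ∀ i, b i = Complex.cos t * a i + Complex.sin t * u i := fun i =>
        congrFun hbt i
      simp only [Matrix.add_apply, Matrix.sub_apply, Matrix.smul_apply, Matrix.neg_apply,
        vecMulVec_apply, smul_eq_mul, hbi]
      linear_combination (-2 * u i * u j) * h1

/-! ### The theorem of Cartan and Dieudonné -/

/-- the group generated by the products of two reflections -/
def EE (n : ℕ) : Subgroup (GL (Fin n) ℂ) :=
  Subgroup.closure {g | ∃ (a b : Fin n → ℂ) (ha : a ⬝ᵥ a = 1) (hb : b ⬝ᵥ b = 1),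
    g = rf a ha * rf b hb}

theorem EE_pair {a b : Fin n → ℂ} (ha : a ⬝ᵥ a = 1) (hb : b ⬝ᵥ b = 1) :
    rf a ha * rf b hb ∈ EE n := Subgroup.subset_closure ⟨a, b, ha, hb, rfl⟩

theorem EE_det {g : GL (Fin n) ℂ} (hg : g ∈ EE n) :
    (g : Matrix (Fin n) (Fin n) ℂ).det = 1 := by
  induction hg using Subgroup.closure_induction with
  | mem g hg =>
    obtain ⟨a, b, ha, hb, rfl⟩ := hg
    have h2 : (rf a ha * rf b hb : GL (Fin n) ℂ) = rm a * rm b := rfl
    rw [h2, det_mul, rm_det ha, rm_det hb]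
    norm_num
  | one => exact det_one
  | mul x y _ _ hx hy => rw [Units.val_mul, det_mul, hx, hy, mul_one]
  | inv x _ hx =>
    have h1 : (x : Matrix (Fin n) (Fin n) ℂ) * ((x⁻¹ : GL (Fin n) ℂ) :
        Matrix (Fin n) (Fin n) ℂ) = 1 := mul_inv_coe x
    have h2 := congrArg det h1
    rw [det_mul, hx, one_mul, det_one] at h2
    exact h2

/-- orthogonal matrices -/
def Orth (g : GL (Fin n) ℂ) : Prop :=
  (g : Matrix (Fin n) (Fin n) ℂ).transpose * (g : Matrix (Fin n) (Fin n) ℂ) = 1

theorem Orth.dot {g : GL (Fin n) ℂ} (hg : Orth g) (v w : Fin n → ℂ) :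
    ((g : Matrix (Fin n) (Fin n) ℂ) *ᵥ v) ⬝ᵥ ((g : Matrix (Fin n) (Fin n) ℂ) *ᵥ w) = v ⬝ᵥ w := by
  rw [dotProduct_mulVec, ← vecMul_transpose, vecMul_vecMul, hg, vecMul_one]

theorem rm_symm (a : Fin n → ℂ) : (rm a).transpose = rm a := by
  unfold rm
  rw [transpose_sub, transpose_one, transpose_smul, transpose_vecMulVec]

theorem Orth.rf_mul {g : GL (Fin n) ℂ} (hg : Orth g) {a : Fin n → ℂ} (ha : a ⬝ᵥ a = 1) :
    Orth (rf a ha * g) := by
  have h2 : (rf a ha * g : GL (Fin n) ℂ) = rm a * (g : Matrix (Fin n) (Fin n) ℂ) := rfl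
  unfold Orth
  rw [h2, transpose_mul, rm_symm, mul_assoc, ← mul_assoc (rm a), rm_sq ha, one_mul]
  exact hg

theorem cartan_step (m : ℕ) : ∀ g : GL (Fin n) ℂ, Orth g →
    (∀ i : Fin n, (i : ℕ) + m < n → (g : Matrix (Fin n) (Fin n) ℂ) *ᵥ Pi.single i 1 =
      Pi.single i 1) →
    g ∈ EE n ∨ ∃ (a : Fin n → ℂ) (ha : a ⬝ᵥ a = 1), rf a ha * g ∈ EE n := by
  induction m with
  | zero =>
    intro g _ hfix
    left
    have h1 : g = 1 := by
      refine Units.ext ?_
      ext i j
      have h2 := congrFun (hfix j (by have := j.2; omega)) i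
      rw [mulVec_single_one] at h2
      change (g : Matrix (Fin n) (Fin n) ℂ) i j = (Pi.single j 1 : Fin n → ℂ) i at h2
      rw [h2, Units.val_one, one_apply, Pi.single_apply]
    rw [h1]
    exact one_mem _
  | succ m ih =>
    intro g hg hfix
    by_cases hmn : n ≤ m
    · exact ih g hg fun i hi => absurd hi (by omega)
    · push Not at hmn
      let k : Fin n := ⟨n - m - 1, by omega⟩
      set v : Fin n → ℂ := Pi.single k 1 with hv
      set w := (g : Matrix (Fin n) (Fin n) ℂ) *ᵥ v with hw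
      have hvv : v ⬝ᵥ v = 1 := by
        rw [hv, single_one_dotProduct, Pi.single_eq_same]
      have hww : w ⬝ᵥ w = 1 := by rw [hw, hg.dot, hvv]
      have hfix' : ∀ i : Fin n, (i : ℕ) + m < n → i ≠ k →
          (g : Matrix (Fin n) (Fin n) ℂ) *ᵥ Pi.single i 1 = Pi.single i 1 := by
        intro i hi hik
        refine hfix i ?_
        have h1 : (i : ℕ) ≠ n - m - 1 := fun h => hik (Fin.ext h)
        omega
      have hvi : ∀ i : Fin n, i ≠ k → v ⬝ᵥ (Pi.single i 1) = 0 := by
        intro i hi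
        rw [dotProduct_single_one, hv, Pi.single_eq_of_ne hi]
      have hwi : ∀ i : Fin n, (i : ℕ) + m < n → i ≠ k → w ⬝ᵥ (Pi.single i 1) = 0 := by
        intro i hi hik
        rw [← hvi i hik, ← hg.dot v, hfix' i hi hik]
      by_cases hp : (w - v) ⬝ᵥ (w - v) = 0
      · -- the sum is not isotropic
        have hvw : v ⬝ᵥ w = 1 := by
          rw [sub_dotProduct, dotProduct_sub, dotProduct_sub, hvv, hww, dotProduct_comm w v] at hp
          linear_combination (-1 / 2 : ℂ) * hp
        have hb : ((2 : ℂ)⁻¹ • (w + v)) ⬝ᵥ ((2 : ℂ)⁻¹ • (w + v)) = 1 := by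
          rw [smul_dotProduct, dotProduct_smul, add_dotProduct, dotProduct_add, dotProduct_add,
            hvv, hww, dotProduct_comm w v, hvw]
          norm_num
        set b := (2 : ℂ)⁻¹ • (w + v) with hbdef
        have hbw : rm b *ᵥ w = -v := by
          rw [rm_mulVec, hbdef, smul_dotProduct, add_dotProduct, hww, hvw, smul_smul]
          funext i
          simp only [Pi.sub_apply, Pi.smul_apply, Pi.add_apply, Pi.neg_apply, smul_eq_mul]
          ring
        have hvv' : rm v *ᵥ (-v) = v := by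
          rw [rm_mulVec, dotProduct_neg, hvv]
          funext i
          simp only [Pi.sub_apply, Pi.smul_apply, Pi.neg_apply, smul_eq_mul]
          ring
        have hg' : Orth (rf v hvv * (rf b hb * g)) := (hg.rf_mul hb).rf_mul hvv
        have h1 : ((rf v hvv * (rf b hb * g) : GL (Fin n) ℂ) : Matrix (Fin n) (Fin n) ℂ) =
          rm v * (rm b * (g : Matrix (Fin n) (Fin n) ℂ)) := rfl
        have hfix2 : ∀ i : Fin n, (i : ℕ) + m < n →
            ((rf v hvv * (rf b hb * g) : GL (Fin n) ℂ) : Matrix (Fin n) (Fin n) ℂ) *ᵥ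
              Pi.single i 1 = Pi.single i 1 := by
          intro i hi
          rw [h1, ← mulVec_mulVec, ← mulVec_mulVec]
          by_cases hik : i = k
          · subst hik
            rw [← hv, ← hw, hbw, hvv']
          · have h5 : rm b *ᵥ Pi.single i 1 = Pi.single i 1 := by
              rw [rm_mulVec, hbdef, smul_dotProduct, add_dotProduct, hwi i hi hik,
                hvi i hik, add_zero, smul_zero, mul_zero, zero_smul, sub_zero]
            rw [hfix' i hi hik, h5, rm_mulVec, hvi i hik, mul_zero, zero_smul, sub_zero]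
        rcases ih _ hg' hfix2 with h2 | ⟨c, hc, h2⟩
        · left
          have h3 := (EE n).mul_mem (inv_mem (EE_pair hvv hb)) h2
          rwa [← mul_assoc (rf v hvv) (rf b hb) g, inv_mul_cancel_left] at h3
        · right
          refine ⟨b, hb, ?_⟩
          have h3 := (EE n).mul_mem (inv_mem (EE_pair hc hvv)) h2
          rwa [← mul_assoc (rf c hc), inv_mul_cancel_left] at h3
      · obtain ⟨r, hr⟩ := IsAlgClosed.exists_pow_nat_eq ((w - v) ⬝ᵥ (w - v)) (n := 2) (by norm_num)
        have hr0 : r ≠ 0 := by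
          rintro rfl
          apply hp
          rw [← hr]
          norm_num
        have ha : (r⁻¹ • (w - v)) ⬝ᵥ (r⁻¹ • (w - v)) = 1 := by
          rw [smul_dotProduct, dotProduct_smul, ← hr]
          simp only [smul_eq_mul]
          field_simp
        set a := r⁻¹ • (w - v) with hadef
        have haw : rm a *ᵥ w = v := by
          have h3 : (w - v) ⬝ᵥ w = r ^ 2 / 2 := by
            rw [hr, sub_dotProduct, sub_dotProduct, dotProduct_sub, dotProduct_sub, hww, hvv,
              dotProduct_comm w v]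
            ring
          rw [rm_mulVec, hadef, smul_dotProduct, h3]
          funext i
          simp only [Pi.sub_apply, Pi.smul_apply, smul_eq_mul]
          field_simp
          ring
        have hg' : Orth (rf a ha * g) := hg.rf_mul ha
        have h1 : ((rf a ha * g : GL (Fin n) ℂ) : Matrix (Fin n) (Fin n) ℂ) =
          rm a * (g : Matrix (Fin n) (Fin n) ℂ) := rfl
        have hfix2 : ∀ i : Fin n, (i : ℕ) + m < n →
            ((rf a ha * g : GL (Fin n) ℂ) : Matrix (Fin n) (Fin n) ℂ) *ᵥ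
              Pi.single i 1 = Pi.single i 1 := by
          intro i hi
          rw [h1, ← mulVec_mulVec]
          by_cases hik : i = k
          · subst hik
            rw [← hv, ← hw, haw]
          · rw [hfix' i hi hik, rm_mulVec, hadef, smul_dotProduct, sub_dotProduct, hwi i hi hik,
              hvi i hik, sub_zero, smul_zero, mul_zero, zero_smul, sub_zero]
        rcases ih _ hg' hfix2 with h2 | ⟨c, hc, h2⟩
        · right
          exact ⟨a, ha, h2⟩
        · left
          have h3 := (EE n).mul_mem (inv_mem (EE_pair hc ha)) h2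
          rwa [← mul_assoc (rf c hc), inv_mul_cancel_left] at h3

/-- **Cartan-Dieudonné** -/
theorem cartan {g : GL (Fin n) ℂ} (hg : Orth g)
    (hdet : (g : Matrix (Fin n) (Fin n) ℂ).det = 1) : g ∈ EE n := by
  rcases cartan_step n g hg (fun i hi => absurd hi (by omega)) with h1 | ⟨a, ha, h1⟩
  · exact h1
  · exfalso
    have h2 := EE_det h1
    have h3 : ((rf a ha * g : GL (Fin n) ℂ) : Matrix (Fin n) (Fin n) ℂ) =
          rm a * (g : Matrix (Fin n) (Fin n) ℂ) := rfl
    rw [h3, det_mul, rm_det ha, hdet] at h2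
    norm_num at h2

/-- an algebraic group whose Lie algebra contains the skew-symmetric matrices contains the special
orthogonal group -/
theorem so_mem {H : Subgroup (GL (Fin n) ℂ)} (hH : IsAlgebraicGroup K H)
    (hL : ∀ Z : Matrix (Fin n) (Fin n) ℂ, Z.transpose = -Z → Z ∈ LC H) {g : GL (Fin n) ℂ}
    (hg : (g : Matrix (Fin n) (Fin n) ℂ).transpose * (g : Matrix (Fin n) (Fin n) ℂ) = 1)
    (hdet : (g : Matrix (Fin n) (Fin n) ℂ).det = 1) : g ∈ H := by
  have h1 : EE n ≤ H := by
    refine (Subgroup.closure_le _).2 ?_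
    rintro _ ⟨a, b, ha, hb, rfl⟩
    exact pair_mem hH hL hb ha
  exact h1 (cartan hg hdet)

end Pool.Agent.Q50.SR
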