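import Pool.Agent.Q50.SR.Lie
import Pool.Agent.Q50.SR.Ort
import Pool.Agent.Q50.SR.Jac

/-!
# The torsors of periods of spin type, odd case
-/

set_option linter.unusedSectionVars false
set_option maxHeartbeats 4000000
set_option synthInstance.maxHeartbeats 400000

namespace Pool.Agent.Q50.SR

open Module Pool.Agent.Q50.LR

variable {K : Type} [Field K] [Algebra K ℂ] {n N : ℕ} {γ : Fin n → Matrix (Fin N) (Fin N) K}

theorem scalars_mem {H : Subgroup (GL (Fin N) ℂ)} (hH : IsAlgebraicGroup K H)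
    (h1 : (1 : Matrix (Fin N) (Fin N) ℂ) ∈ LC H) : ContainsScalars H := by
  intro z hz
  let g : GL (Fin N) ℂ := ⟨z • 1, z⁻¹ • 1, by
    rw [smul_mul_smul_comm, mul_inv_cancel₀ hz, one_smul, one_mul], by
    rw [smul_mul_smul_comm, inv_mul_cancel₀ hz, one_smul, one_mul]⟩
  refine ⟨g, ?_, rfl⟩
  refine curve hH h1 (u := fun w => Complex.exp w • 1) (fun w i j => ?_) ?_ (Complex.log z) ?_
  · rw [one_mul]
    exact (Complex.hasDerivAt_exp w).mul_const _
  · simp only [Complex.exp_zero, one_smul]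
  · simp only [Complex.exp_log hz]
    rfl

theorem scalar_mem_LK [IsAlgClosed K] {H : Subgroup (GL (Fin N) ℂ)} (hH : IsAlgebraicGroup K H)
    {s : ℂ} (hs : s ≠ 0) (h : ∀ ν : ℂ →ₗ[K] K, (ν s) • (1 : Matrix (Fin N) (Fin N) K) ∈ LK K H) :
    ContainsScalars H := by
  refine scalars_mem hH ?_
  obtain ⟨ν, hν⟩ : ∃ ν : ℂ →ₗ[K] K, ν s ≠ 0 := by
    by_contra hcon
    push Not at hcon
    exact hs ((Module.forall_dual_apply_eq_zero_iff K s).1 hcon)
  have h1 := (LK K H).smul_mem (ν s)⁻¹ (h ν)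
  rw [smul_smul, inv_mul_cancel₀ hν, one_smul, mem_LK] at h1
  rwa [mc_one] at h1

theorem map_add_smul_one (M : Matrix (Fin N) (Fin N) ℂ) (s : ℂ) (ν : ℂ →ₗ[K] K) :
    (M + s • 1).map ν = M.map ν + (ν s) • (1 : Matrix (Fin N) (Fin N) K) := by
  ext a b
  rw [Matrix.map_apply, Matrix.add_apply, Matrix.add_apply, map_add, Matrix.map_apply]
  congr 1
  rw [Matrix.smul_apply, Matrix.smul_apply, smul_eq_mul, smul_eq_mul, Matrix.one_apply,
    Matrix.one_apply]
  split_ifs
  · rw [mul_one, mul_one]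
  · rw [mul_zero, mul_zero, map_zero]

theorem skew_map {D : Matrix (Fin n) (Fin n) ℂ} [CharZero K] (hD : Skew D) (ν : ℂ →ₗ[K] K) :
    Skew (D.map ν) := by
  unfold Skew
  ext i j
  rw [Matrix.transpose_apply, Matrix.neg_apply, Matrix.map_apply, Matrix.map_apply,
    hD.apply i j, map_neg]

/-- a third index -/
theorem third (hn : 3 ≤ n) (i j : Fin n) : ∃ k, i ≠ k ∧ j ≠ k := by
  by_contra hcon
  push Not at hcon
  have h1 : (Finset.univ : Finset (Fin n)) ⊆ {i, j} := by
    intro k _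
    rw [Finset.mem_insert, Finset.mem_singleton]
    by_cases hik : i = k
    · exact Or.inl hik.symm
    · exact Or.inr (hcon k hik).symm
  have h2 := Finset.card_le_card h1
  rw [Finset.card_univ, Fintype.card_fin] at h2
  have h3 := Finset.card_insert_le i {j}
  rw [Finset.card_singleton] at h3
  omega

/-- a Lie algebra which contains the skew-symmetric matrices up to scalars contains them -/
theorem perfect [CharZero K] (hn : 3 ≤ n) {L : Submodule K (Matrix (Fin N) (Fin N) K)}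
    (hL : ∀ x ∈ L, ∀ y ∈ L, x * y - y * x ∈ L)
    (τ : Matrix (Fin n) (Fin n) K →ₗ[K] Matrix (Fin N) (Fin N) K)
    (hτ : ∀ Z Z', Skew Z → τ (Z * Z' - Z' * Z) = τ Z * τ Z' - τ Z' * τ Z)
    (h : ∀ i j, ∃ s : K, τ (skw K i j) + s • 1 ∈ L) {Z : Matrix (Fin n) (Fin n) K}
    (hZ : Skew Z) : τ Z ∈ L := by
  have key : ∀ i j, τ (skw K i j) ∈ L := by
    intro i j
    by_cases hij : i = j
    · rw [hij, skw, sub_self, map_zero]
      exact L.zero_mem
    · obtain ⟨k, hik, hjk⟩ := third hn i j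
      obtain ⟨s, hs⟩ := h i k
      obtain ⟨t, ht⟩ := h k j
      have h1 := hL _ hs _ ht
      have h2 : (τ (skw K i k) + s • 1) * (τ (skw K k j) + t • 1) -
          (τ (skw K k j) + t • 1) * (τ (skw K i k) + s • 1) = τ (skw K i j) := by
        rw [← skw_bracket hij hik hjk, hτ _ _ (skw_skew i k)]
        simp only [add_mul, mul_add, smul_mul_assoc, mul_smul_comm, one_mul, mul_one]
        module
      rwa [h2] at h1
  rw [skew_sum hZ, map_smul, map_sum]
  refine L.smul_mem _ (Submodule.sum_mem _ fun i _ => ?_)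
  rw [map_sum]
  refine Submodule.sum_mem _ fun j _ => ?_
  rw [map_smul]
  exact L.smul_mem _ (key i j)

section main

variable [IsAlgClosed K] (hN : N ≠ 0) (hodd : Odd n) (h1 : n ≠ 1) (h5 : n ≠ 5)
  (hγ : Gamma γ) {x : GL (Fin N) ℂ} {R : Matrix (Fin n) (Fin n) ℂ} (hR : Acts γ x R)
  (hx : Indep K x)

include hN hodd h1 h5 hγ hR hx

/-- the torsors through the period matrix of the transcendental part -/
theorem odd_T {H : Subgroup (GL (Fin n) ℂ)} (hH : IsAlgebraicGroup K H) {P : GL (Fin n) ℂ}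
    {θ : ℂ} (hP : (P : Matrix (Fin n) (Fin n) ℂ) = θ • R) (hPH : OnTorsor K H P) :
    ContainsSO H ∧ (Transcendental K θ → ContainsScalars H) := by
  have : CharZero K := (algebraMap K ℂ).charZero
  have hn : 3 ≤ n := by
    obtain ⟨k, hk⟩ := hodd
    omega
  have : NeZero n := ⟨by omega⟩
  have hO := acts_orth hN hγ.rel hR
  have hO' : R * R.transpose = 1 := mul_eq_one_comm.1 hO
  have hθ : θ ≠ 0 := by
    rintro rfl
    rw [zero_smul] at hP
    have h2 := mul_inv_coe P
    rw [hP, zero_mul] at h2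
    exact zero_ne_one h2
  have hPi : ((P⁻¹ : GL (Fin n) ℂ) : Matrix (Fin n) (Fin n) ℂ) = θ⁻¹ • R.transpose := by
    have h2 : (P : Matrix (Fin n) (Fin n) ℂ) * (θ⁻¹ • R.transpose) = 1 := by
      rw [hP, smul_mul_smul_comm, mul_inv_cancel₀ hθ, one_smul, hO']
    calc ((P⁻¹ : GL (Fin n) ℂ) : Matrix (Fin n) (Fin n) ℂ)
        = ((P⁻¹ : GL (Fin n) ℂ) : Matrix (Fin n) (Fin n) ℂ) *
          ((P : Matrix (Fin n) (Fin n) ℂ) * (θ⁻¹ • R.transpose)) := by rw [h2, mul_one]
      _ = θ⁻¹ • R.transpose := by rw [← mul_assoc, inv_mul_coe, one_mul]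
  have hld : ∀ δ : Derivation K ℂ ℂ, ld δ P = dm δ R * R.transpose + (δ θ * θ⁻¹) • 1 := by
    intro δ
    have h2 : dm δ (P : Matrix (Fin n) (Fin n) ℂ) = θ • dm δ R + δ θ • R := by
      rw [hP]
      ext i j
      change δ (θ * R i j) = θ * δ (R i j) + δ θ * R i j
      rw [Derivation.leibniz, smul_eq_mul, smul_eq_mul, mul_comm (R i j)]
    rw [ld, h2, hPi, add_mul, smul_mul_smul_comm, smul_mul_smul_comm, hO',
      mul_inv_cancel₀ hθ, one_smul]
  have hcomp : ∀ (δ : Derivation K ℂ ℂ) (ν : ℂ →ₗ[K] K),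
      (dm δ R * R.transpose).map ν + (ν (δ θ * θ⁻¹)) • 1 ∈ LK K H := by
    intro δ ν
    have h2 := comp_mem_LK hH (ld_mem_LC hH hPH δ) ν
    rwa [hld, map_add_smul_one] at h2
  let 𝔥 : Submodule K (Matrix (Fin n) (Fin n) K) :=
    { carrier := {Z | Skew Z ∧ ∃ s : K, Z + s • 1 ∈ LK K H}
      zero_mem' := by
        refine ⟨?_, 0, ?_⟩
        · unfold Skew
          rw [Matrix.transpose_zero, neg_zero]
        · rw [zero_smul, add_zero]
          exact Submodule.zero_mem _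
      add_mem' := by
        rintro a b ⟨ha, s, hs⟩ ⟨hb, t, ht⟩
        refine ⟨?_, s + t, ?_⟩
        · unfold Skew at ha hb ⊢
          rw [Matrix.transpose_add, ha, hb, neg_add]
        · have h2 := Submodule.add_mem _ hs ht
          have h3 : a + s • 1 + (b + t • 1) = a + b + (s + t) • 1 := by module
          rwa [h3] at h2
      smul_mem' := by
        rintro c a ⟨ha, s, hs⟩
        refine ⟨?_, c * s, ?_⟩
        · unfold Skew at ha ⊢
          rw [Matrix.transpose_smul, ha, smul_neg]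
        · have h2 := Submodule.smul_mem _ c hs
          rwa [smul_add, smul_smul] at h2 }
  have hmem : ∀ i j, skw K i j ∈ 𝔥 := skw_mem hN hodd h5 hγ hR hx (𝔥 := 𝔥) (fun Z hZ => hZ.1)
    (by
      rintro Z ⟨hZ, s, hs⟩ Z' ⟨hZ', t, ht⟩
      refine ⟨?_, 0, ?_⟩
      · unfold Skew at hZ hZ' ⊢
        rw [Matrix.transpose_sub, Matrix.transpose_mul, Matrix.transpose_mul, hZ, hZ',
          neg_mul_neg, neg_mul_neg, neg_sub]
      · have h2 := LK_bracket hs ht
        have h3 : (Z + s • 1) * (Z' + t • 1) - (Z' + t • 1) * (Z + s • 1) =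
            Z * Z' - Z' * Z + (0 : K) • 1 := by
          simp only [add_mul, mul_add, smul_mul_assoc, mul_smul_comm, one_mul, mul_one]
          module
        rwa [h3] at h2)
    (fun δ ν => ⟨skew_map (ld_sg hN hγ hR δ).1 ν, _, hcomp δ ν⟩)
  have hLK : ∀ Z : Matrix (Fin n) (Fin n) K, Skew Z → Z ∈ LK K H := fun Z hZ =>
    perfect hn (fun x hx y hy => LK_bracket hx hy) LinearMap.id (fun _ _ _ => rfl)
      (fun i j => (hmem i j).2) hZ
  refine ⟨fun g hg hdet => so_mem hH (fun Z hZ => ?_) hg hdet, fun htr => ?_⟩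
  · rw [← ext_LK hH]
    exact fun ν => hLK _ (skew_map hZ ν)
  · obtain ⟨δ, hδ⟩ : ∃ δ : Derivation K ℂ ℂ, δ θ ≠ 0 := by
      by_contra hcon
      push Not at hcon
      obtain ⟨r, hr⟩ := const_of_der hcon
      rw [← hr] at htr
      exact htr (isAlgebraic_algebraMap r)
    refine scalar_mem_LK hH (mul_ne_zero hδ (inv_ne_zero hθ)) fun ν => ?_
    have h2 := Submodule.sub_mem _ (hcomp δ ν) (hLK _ (skew_map (ld_sg hN hγ hR δ).1 ν))
    rwa [add_sub_cancel_left] at h2

end main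

end Pool.Agent.Q50.SR
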