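import Pool.Agent.Q50.SR.Odd

/-!
# The spin group
-/

set_option linter.unusedSectionVars false
set_option maxHeartbeats 4000000
set_option synthInstance.maxHeartbeats 400000

namespace Pool.Agent.Q50.SR

open Module Pool.Agent.Q50.LR

variable {K : Type} [Field K] [Algebra K ℂ] [CharZero K] {n N : ℕ}
  {γ : Fin n → Matrix (Fin N) (Fin N) K}

theorem vector_comm (hγ : Rel K γ) (a b : Fin n → ℂ) :
    vector γ a * vector γ b + vector γ b * vector γ a = (2 * (a ⬝ᵥ b)) • 1 :=
  (rel_mc hγ).vec a b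

theorem vector_sq (hγ : Rel K γ) (a : Fin n → ℂ) : vector γ a * vector γ a = (a ⬝ᵥ a) • 1 := by
  have h1 := vector_comm hγ a a
  rw [← two_smul ℂ, ← smul_smul] at h1
  have h2 : (2 : ℂ)⁻¹ • (2 : ℂ) • (vector γ a * vector γ a) =
      (2 : ℂ)⁻¹ • (2 : ℂ) • (a ⬝ᵥ a) • (1 : Matrix (Fin N) (Fin N) ℂ) := by rw [h1]
  simpa only [smul_smul, inv_mul_cancel₀ (two_ne_zero (α := ℂ)), one_smul, one_mul,
    ← mul_assoc] using h2

theorem vector_add (a b : Fin n → ℂ) : vector γ (a + b) = vector γ a + vector γ b := by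
  unfold vector
  rw [← Finset.sum_add_distrib]
  exact Finset.sum_congr rfl fun i _ => by rw [Pi.add_apply, add_smul]

theorem vector_smul (r : ℂ) (a : Fin n → ℂ) : vector γ (r • a) = r • vector γ a := by
  unfold vector
  rw [Finset.smul_sum]
  exact Finset.sum_congr rfl fun i _ => by rw [Pi.smul_apply, smul_eq_mul, mul_smul]

theorem sg_jm (u a : Fin n → ℂ) : vector γ u * vector γ a - vector γ a * vector γ u =
    sg (fun i => mc K (γ i)) ((4 : ℂ) • jm u a) := by
  have h1 : ∀ u a : Fin n → ℂ, vector γ u * vector γ a =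
      sg (fun i => mc K (γ i)) ((4 : ℂ) • Matrix.vecMulVec u a) := by
    intro u a
    rw [map_smul, sg_apply, smul_smul]
    have h4 : (4 : ℂ) * 4⁻¹ = 1 := by norm_num
    rw [h4, one_smul, vector, vector, Finset.sum_mul_sum]
    refine Finset.sum_congr rfl fun i _ => Finset.sum_congr rfl fun j _ => ?_
    rw [smul_mul_smul_comm, Matrix.vecMulVec_apply]
  rw [h1, h1, ← map_sub, ← smul_sub]
  rfl

/-- an algebraic group whose Lie algebra contains the orthogonal algebra contains the spin group -/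
theorem spin_mem (hn : 3 ≤ n) (hγ : Rel K γ) {H : Subgroup (GL (Fin N) ℂ)}
    (hH : IsAlgebraicGroup K H)
    (hL : ∀ Z : Matrix (Fin n) (Fin n) ℂ, Skew Z → sg (fun i => mc K (γ i)) Z ∈ LC H) :
    ContainsSpin γ H := by
  have hinv : ∀ a b : Fin n → ℂ, a ⬝ᵥ a = 1 → b ⬝ᵥ b = 1 →
      (vector γ a * vector γ b) * (vector γ b * vector γ a) = 1 := by
    intro a b ha hb
    rw [mul_assoc, ← mul_assoc (vector γ b), vector_sq hγ, hb, one_smul, one_mul, vector_sq hγ, ha,
      one_smul]
  let gl : ∀ a b : Fin n → ℂ, a ⬝ᵥ a = 1 → b ⬝ᵥ b = 1 → GL (Fin N) ℂ := fun a b ha hb =>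
    ⟨vector γ a * vector γ b, vector γ b * vector γ a, hinv a b ha hb, hinv b a hb ha⟩
  -- orthogonal vectors
  have hE : ∀ u a : Fin n → ℂ, u ⬝ᵥ a = 0 → vector γ u * vector γ a ∈ LC H ∧
      vector γ u * vector γ a = -(vector γ a * vector γ u) := by
    intro u a hua
    have h1 := vector_comm hγ u a
    rw [hua, mul_zero, zero_smul] at h1
    have h2 := eq_neg_of_add_eq_zero_left h1
    refine ⟨?_, h2⟩
    have h3 : vector γ u * vector γ a =
        (2 : ℂ)⁻¹ • (vector γ u * vector γ a - vector γ a * vector γ u) := by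
      have h4 : vector γ u * vector γ a - vector γ a * vector γ u =
          (2 : ℂ) • (vector γ u * vector γ a) := by
        rw [two_smul]
        nth_rewrite 3 [h2]
        rw [sub_eq_add_neg]
      rw [h4, smul_smul, inv_mul_cancel₀ two_ne_zero, one_smul]
    rw [h3, sg_jm]
    refine (LC H).smul_mem _ (hL _ ?_)
    unfold Skew
    rw [Matrix.transpose_smul, jm_skew, smul_neg]
  have hEE : ∀ u a : Fin n → ℂ, u ⬝ᵥ a = 0 →
      (vector γ u * vector γ a) * (vector γ u * vector γ a) =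
        (-((u ⬝ᵥ u) * (a ⬝ᵥ a))) • 1 := by
    intro u a hua
    rw [mul_assoc, ← mul_assoc (vector γ a)]
    have h2 : vector γ a * vector γ u = -(vector γ u * vector γ a) := by
      rw [(hE u a hua).2, neg_neg]
    rw [h2, neg_mul, mul_neg, mul_assoc, ← mul_assoc (vector γ u), vector_sq hγ, vector_sq hγ,
      smul_mul_smul_comm, one_mul, neg_smul]
  -- the case of vectors in general position
  have gen : ∀ (a b : Fin n → ℂ) (ha : a ⬝ᵥ a = 1) (hb : b ⬝ᵥ b = 1), (a ⬝ᵥ b) ^ 2 ≠ 1 →
      gl b a hb ha ∈ H := by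
    intro a b ha hb hc
    obtain ⟨t, u, hu, hua, hct, hbt⟩ := unit_dec ha hb hc
    have hE2 := hEE u a hua
    rw [hu, ha, mul_one] at hE2
    refine rot hH (hE u a hua).1 ?_ t ?_
    · rw [hE2, mul_smul_comm, mul_one, neg_smul, one_smul]
    · change vector γ b * vector γ a = _
      rw [hE2, hbt, vector_add, vector_smul, vector_smul, add_mul, smul_mul_assoc, smul_mul_assoc,
        vector_sq hγ, ha]
      module
  -- the vectors `a`, `b` with product one
  have one : ∀ (a b : Fin n → ℂ) (ha : a ⬝ᵥ a = 1) (hb : b ⬝ᵥ b = 1), a ⬝ᵥ b = 1 →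
      gl b a hb ha ∈ H := by
    intro a b ha hb hc
    have hwa : (b - a) ⬝ᵥ a = 0 := by
      rw [sub_dotProduct, dotProduct_comm b a, hc, ha, sub_self]
    have hww : (b - a) ⬝ᵥ (b - a) = 0 := by
      rw [dotProduct_sub, hwa, sub_dotProduct, hb, hc]
      norm_num
    have hE2 := hEE (b - a) a hwa
    rw [hww, zero_mul, neg_zero, zero_smul] at hE2
    refine uni hH (hE (b - a) a hwa).1 ?_ 1 ?_
    · rw [hE2, mul_zero]
    · change vector γ b * vector γ a = _
      rw [hE2, smul_zero, add_zero, one_smul]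
      have h1 : b = a + (b - a) := by abel
      conv_lhs => rw [h1]
      rw [vector_add, add_mul, vector_sq hγ, ha, one_smul]
  -- minus one
  obtain ⟨m1, hm1, hm1'⟩ : ∃ h ∈ H, (h : Matrix (Fin N) (Fin N) ℂ) = -1 := by
    have : NeZero n := ⟨by omega⟩
    let e : Fin n → ℂ := Pi.single ⟨0, by omega⟩ 1
    let e' : Fin n → ℂ := Pi.single ⟨1, by omega⟩ 1
    have h1 : e ⬝ᵥ e = 1 := by simp [e]
    have h2 : e' ⬝ᵥ e' = 1 := by simp [e']
    have h3 : e ⬝ᵥ e' = 0 := by simp [e, e']
    have h3' : e' ⬝ᵥ e = 0 := by rw [dotProduct_comm, h3]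
    have h4 := gen e e' h1 h2 (by rw [h3]; norm_num)
    refine ⟨_, mul_mem h4 h4, ?_⟩
    change (vector γ e' * vector γ e) * (vector γ e' * vector γ e) = -1
    rw [hEE e' e h3', h1, h2, mul_one, neg_smul, one_smul]
  intro a b ha hb
  have key : gl b a hb ha ∈ H := by
    by_cases hc : (a ⬝ᵥ b) ^ 2 = 1
    · have hc' : (a ⬝ᵥ b - 1) * (a ⬝ᵥ b + 1) = 0 := by linear_combination hc
      rcases mul_eq_zero.1 hc' with h1 | h1
      · exact one a b ha hb (sub_eq_zero.1 h1)
      · replace h1 := eq_neg_of_add_eq_zero_left h1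
        have hb' : (-b) ⬝ᵥ (-b) = 1 := by
          rw [neg_dotProduct_neg]
          exact hb
        have h2 := one a (-b) ha hb' (by rw [dotProduct_neg, h1, neg_neg])
        have h3 : gl b a hb ha = m1 * gl (-b) a hb' ha := by
          refine Units.ext ?_
          rw [Units.val_mul, hm1']
          change vector γ b * vector γ a = -1 * (vector γ (-b) * vector γ a)
          have h4 : vector γ (-b) = -vector γ b := by
            have h5 : (-b) = (-1 : ℂ) • b := by rw [neg_smul, one_smul]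
            rw [h5, vector_smul, neg_smul, one_smul]
          rw [h4, neg_mul, neg_mul, mul_neg, neg_neg, one_mul]
        rw [h3]
        exact mul_mem hm1 h2
    · exact gen a b ha hb hc
  have h1 : gl a b ha hb = (gl b a hb ha)⁻¹ := rfl
  exact ⟨gl a b ha hb, by rw [h1]; exact inv_mem key, rfl⟩

theorem sg_trace {Z : Matrix (Fin n) (Fin n) ℂ} (hZ : Skew Z) :
    (sg (fun i => mc K (γ i)) Z).trace = 0 := by
  have h1 := sg_mem (γ := fun i => mc K (γ i)) hZ
  generalize sg (fun i => mc K (γ i)) Z = M at h1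
  induction h1 using Submodule.span_induction with
  | mem x hx =>
    obtain ⟨i, j, rfl⟩ := hx
    rw [Matrix.trace_sub, Matrix.trace_mul_comm, sub_self]
  | zero => exact Matrix.trace_zero _ _
  | add x y _ _ hx hy => rw [Matrix.trace_add, hx, hy, add_zero]
  | smul a x _ hx => rw [Matrix.trace_smul, hx, smul_zero]

section main

variable [IsAlgClosed K] (hN : N ≠ 0) (hodd : Odd n) (h1 : n ≠ 1) (h5 : n ≠ 5)
  (hγ : Gamma γ) {x : GL (Fin N) ℂ} {R : Matrix (Fin n) (Fin n) ℂ} (hR : Acts γ x R)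
  (hx : Indep K x)

include hN hodd h1 h5 hγ hR hx

/-- the torsors through the period matrix of the Kuga-Satake variety -/
theorem odd_S {H : Subgroup (GL (Fin N) ℂ)} (hH : IsAlgebraicGroup K H)
    (hxH : OnTorsor K H x) : ContainsSpin γ H ∧
      (Transcendental K (x : Matrix (Fin N) (Fin N) ℂ).det → ContainsScalars H) := by
  have hn : 3 ≤ n := by
    obtain ⟨k, hk⟩ := hodd
    omega
  have hrel : Rel K γ := hγ.rel
  have hcomp : ∀ (δ : Derivation K ℂ ℂ), ∃ s : ℂ, ld δ x =
      sg (fun i => mc K (γ i)) (dm δ R * R.transpose) + s • 1 ∧ ∀ ν : ℂ →ₗ[K] K,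
      sg γ ((dm δ R * R.transpose).map ν) + (ν s) • 1 ∈ LK K H := by
    intro δ
    obtain ⟨-, s, hs⟩ := ld_sg hN hγ hR δ
    refine ⟨s, hs, fun ν => ?_⟩
    have h2 := comp_mem_LK hH (ld_mem_LC hH hxH δ) ν
    rwa [hs, map_add_smul_one, sg_map] at h2
  let 𝔥 : Submodule K (Matrix (Fin n) (Fin n) K) :=
    { carrier := {Z | Skew Z ∧ ∃ s : K, sg γ Z + s • 1 ∈ LK K H}
      zero_mem' := by
        refine ⟨?_, 0, ?_⟩
        · unfold Skew
          rw [Matrix.transpose_zero, neg_zero]
        · rw [zero_smul, add_zero, map_zero]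
          exact Submodule.zero_mem _
      add_mem' := by
        rintro a b ⟨ha, s, hs⟩ ⟨hb, t, ht⟩
        refine ⟨?_, s + t, ?_⟩
        · unfold Skew at ha hb ⊢
          rw [Matrix.transpose_add, ha, hb, neg_add]
        · have h2 := Submodule.add_mem _ hs ht
          have h3 : sg γ a + s • 1 + (sg γ b + t • 1) = sg γ (a + b) + (s + t) • 1 := by
            rw [map_add]
            module
          rwa [h3] at h2
      smul_mem' := by
        rintro c a ⟨ha, s, hs⟩
        refine ⟨?_, c * s, ?_⟩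
        · unfold Skew at ha ⊢
          rw [Matrix.transpose_smul, ha, smul_neg]
        · have h2 := Submodule.smul_mem _ c hs
          rwa [smul_add, smul_smul, ← map_smul] at h2 }
  have hmem : ∀ i j, skw K i j ∈ 𝔥 := skw_mem hN hodd h5 hγ hR hx (𝔥 := 𝔥) (fun Z hZ => hZ.1)
    (by
      rintro Z ⟨hZ, s, hs⟩ Z' ⟨hZ', t, ht⟩
      refine ⟨?_, 0, ?_⟩
      · unfold Skew at hZ hZ' ⊢
        rw [Matrix.transpose_sub, Matrix.transpose_mul, Matrix.transpose_mul, hZ, hZ',
          neg_mul_neg, neg_mul_neg, neg_sub]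
      · have h2 := LK_bracket hs ht
        have h3 : (sg γ Z + s • 1) * (sg γ Z' + t • 1) - (sg γ Z' + t • 1) * (sg γ Z + s • 1) =
            sg γ (Z * Z' - Z' * Z) + (0 : K) • 1 := by
          rw [hrel.sg_lie hZ]
          simp only [add_mul, mul_add, smul_mul_assoc, mul_smul_comm, one_mul, mul_one]
          module
        rwa [h3] at h2)
    (fun δ ν => by
      obtain ⟨s, -, hs⟩ := hcomp δ
      exact ⟨skew_map (ld_sg hN hγ hR δ).1 ν, _, hs ν⟩)
  have hLK : ∀ Z : Matrix (Fin n) (Fin n) K, Skew Z → sg γ Z ∈ LK K H := fun Z hZ =>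
    perfect hn (fun x hx y hy => LK_bracket hx hy) (sg γ) (fun _ _ h => hrel.sg_lie h)
      (fun i j => (hmem i j).2) hZ
  refine ⟨spin_mem hn hrel hH fun Z hZ => ?_, fun htr => ?_⟩
  · rw [← ext_LK hH]
    intro ν
    rw [sg_map]
    exact hLK _ (skew_map hZ ν)
  · obtain ⟨δ, hδ⟩ : ∃ δ : Derivation K ℂ ℂ, (ld δ x).trace ≠ 0 := by
      by_contra hcon
      push Not at hcon
      obtain ⟨r, hr⟩ := det_of_trace hcon
      rw [← hr] at htr
      exact htr (isAlgebraic_algebraMap r)
    obtain ⟨s, hs, hs'⟩ := hcomp δ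
    have hs0 : s ≠ 0 := by
      rintro rfl
      rw [zero_smul, add_zero] at hs
      rw [hs] at hδ
      exact hδ (sg_trace (ld_sg hN hγ hR δ).1)
    refine scalar_mem_LK hH hs0 fun ν => ?_
    have h2 := Submodule.sub_mem _ (hs' ν) (hLK _ (skew_map (ld_sg hN hγ hR δ).1 ν))
    rwa [add_sub_cancel_left] at h2

end main

end Pool.Agent.Q50.SR
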