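import Pool.Agent.Q50.LR.Main

/-!
# Curves in algebraic groups, and reflections
-/

set_option linter.unusedSectionVars false
set_option maxHeartbeats 4000000
set_option synthInstance.maxHeartbeats 400000

namespace Pool.Agent.Q50.SR

open Matrix MvPolynomial Pool.Agent.Q50.LR

variable {K : Type} [Field K] [Algebra K ℂ] {n : ℕ}

/-- a curve with constant logarithmic derivative in the Lie algebra -/
theorem curve {H : Subgroup (GL (Fin n) ℂ)} (hH : IsAlgebraicGroup K H)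
    {Z : Matrix (Fin n) (Fin n) ℂ} (hZ : Z ∈ LC H) {u : ℂ → Matrix (Fin n) (Fin n) ℂ}
    (hu : ∀ z i j, HasDerivAt (fun z => u z i j) ((Z * u z) i j) z) (h0 : u 0 = 1) (z : ℂ)
    {g : GL (Fin n) ℂ} (hg : (g : Matrix (Fin n) (Fin n) ℂ) = u z) : g ∈ H := by
  obtain ⟨S, hS⟩ := hH
  rw [hS]
  intro f hf
  have h0' : map (algebraMap K ℂ) f ∈ VanC H := by
    intro g hg
    rw [eval_map]
    exact (hS g).1 hg f hf
  have h1 : ∀ m : ℕ, (fun F => dr Z F)^[m] (map (algebraMap K ℂ) f) ∈ VanC H := by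
    intro m
    induction m with
    | zero => exact h0'
    | succ m ih =>
      rw [Function.iterate_succ_apply']
      exact hZ _ ih
  have h2 := entire_zero (φ := fun m z => eval (pt (u z))
    ((fun F => dr Z F)^[m] (map (algebraMap K ℂ) f))) (fun m z => by
      rw [Function.iterate_succ_apply']
      exact deriv_eval (hu z) _) (fun m => by
      have h3 := h1 m 1 (one_mem _)
      rw [h0]
      exact h3) z
  change eval (pt (u z)) (map (algebraMap K ℂ) f) = 0 at h2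
  rw [eval_map, ← hg] at h2
  exact h2

/-- the derivative of a quadratic curve -/
theorem curve2 {H : Subgroup (GL (Fin n) ℂ)} (hH : IsAlgebraicGroup K H)
    {J : Matrix (Fin n) (Fin n) ℂ} (hJ : J ∈ LC H) {f₁ f₂ g₁ g₂ : ℂ → ℂ}
    (h1 : ∀ z, HasDerivAt f₁ (g₁ z) z) (h2 : ∀ z, HasDerivAt f₂ (g₂ z) z) (h3 : f₁ 0 = 0)
    (h4 : f₂ 0 = 0)
    (h5 : ∀ z, g₁ z • J + g₂ z • (J * J) = J * (1 + f₁ z • J + f₂ z • (J * J))) (z : ℂ)
    {g : GL (Fin n) ℂ} (hg : (g : Matrix (Fin n) (Fin n) ℂ) = 1 + f₁ z • J + f₂ z • (J * J)) :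
    g ∈ H := by
  refine curve hH hJ (u := fun z => 1 + f₁ z • J + f₂ z • (J * J)) (fun z i j => ?_) ?_ z hg
  · rw [← h5]
    have h6 : HasDerivAt (fun z => (1 : Matrix (Fin n) (Fin n) ℂ) i j + f₁ z * J i j +
        f₂ z * (J * J) i j) (0 + g₁ z * J i j + g₂ z * (J * J) i j) z :=
      ((hasDerivAt_const z _).add ((h1 z).mul_const _)).add ((h2 z).mul_const _)
    rw [zero_add] at h6
    exact h6
  · simp only [h3, h4, zero_smul, add_zero]

theorem rot {H : Subgroup (GL (Fin n) ℂ)} (hH : IsAlgebraicGroup K H)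
    {J : Matrix (Fin n) (Fin n) ℂ} (hJ : J ∈ LC H) (hJ3 : J * (J * J) = -J) (z : ℂ)
    {g : GL (Fin n) ℂ}
    (hg : (g : Matrix (Fin n) (Fin n) ℂ) = 1 + Complex.sin z • J + (1 - Complex.cos z) • (J * J)) :
    g ∈ H := by
  refine curve2 hH hJ (f₁ := Complex.sin) (f₂ := fun z => 1 - Complex.cos z) (g₁ := Complex.cos)
    (g₂ := Complex.sin) Complex.hasDerivAt_sin (fun z => ?_) Complex.sin_zero ?_ (fun z => ?_) z hg
  · have h1 := (hasDerivAt_const z (1 : ℂ)).sub (Complex.hasDerivAt_cos z)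
    rw [zero_sub, neg_neg] at h1
    exact h1
  · simp
  · rw [mul_add, mul_add, mul_one, mul_smul_comm, mul_smul_comm, hJ3]
    module

theorem uni {H : Subgroup (GL (Fin n) ℂ)} (hH : IsAlgebraicGroup K H)
    {J : Matrix (Fin n) (Fin n) ℂ} (hJ : J ∈ LC H) (hJ3 : J * (J * J) = 0) (z : ℂ)
    {g : GL (Fin n) ℂ}
    (hg : (g : Matrix (Fin n) (Fin n) ℂ) = 1 + z • J + (z ^ 2 / 2) • (J * J)) : g ∈ H := by
  refine curve2 hH hJ (f₁ := fun z => z) (f₂ := fun z => z ^ 2 / 2) (g₁ := fun _ => 1)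
    (g₂ := fun z => z) (fun z => hasDerivAt_id' z) (fun z => ?_) rfl ?_ (fun z => ?_) z hg
  · have h1 := (hasDerivAt_pow 2 z).div_const 2
    refine h1.congr_deriv ?_
    norm_num
  · simp
  · rw [mul_add, mul_add, mul_one, mul_smul_comm, mul_smul_comm, hJ3]
    module

/-! ### Reflections -/

/-- the reflection matrix -/
def rm (a : Fin n → ℂ) : Matrix (Fin n) (Fin n) ℂ := 1 - (2 : ℂ) • vecMulVec a a

theorem rm_mul (a b : Fin n → ℂ) : rm b * rm a =
    1 - (2 : ℂ) • vecMulVec a a - (2 : ℂ) • vecMulVec b b + (4 * (b ⬝ᵥ a)) • vecMulVec b a := by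
  unfold rm
  rw [sub_mul, mul_sub, mul_sub, one_mul, mul_one, one_mul, smul_mul_assoc, mul_smul_comm,
    vecMulVec_mul_vecMulVec, vecMulVec_smul]
  module

theorem rm_sq {a : Fin n → ℂ} (ha : a ⬝ᵥ a = 1) : rm a * rm a = 1 := by
  rw [rm_mul, ha]
  module

/-- the reflection -/
def rf (a : Fin n → ℂ) (ha : a ⬝ᵥ a = 1) : GL (Fin n) ℂ := ⟨rm a, rm a, rm_sq ha, rm_sq ha⟩

theorem rm_neg (a : Fin n → ℂ) : rm (-a) = rm a := by
  unfold rm
  rw [neg_vecMulVec, vecMulVec_neg, neg_neg]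

theorem rm_det {a : Fin n → ℂ} (ha : a ⬝ᵥ a = 1) : (rm a).det = -1 := by
  have h1 : rm a = 1 + replicateCol Unit ((-2 : ℂ) • a) * replicateRow Unit a := by
    unfold rm
    ext i j
    rw [Matrix.sub_apply, Matrix.add_apply, Matrix.smul_apply, vecMulVec_apply, Matrix.mul_apply]
    simp
    ring
  rw [h1, det_one_add_replicateCol_mul_replicateRow, dotProduct_smul, ha]
  norm_num

theorem rm_mulVec (a v : Fin n → ℂ) : rm a *ᵥ v = v - (2 * (a ⬝ᵥ v)) • a := by
  unfold rm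
  rw [sub_mulVec, one_mulVec, smul_mulVec, vecMulVec_mulVec]
  funext i
  rw [Pi.sub_apply, Pi.sub_apply, Pi.smul_apply, Pi.smul_apply, Pi.smul_apply]
  congr 1
  rw [MulOpposite.smul_eq_mul_unop, MulOpposite.unop_op, smul_eq_mul, smul_eq_mul]
  ring

end Pool.Agent.Q50.SR
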