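import Pool.Agent.Q50.SR.Rgd

/-!
# Weight vectors
-/

set_option linter.unusedSectionVars false
set_option maxHeartbeats 4000000
set_option synthInstance.maxHeartbeats 400000

namespace Pool.Agent.Q50.SR

open Module

/-- a weight vector in the span of weight vectors has the weight of one of them -/
theorem weight_mem {K W ι κ : Type*} [Field K] [AddCommGroup W] [Module K W] [DecidableEq κ]
    {h : ι → Module.End K W} {y : κ → W} {β : κ → ι → K} (hy : ∀ j l, h l (y j) = β j l • y j)
    {z : W} {w : ι → K} (hz : ∀ l, h l z = w l • z) (hz0 : z ≠ 0) (s : Finset κ)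
    (hs : z ∈ Submodule.span K (y '' (s : Set κ))) : ∃ j ∈ s, y j ≠ 0 ∧ β j = w := by
  induction s using Finset.induction_on with
  | empty =>
    rw [Finset.coe_empty, Set.image_empty, Submodule.span_empty, Submodule.mem_bot] at hs
    exact absurd hs hz0
  | insert a s _ ih =>
    have key : z ∈ Submodule.span K (y '' (s : Set κ)) →
        ∃ j ∈ insert a s, y j ≠ 0 ∧ β j = w := by
      intro h1
      obtain ⟨j, hj, hj'⟩ := ih h1
      exact ⟨j, Finset.mem_insert_of_mem hj, hj'⟩
    rw [Finset.coe_insert, Set.image_insert_eq, Submodule.mem_span_insert] at hs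
    obtain ⟨c, z', hz', hzz⟩ := hs
    by_cases h0 : y a = 0
    · rw [h0, smul_zero, zero_add] at hzz
      exact key (by rw [hzz]; exact hz')
    · by_cases h1 : β a = w
      · exact ⟨a, Finset.mem_insert_self _ _, h0, h1⟩
      · obtain ⟨l, hl⟩ : ∃ l, β a l ≠ w l := by
          by_contra hcon
          push Not at hcon
          exact h1 (funext hcon)
        apply key
        have hst : ∀ x ∈ Submodule.span K (y '' (s : Set κ)),
            h l x - β a l • x ∈ Submodule.span K (y '' (s : Set κ)) := by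
          intro x hx
          refine Submodule.sub_mem _ ?_ (Submodule.smul_mem _ _ hx)
          induction hx using Submodule.span_induction with
          | mem x hx =>
            obtain ⟨j, hj, rfl⟩ := hx
            rw [hy]
            exact Submodule.smul_mem _ _ (Submodule.subset_span ⟨j, hj, rfl⟩)
          | zero => rw [map_zero]; exact Submodule.zero_mem _
          | add x y _ _ hx hy => rw [map_add]; exact Submodule.add_mem _ hx hy
          | smul a x _ hx => rw [map_smul]; exact Submodule.smul_mem _ _ hx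
        have h2 := hst z' hz'
        have h3 : h l z' - β a l • z' = (w l - β a l) • z := by
          have h4 : z' = z - c • y a := by rw [hzz]; abel
          rw [h4, map_sub, map_smul, hy, hz]
          module
        rw [h3] at h2
        have h5 : w l - β a l ≠ 0 := sub_ne_zero.2 (Ne.symm hl)
        have h6 := Submodule.smul_mem _ (w l - β a l)⁻¹ h2
        rwa [smul_smul, inv_mul_cancel₀ h5, one_smul] at h6

/-! ### Stable subspaces -/

section q

variable {K S ι : Type*} [Field K] [CharZero K] [IsAlgClosed K] [AddCommGroup S] [Module K S]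
  [FiniteDimensional K S] [Fintype ι] [DecidableEq ι]
  {e f h : ι → Module.End K S} {A : ι → ι → K} {c : ι → K}

/-- an irreducible stable subspace with its highest weight vector -/
structure QT (e f h : ι → Module.End K S) (c : ι → K) (Q : Submodule K S) (μ : K) (s0 : S)
    (σ : ι → K) : Prop where
  mem : s0 ∈ Q
  ne : s0 ≠ 0
  lev : s0 ∈ lev h c μ 0
  e0 : ∀ i, e i s0 = 0
  h0 : ∀ i, h i s0 = σ i • s0
  wd : ∀ (k : ℕ), ∀ x ∈ Q, x ∈ SR.lev h c μ k → x ∈ SR.wd f (Submodule.span K {s0}) k
  neg : ∀ k : ℤ, k < 0 → ∀ x ∈ Q, x ∈ SR.lev h c μ k → x = 0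
  top : ∀ x ∈ Q, x ∈ ⨆ k, SR.wd f (Submodule.span K {s0}) k
  eig : ∀ ν : K, ∀ x ∈ Q, H0 h c x = ν • x → x ≠ 0 → ∃ j : ℕ, ν = μ - 2 * j

theorem exists_qt (hC : Chev e f h A c) {Q : Submodule K S} (hQ : Q ≠ ⊥)
    (he : ∀ i, ∀ x ∈ Q, e i x ∈ Q) (hf : ∀ i, ∀ x ∈ Q, f i x ∈ Q)
    (hirr : ∀ U ≤ Q, (∀ i, ∀ x ∈ U, e i x ∈ U) → (∀ i, ∀ x ∈ U, f i x ∈ U) → U = ⊥ ∨ U = Q) :
    ∃ (μ : K) (s0 : S) (σ : ι → K), QT e f h c Q μ s0 σ := by
  have hh : ∀ i, ∀ x ∈ Q, h i x ∈ Q := by
    intro i x hx
    rw [← hC.ef, LinearMap.sub_apply, Module.End.mul_apply, Module.End.mul_apply]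
    exact Q.sub_mem (he i _ (hf i x hx)) (hf i _ (he i x hx))
  let e' : ι → Module.End K Q := fun i => (e i).restrict (he i)
  let f' : ι → Module.End K Q := fun i => (f i).restrict (hf i)
  let h' : ι → Module.End K Q := fun i => (h i).restrict (hh i)
  have hC' : Chev e' f' h' A c := by
    refine ⟨?_, ?_, ?_, ?_, ?_, hC.diag, hC.zero, hC.inj, hC.rho⟩
    · intro i j
      exact LinearMap.ext fun x => Subtype.ext
        (congrArg (fun g : Module.End K S => g x) (hC.hh i j))
    · intro i j
      exact LinearMap.ext fun x => Subtype.ext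
        (congrArg (fun g : Module.End K S => g x) (hC.he i j))
    · intro i j
      exact LinearMap.ext fun x => Subtype.ext
        (congrArg (fun g : Module.End K S => g x) (hC.hf i j))
    · intro i
      exact LinearMap.ext fun x => Subtype.ext
        (congrArg (fun g : Module.End K S => g x) (hC.ef i))
    · intro i j hij
      exact LinearMap.ext fun x => Subtype.ext
        (congrArg (fun g : Module.End K S => g x) (hC.ef' i j hij))
  have hI : Irr e' f' := by
    intro U h1 h2
    have h3 : U.map Q.subtype ≤ Q := by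
      rintro _ ⟨x, _, rfl⟩
      exact x.2
    rcases hirr (U.map Q.subtype) h3 (by
      rintro i _ ⟨x, hx, rfl⟩
      exact ⟨e' i x, h1 i x hx, rfl⟩) (by
      rintro i _ ⟨x, hx, rfl⟩
      exact ⟨f' i x, h2 i x hx, rfl⟩) with h4 | h4
    · left
      rw [eq_bot_iff]
      intro x hx
      have h5 : (x : S) ∈ U.map Q.subtype := ⟨x, hx, rfl⟩
      rw [h4] at h5
      exact (Submodule.mem_bot K).2 (Subtype.ext ((Submodule.mem_bot K).1 h5))
    · right
      rw [eq_top_iff]
      intro x _
      have h5 : (x : S) ∈ U.map Q.subtype := by rw [h4]; exact x.2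
      obtain ⟨y, hy, hyx⟩ := h5
      have h6 : y = x := Subtype.ext hyx
      rwa [h6] at hy
  have : Nontrivial Q := Submodule.nontrivial_iff_ne_bot.2 hQ
  obtain ⟨μ, s0, σ, hs0, hlev, he0, hh0⟩ := exists_top hC'
  have hH : ∀ x : Q, ((H0 h' c x : Q) : S) = H0 h c x := by
    intro x
    unfold H0
    simp only [LinearMap.sum_apply, LinearMap.smul_apply]
    rw [AddSubmonoidClass.coe_finsetSum]
    rfl
  have hlv : ∀ (k : ℤ) (x : Q), (x : S) ∈ lev h c μ k → x ∈ lev h' c μ k := by
    intro k x hx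
    rw [mem_lev] at hx ⊢
    refine Subtype.ext ?_
    rw [hH, hx]
    rfl
  have hwd : ∀ (k : ℕ) (x : Q), x ∈ SR.wd f' (Submodule.span K {s0}) k →
      (x : S) ∈ SR.wd f (Submodule.span K {(s0 : S)}) k := by
    intro k
    induction k with
    | zero =>
      intro x hx
      obtain ⟨a, rfl⟩ := Submodule.mem_span_singleton.1 hx
      exact Submodule.mem_span_singleton.2 ⟨a, rfl⟩
    | succ k ih =>
      have h1 : SR.wd f' (Submodule.span K {s0}) (k + 1) ≤
          (SR.wd f (Submodule.span K {(s0 : S)}) (k + 1)).comap Q.subtype :=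
        wd_succ_le fun i x hx => wd_succ_mem (ih x hx) i
      exact fun x hx => h1 hx
  refine ⟨μ, s0, σ, s0.2, fun h0 => hs0 (Subtype.ext h0), ?_, ?_, ?_, ?_, ?_, ?_, ?_⟩
  · rw [mem_lev] at hlev ⊢
    rw [← hH, hlev]
    rfl
  · exact fun i => congrArg Subtype.val (he0 i)
  · exact fun i => congrArg Subtype.val (hh0 i)
  · intro k x hx hx'
    exact hwd k ⟨x, hx⟩ (lev_wd hC' hI hs0 hlev he0 hh0 (hlv k ⟨x, hx⟩ hx'))
  · intro k hk x hx hx'
    exact congrArg Subtype.val (lev_neg hC' hI hs0 hlev he0 hh0 hk (hlv k ⟨x, hx⟩ hx'))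
  · intro x hx
    have h1 : (⨆ k, SR.wd f' (Submodule.span K {s0}) k) ≤
        (⨆ k, SR.wd f (Submodule.span K {(s0 : S)}) k).comap Q.subtype :=
      iSup_le fun k y hy => Submodule.mem_iSup_of_mem k (hwd k y hy)
    have h2 : (⟨x, hx⟩ : Q) ∈ ⨆ k, SR.wd f' (Submodule.span K {s0}) k := by
      rw [span_top hC' hI hs0 he0 hh0]
      trivial
    exact h1 h2
  · intro ν x hx hx' hx0
    refine H0_eig hC' hI hs0 hlev he0 hh0 (x := ⟨x, hx⟩) (ν := ν) ?_ fun h0 =>
      hx0 (congrArg Subtype.val h0)
    refine Subtype.ext ?_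
    rw [hH]
    exact hx'

end q

end Pool.Agent.Q50.SR
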