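import Pool.Agent.Q50.SR.Rig
import Pool.Agent.Q50.SR.Gen

/-!
# Rigidity of the spin representation
-/

set_option linter.unusedSectionVars false
set_option maxHeartbeats 4000000
set_option synthInstance.maxHeartbeats 400000

namespace Pool.Agent.Q50.SR

open Module LieAlgebra LieModule

attribute [local instance 100] LieRing.ofAssociativeRing

variable {K S : Type*} [Field K] [CharZero K] [IsAlgClosed K] [AddCommGroup S] [Module K S]
  [FiniteDimensional K S]

/-- the Lie subalgebra with the given carrier -/
def mkL (L : Submodule K (Module.End K S)) (hL : ∀ x ∈ L, ∀ y ∈ L, x * y - y * x ∈ L) :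
    LieSubalgebra K (Module.End K S) where
  toSubmodule := L
  lie_mem' := fun {x y} hx hy => hL x hx y hy

/-- **Rigidity**: a Lie subalgebra of the orthogonal algebra which acts irreducibly on the spin
representation is everything, if the number of variables is odd and not five. -/
theorem rigidity [Nontrivial S] {V : Submodule K (Module.End K S)} (hV : Cl V)
    (hodd : Odd (finrank K V)) (h5 : finrank K V ≠ 5) {L : Submodule K (Module.End K S)}
    (hL : ∀ x ∈ L, ∀ y ∈ L, x * y - y * x ∈ L) (hLV : L ≤ Lam V)
    (hirr : ∀ U : Submodule K S, (∀ x ∈ L, ∀ s ∈ U, x s ∈ U) → U = ⊥ ∨ U = ⊤) : Lam V ≤ L := by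
  classical
  let M := mkL L hL
  have hirr' : LieModule.IsIrreducible K M S := by
    refine LieModule.IsIrreducible.mk fun N hN => ?_
    rcases hirr N.toSubmodule (fun x hx s hs => N.lie_mem (x := (⟨x, hx⟩ : M)) hs) with h1 | h1
    · exact absurd ((LieSubmodule.toSubmodule_eq_bot N).1 h1) hN
    · exact (LieSubmodule.toSubmodule_eq_top N).1 h1
  have hfaith : LieModule.IsFaithful K M S := by
    refine ⟨fun x y hxy => Subtype.ext hxy⟩
  have htriv : HasTrivialRadical K M :=
    hasTrivialRadical_of_isIrreducible_of_isFaithful K M S fun x => Lam_trace (hLV x.2)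
  obtain ⟨ι, _, e, f, h, A, c, hc⟩ := exists_lchev K M
  have hC : Chev (fun i => (e i : Module.End K S)) (fun i => (f i : Module.End K S))
      (fun i => (h i : Module.End K S)) A c := by
    refine ⟨?_, ?_, ?_, ?_, ?_, hc.diag, hc.zero, hc.inj, hc.rho⟩
    · intro i j
      exact sub_eq_zero.1 (congrArg Subtype.val (hc.hh i j))
    · intro i j
      exact congrArg Subtype.val (hc.he i j)
    · intro i j
      exact congrArg Subtype.val (hc.hf i j)
    · intro i
      exact congrArg Subtype.val (hc.ef i)
    · intro i j hij
      exact sub_eq_zero.1 (congrArg Subtype.val (hc.ef' i j hij))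
  have hI : Irr (fun i => (e i : Module.End K S)) (fun i => (f i : Module.End K S)) := by
    intro U h1 h2
    refine hirr U fun x hx s hs => ?_
    have h3 : (⟨x, hx⟩ : M) ∈ LieSubalgebra.lieSpan K M (Set.range e ∪ Set.range f) := by
      rw [hc.gen]
      trivial
    have h4 : ∀ y : M, y ∈ LieSubalgebra.lieSpan K M (Set.range e ∪ Set.range f) →
        ∀ s ∈ U, y.1 s ∈ U := by
      intro y hy
      induction hy using LieSubalgebra.lieSpan_induction with
      | mem u hu =>
        rcases hu with ⟨i, rfl⟩ | ⟨i, rfl⟩
        · exact h1 i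
        · exact h2 i
      | zero => exact fun s _ => U.zero_mem
      | add u v _ _ hu hv => exact fun s hs => U.add_mem (hu s hs) (hv s hs)
      | smul t u _ hu => exact fun s hs => U.smul_mem t (hu s hs)
      | lie u v _ _ hu hv => exact fun s hs => U.sub_mem (hu _ (hv s hs)) (hv _ (hu s hs))
    exact h4 _ h3 s hs
  exact rigid hC hI hV (fun i => hLV (e i).2) (fun i => hLV (f i).2) hodd h5 hL
    (fun i => (e i).2) (fun i => (f i).2)

end Pool.Agent.Q50.SR
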