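import Pool.Agent.Q50.SR.Defs

/-!
# Period matrices of Kuga-Satake type with real multiplication: definitions

In the intended use `K` is the field of the algebraic numbers, `X` is a K3 surface over `K` (or a
projective hyper-Kähler variety), `T` its transcendental part, whose Hodge endomorphism algebra is a
totally real field `E`. The colours are the embeddings of `E`, the indices of a colour `σ` are an
orthonormal basis of the eigenspace `V_σ` of `T ⊗ K`, and the gamma matrices are the action of the
vectors on the tensor product of the spin representations of the `V_σ`. The matrix `x` is the period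
matrix of the Kuga-Satake variety of `X`, an element of the spin group of the Mumford-Tate group
acting on this tensor product, and `R` is the period matrix of `T`.
-/

namespace Pool.Agent.Q50.SR

open Pool.Agent.Q50.LR

variable {K : Type} [Field K] {n N e : ℕ}

/-- Coloured gamma matrices: the indices `i` have a colour `c i`. Those of the same colour satisfy the
Clifford relations, those of different colours commute. The representation is irreducible. -/
structure ColouredGamma (γ : Fin n → Matrix (Fin N) (Fin N) K) (c : Fin n → Fin e) : Prop where
  same : ∀ i j, c i = c j → γ i * γ j + γ j * γ i = (if i = j then (2 : K) else 0) • 1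
  diff : ∀ i j, c i ≠ c j → γ i * γ j = γ j * γ i
  schur : ∀ M, (∀ j, M * γ j = γ j * M) → ∃ s : K, M = s • 1

/-- The algebra generated by the products of two gamma matrices of the same colour. -/
def evenAlgebra (γ : Fin n → Matrix (Fin N) (Fin N) K) (c : Fin n → Fin e) :
    Subalgebra K (Matrix (Fin N) (Fin N) K) :=
  Algebra.adjoin K {y | ∃ i j, c i = c j ∧ y = γ i * γ j}

/-- The number of the indices which have the colour of `i`. -/
def classSize (c : Fin n → Fin e) (i : Fin n) : ℕ := (Finset.univ.filter fun j => c j = c i).card

/-- A matrix which respects the colours. -/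
def Respects {F : Type} [Zero F] (c : Fin n → Fin e) (R : Matrix (Fin n) (Fin n) F) : Prop :=
  ∀ i j, c i ≠ c j → R i j = 0

variable [Algebra K ℂ]

/-- The linear relations over `K` between the entries of `x` are those which hold for all the elements
of the even algebra. -/
def RelationsOfEvenAlgebra (γ : Fin n → Matrix (Fin N) (Fin N) K) (c : Fin n → Fin e)
    (x : GL (Fin N) ℂ) : Prop :=
  ∀ a : Matrix (Fin N) (Fin N) K, ∑ i, ∑ j, algebraMap K ℂ (a i j) * x i j = 0 ↔
    ∀ y ∈ evenAlgebra γ c, ∑ i, ∑ j, a i j * y i j = 0

/-- The group contains the product of the special orthogonal groups of the colours: the orthogonal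
matrices which respect the colours and the blocks of which have determinant one. -/
def ContainsColouredSO (c : Fin n → Fin e) (H : Subgroup (GL (Fin n) ℂ)) : Prop :=
  ∀ g : GL (Fin n) ℂ, (g : Matrix (Fin n) (Fin n) ℂ).transpose * g = 1 →
    Respects c (g : Matrix (Fin n) (Fin n) ℂ) →
    (∀ σ, ((g : Matrix (Fin n) (Fin n) ℂ).toSquareBlock c σ).det = 1) → g ∈ H

/-- The group contains the products of two unit vectors of the same colour. These products generate
the product of the spin groups of the colours. -/
def ContainsColouredSpin (γ : Fin n → Matrix (Fin N) (Fin N) K) (c : Fin n → Fin e)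
    (H : Subgroup (GL (Fin N) ℂ)) : Prop :=
  ∀ (σ : Fin e) (a b : Fin n → ℂ), (∀ i, c i ≠ σ → a i = 0) → (∀ i, c i ≠ σ → b i = 0) →
    ∑ i, a i * a i = 1 → ∑ i, b i * b i = 1 →
    ∃ h ∈ H, (h : Matrix (Fin N) (Fin N) ℂ) = vector γ a * vector γ b

end Pool.Agent.Q50.SR
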