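import Pool.Agent.Q50.SR.Sg

/-!
# The orthogonal algebra of coloured gamma matrices
-/

set_option linter.unusedSectionVars false
set_option maxHeartbeats 4000000
set_option synthInstance.maxHeartbeats 400000

namespace Pool.Agent.Q50.SR

variable {F R κ : Type*} [Field F] [CharZero F] [Ring R] [Algebra F R] {n : ℕ} {γ : Fin n → R}
  {c : Fin n → κ}

/-- the relations of coloured gamma matrices -/
structure CR (F : Type*) {R κ : Type*} [Field F] [Ring R] [Algebra F R] {n : ℕ} (γ : Fin n → R)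
    (c : Fin n → κ) : Prop where
  same : ∀ i j, c i = c j → γ i * γ j + γ j * γ i = (if i = j then (2 : F) else 0) • 1
  diff : ∀ i j, c i ≠ c j → γ i * γ j = γ j * γ i

/-- block matrices -/
def Blk {F κ : Type*} [Zero F] {n : ℕ} (c : Fin n → κ) (Z : Matrix (Fin n) (Fin n) F) : Prop :=
  ∀ i j, c i ≠ c j → Z i j = 0

theorem CR.comm3 (hγ : CR F γ c) {a b : Fin n} (hab : c a = c b) (k : Fin n) :
    γ a * γ b * γ k - γ k * (γ a * γ b) =
      (if b = k then (2 : F) else 0) • γ a - (if a = k then (2 : F) else 0) • γ b := by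
  by_cases hk : c a = c k
  · have h1 : γ a * γ b * γ k - γ k * (γ a * γ b) =
        γ a * (γ b * γ k + γ k * γ b) - (γ a * γ k + γ k * γ a) * γ b := by
      noncomm_ring
    rw [h1, hγ.same b k (hab.symm.trans hk), hγ.same a k hk, mul_smul_comm, mul_one,
      smul_mul_assoc, one_mul]
  · have h1 : γ a * γ k = γ k * γ a := hγ.diff a k hk
    have h2 : γ b * γ k = γ k * γ b := hγ.diff b k fun h => hk (hab.trans h)
    have h3 : a ≠ k := fun h => hk (by rw [h])
    have h4 : b ≠ k := fun h => hk (by rw [hab, h])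
    rw [if_neg h3, if_neg h4, zero_smul, zero_smul, sub_zero, mul_assoc, h2, ← mul_assoc, h1,
      mul_assoc, sub_self]

theorem CR.sg_comm (hγ : CR F γ c) {Z : Matrix (Fin n) (Fin n) F} (hZ : Blk c Z) (k : Fin n) :
    sg γ Z * γ k - γ k * sg γ Z = ∑ i, ((2 : F)⁻¹ * (Z i k - Z k i)) • γ i := by
  have h1 : sg γ Z * γ k - γ k * sg γ Z =
      (4 : F)⁻¹ • ∑ i, ∑ j, Z i j • (γ i * γ j * γ k - γ k * (γ i * γ j)) := by
    rw [sg_apply, smul_mul_assoc, mul_smul_comm, ← smul_sub, Finset.sum_mul, Finset.mul_sum,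
      ← Finset.sum_sub_distrib]
    congr 1
    refine Finset.sum_congr rfl fun i _ => ?_
    rw [Finset.sum_mul, Finset.mul_sum, ← Finset.sum_sub_distrib]
    refine Finset.sum_congr rfl fun j _ => ?_
    rw [smul_mul_assoc, mul_smul_comm, ← smul_sub]
  have h2 : ∑ i, ∑ j, Z i j • (γ i * γ j * γ k - γ k * (γ i * γ j)) =
      ∑ i, (2 * Z i k) • γ i - ∑ i, (2 * Z k i) • γ i := by
    have h3 : ∀ i j, Z i j • (γ i * γ j * γ k - γ k * (γ i * γ j)) =
        (Z i j * (if j = k then (2 : F) else 0)) • γ i -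
          (Z i j * (if i = k then (2 : F) else 0)) • γ j := fun i j => by
      by_cases hij : c i = c j
      · rw [hγ.comm3 hij, smul_sub, smul_smul, smul_smul]
      · rw [hZ i j hij, zero_smul, zero_mul, zero_mul, zero_smul, zero_smul, sub_zero]
    simp only [h3, Finset.sum_sub_distrib]
    congr 1
    · refine Finset.sum_congr rfl fun i _ => ?_
      rw [Finset.sum_eq_single k]
      · rw [if_pos rfl, mul_comm]
      · intro j _ hj
        rw [if_neg hj, mul_zero, zero_smul]
      · intro h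
        exact absurd (Finset.mem_univ _) h
    · rw [Finset.sum_eq_single k]
      · refine Finset.sum_congr rfl fun j _ => ?_
        rw [if_pos rfl, mul_comm]
      · intro i _ hi
        refine Finset.sum_eq_zero fun j _ => ?_
        rw [if_neg hi, mul_zero, zero_smul]
      · intro h
        exact absurd (Finset.mem_univ _) h
  rw [h1, h2, ← Finset.sum_sub_distrib, Finset.smul_sum]
  refine Finset.sum_congr rfl fun i _ => ?_
  rw [← sub_smul, smul_smul]
  congr 1
  have h4 : (4 : F) ≠ 0 := by norm_num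
  have h5 : (2 : F) ≠ 0 := by norm_num
  field_simp
  ring

theorem CR.sg_skew (hγ : CR F γ c) {Z : Matrix (Fin n) (Fin n) F} (hZ : Skew Z) (hB : Blk c Z)
    (k : Fin n) : sg γ Z * γ k - γ k * sg γ Z = ∑ i, Z i k • γ i := by
  rw [hγ.sg_comm hB]
  refine Finset.sum_congr rfl fun i _ => ?_
  congr 1
  rw [hZ.apply i k]
  have h5 : (2 : F) ≠ 0 := by norm_num
  field_simp
  ring

theorem CR.sg_lie (hγ : CR F γ c) {Z Z' : Matrix (Fin n) (Fin n) F} (hZ : Skew Z)
    (hB : Blk c Z) : sg γ (Z * Z' - Z' * Z) = sg γ Z * sg γ Z' - sg γ Z' * sg γ Z := by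
  have h1 : sg γ Z * sg γ Z' - sg γ Z' * sg γ Z = (4 : F)⁻¹ • ∑ i, ∑ j, Z' i j •
      ((sg γ Z * γ i - γ i * sg γ Z) * γ j + γ i * (sg γ Z * γ j - γ j * sg γ Z)) := by
    rw [sg_apply Z', mul_smul_comm, smul_mul_assoc, ← smul_sub, Finset.mul_sum, Finset.sum_mul,
      ← Finset.sum_sub_distrib]
    congr 1
    refine Finset.sum_congr rfl fun i _ => ?_
    rw [Finset.mul_sum, Finset.sum_mul, ← Finset.sum_sub_distrib]
    refine Finset.sum_congr rfl fun j _ => ?_
    rw [smul_mul_assoc, mul_smul_comm, ← smul_sub]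
    congr 1
    noncomm_ring
  rw [h1, sg_apply]
  congr 1
  have h2 : ∀ i j, Z' i j •
      ((sg γ Z * γ i - γ i * sg γ Z) * γ j + γ i * (sg γ Z * γ j - γ j * sg γ Z)) =
      ∑ k, (Z k i * Z' i j) • (γ k * γ j) + ∑ k, (Z' i j * Z k j) • (γ i * γ k) := by
    intro i j
    rw [hγ.sg_skew hZ hB, hγ.sg_skew hZ hB, Finset.sum_mul, Finset.mul_sum, smul_add,
      Finset.smul_sum, Finset.smul_sum]
    congr 1
    · refine Finset.sum_congr rfl fun k _ => ?_
      rw [smul_mul_assoc, smul_smul, mul_comm]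
    · refine Finset.sum_congr rfl fun k _ => ?_
      rw [mul_smul_comm, smul_smul]
  simp only [h2, Finset.sum_add_distrib, Matrix.sub_apply, sub_smul, Finset.sum_sub_distrib]
  rw [sub_eq_add_neg]
  congr 1
  · rw [Finset.sum_comm (f := fun i j => ∑ k, (Z k i * Z' i j) • (γ k * γ j))]
    rw [Finset.sum_comm]
    refine Finset.sum_congr rfl fun j _ => ?_
    rw [Finset.sum_comm]
    refine Finset.sum_congr rfl fun k _ => ?_
    rw [Matrix.mul_apply, Finset.sum_smul]
  · rw [← Finset.sum_neg_distrib]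
    refine Finset.sum_congr rfl fun i _ => ?_
    rw [Finset.sum_comm, ← Finset.sum_neg_distrib]
    refine Finset.sum_congr rfl fun k _ => ?_
    rw [Matrix.mul_apply, Finset.sum_smul, ← Finset.sum_neg_distrib]
    refine Finset.sum_congr rfl fun j _ => ?_
    rw [← neg_smul, hZ.apply k j]
    congr 1
    ring

/-- vectors of one colour are linearly independent -/
theorem CR.indep [Nontrivial R] (hγ : CR F γ c) {a : Fin n → F} {k : Fin n}
    (ha : ∀ i, c i ≠ c k → a i = 0) (h : ∑ i, a i • γ i = 0) : a k = 0 := by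
  have h1 : (∑ i, a i • γ i) * γ k + γ k * (∑ i, a i • γ i) = (2 * a k) • (1 : R) := by
    rw [Finset.sum_mul, Finset.mul_sum, ← Finset.sum_add_distrib, Finset.sum_eq_single k]
    · rw [smul_mul_assoc, mul_smul_comm, ← smul_add, hγ.same k k rfl, if_pos rfl, smul_smul,
        mul_comm]
    · intro i _ hi
      by_cases hc : c i = c k
      · rw [smul_mul_assoc, mul_smul_comm, ← smul_add, hγ.same i k hc, if_neg hi, zero_smul,
          smul_zero]
      · rw [ha i hc, zero_smul, zero_mul, mul_zero, add_zero]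
    · intro h
      exact absurd (Finset.mem_univ _) h
  rw [h, zero_mul, mul_zero, add_zero, eq_comm, smul_eq_zero] at h1
  rcases h1 with h2 | h2
  · exact (mul_eq_zero.1 h2).resolve_left two_ne_zero
  · exact absurd h2 one_ne_zero

theorem CR.sg_inj [Nontrivial R] (hγ : CR F γ c) {Z Z' : Matrix (Fin n) (Fin n) F} (hZ : Skew Z)
    (hB : Blk c Z) (hZ' : Skew Z') (hB' : Blk c Z') (h : sg γ Z = sg γ Z') : Z = Z' := by
  ext i k
  by_cases hik : c i = c k
  · have h1 := hγ.sg_skew hZ hB k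
    rw [h, hγ.sg_skew hZ' hB' k, eq_comm, ← sub_eq_zero, ← Finset.sum_sub_distrib] at h1
    have h2 : ∑ i, (Z i k - Z' i k) • γ i = 0 := by
      rw [← h1]
      exact Finset.sum_congr rfl fun i _ => sub_smul _ _ _
    refine sub_eq_zero.1 (hγ.indep (k := i) (a := fun i => Z i k - Z' i k) (fun j hj => ?_) h2)
    have h3 : c j ≠ c k := fun h0 => hj (h0.trans hik.symm)
    change Z j k - Z' j k = 0
    rw [hB j k h3, hB' j k h3, sub_zero]
  · rw [hB i k hik, hB' i k hik]

theorem sg_memC {Z : Matrix (Fin n) (Fin n) F} (hZ : Skew Z) (hB : Blk c Z) :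
    sg γ Z ∈ Submodule.span F {y | ∃ i j, c i = c j ∧ y = γ i * γ j - γ j * γ i} := by
  have h1 : sg γ Z = (8 : F)⁻¹ • ∑ i, ∑ j, Z i j • (γ i * γ j - γ j * γ i) := by
    have h2 : ∑ i, ∑ j, Z i j • (γ i * γ j - γ j * γ i) =
        (2 : F) • ∑ i, ∑ j, Z i j • (γ i * γ j) := by
      simp only [smul_sub, Finset.sum_sub_distrib]
      rw [two_smul, sub_eq_add_neg]
      congr 1
      rw [Finset.sum_comm, ← Finset.sum_neg_distrib]
      refine Finset.sum_congr rfl fun i _ => ?_
      rw [← Finset.sum_neg_distrib]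
      refine Finset.sum_congr rfl fun j _ => ?_
      rw [← neg_smul, hZ.apply i j, neg_neg]
    rw [h2, smul_smul, sg_apply]
    congr 1
    norm_num
  rw [h1]
  refine Submodule.smul_mem _ _ (Submodule.sum_mem _ fun i _ => Submodule.sum_mem _ fun j _ => ?_)
  by_cases hij : c i = c j
  · exact Submodule.smul_mem _ _ (Submodule.subset_span ⟨i, j, hij, rfl⟩)
  · rw [hB i j hij, zero_smul]
    exact Submodule.zero_mem _

theorem skw_blk {i j : Fin n} (hij : c i = c j) : Blk c (skw F i j) := by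
  intro a b hab
  unfold skw
  rw [Matrix.sub_apply]
  have h1 : Matrix.single i j (1 : F) a b = 0 := by
    refine Matrix.single_apply_of_ne _ _ _ _ _ fun h => ?_
    rw [← h.1, ← h.2] at hab
    exact hab hij
  have h2 : Matrix.single j i (1 : F) a b = 0 := by
    refine Matrix.single_apply_of_ne _ _ _ _ _ fun h => ?_
    rw [← h.1, ← h.2] at hab
    exact hab hij.symm
  rw [h1, h2, sub_zero]

theorem Blk.mul {Z Z' : Matrix (Fin n) (Fin n) F} (hZ : Blk c Z) (hZ' : Blk c Z') :
    Blk c (Z * Z') := by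
  intro i j hij
  rw [Matrix.mul_apply]
  refine Finset.sum_eq_zero fun k _ => ?_
  by_cases hik : c i = c k
  · rw [hZ' k j fun h => hij (hik.trans h), mul_zero]
  · rw [hZ i k hik, zero_mul]

theorem Blk.sub {Z Z' : Matrix (Fin n) (Fin n) F} (hZ : Blk c Z) (hZ' : Blk c Z') :
    Blk c (Z - Z') := fun i j hij => by
  rw [Matrix.sub_apply, hZ i j hij, hZ' i j hij, sub_zero]

theorem Blk.smul {Z : Matrix (Fin n) (Fin n) F} (hZ : Blk c Z) (r : F) : Blk c (r • Z) :=
  fun i j hij => by rw [Matrix.smul_apply, hZ i j hij, smul_zero]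

theorem Blk.add {Z Z' : Matrix (Fin n) (Fin n) F} (hZ : Blk c Z) (hZ' : Blk c Z') :
    Blk c (Z + Z') := fun i j hij => by
  rw [Matrix.add_apply, hZ i j hij, hZ' i j hij, add_zero]

theorem Blk.transpose {Z : Matrix (Fin n) (Fin n) F} (hZ : Blk c Z) : Blk c Z.transpose :=
  fun i j hij => hZ j i (Ne.symm hij)

theorem Blk.zero : Blk c (0 : Matrix (Fin n) (Fin n) F) := fun _ _ _ => rfl

end Pool.Agent.Q50.SR
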