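import Pool.Agent.Q50.SR.Col2

/-!
# Coloured gamma matrices: rigidity for one colour
-/

set_option linter.unusedSectionVars false
set_option maxHeartbeats 4000000
set_option synthInstance.maxHeartbeats 400000

namespace Pool.Agent.Q50.SR

open Module

section enum

variable {n : ℕ} {κ : Type*} [DecidableEq κ]

/-- the number of the indices of a colour -/
def cnt (c : Fin n → κ) (σ : κ) : ℕ := Fintype.card {i : Fin n // c i = σ}

/-- the indices of a colour -/
noncomputable def enm (c : Fin n → κ) (σ : κ) : Fin (cnt c σ) ≃ {i : Fin n // c i = σ} :=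
  (Fintype.equivFin _).symm

end enum

variable {K S κ : Type*} [Field K] [CharZero K] [AddCommGroup S] [Module K S] {n : ℕ}
  [DecidableEq κ] {γ : Fin n → Module.End K S} {c : Fin n → κ}

/-- the gamma matrices of a colour -/
noncomputable def gc (γ : Fin n → Module.End K S) (c : Fin n → κ) (σ : κ)
    (a : Fin (cnt c σ)) : Module.End K S := γ (enm c σ a).1

theorem gc_col (σ : κ) (a : Fin (cnt c σ)) : c (enm c σ a).1 = σ := (enm c σ a).2

theorem gc_surj {σ : κ} {i : Fin n} (hi : c i = σ) : ∃ a, gc γ c σ a = γ i :=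
  ⟨(enm c σ).symm ⟨i, hi⟩, by unfold gc; rw [Equiv.apply_symm_apply]⟩

namespace CRel

variable (h : CRel γ c)

include h

theorem gc_rel (σ : κ) (a b : Fin (cnt c σ)) : gc γ c σ a * gc γ c σ b +
    gc γ c σ b * gc γ c σ a = (if a = b then (2 : K) else 0) • 1 := by
  unfold gc
  rw [h.same _ _ ((gc_col σ a).trans (gc_col σ b).symm)]
  by_cases hab : a = b
  · rw [hab, if_pos rfl, if_pos rfl]
  · rw [if_neg hab, if_neg]
    intro h1
    exact hab ((enm c σ).injective (Subtype.ext h1))

omit h in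
theorem LamS_Lam (σ : κ) : LamS γ c σ ≤ Lam (Submodule.span K (Set.range (gc γ c σ))) := by
  refine Submodule.span_le.2 ?_
  rintro _ ⟨i, j, hi, hj, rfl⟩
  obtain ⟨a, ha⟩ := gc_surj (γ := γ) hi
  obtain ⟨b, hb⟩ := gc_surj (γ := γ) hj
  exact Submodule.subset_span ⟨γ i, Submodule.subset_span ⟨a, ha⟩, γ j,
    Submodule.subset_span ⟨b, hb⟩, rfl⟩

/-- an element of the algebra of a colour which commutes with the vectors of the colour is zero -/
theorem LamS_zero [FiniteDimensional K S] [Nontrivial S] {σ : κ} {z : Module.End K S}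
    (hz : z ∈ LamS γ c σ) (hc : ∀ k, c k = σ → z * γ k = γ k * z) : z = 0 := by
  obtain ⟨ν, hν⟩ := h.schur z fun k => by
    by_cases hk : c k = σ
    · exact hc k hk
    · exact h.LamS_comm hz hk
  have h1 := LamC_tn (LamS_le σ hz)
  rw [hν, tn_smul, h.tn_one, mul_one] at h1
  rw [hν, h1, zero_smul]

/-- **Rigidity for one colour** -/
theorem surj [IsAlgClosed K] [FiniteDimensional K S] [Nontrivial S] (σ : κ) (h2 : cnt c σ ≠ 2)
    (h5 : cnt c σ ≠ 5) {L : Submodule K (Module.End K S)}
    (hLie : ∀ x ∈ L, ∀ y ∈ L, x * y - y * x ∈ L) (hL : L ≤ LamC γ c)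
    (hadj : ∀ i j, c i = σ → c j = σ →
      γ i * γ j ∈ Algebra.adjoin K (L : Set (Module.End K S))) :
    LamS γ c σ ≤ L.map (Ep γ c σ) := by
  classical
  set g := gc γ c σ with hg
  have hrel := h.gc_rel σ
  rw [← hg] at hrel
  set V := Submodule.span K (Set.range g) with hV
  have hcl : Cl V := cl_vec hrel
  have hgV : ∀ a, g a ∈ V := fun a => Submodule.subset_span ⟨a, rfl⟩
  set Lσ := L.map (Ep γ c σ) with hLσ
  have hLσV : Lσ ≤ LamS γ c σ := by
    rintro _ ⟨x, hx, rfl⟩
    exact h.Ep_mem σ (hL hx)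
  have hLσLie : ∀ x ∈ Lσ, ∀ y ∈ Lσ, x * y - y * x ∈ Lσ := by
    rintro _ ⟨x, hx, rfl⟩ _ ⟨y, hy, rfl⟩
    exact ⟨x * y - y * x, hLie x hx y hy, h.Ep_bracket σ (hL hx) (hL hy)⟩
  have hadj' : ∀ a b, g a * g b ∈ Algebra.adjoin K (Lσ : Set (Module.End K S)) := by
    intro a b
    have h3 := h.Ep_adjoin hL σ (hadj _ _ (gc_col σ a) (gc_col σ b))
    rwa [h.Ep_fix fun k hk => by
      have e1 : γ (enm c σ a).1 * γ k = γ k * γ (enm c σ a).1 :=
        h.diff _ k (fun h0 => hk (h0.symm.trans (gc_col σ a)))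
      have e2 : γ (enm c σ b).1 * γ k = γ k * γ (enm c σ b).1 :=
        h.diff _ k (fun h0 => hk (h0.symm.trans (gc_col σ b)))
      rw [mul_assoc, e2, ← mul_assoc, e1, mul_assoc]] at h3
  -- a minimal stable subspace
  obtain ⟨U, ⟨hU0, hU⟩, hmin⟩ := (wellFounded_lt (α := Submodule K S)).has_min
    {U : Submodule K S | U ≠ ⊥ ∧ ∀ a, ∀ s ∈ U, g a s ∈ U} ⟨⊤, top_ne_bot, fun _ _ _ => trivial⟩
  have hnt : Nontrivial U := Submodule.nontrivial_iff_ne_bot.2 hU0
  obtain ⟨s0, hs0, hs00⟩ := (Submodule.ne_bot_iff _).1 hU0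
  let g' : Fin (cnt c σ) → Module.End K U := fun a => (g a).restrict (hU a)
  have hg' : ∀ a (s : U), ((g' a s : U) : S) = g a s := fun a s => rfl
  have hrel' : ∀ a b, g' a * g' b + g' b * g' a = (if a = b then (2 : K) else 0) • 1 := by
    intro a b
    refine LinearMap.ext fun s => Subtype.ext ?_
    have h3 := congrArg (fun f : Module.End K S => f s) (hrel a b)
    exact h3
  have hirr' : ∀ W : Submodule K U, (∀ a, ∀ s ∈ W, g' a s ∈ W) → W = ⊥ ∨ W = ⊤ := by
    intro W hW
    by_cases hW0 : W = ⊥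
    · exact Or.inl hW0
    · right
      have h3 : W.map U.subtype ≤ U := by
        rintro _ ⟨x, _, rfl⟩
        exact x.2
      have h4 : U ≤ W.map U.subtype := by
        by_contra h5
        refine hmin (W.map U.subtype) ⟨?_, ?_⟩ (lt_of_le_not_ge h3 h5)
        · intro h6
          apply hW0
          rw [eq_bot_iff]
          intro x hx
          have h7 : (x : S) ∈ W.map U.subtype := ⟨x, hx, rfl⟩
          rw [h6, Submodule.mem_bot] at h7
          exact (Submodule.mem_bot K).2 (Subtype.ext h7)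
        · rintro a _ ⟨x, hx, rfl⟩
          exact ⟨g' a x, hW a x hx, rfl⟩
      rw [eq_top_iff]
      intro x _
      obtain ⟨y, hy, hyx⟩ := h4 x.2
      have h7 : y = x := Subtype.ext hyx
      rwa [← h7]
  let L' : Submodule K (Module.End K U) :=
    { carrier := {y | ∃ x ∈ Lσ, ∀ s : U, ((y s : U) : S) = x s}
      zero_mem' := ⟨0, Lσ.zero_mem, fun s => rfl⟩
      add_mem' := by
        rintro y z ⟨x, hx, hxy⟩ ⟨w, hw, hwz⟩
        refine ⟨x + w, Lσ.add_mem hx hw, fun s => ?_⟩
        rw [LinearMap.add_apply, LinearMap.add_apply, Submodule.coe_add, hxy, hwz]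
      smul_mem' := by
        rintro r y ⟨x, hx, hxy⟩
        refine ⟨r • x, Lσ.smul_mem r hx, fun s => ?_⟩
        rw [LinearMap.smul_apply, LinearMap.smul_apply, Submodule.coe_smul, hxy] }
  have hL' : ∀ y, y ∈ L' ↔ ∃ x ∈ Lσ, ∀ s : U, ((y s : U) : S) = x s := fun y => Iff.rfl
  have hLam' : ∀ x ∈ LamS γ c σ, ∃ y ∈ Lam (Submodule.span K (Set.range g')),
      ∀ s : U, ((y s : U) : S) = x s := by
    intro x hx
    induction hx using Submodule.span_induction with
    | mem x hx =>
      obtain ⟨i, j, hi, hj, rfl⟩ := hx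
      obtain ⟨a, ha⟩ := gc_surj (γ := γ) hi
      obtain ⟨b, hb⟩ := gc_surj (γ := γ) hj
      refine ⟨g' a * g' b - g' b * g' a, Submodule.subset_span ⟨g' a,
        Submodule.subset_span ⟨a, rfl⟩, g' b, Submodule.subset_span ⟨b, rfl⟩, rfl⟩, fun s => ?_⟩
      rw [← ha, ← hb]
      rfl
    | zero => exact ⟨0, Submodule.zero_mem _, fun s => rfl⟩
    | add x z _ _ hx hz =>
      obtain ⟨y, hy, hxy⟩ := hx
      obtain ⟨w, hw, hwz⟩ := hz
      refine ⟨y + w, Submodule.add_mem _ hy hw, fun s => ?_⟩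
      rw [LinearMap.add_apply, LinearMap.add_apply, Submodule.coe_add, hxy, hwz]
    | smul r x _ hx =>
      obtain ⟨y, hy, hxy⟩ := hx
      refine ⟨r • y, Submodule.smul_mem _ r hy, fun s => ?_⟩
      rw [LinearMap.smul_apply, LinearMap.smul_apply, Submodule.coe_smul, hxy]
  have key := rig_gen hrel' hirr' h2 h5 (L := L') (by
    rintro y ⟨x, hx, hxy⟩ z ⟨w, hw, hwz⟩
    refine ⟨x * w - w * x, hLσLie x hx w hw, fun s => ?_⟩
    rw [LinearMap.sub_apply, LinearMap.sub_apply, Module.End.mul_apply, Module.End.mul_apply,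
      Module.End.mul_apply, Module.End.mul_apply, Submodule.coe_sub, hxy, hwz, hwz, hxy]) (by
    rintro y ⟨x, hx, hxy⟩
    obtain ⟨z, hz, hxz⟩ := hLam' x (hLσV hx)
    have h3 : y = z := LinearMap.ext fun s => Subtype.ext ((hxy s).trans (hxz s).symm)
    rw [h3]
    exact hz) (by
    intro W hW
    have h3 : ∀ x ∈ Algebra.adjoin K (Lσ : Set (Module.End K S)), ∀ s ∈ W.map U.subtype,
        x s ∈ W.map U.subtype := by
      intro x hx
      induction hx using Algebra.adjoin_induction with
      | mem x hx =>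
        rintro _ ⟨s, hs, rfl⟩
        obtain ⟨z, hz, hxz⟩ := hLam' x (hLσV hx)
        exact ⟨z s, hW z ⟨x, hx, hxz⟩ s hs, hxz s⟩
      | algebraMap r =>
        intro s hs
        rw [Module.algebraMap_end_apply]
        exact Submodule.smul_mem _ _ hs
      | add x y _ _ hx hy =>
        intro s hs
        rw [LinearMap.add_apply]
        exact Submodule.add_mem _ (hx s hs) (hy s hs)
      | mul x y _ _ hx hy =>
        intro s hs
        rw [Module.End.mul_apply]
        exact hx _ (hy s hs)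
    have h4 : ∀ a b, ∀ s ∈ W, g' a (g' b s) ∈ W := by
      intro a b s hs
      obtain ⟨t, ht, hts⟩ := h3 _ (hadj' a b) s ⟨s, hs, rfl⟩
      have h5 : t = g' a (g' b s) := Subtype.ext hts
      rwa [h5] at ht
    have h5 : ∀ v ∈ Submodule.span K (Set.range g'), ∀ w ∈ Submodule.span K (Set.range g'),
        ∀ s ∈ W, v (w s) ∈ W := by
      intro v hv w hw s hs
      induction hv using Submodule.span_induction with
      | mem v hv =>
        obtain ⟨a, rfl⟩ := hv
        induction hw using Submodule.span_induction with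
        | mem w hw =>
          obtain ⟨b, rfl⟩ := hw
          exact h4 a b s hs
        | zero =>
          rw [LinearMap.zero_apply, map_zero]
          exact W.zero_mem
        | add x y _ _ hx hy =>
          rw [LinearMap.add_apply, map_add]
          exact W.add_mem hx hy
        | smul r x _ hx =>
          rw [LinearMap.smul_apply, map_smul]
          exact W.smul_mem _ hx
      | zero =>
        rw [LinearMap.zero_apply]
        exact W.zero_mem
      | add x y _ _ hx hy =>
        rw [LinearMap.add_apply]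
        exact W.add_mem hx hy
      | smul r x _ hx =>
        rw [LinearMap.smul_apply]
        exact W.smul_mem _ hx
    intro x hx
    induction hx using Submodule.span_induction with
    | mem x hx =>
      obtain ⟨v, hv, w, hw, rfl⟩ := hx
      intro s hs
      exact W.sub_mem (h5 v hv w hw s hs) (h5 w hw v hv s hs)
    | zero => exact fun s _ => W.zero_mem
    | add x y _ _ hx hy => exact fun s hs => W.add_mem (hx s hs) (hy s hs)
    | smul r x _ hx => exact fun s hs => W.smul_mem r (hx s hs))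
  -- the restriction is injective
  have hinjV : ∀ v ∈ V, (∀ s ∈ U, v s = 0) → v = 0 := by
    intro v hv hv0
    refine hcl.nd v hv fun w hw => ?_
    have hwU : ∀ s ∈ U, w s ∈ U := by
      intro s hs
      induction hw using Submodule.span_induction with
      | mem w hw =>
        obtain ⟨a, rfl⟩ := hw
        exact hU a s hs
      | zero => exact U.zero_mem
      | add x y _ _ hx hy => exact U.add_mem hx hy
      | smul r x _ hx => exact U.smul_mem r hx
    have h3 := congrArg (fun f : Module.End K S => f s0) (hcl.cl v hv w hw)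
    simp only [LinearMap.add_apply, Module.End.mul_apply, LinearMap.smul_apply,
      Module.End.one_apply] at h3
    rw [hv0 _ (hwU s0 hs0), hv0 s0 hs0, map_zero, add_zero] at h3
    exact (mul_eq_zero.1 ((smul_eq_zero.1 h3.symm).resolve_right hs00)).resolve_left two_ne_zero
  refine Submodule.span_le.2 ?_
  rintro _ ⟨i, j, hi, hj, rfl⟩
  rw [SetLike.mem_coe]
  obtain ⟨a, ha⟩ := gc_surj (γ := γ) hi
  obtain ⟨b, hb⟩ := gc_surj (γ := γ) hj
  have h3 : g' a * g' b - g' b * g' a ∈ L' := key (Submodule.subset_span ⟨g' a,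
    Submodule.subset_span ⟨a, rfl⟩, g' b, Submodule.subset_span ⟨b, rfl⟩, rfl⟩)
  obtain ⟨x, hx, hx'⟩ := h3
  have hmem : γ i * γ j - γ j * γ i ∈ LamS γ c σ := Submodule.subset_span ⟨i, j, hi, hj, rfl⟩
  have hz : γ i * γ j - γ j * γ i - x = 0 := by
    have hzS := Submodule.sub_mem _ hmem (hLσV hx)
    refine h.LamS_zero hzS fun k hk => ?_
    obtain ⟨d, hd⟩ := gc_surj (γ := γ) hk
    have h4 : ad (γ i * γ j - γ j * γ i - x) (g d) = 0 := by
      refine hinjV _ (hcl.ad_mem (LamS_Lam σ hzS) (hgV d)) fun s hs => ?_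
      have h5 : ∀ s ∈ U, (γ i * γ j - γ j * γ i - x) s = 0 := by
        intro s hs
        rw [LinearMap.sub_apply, ← hx' ⟨s, hs⟩, ← ha, ← hb, sub_eq_zero]
        rfl
      rw [ad_apply, LinearMap.sub_apply, Module.End.mul_apply, Module.End.mul_apply, h5 s hs,
        h5 _ (hU d s hs), map_zero, sub_zero]
    rw [← hd]
    exact sub_eq_zero.1 h4
  rw [sub_eq_zero.1 hz]
  exact hx

end CRel

end Pool.Agent.Q50.SR
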