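import Pool.Agent.Q50.SR.Ort
import Pool.Agent.Q50.SR.Col3
import Pool.Agent.Q50.SR.CSg
import Pool.Agent.Q50.SR.CDefs

/-!
# The product of the special orthogonal groups of the colours
-/

set_option linter.unusedSectionVars false
set_option maxHeartbeats 4000000
set_option synthInstance.maxHeartbeats 400000

namespace Pool.Agent.Q50.SR

open Matrix MvPolynomial Pool.Agent.Q50.LR

section emb

variable {n e : ℕ} {c : Fin n → Fin e} {σ : Fin e}

theorem sum_col {F : Fin n → ℂ} (hF : ∀ i, c i ≠ σ → F i = 0) :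
    ∑ i, F i = ∑ a, F (enm c σ a).1 := by
  rw [Equiv.sum_comp (enm c σ) (fun i => F i.1),
    ← Finset.sum_subtype (Finset.univ.filter fun i => c i = σ) (by simp) F]
  refine (Finset.sum_filter_of_ne fun i _ hi => ?_).symm
  by_contra h
  exact hi (hF i h)

/-- extension of a vector by zero -/
noncomputable def xt (c : Fin n → Fin e) (σ : Fin e) (a : Fin (cnt c σ) → ℂ) : Fin n → ℂ := fun i =>
  if h : c i = σ then a ((enm c σ).symm ⟨i, h⟩) else 0

theorem xt_in (a : Fin (cnt c σ) → ℂ) (k : Fin (cnt c σ)) : xt c σ a (enm c σ k).1 = a k := by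
  unfold xt
  rw [dif_pos (enm c σ k).2]
  congr 1
  exact (enm c σ).symm_apply_apply k

theorem xt_out (a : Fin (cnt c σ) → ℂ) {i : Fin n} (hi : c i ≠ σ) : xt c σ a i = 0 := dif_neg hi

theorem xt_dot (a b : Fin (cnt c σ) → ℂ) : xt c σ a ⬝ᵥ xt c σ b = a ⬝ᵥ b := by
  unfold dotProduct
  rw [sum_col (σ := σ) fun i hi => by rw [xt_out a hi, zero_mul]]
  exact Finset.sum_congr rfl fun k _ => by rw [xt_in, xt_in]

/-- extension of a matrix by the identity -/
noncomputable def em (c : Fin n → Fin e) (σ : Fin e)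
    (M : Matrix (Fin (cnt c σ)) (Fin (cnt c σ)) ℂ) : Matrix (Fin n) (Fin n) ℂ := fun i j =>
  if hi : c i = σ then
    (if hj : c j = σ then M ((enm c σ).symm ⟨i, hi⟩) ((enm c σ).symm ⟨j, hj⟩) else 0)
  else (if i = j then 1 else 0)

theorem em_in (M : Matrix (Fin (cnt c σ)) (Fin (cnt c σ)) ℂ) (a b : Fin (cnt c σ)) :
    em c σ M (enm c σ a).1 (enm c σ b).1 = M a b := by
  unfold em
  rw [dif_pos (enm c σ a).2, dif_pos (enm c σ b).2]
  congr 1
  · exact (enm c σ).symm_apply_apply a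
  · exact (enm c σ).symm_apply_apply b

theorem em_out (M : Matrix (Fin (cnt c σ)) (Fin (cnt c σ)) ℂ) {i : Fin n} (hi : c i ≠ σ)
    (j : Fin n) : em c σ M i j = if i = j then 1 else 0 := dif_neg hi

theorem em_out' (M : Matrix (Fin (cnt c σ)) (Fin (cnt c σ)) ℂ) (a : Fin (cnt c σ)) {j : Fin n}
    (hj : c j ≠ σ) : em c σ M (enm c σ a).1 j = 0 := by
  unfold em
  rw [dif_pos (enm c σ a).2, dif_neg hj]

theorem col_ind {i : Fin n} (hi : c i = σ) : ∃ a, (enm c σ a).1 = i :=
  ⟨(enm c σ).symm ⟨i, hi⟩, by rw [Equiv.apply_symm_apply]⟩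

theorem em_mul_in (M : Matrix (Fin (cnt c σ)) (Fin (cnt c σ)) ℂ) (A : Matrix (Fin n) (Fin n) ℂ)
    (a : Fin (cnt c σ)) (j : Fin n) :
    (em c σ M * A) (enm c σ a).1 j = ∑ b, M a b * A (enm c σ b).1 j := by
  rw [Matrix.mul_apply, sum_col (σ := σ) fun k hk => by rw [em_out' M a hk, zero_mul]]
  exact Finset.sum_congr rfl fun b _ => by rw [em_in]

theorem em_mul_out (M : Matrix (Fin (cnt c σ)) (Fin (cnt c σ)) ℂ) (A : Matrix (Fin n) (Fin n) ℂ)
    {i : Fin n} (hi : c i ≠ σ) (j : Fin n) : (em c σ M * A) i j = A i j := by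
  rw [Matrix.mul_apply, Finset.sum_eq_single i]
  · rw [em_out M hi, if_pos rfl, one_mul]
  · intro k _ hk
    rw [em_out M hi, if_neg (Ne.symm hk), zero_mul]
  · intro h
    exact absurd (Finset.mem_univ _) h

theorem em_one : em c σ 1 = 1 := by
  ext i j
  by_cases hi : c i = σ
  · obtain ⟨a, rfl⟩ := col_ind hi
    by_cases hj : c j = σ
    · obtain ⟨b, rfl⟩ := col_ind hj
      rw [em_in, one_apply, one_apply]
      by_cases hab : a = b
      · rw [hab, if_pos rfl, if_pos rfl]
      · rw [if_neg hab, if_neg fun h => hab ((enm c σ).injective (Subtype.ext h))]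
    · rw [em_out' _ a hj, one_apply_ne]
      rintro rfl
      exact hj hi
  · rw [em_out _ hi, one_apply]

theorem em_mul (M M' : Matrix (Fin (cnt c σ)) (Fin (cnt c σ)) ℂ) :
    em c σ (M * M') = em c σ M * em c σ M' := by
  ext i j
  by_cases hi : c i = σ
  · obtain ⟨a, rfl⟩ := col_ind hi
    rw [em_mul_in]
    by_cases hj : c j = σ
    · obtain ⟨b, rfl⟩ := col_ind hj
      rw [em_in, Matrix.mul_apply]
      exact Finset.sum_congr rfl fun k _ => by rw [em_in]
    · rw [em_out' _ a hj]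
      refine (Finset.sum_eq_zero fun k _ => ?_).symm
      rw [em_out' _ k hj, mul_zero]
  · rw [em_mul_out _ _ hi, em_out _ hi, em_out _ hi]

theorem em_rm (a : Fin (cnt c σ) → ℂ) : em c σ (rm a) = rm (xt c σ a) := by
  have h1 : ∀ i j, rm (xt c σ a) i j = (1 : Matrix (Fin n) (Fin n) ℂ) i j -
      2 * (xt c σ a i * xt c σ a j) := fun i j => rfl
  have h2 : ∀ i j, rm a i j = (1 : Matrix (Fin (cnt c σ)) (Fin (cnt c σ)) ℂ) i j -
      2 * (a i * a j) := fun i j => rfl
  ext i j
  rw [h1]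
  by_cases hi : c i = σ
  · obtain ⟨k, rfl⟩ := col_ind hi
    by_cases hj : c j = σ
    · obtain ⟨l, rfl⟩ := col_ind hj
      rw [em_in, xt_in, xt_in, h2, ← em_one (c := c) (σ := σ), em_in]
    · rw [em_out' _ k hj, xt_out a hj, mul_zero, mul_zero, sub_zero, one_apply_ne]
      rintro rfl
      exact hj hi
  · rw [em_out _ hi, xt_out a hi, zero_mul, mul_zero, sub_zero, one_apply]

/-- the extension by the identity as a homomorphism of groups -/
noncomputable def emG (c : Fin n → Fin e) (σ : Fin e) : GL (Fin (cnt c σ)) ℂ →* GL (Fin n) ℂ :=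
  Units.map { toFun := em c σ, map_one' := em_one, map_mul' := em_mul }

theorem emG_coe (g : GL (Fin (cnt c σ)) ℂ) :
    ((emG c σ g : GL (Fin n) ℂ) : Matrix (Fin n) (Fin n) ℂ) =
      em c σ (g : Matrix (Fin (cnt c σ)) (Fin (cnt c σ)) ℂ) := rfl

end emb

variable {K : Type} [Field K] [Algebra K ℂ] {n e : ℕ} {c : Fin n → Fin e}

theorem jm_blk {σ : Fin e} {u a : Fin n → ℂ} (hu : ∀ i, c i ≠ σ → u i = 0)
    (ha : ∀ i, c i ≠ σ → a i = 0) : Blk c (jm u a) := by
  intro i j hij
  unfold jm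
  rw [Matrix.sub_apply, vecMulVec_apply, vecMulVec_apply]
  by_cases hi : c i = σ
  · have hj : c j ≠ σ := fun h => hij (hi.trans h.symm)
    rw [ha j hj, hu j hj, mul_zero, mul_zero, sub_zero]
  · rw [hu i hi, ha i hi, zero_mul, zero_mul, sub_zero]

theorem unit_sup {σ : Fin e} {a b u : Fin n → ℂ} {t : ℂ} (hc : (a ⬝ᵥ b) ^ 2 ≠ 1)
    (hct : Complex.cos t = a ⬝ᵥ b) (hbt : b = Complex.cos t • a + Complex.sin t • u)
    (ha : ∀ i, c i ≠ σ → a i = 0) (hb : ∀ i, c i ≠ σ → b i = 0) : ∀ i, c i ≠ σ → u i = 0 := by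
  have hs : Complex.sin t ≠ 0 := by
    intro h0
    have h1 := Complex.sin_sq_add_cos_sq t
    rw [h0, hct] at h1
    apply hc
    rw [← h1]
    ring
  intro i hi
  have h1 := congrFun hbt i
  rw [Pi.add_apply, Pi.smul_apply, Pi.smul_apply, ha i hi, hb i hi, smul_zero, zero_add,
    smul_eq_mul] at h1
  exact (mul_eq_zero.1 h1.symm).resolve_left hs

theorem pair_memC {H : Subgroup (GL (Fin n) ℂ)} (hH : IsAlgebraicGroup K H)
    (hL : ∀ Z : Matrix (Fin n) (Fin n) ℂ, Z.transpose = -Z → Blk c Z → Z ∈ LC H) {σ : Fin e}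
    {a b : Fin n → ℂ} (has : ∀ i, c i ≠ σ → a i = 0) (hbs : ∀ i, c i ≠ σ → b i = 0)
    (ha : a ⬝ᵥ a = 1) (hb : b ⬝ᵥ b = 1) : rf b hb * rf a ha ∈ H := by
  have key : ∀ (b : Fin n → ℂ) (_ : ∀ i, c i ≠ σ → b i = 0) (_ : b ⬝ᵥ b = 1) (_ : a ⬝ᵥ b = 1)
      (g : GL (Fin n) ℂ), (g : Matrix (Fin n) (Fin n) ℂ) = rm b * rm a → g ∈ H := by
    intro b hbs hb hc g hg
    have hwa : (b - a) ⬝ᵥ a = 0 := by
      rw [sub_dotProduct, dotProduct_comm b a, hc, ha, sub_self]
    have haw : a ⬝ᵥ (b - a) = 0 := by rw [dotProduct_comm, hwa]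
    have hww : (b - a) ⬝ᵥ (b - a) = 0 := by
      rw [dotProduct_sub, hwa, sub_dotProduct, hb, hc]
      norm_num
    have hJ2 : jm (b - a) a * jm (b - a) a = -vecMulVec (b - a) (b - a) := by
      rw [jm_sq, ha, hwa, haw, hww]
      module
    refine uni hH (hL _ (jm_skew (b - a) a) (jm_blk (σ := σ) (fun i hi => ?_) has)) ?_ 2 ?_
    · rw [Pi.sub_apply, has i hi, hbs i hi, sub_zero]
    · rw [hJ2, mul_neg, jm, sub_mul, vecMulVec_mul_vecMulVec, vecMulVec_mul_vecMulVec, haw, hww,
        zero_smul, vecMulVec_zero, vecMulVec_zero, sub_zero, neg_zero]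
    · rw [hg, rm_mul, hJ2, jm, dotProduct_comm b a, hc]
      ext i j
      simp only [Matrix.add_apply, Matrix.sub_apply, Matrix.smul_apply, Matrix.neg_apply,
        vecMulVec_apply, smul_eq_mul, Pi.sub_apply]
      ring
  by_cases hc : (a ⬝ᵥ b) ^ 2 = 1
  · have hc' : (a ⬝ᵥ b - 1) * (a ⬝ᵥ b + 1) = 0 := by linear_combination hc
    rcases mul_eq_zero.1 hc' with h1 | h1
    · exact key b hbs hb (sub_eq_zero.1 h1) _ rfl
    · replace h1 := eq_neg_of_add_eq_zero_left h1
      refine key (-b) (fun i hi => by rw [Pi.neg_apply, hbs i hi, neg_zero])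
        (by rw [neg_dotProduct_neg, hb]) (by rw [dotProduct_neg, h1, neg_neg]) _ ?_
      rw [rm_neg]
      rfl
  · obtain ⟨t, u, hu, hua, hct, hbt⟩ := unit_dec ha hb hc
    have hus := unit_sup hc hct hbt has hbs
    have hau : a ⬝ᵥ u = 0 := by rw [dotProduct_comm, hua]
    have hJ2 : jm u a * jm u a = -vecMulVec u u - vecMulVec a a := by
      rw [jm_sq, ha, hu, hua, hau]
      module
    refine rot hH (hL _ (jm_skew u a) (jm_blk hus has)) ?_ (2 * t) ?_
    · rw [hJ2, jm, mul_sub, mul_neg, sub_mul, sub_mul]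
      simp only [vecMulVec_mul_vecMulVec, ha, hu, hua, hau, zero_smul, one_smul, vecMulVec_zero]
      abel
    · have h1 := Complex.sin_sq_add_cos_sq t
      have h2 : (rf b hb * rf a ha : GL (Fin n) ℂ) = rm b * rm a := rfl
      rw [h2, rm_mul, hJ2, jm, dotProduct_comm b a, ← hct, Complex.sin_two_mul,
        Complex.cos_two_mul]
      ext i j
      have hbi : ∀ i, b i = Complex.cos t * a i + Complex.sin t * u i := fun i =>
        congrFun hbt i
      simp only [Matrix.add_apply, Matrix.sub_apply, Matrix.smul_apply, Matrix.neg_apply,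
        vecMulVec_apply, smul_eq_mul, hbi]
      linear_combination (-2 * u i * u j) * h1

/-- an algebraic group whose Lie algebra contains the skew-symmetric matrices which respect the
colours contains the product of the special orthogonal groups of the colours -/
theorem so_memC {H : Subgroup (GL (Fin n) ℂ)} (hH : IsAlgebraicGroup K H)
    (hL : ∀ Z : Matrix (Fin n) (Fin n) ℂ, Z.transpose = -Z → Blk c Z → Z ∈ LC H) :
    ContainsColouredSO c H := by
  intro g hg hB hdet
  have hEE : ∀ σ, EE (cnt c σ) ≤ H.comap (emG c σ) := by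
    intro σ
    refine (Subgroup.closure_le _).2 ?_
    rintro _ ⟨a, b, ha, hb, rfl⟩
    have ha' : xt c σ a ⬝ᵥ xt c σ a = 1 := by rw [xt_dot, ha]
    have hb' : xt c σ b ⬝ᵥ xt c σ b = 1 := by rw [xt_dot, hb]
    have h1 := pair_memC hH hL (σ := σ) (fun i hi => xt_out b hi) (fun i hi => xt_out a hi) hb' ha'
    have h2 : emG c σ (rf a ha * rf b hb) = rf (xt c σ a) ha' * rf (xt c σ b) hb' := by
      refine Units.ext ?_
      change em c σ (rm a * rm b) = rm (xt c σ a) * rm (xt c σ b)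
      rw [em_mul, em_rm, em_rm]
    change emG c σ (rf a ha * rf b hb) ∈ H
    rw [h2]
    exact h1
  -- the blocks
  let bl : ∀ σ, Matrix (Fin (cnt c σ)) (Fin (cnt c σ)) ℂ := fun σ a b =>
    (g : Matrix (Fin n) (Fin n) ℂ) (enm c σ a).1 (enm c σ b).1
  have hbl : ∀ σ, (bl σ).transpose * bl σ = 1 := by
    intro σ
    ext a b
    rw [Matrix.mul_apply]
    have h1 := congrFun (congrFun hg (enm c σ a).1) (enm c σ b).1
    rw [Matrix.mul_apply, sum_col (σ := σ) fun i hi => by
      rw [Matrix.transpose_apply, hB i _ (by rw [(enm c σ a).2]; exact hi), zero_mul],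
      ← em_one (c := c) (σ := σ), em_in] at h1
    exact h1
  let bg : ∀ σ, GL (Fin (cnt c σ)) ℂ := fun σ =>
    ⟨bl σ, (bl σ).transpose, mul_eq_one_comm.1 (hbl σ), hbl σ⟩
  have hbg : ∀ σ, emG c σ (bg σ) ∈ H := by
    intro σ
    refine hEE σ (cartan (hbl σ) ?_)
    have h1 : ((bg σ : GL (Fin (cnt c σ)) ℂ) : Matrix (Fin (cnt c σ)) (Fin (cnt c σ)) ℂ) =
        ((g : Matrix (Fin n) (Fin n) ℂ).toSquareBlock c σ).submatrix (enm c σ) (enm c σ) := rfl
    rw [h1, Matrix.det_submatrix_equiv_self, hdet]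
  have key : ∀ s : Finset (Fin e), ∃ h ∈ H, ∀ i j, (h : Matrix (Fin n) (Fin n) ℂ) i j =
      if c i ∈ s then (g : Matrix (Fin n) (Fin n) ℂ) i j else
        (1 : Matrix (Fin n) (Fin n) ℂ) i j := by
    intro s
    induction s using Finset.induction_on with
    | empty => exact ⟨1, one_mem _, fun i j => by rw [if_neg (Finset.notMem_empty _)]; rfl⟩
    | insert σ s hσ ih =>
      obtain ⟨h, hh, hh'⟩ := ih
      refine ⟨emG c σ (bg σ) * h, mul_mem (hbg σ) hh, fun i j => ?_⟩
      rw [Units.val_mul, emG_coe]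
      by_cases hi : c i = σ
      · obtain ⟨a, rfl⟩ := col_ind hi
        rw [em_mul_in, if_pos (by rw [hi]; exact Finset.mem_insert_self _ _)]
        have h1 : ∀ b, (h : Matrix (Fin n) (Fin n) ℂ) (enm c σ b).1 j =
            (1 : Matrix (Fin n) (Fin n) ℂ) (enm c σ b).1 j := fun b => by
          rw [hh', if_neg]
          rw [(enm c σ b).2]
          exact hσ
        simp only [h1]
        by_cases hj : c j = σ
        · obtain ⟨b, rfl⟩ := col_ind hj
          rw [Finset.sum_eq_single b]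
          · rw [one_apply_eq, mul_one]
          · intro k _ hk
            rw [one_apply_ne fun h => hk ((enm c σ).injective (Subtype.ext h)), mul_zero]
          · intro h
            exact absurd (Finset.mem_univ _) h
        · rw [hB _ j fun h => hj (h.symm.trans hi)]
          refine Finset.sum_eq_zero fun b _ => ?_
          rw [one_apply_ne, mul_zero]
          intro h0
          exact hj (by rw [← h0]; exact (enm c σ b).2)
      · rw [em_mul_out _ _ hi, hh']
        have h1 : c i ∈ insert σ s ↔ c i ∈ s := by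
          rw [Finset.mem_insert]
          exact ⟨fun h => h.resolve_left hi, Or.inr⟩
        simp only [h1]
  obtain ⟨h, hh, hh'⟩ := key Finset.univ
  have h1 : h = g := by
    refine Units.ext ?_
    ext i j
    rw [hh', if_pos (Finset.mem_univ _)]
  rwa [← h1]

end Pool.Agent.Q50.SR
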