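import Pool.Agent.Q50.SR.Col4

/-!
# Coloured gamma matrices: the Casimir element
-/

set_option linter.unusedSectionVars false
set_option maxHeartbeats 4000000
set_option synthInstance.maxHeartbeats 400000

namespace Pool.Agent.Q50.SR

open Module LieAlgebra LieModule

attribute [local instance 100] LieRing.ofAssociativeRing

section cas

variable {K M R ι : Type*} [Field K] [LieRing M] [LieAlgebra K M] [Ring R] [Algebra K R]
  [Fintype ι] [DecidableEq ι]

/-- the Casimir operator of two maps -/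
def Om (b b' : ι → M) (p q : M →ₗ[K] R) : R := ∑ i, p (b i) * q (b' i)

/-- the Casimir operator commutes with the Lie algebra -/
theorem Om_comm {B : M → M → K} (b b' : Basis ι K M)
    (hb : ∀ x i, b.repr x i = B (b' i) x) (hb' : ∀ x i, b'.repr x i = B x (b i))
    (hB : ∀ x y z : M, B ⁅z, x⁆ y = -B x ⁅z, y⁆) {p q : M →ₗ[K] R} {z : M} {Z : R}
    (hp : ∀ x, Z * p x - p x * Z = p ⁅z, x⁆) (hq : ∀ x, Z * q x - q x * Z = q ⁅z, x⁆) :
    Z * Om b b' p q = Om b b' p q * Z := by
  rw [← sub_eq_zero]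
  unfold Om
  rw [Finset.mul_sum, Finset.sum_mul, ← Finset.sum_sub_distrib]
  have h1 : ∀ i, Z * (p (b i) * q (b' i)) - p (b i) * q (b' i) * Z =
      p ⁅z, b i⁆ * q (b' i) + p (b i) * q ⁅z, b' i⁆ := by
    intro i
    rw [← hp, ← hq]
    noncomm_ring
  simp only [h1, Finset.sum_add_distrib]
  have h2 : ∀ i, p ⁅z, b i⁆ = ∑ j, B (b' j) ⁅z, b i⁆ • p (b j) := by
    intro i
    conv_lhs => rw [← b.sum_repr ⁅z, b i⁆]
    rw [map_sum]
    refine Finset.sum_congr rfl fun j _ => ?_
    rw [map_smul, hb]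
  have h3 : ∀ i, q ⁅z, b' i⁆ = ∑ j, B ⁅z, b' i⁆ (b j) • q (b' j) := by
    intro i
    conv_lhs => rw [← b'.sum_repr ⁅z, b' i⁆]
    rw [map_sum]
    refine Finset.sum_congr rfl fun j _ => ?_
    rw [map_smul, hb']
  simp only [h2, h3, Finset.sum_mul, Finset.mul_sum, smul_mul_assoc, mul_smul_comm]
  rw [Finset.sum_comm, ← Finset.sum_add_distrib]
  refine Finset.sum_eq_zero fun j _ => ?_
  rw [← Finset.sum_add_distrib]
  refine Finset.sum_eq_zero fun i _ => ?_
  rw [hB, ← add_smul, add_neg_cancel, zero_smul]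

end cas

variable {K S κ : Type*} [Field K] [CharZero K] [AddCommGroup S] [Module K S] {n : ℕ}
  [DecidableEq κ] {γ : Fin n → Module.End K S} {c : Fin n → κ}

/-- the indices of a colour, as a list -/
def own (c : Fin n → κ) (σ : κ) : List (Fin n) := (List.finRange n).filter fun k => c k = σ

theorem mem_own {σ : κ} {k : Fin n} : k ∈ own c σ ↔ c k = σ := by
  unfold own
  rw [List.mem_filter]
  simp

namespace CRel

variable (h : CRel γ c)

include h

/-- the trace form is nondegenerate on the algebra of a colour -/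
theorem tn_nd [FiniteDimensional K S] [Nontrivial S] {τ : κ} {y : Module.End K S}
    (hy : y ∈ LamS γ c τ) (hw : ∀ w ∈ LamS γ c τ, tn (w * y) = 0) : y = 0 := by
  set g := gc γ c τ with hg
  have hrel := h.gc_rel τ
  rw [← hg] at hrel
  have hcl : Cl (Submodule.span K (Set.range g)) := cl_vec hrel
  have hgV : ∀ a, g a ∈ Submodule.span K (Set.range g) := fun a => Submodule.subset_span ⟨a, rfl⟩
  refine h.LamS_zero hy fun k hk => ?_
  obtain ⟨b, hb⟩ := gc_surj (γ := γ) hk
  rw [← hb]
  have h1 : ad y (g b) = 0 := by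
    have hV := hcl.ad_mem (LamS_Lam τ hy) (hgV b)
    refine hcl.nd _ hV fun v hv => ?_
    rw [bf_comm]
    induction hv using Submodule.span_induction with
    | mem v hv =>
      obtain ⟨a, rfl⟩ := hv
      have h2 := hw (g a * g b - g b * g a)
        (Submodule.subset_span ⟨_, _, gc_col τ a, gc_col τ b, rfl⟩)
      have h3 : tn (g b * g a * y) = tn (g a * (y * g b)) := by
        rw [mul_assoc, tn_comm, mul_assoc]
      rw [sub_mul, tn_sub, h3, mul_assoc, ← tn_sub, ← mul_sub] at h2
      have h4 : g b * y - y * g b = -ad y (g b) := by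
        rw [ad_apply]
        abel
      rw [h4, mul_neg, ← neg_one_smul K, tn_smul] at h2
      rw [bf_eq_tn]
      exact (mul_eq_zero.1 h2).resolve_left (neg_ne_zero.2 one_ne_zero)
    | zero => exact bf_zero' _
    | add x y _ _ hx hy =>
      rw [bf_comm, bf_add, bf_comm _ x, bf_comm _ y, hx, hy, add_zero]
    | smul r x _ hx => rw [bf_smul', hx, mul_zero]
  exact sub_eq_zero.1 h1

/-- **Rigidity** for coloured gamma matrices: a Lie subalgebra of the orthogonal algebra which
generates the same associative algebra is everything. -/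
theorem rigid [IsAlgClosed K] [FiniteDimensional K S] [Nontrivial S] [Fintype κ]
    (h3 : ∀ i, 3 ≤ cnt c (c i)) (h5 : ∀ i, cnt c (c i) ≠ 5) {L : Submodule K (Module.End K S)}
    (hLie : ∀ x ∈ L, ∀ y ∈ L, x * y - y * x ∈ L) (hL : L ≤ LamC γ c)
    (hadj : ∀ i j, c i = c j → γ i * γ j ∈ Algebra.adjoin K (L : Set (Module.End K S))) :
    LamC γ c ≤ L := by
  classical
  let M := mkL L hLie
  have hadj' : LamC γ c ≤ Subalgebra.toSubmodule
      (Algebra.adjoin K (L : Set (Module.End K S))) := by
    refine Submodule.span_le.2 ?_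
    rintro _ ⟨i, j, hij, rfl⟩
    exact Subalgebra.sub_mem _ (hadj i j hij) (hadj j i hij.symm)
  have htriv : HasTrivialRadical K M := h.triv h3 hLie hL hadj'
  have hnd := IsKilling.killingForm_nondegenerate K M
  let b := finBasis K M
  let b' := LinearMap.BilinForm.dualBasis (killingForm K M) hnd b
  have hb' : ∀ x i, b'.repr x i = killingForm K M x (b i) := fun x i =>
    LinearMap.BilinForm.dualBasis_repr_apply _ b x i
  have hb : ∀ x i, b.repr x i = killingForm K M (b' i) x := by
    intro x i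
    conv_rhs => rw [← b.sum_repr x]
    rw [map_sum, Finset.sum_eq_single i]
    · rw [map_smul, LinearMap.BilinForm.apply_dualBasis_left, if_pos rfl, smul_eq_mul, mul_one]
    · intro j _ hj
      rw [map_smul, LinearMap.BilinForm.apply_dualBasis_left, if_neg hj, smul_zero]
    · intro h
      exact absurd (Finset.mem_univ _) h
  have hB : ∀ x y z : M, killingForm K M ⁅z, x⁆ y = -killingForm K M x ⁅z, y⁆ := by
    intro x y z
    rw [← lie_skew, map_neg, LinearMap.neg_apply, LieModule.traceForm_apply_lie_apply]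
  let P : κ → M →ₗ[K] Module.End K S := fun σ => (Ep γ c σ).comp M.toSubmodule.subtype
  have hP : ∀ σ x, P σ x = Ep γ c σ x.1 := fun σ x => rfl
  have hPinv : ∀ σ (z x : M), z.1 * P σ x - P σ x * z.1 = P σ ⁅z, x⁆ := by
    intro σ z x
    have h6 : P σ ⁅z, x⁆ = Ep γ c σ (z.1 * x.1 - x.1 * z.1) := rfl
    rw [h6, h.Ep_bracket σ (hL z.2) (hL x.2), hP]
    have h7 := Bo_comm (fun k hk => h.Ep_comm σ x.1 hk) (h.sub_mem_Bo σ (hL z.2))
    rw [mul_sub, sub_mul] at h7
    have h8 : z.1 * Ep γ c σ x.1 - Ep γ c σ x.1 * z.1 = Ep γ c σ z.1 * Ep γ c σ x.1 -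
        Ep γ c σ x.1 * Ep γ c σ z.1 := by
      rw [sub_eq_sub_iff_add_eq_add]
      rw [sub_eq_sub_iff_add_eq_add] at h7
      rw [h7.symm]
      abel
    exact h8
  refine Submodule.span_le.2 ?_
  rintro _ ⟨i, j, hij, rfl⟩
  rw [SetLike.mem_coe]
  have h2 : cnt c (c i) ≠ 2 := by have := h3 i; omega
  set τ := c i with hτ
  have hsurj : LamS γ c τ ≤ L.map (Ep γ c τ) := h.surj τ h2 (h5 i) hLie hL
    fun i' j' hi hj => hadj i' j' (hi.trans hj.symm)
  -- the element of `L`
  let X : Module.End K S →ₗ[K] Module.End K S :=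
    { toFun := fun y => ∑ l, tn (P τ (b' l) * y) • (b l : Module.End K S)
      map_add' := fun y z => by
        rw [← Finset.sum_add_distrib]
        exact Finset.sum_congr rfl fun l _ => by rw [mul_add, tn_add, add_smul]
      map_smul' := fun r y => by
        rw [RingHom.id_apply, Finset.smul_sum]
        exact Finset.sum_congr rfl fun l _ => by rw [mul_smul_comm, tn_smul, mul_smul] }
  have hX : ∀ y, X y = ∑ l, tn (P τ (b' l) * y) • (b l : Module.End K S) := fun y => rfl
  have hXL : ∀ y, X y ∈ L := by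
    intro y
    rw [hX]
    exact Submodule.sum_mem _ fun l _ => L.smul_mem _ (b l).2
  have hXσ : ∀ σ, σ ≠ τ → ∀ y ∈ LamS γ c τ, Ep γ c σ (X y) = 0 := by
    intro σ hστ y hy
    have hyσ : ∀ w ∈ LamS γ c σ, w * y = y * w := by
      intro w hw
      have h6 : y ∈ Bo γ c σ := by
        have h7 := h.sub_mem_Bo σ (LamS_le τ hy)
        rwa [h.Ep_ne hστ.symm hy, sub_zero] at h7
      exact Bo_comm (fun k hk => h.LamS_comm hw hk) h6
    set Ω := Om b b' (P σ) (P τ) with hΩ
    have hΩL : ∀ z ∈ Algebra.adjoin K (L : Set (Module.End K S)), z * Ω = Ω * z := by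
      intro z hz
      induction hz using Algebra.adjoin_induction with
      | mem z hz =>
        exact Om_comm (z := (⟨z, hz⟩ : M)) b b' hb hb' hB (hPinv σ ⟨z, hz⟩) (hPinv τ ⟨z, hz⟩)
      | algebraMap r => exact Algebra.commutes r _
      | add x y _ _ hx hy => rw [mul_add, add_mul, hx, hy]
      | mul x y _ _ hx hy => rw [mul_assoc, hy, ← mul_assoc, hx, mul_assoc]
    have hav : Av γ (own c τ) (Ω * y) = Ep γ c σ (X y) := by
      rw [hX, hΩ, Om, Finset.sum_mul, map_sum, map_sum]
      refine Finset.sum_congr rfl fun l _ => ?_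
      have e0 : ∀ k ∈ own c τ, P σ (b l) * γ k = γ k * P σ (b l) := fun k hk =>
        h.Ep_comm σ (b l).1 (fun h0 => hστ (h0.symm.trans (mem_own.1 hk)))
      rw [mul_assoc, h.Av_left e0, h.Av_scalar, mul_smul_comm, mul_one, map_smul]
      · rfl
      · intro i' hi'
        have hi2 : c i' ≠ τ := fun h0 => hi' (mem_own.2 h0)
        have e1 : P τ (b' l) * γ i' = γ i' * P τ (b' l) := h.Ep_comm τ (b' l).1 hi2
        rw [mul_assoc, h.LamS_comm hy hi2, ← mul_assoc, e1, mul_assoc]
      · intro i' hi' k hk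
        refine h.diff i' k fun h0 => hi' (mem_own.2 ?_)
        rw [h0]
        exact mem_own.1 hk
    by_cases hσ : ∃ i', c i' = σ
    · obtain ⟨i', rfl⟩ := hσ
      rw [← hav]
      refine h.centre (h3 i') (by rw [hav]; exact h.Ep_mem _ (hL (hXL y))) fun w hw => ?_
      have h6 : w * (Ω * y) = Ω * y * w := by
        rw [← mul_assoc, hΩL w (hadj' (LamS_le _ hw)), mul_assoc, hyσ w hw, ← mul_assoc]
      refine (h.Av_comm (fun k hk => ?_) h6).symm
      refine h.LamS_comm hw ?_
      rw [mem_own.1 hk]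
      exact hστ.symm
    · have h6 := h.Ep_mem σ (hL (hXL y))
      have h7 : LamS γ c σ ≤ ⊥ := by
        refine Submodule.span_le.2 ?_
        rintro _ ⟨i, j, hi, _, _⟩
        exact absurd ⟨i, hi⟩ hσ
      exact (Submodule.mem_bot K).1 (h7 h6)
  have hXτ : ∀ y ∈ LamS γ c τ, X y ∈ L ⊓ LamS γ c τ := by
    intro y hy
    refine ⟨hXL y, ?_⟩
    have h6 := h.Ep_sum (hL (hXL y))
    rw [Finset.sum_eq_single τ] at h6
    · rw [← h6]
      exact h.Ep_mem τ (hL (hXL y))
    · intro σ _ hσ
      exact hXσ σ hσ y hy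
    · intro h
      exact absurd (Finset.mem_univ _) h
  have hinj : ∀ y ∈ LamS γ c τ, X y = 0 → y = 0 := by
    intro y hy h0
    refine h.tn_nd hy fun w hw => ?_
    obtain ⟨x, hx, rfl⟩ := hsurj hw
    have h6 : ∑ l, tn (P τ (b' l) * y) • b l = 0 := by
      refine Subtype.ext ?_
      rw [AddSubmonoidClass.coe_finsetSum]
      exact h0
    have h7 := Fintype.linearIndependent_iff.1 b.linearIndependent _ h6
    have h8 : Ep γ c τ x = P τ ⟨x, hx⟩ := rfl
    rw [h8, ← b'.sum_repr ⟨x, hx⟩, map_sum, Finset.sum_mul]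
    have h9 : ∀ s : Finset (Fin (finrank K M)), tn (∑ l ∈ s,
        P τ (b'.repr ⟨x, hx⟩ l • b' l) * y) = 0 := by
      intro s
      induction s using Finset.induction_on with
      | empty =>
        rw [Finset.sum_empty]
        unfold tn
        rw [map_zero, mul_zero]
      | insert l s hl ih =>
        rw [Finset.sum_insert hl, tn_add, ih, map_smul, smul_mul_assoc, tn_smul, h7 l, mul_zero,
          add_zero]
    exact h9 _
  have hle : LamS γ c τ ≤ L := by
    let X' : LamS γ c τ →ₗ[K] (L ⊓ LamS γ c τ : Submodule K (Module.End K S)) :=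
      (X.comp (LamS γ c τ).subtype).codRestrict _ fun y => hXτ y.1 y.2
    have hX' : Function.Injective X' := by
      rw [injective_iff_map_eq_zero]
      intro y hy
      exact Subtype.ext (hinj y.1 y.2 (congrArg Subtype.val hy))
    have h6 := LinearMap.finrank_le_finrank_of_injective hX'
    have h7 : L ⊓ LamS γ c τ = LamS γ c τ :=
      Submodule.eq_of_le_of_finrank_le inf_le_right h6
    rw [← h7]
    exact inf_le_left
  exact hle (Submodule.subset_span ⟨i, j, rfl, hij.symm, rfl⟩)

end CRel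

end Pool.Agent.Q50.SR
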