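import Pool.Agent.Q50.SR.Lie
import Pool.Agent.Q50.SR.CSg
import Pool.Agent.Q50.SR.CDefs
import Pool.Agent.Q50.SR.Col5

/-!
# The Lie algebra of the period torsor, coloured case
-/

set_option linter.unusedSectionVars false
set_option maxHeartbeats 4000000
set_option synthInstance.maxHeartbeats 400000

namespace Pool.Agent.Q50.SR

open Module Pool.Agent.Q50.LR

section vec

variable {F R κ : Type*} [Field F] [CharZero F] [Ring R] [Algebra F R] {n : ℕ} {γ : Fin n → R}
  {c : Fin n → κ}

theorem CR.vec (hγ : CR F γ c) {σ : κ} {a b : Fin n → F} (ha : ∀ i, c i ≠ σ → a i = 0)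
    (hb : ∀ i, c i ≠ σ → b i = 0) :
    (∑ i, a i • γ i) * (∑ i, b i • γ i) + (∑ i, b i • γ i) * (∑ i, a i • γ i) =
      (2 * ∑ i, a i * b i) • 1 := by
  have h1 : (∑ i, a i • γ i) * (∑ i, b i • γ i) + (∑ i, b i • γ i) * (∑ i, a i • γ i) =
      ∑ i, ∑ j, (a i * b j) • (γ i * γ j + γ j * γ i) := by
    rw [Finset.sum_mul_sum, Finset.sum_mul_sum, Finset.sum_comm (f := fun i j =>
      b i • γ i * a j • γ j), ← Finset.sum_add_distrib]
    refine Finset.sum_congr rfl fun i _ => ?_
    rw [← Finset.sum_add_distrib]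
    refine Finset.sum_congr rfl fun j _ => ?_
    rw [smul_mul_smul_comm, smul_mul_smul_comm, smul_add, mul_comm (b j)]
  rw [h1, Finset.mul_sum, Finset.sum_smul]
  refine Finset.sum_congr rfl fun i _ => ?_
  rw [Finset.sum_eq_single i]
  · rw [hγ.same i i rfl, if_pos rfl, smul_smul]
    congr 1
    ring
  · intro j _ hj
    by_cases hi : c i = σ
    · by_cases hj' : c j = σ
      · rw [hγ.same i j (hi.trans hj'.symm), if_neg (Ne.symm hj), zero_smul, smul_zero]
      · rw [hb j hj', mul_zero, zero_smul]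
    · rw [ha i hi, zero_mul, zero_smul]
  · intro h
    exact absurd (Finset.mem_univ _) h

end vec

variable {K : Type} [Field K] [Algebra K ℂ] {n N e : ℕ} {γ : Fin n → Matrix (Fin N) (Fin N) K}
  {c : Fin n → Fin e}

theorem cr_mc [CharZero K] (hγ : CR K γ c) : CR ℂ (fun i => mc K (γ i)) c := by
  refine ⟨fun i j hij => ?_, fun i j hij => ?_⟩
  · have h1 : mc K (γ i * γ j + γ j * γ i) =
        mc K (γ i) * mc K (γ j) + mc K (γ j) * mc K (γ i) := by
      rw [← SR.mc_mul, ← SR.mc_mul]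
      ext a b
      exact map_add (algebraMap K ℂ) _ _
    change mc K (γ i) * mc K (γ j) + mc K (γ j) * mc K (γ i) = _
    rw [← h1, hγ.same i j hij]
    by_cases hij : i = j
    · rw [if_pos hij, if_pos hij]
      ext a b
      rw [mc, Matrix.map_apply, Matrix.smul_apply, Matrix.smul_apply, smul_eq_mul, smul_eq_mul,
        map_mul, map_ofNat]
      congr 1
      rw [Matrix.one_apply, Matrix.one_apply]
      split_ifs
      · exact map_one _
      · exact map_zero _
    · rw [if_neg hij, if_neg hij, zero_smul, zero_smul]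
      ext a b
      exact map_zero (algebraMap K ℂ)
  · change mc K (γ i) * mc K (γ j) = mc K (γ j) * mc K (γ i)
    rw [← SR.mc_mul, ← SR.mc_mul, hγ.diff i j hij]

theorem ColouredGamma.cr (hγ : ColouredGamma γ c) : CR K γ c := ⟨hγ.same, hγ.diff⟩

/-- the induced matrix is orthogonal -/
theorem acts_orthC [CharZero K] (hN : N ≠ 0) (hγ : CR K γ c) {x : GL (Fin N) ℂ}
    {R : Matrix (Fin n) (Fin n) ℂ} (hR : Acts γ x R) (hB : Blk c R) : R.transpose * R = 1 := by
  have : NeZero N := ⟨hN⟩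
  have hγ' := cr_mc hγ
  have hx : ∀ j, ∑ i, R i j • mc K (γ i) = (x : Matrix (Fin N) (Fin N) ℂ) * mc K (γ j) *
      ((x⁻¹ : GL (Fin N) ℂ) : Matrix (Fin N) (Fin N) ℂ) := by
    intro j
    have h1 := hR j
    change (x : Matrix (Fin N) (Fin N) ℂ) * mc K (γ j) =
      (∑ i, R i j • mc K (γ i)) * (x : Matrix (Fin N) (Fin N) ℂ) at h1
    rw [h1, mul_assoc, mul_inv_coe, mul_one]
  ext j k
  by_cases hjk : c j = c k
  · have h1 := hγ'.vec (σ := c j) (a := fun i => R i j) (b := fun i => R i k)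
      (fun i hi => hB i j hi) (fun i hi => hB i k (by rw [← hjk]; exact hi))
    rw [hx, hx] at h1
    have h2 : (x : Matrix (Fin N) (Fin N) ℂ) * mc K (γ j) *
        ((x⁻¹ : GL (Fin N) ℂ) : Matrix (Fin N) (Fin N) ℂ) *
        ((x : Matrix (Fin N) (Fin N) ℂ) * mc K (γ k) *
        ((x⁻¹ : GL (Fin N) ℂ) : Matrix (Fin N) (Fin N) ℂ)) +
        (x : Matrix (Fin N) (Fin N) ℂ) * mc K (γ k) *
        ((x⁻¹ : GL (Fin N) ℂ) : Matrix (Fin N) (Fin N) ℂ) *
        ((x : Matrix (Fin N) (Fin N) ℂ) * mc K (γ j) *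
        ((x⁻¹ : GL (Fin N) ℂ) : Matrix (Fin N) (Fin N) ℂ)) =
        (if j = k then (2 : ℂ) else 0) • 1 := by
      have h3 : ∀ A B : Matrix (Fin N) (Fin N) ℂ, (x : Matrix (Fin N) (Fin N) ℂ) * A *
        ((x⁻¹ : GL (Fin N) ℂ) : Matrix (Fin N) (Fin N) ℂ) *
        ((x : Matrix (Fin N) (Fin N) ℂ) * B *
        ((x⁻¹ : GL (Fin N) ℂ) : Matrix (Fin N) (Fin N) ℂ)) =
        (x : Matrix (Fin N) (Fin N) ℂ) * (A * B) *
        ((x⁻¹ : GL (Fin N) ℂ) : Matrix (Fin N) (Fin N) ℂ) := by
        intro A B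
        simp only [mul_assoc]
        rw [← mul_assoc ((x⁻¹ : GL (Fin N) ℂ) : Matrix (Fin N) (Fin N) ℂ)
          (x : Matrix (Fin N) (Fin N) ℂ), inv_mul_coe, one_mul]
      rw [h3, h3, ← add_mul, ← mul_add]
      have h4 := hγ'.same j k hjk
      rw [h4, mul_smul_comm, mul_one, smul_mul_assoc, mul_inv_coe]
    rw [h2] at h1
    have h3 := congrFun (congrFun h1 0) 0
    rw [Matrix.smul_apply, Matrix.smul_apply, Matrix.one_apply_eq, smul_eq_mul, smul_eq_mul,
      mul_one, mul_one] at h3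
    rw [Matrix.mul_apply, Matrix.one_apply]
    simp only [Matrix.transpose_apply]
    have h4 : (2 : ℂ) * ∑ i, R i j * R i k = 2 * (if j = k then (1 : ℂ) else 0) := by
      rw [← h3]
      split_ifs
      · ring
      · ring
    exact mul_left_cancel₀ two_ne_zero h4
  · rw [Matrix.mul_apply, Matrix.one_apply_ne fun h => hjk (by rw [h])]
    refine Finset.sum_eq_zero fun i _ => ?_
    rw [Matrix.transpose_apply]
    by_cases hij : c i = c j
    · rw [hB i k fun h => hjk (hij.symm.trans h), mul_zero]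
    · rw [hB i j hij, zero_mul]

/-- **The logarithmic derivative** of `x` is the one of `R`, up to a scalar. -/
theorem ld_sgC [CharZero K] (hN : N ≠ 0) (hγ : ColouredGamma γ c) {x : GL (Fin N) ℂ}
    {R : Matrix (Fin n) (Fin n) ℂ} (hR : Acts γ x R) (hB : Blk c R) (δ : Derivation K ℂ ℂ) :
    Skew (dm δ R * R.transpose) ∧ Blk c (dm δ R * R.transpose) ∧
      ∃ s : ℂ, ld δ x = sg (fun i => mc K (γ i)) (dm δ R * R.transpose) + s • 1 := by
  have hγ' := cr_mc hγ.cr
  have hO := acts_orthC hN hγ.cr hR hB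
  have hO' : R * R.transpose = 1 := mul_eq_one_comm.1 hO
  have hsk : Skew (dm δ R * R.transpose) := by
    unfold Skew
    have h1 : dm δ (R * R.transpose) = 0 := by rw [hO', dm_one]
    rw [dm_mul] at h1
    have h2 : dm δ R.transpose = (dm δ R).transpose := rfl
    rw [h2] at h1
    rw [Matrix.transpose_mul, Matrix.transpose_transpose]
    exact eq_neg_of_add_eq_zero_right h1
  have hBd : Blk c (dm δ R) := fun i j hij => by
    rw [dm, Matrix.map_apply, hB i j hij, map_zero]
  have hBD : Blk c (dm δ R * R.transpose) := hBd.mul hB.transpose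
  refine ⟨hsk, hBD, ?_⟩
  set a := ld δ x with ha
  have h1 : ∀ j, a * (∑ i, R i j • mc K (γ i)) - (∑ i, R i j • mc K (γ i)) * a =
      ∑ i, δ (R i j) • mc K (γ i) := by
    intro j
    have h2 : (x : Matrix (Fin N) (Fin N) ℂ) * mc K (γ j) =
      (∑ i, R i j • mc K (γ i)) * (x : Matrix (Fin N) (Fin N) ℂ) := hR j
    have h3 := congrArg (dm δ) h2
    rw [dm_mul, dm_mul, dm_mc, mul_zero, add_zero, ld_mul, ← ha, dm_sum_smul, mul_assoc, h2] at h3
    have h4 := congrArg (fun M => M * ((x⁻¹ : GL (Fin N) ℂ) : Matrix (Fin N) (Fin N) ℂ)) h3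
    simp only [add_mul, mul_assoc, mul_inv_coe, mul_one] at h4
    rw [h4, add_sub_cancel_right]
  have h2 : ∀ k, a * mc K (γ k) - mc K (γ k) * a =
      ∑ i, (dm δ R * R.transpose) i k • mc K (γ i) := by
    intro k
    have h3 : mc K (γ k) = ∑ j, R k j • ∑ i, R i j • mc K (γ i) := by
      simp only [Finset.smul_sum, smul_smul]
      rw [Finset.sum_comm, Finset.sum_eq_single k]
      · rw [← Finset.sum_smul]
        have h4 := congrFun (congrFun hO' k) k
        rw [Matrix.mul_apply, Matrix.one_apply_eq] at h4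
        have h5 : ∑ j, R k j * R k j = 1 := h4
        rw [h5, one_smul]
      · intro i _ hi
        rw [← Finset.sum_smul]
        have h4 := congrFun (congrFun hO' k) i
        rw [Matrix.mul_apply, Matrix.one_apply_ne (Ne.symm hi)] at h4
        have h5 : ∑ j, R k j * R i j = 0 := h4
        rw [h5, zero_smul]
      · intro h
        exact absurd (Finset.mem_univ _) h
    have h6 : a * mc K (γ k) - mc K (γ k) * a = ∑ j, R k j • ∑ i, δ (R i j) • mc K (γ i) := by
      conv_lhs => rw [h3]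
      rw [Finset.mul_sum, Finset.sum_mul, ← Finset.sum_sub_distrib]
      refine Finset.sum_congr rfl fun j _ => ?_
      rw [mul_smul_comm, smul_mul_assoc, ← smul_sub, h1]
    rw [h6]
    simp only [Finset.smul_sum, smul_smul]
    rw [Finset.sum_comm]
    refine Finset.sum_congr rfl fun i _ => ?_
    rw [← Finset.sum_smul, Matrix.mul_apply]
    congr 1
    refine Finset.sum_congr rfl fun j _ => ?_
    rw [mul_comm]
    rfl
  set D := dm δ R * R.transpose with hD
  have h3 : ∀ k, (a - sg (fun i => mc K (γ i)) D) * mc K (γ k) =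
      mc K (γ k) * (a - sg (fun i => mc K (γ i)) D) := by
    intro k
    have h4 := hγ'.sg_skew hsk hBD k
    rw [sub_mul, mul_sub, sub_eq_sub_iff_sub_eq_sub, h2, h4]
  obtain ⟨s, hs⟩ := scalar_of_comps (K := K) hN (M := a - sg (fun i => mc K (γ i)) D) fun ν =>
    hγ.schur _ fun k => by
      rw [← map_mul_mc, h3, map_mc_mul]
  exact ⟨s, by rw [← hs, add_sub_cancel]⟩

theorem cnt_eq (c : Fin n → Fin e) (i : Fin n) : cnt c (c i) = classSize c i := by
  unfold cnt classSize
  rw [Fintype.card_subtype]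

/-- **Rigidity** for matrices, coloured case -/
theorem rig_matC [IsAlgClosed K] [CharZero K] (hN : N ≠ 0) (hγ : ColouredGamma γ c)
    (h3 : ∀ i, 3 ≤ classSize c i) (h5 : ∀ i, classSize c i ≠ 5)
    {L : Submodule K (Matrix (Fin N) (Fin N) K)}
    (hL : ∀ x ∈ L, ∀ y ∈ L, x * y - y * x ∈ L)
    (hLV : ∀ x ∈ L, x ∈ Submodule.span K {y | ∃ i j, c i = c j ∧ y = γ i * γ j - γ j * γ i})
    (hgen : ∀ i j, c i = c j →
      γ i * γ j ∈ Algebra.adjoin K (L : Set (Matrix (Fin N) (Fin N) K))) {i j : Fin n}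
    (hij : c i = c j) : γ i * γ j - γ j * γ i ∈ L := by
  let τ : Matrix (Fin N) (Fin N) K ≃ₐ[K] Module.End K (Fin N → K) := Matrix.toLinAlgEquiv'
  have : NeZero N := ⟨hN⟩
  have hnt : Nontrivial (Fin N → K) := inferInstance
  let g : Fin n → Module.End K (Fin N → K) := fun i => τ (γ i)
  have hg : CRel g c := by
    refine ⟨fun i j hij => ?_, fun i j hij => ?_, fun x hx => ?_⟩
    · have h1 := congrArg τ (hγ.same i j hij)
      rw [map_add, map_mul, map_mul, map_smul, map_one] at h1
      exact h1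
    · have h1 := congrArg τ (hγ.diff i j hij)
      rw [map_mul, map_mul] at h1
      exact h1
    · obtain ⟨s, hs⟩ := hγ.schur (τ.symm x) fun i => by
        apply τ.injective
        rw [map_mul, map_mul, AlgEquiv.apply_symm_apply]
        exact hx i
      refine ⟨s, ?_⟩
      rw [← AlgEquiv.apply_symm_apply τ x, hs, map_smul, map_one]
  let L' : Submodule K (Module.End K (Fin N → K)) := L.map τ.toLinearMap
  have hmem : ∀ x, x ∈ L → τ x ∈ L' := fun x hx => ⟨x, hx, rfl⟩
  have h1 : LamC g c ≤ L' := by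
    refine hg.rigid (fun i => by rw [cnt_eq]; exact h3 i) (fun i => by rw [cnt_eq]; exact h5 i)
      ?_ ?_ ?_
    · rintro _ ⟨x, hx, rfl⟩ _ ⟨y, hy, rfl⟩
      refine ⟨x * y - y * x, hL x hx y hy, ?_⟩
      change τ (x * y - y * x) = τ x * τ y - τ y * τ x
      rw [map_sub, map_mul, map_mul]
    · rintro _ ⟨x, hx, rfl⟩
      have h2 := hLV x hx
      change τ x ∈ _
      clear hx
      induction h2 using Submodule.span_induction with
      | mem x hx =>
        obtain ⟨i, j, hij, rfl⟩ := hx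
        rw [map_sub, map_mul, map_mul]
        exact Submodule.subset_span ⟨i, j, hij, rfl⟩
      | zero =>
        rw [map_zero]
        exact Submodule.zero_mem _
      | add x y _ _ hx hy =>
        rw [map_add]
        exact Submodule.add_mem _ hx hy
      | smul a x _ hx =>
        rw [map_smul]
        exact Submodule.smul_mem _ _ hx
    · intro i j hij
      have h2 : ∀ x ∈ Algebra.adjoin K (L : Set (Matrix (Fin N) (Fin N) K)),
          τ x ∈ Algebra.adjoin K (L' : Set (Module.End K (Fin N → K))) := by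
        intro x hx
        induction hx using Algebra.adjoin_induction with
        | mem x hx => exact Algebra.subset_adjoin (hmem x hx)
        | algebraMap r =>
          rw [AlgEquiv.commutes]
          exact Subalgebra.algebraMap_mem _ r
        | add x y _ _ hx hy =>
          rw [map_add]
          exact Subalgebra.add_mem _ hx hy
        | mul x y _ _ hx hy =>
          rw [map_mul]
          exact Subalgebra.mul_mem _ hx hy
      have h4 := h2 _ (hgen i j hij)
      rwa [map_mul] at h4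
  obtain ⟨x, hx, hx'⟩ := h1 (Submodule.subset_span ⟨i, j, hij, rfl⟩)
  have h2 : τ x = τ (γ i * γ j - γ j * γ i) := by
    rw [map_sub, map_mul, map_mul]
    exact hx'
  rwa [← τ.injective h2]

/-- the relations of the even algebra put `x` in its complex span -/
theorem mem_ext_of_rel {x : GL (Fin N) ℂ} (hx : RelationsOfEvenAlgebra γ c x) :
    (x : Matrix (Fin N) (Fin N) ℂ) ∈ ext (Subalgebra.toSubmodule (evenAlgebra γ c)) := by
  intro ν
  by_contra h0
  obtain ⟨φ, hφ, hφ'⟩ := Submodule.exists_le_ker_of_notMem h0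
  let a : Matrix (Fin N) (Fin N) K := fun i j => φ (Matrix.single i j 1)
  have hφa : ∀ y : Matrix (Fin N) (Fin N) K, φ y = ∑ i, ∑ j, a i j * y i j := by
    intro y
    conv_lhs => rw [Matrix.matrix_eq_sum_single y]
    rw [map_sum]
    refine Finset.sum_congr rfl fun i _ => ?_
    rw [map_sum]
    refine Finset.sum_congr rfl fun j _ => ?_
    have h1 : Matrix.single i j (y i j) = y i j • Matrix.single i j (1 : K) := by
      rw [Matrix.smul_single, smul_eq_mul, mul_one]
    rw [h1, map_smul, smul_eq_mul, mul_comm]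
  have h1 := (hx a).2 fun y hy => by
    rw [← hφa]
    exact LinearMap.mem_ker.1 (hφ' hy)
  apply hφ
  rw [hφa]
  have h2 := congrArg ν h1
  rw [map_zero, map_sum] at h2
  rw [← h2]
  refine Finset.sum_congr rfl fun i _ => ?_
  rw [map_sum]
  refine Finset.sum_congr rfl fun j _ => ?_
  rw [← Algebra.smul_def, map_smul, smul_eq_mul]
  rfl

/-- **The main step**: a Lie algebra of skew-symmetric matrices which contains the components of the
logarithmic derivatives is everything. -/
theorem skwC_mem [IsAlgClosed K] [CharZero K] (hN : N ≠ 0) (h3' : ∀ i, 3 ≤ classSize c i)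
    (h5 : ∀ i, classSize c i ≠ 5) (hγ : ColouredGamma γ c) {x : GL (Fin N) ℂ}
    {R : Matrix (Fin n) (Fin n) ℂ} (hR : Acts γ x R) (hB : Blk c R)
    (hx : RelationsOfEvenAlgebra γ c x) {𝔥 : Submodule K (Matrix (Fin n) (Fin n) K)}
    (h1 : ∀ Z ∈ 𝔥, Skew Z ∧ Blk c Z) (h2 : ∀ Z ∈ 𝔥, ∀ Z' ∈ 𝔥, Z * Z' - Z' * Z ∈ 𝔥)
    (h3 : ∀ (δ : Derivation K ℂ ℂ) (ν : ℂ →ₗ[K] K), (dm δ R * R.transpose).map ν ∈ 𝔥)
    {i j : Fin n} (hij : c i = c j) : skw K i j ∈ 𝔥 := by
  have : NeZero N := ⟨hN⟩
  let L : Submodule K (Matrix (Fin N) (Fin N) K) := 𝔥.map (sg γ)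
  have hrel : CR K γ c := hγ.cr
  have hgen : evenAlgebra γ c ≤ Algebra.adjoin K (L : Set (Matrix (Fin N) (Fin N) K)) := by
    refine core (x := x) (mem_ext_of_rel hx) ?_ ?_
    · intro a ha y hy
      have h4 := (hx a).1 ha y hy
      have h5 := congrArg (algebraMap K ℂ) h4
      rw [map_zero, map_sum] at h5
      unfold pr
      rw [← h5]
      refine Finset.sum_congr rfl fun i _ => ?_
      rw [map_sum]
      refine Finset.sum_congr rfl fun j _ => ?_
      rw [map_mul]
      rfl
    · intro δ ν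
      obtain ⟨-, -, s, hs⟩ := ld_sgC hN hγ hR hB δ
      have h4 : (ld δ x).map ν = sg γ ((dm δ R * R.transpose).map ν) +
          (ν s) • (1 : Matrix (Fin N) (Fin N) K) := by
        rw [hs, ← sg_map]
        ext a b
        rw [Matrix.map_apply, Matrix.add_apply, Matrix.add_apply, map_add, Matrix.map_apply]
        congr 1
        rw [Matrix.smul_apply, Matrix.smul_apply, smul_eq_mul, smul_eq_mul, Matrix.one_apply,
          Matrix.one_apply]
        split_ifs
        · rw [mul_one, mul_one]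
        · rw [mul_zero, mul_zero, map_zero]
      rw [h4]
      refine Subalgebra.add_mem _ (Algebra.subset_adjoin ⟨_, h3 δ ν, rfl⟩)
        (Subalgebra.smul_mem _ (Subalgebra.one_mem _) _)
  have h4 := rig_matC hN hγ h3' h5 (L := L) (by
    rintro _ ⟨Z, hZ, rfl⟩ _ ⟨Z', hZ', rfl⟩
    exact ⟨_, h2 Z hZ Z' hZ', hrel.sg_lie (h1 Z hZ).1 (h1 Z hZ).2⟩) (by
    rintro _ ⟨Z, hZ, rfl⟩
    exact sg_memC (h1 Z hZ).1 (h1 Z hZ).2)
    (fun i j hij => hgen (Algebra.subset_adjoin ⟨i, j, hij, rfl⟩)) hij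
  obtain ⟨Z, hZ, hZ'⟩ := h4
  have h6 : Z = (4 : K) • skw K i j := by
    refine hrel.sg_inj (h1 Z hZ).1 (h1 Z hZ).2 ?_ ((skw_blk hij).smul 4)
      (by rw [hZ', sg_skw (F := K)])
    have h7 := skw_skew (F := K) i j
    unfold Skew at h7 ⊢
    rw [Matrix.transpose_smul, h7, smul_neg]
  have h8 : skw K i j = (4 : K)⁻¹ • Z := by
    have h4 : (4 : K) ≠ 0 := by norm_num
    rw [h6, smul_smul, inv_mul_cancel₀ h4, one_smul]
  rw [h8]
  exact 𝔥.smul_mem _ hZ

end Pool.Agent.Q50.SR
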