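import Pool.Agent.Q50.SR.Sgr
import Pool.Agent.Q50.SR.CLie
import Pool.Agent.Q50.SR.COrt

/-!
# The torsors of periods of Kuga-Satake type with real multiplication
-/

set_option linter.unusedSectionVars false
set_option maxHeartbeats 4000000
set_option synthInstance.maxHeartbeats 400000

namespace Pool.Agent.Q50.SR

open Module Pool.Agent.Q50.LR

/-- a third index of the same colour -/
theorem third_col {n e : ℕ} {c : Fin n → Fin e} {i : Fin n} (h3 : 3 ≤ classSize c i) (j : Fin n) :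
    ∃ k, c k = c i ∧ i ≠ k ∧ j ≠ k := by
  by_contra hcon
  push Not at hcon
  have h1 : (Finset.univ.filter fun k => c k = c i) ⊆ {i, j} := by
    intro k hk
    rw [Finset.mem_filter] at hk
    rw [Finset.mem_insert, Finset.mem_singleton]
    by_cases hik : i = k
    · exact Or.inl hik.symm
    · exact Or.inr (hcon k hk.2 hik).symm
  have h2 := Finset.card_le_card h1
  have h4 := Finset.card_insert_le i {j}
  rw [Finset.card_singleton] at h4
  unfold classSize at h3
  omega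

section perf

variable {F : Type*} [Field F] [CharZero F] {n e N : ℕ} {c : Fin n → Fin e}

/-- a Lie algebra which contains the skew-symmetric block matrices up to scalars contains them -/
theorem perfectC (h3 : ∀ i, 3 ≤ classSize c i)
    {L : Submodule F (Matrix (Fin N) (Fin N) F)}
    (hL : ∀ x ∈ L, ∀ y ∈ L, x * y - y * x ∈ L)
    (τ : Matrix (Fin n) (Fin n) F →ₗ[F] Matrix (Fin N) (Fin N) F)
    (hτ : ∀ Z Z', Skew Z → Blk c Z → τ (Z * Z' - Z' * Z) = τ Z * τ Z' - τ Z' * τ Z)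
    (h : ∀ i j, c i = c j → ∃ s : F, τ (skw F i j) + s • 1 ∈ L) {Z : Matrix (Fin n) (Fin n) F}
    (hZ : Skew Z) (hB : Blk c Z) : τ Z ∈ L := by
  have key : ∀ i j, c i = c j → τ (skw F i j) ∈ L := by
    intro i j hc
    by_cases hij : i = j
    · rw [hij, skw, sub_self, map_zero]
      exact L.zero_mem
    · obtain ⟨k, hk, hik, hjk⟩ := third_col (h3 i) j
      obtain ⟨s, hs⟩ := h i k hk.symm
      obtain ⟨t, ht⟩ := h k j (hk.trans hc)
      have h1 := hL _ hs _ ht
      have h2 : (τ (skw F i k) + s • 1) * (τ (skw F k j) + t • 1) -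
          (τ (skw F k j) + t • 1) * (τ (skw F i k) + s • 1) = τ (skw F i j) := by
        rw [← skw_bracket hij hik hjk, hτ _ _ (skw_skew i k) (skw_blk hk.symm)]
        simp only [add_mul, mul_add, smul_mul_assoc, mul_smul_comm, one_mul, mul_one]
        module
      rwa [h2] at h1
  rw [skew_sum hZ, map_smul, map_sum]
  refine L.smul_mem _ (Submodule.sum_mem _ fun i _ => ?_)
  rw [map_sum]
  refine Submodule.sum_mem _ fun j _ => ?_
  rw [map_smul]
  by_cases hij : c i = c j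
  · exact L.smul_mem _ (key i j hij)
  · rw [hB i j hij, zero_smul]
    exact L.zero_mem

end perf

variable {K : Type} [Field K] [Algebra K ℂ] {n N e : ℕ} {γ : Fin n → Matrix (Fin N) (Fin N) K}
  {c : Fin n → Fin e}

theorem blk_map {D : Matrix (Fin n) (Fin n) ℂ} (hD : Blk c D) (ν : ℂ →ₗ[K] K) :
    Blk c (D.map ν) := fun i j hij => by rw [Matrix.map_apply, hD i j hij, map_zero]

section main

variable [IsAlgClosed K] (hN : N ≠ 0) (h3 : ∀ i, 3 ≤ classSize c i) (h5 : ∀ i, classSize c i ≠ 5)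
  (hγ : ColouredGamma γ c) {x : GL (Fin N) ℂ} {R : Matrix (Fin n) (Fin n) ℂ} (hR : Acts γ x R)
  (hB : Blk c R) (hx : RelationsOfEvenAlgebra γ c x)

include hN h3 h5 hγ hR hB hx

/-- the torsors through the period matrix of the transcendental part -/
theorem col_T {H : Subgroup (GL (Fin n) ℂ)} (hH : IsAlgebraicGroup K H) {P : GL (Fin n) ℂ}
    {θ : ℂ} (hP : (P : Matrix (Fin n) (Fin n) ℂ) = θ • R) (hPH : OnTorsor K H P) :
    ContainsColouredSO c H ∧ (Transcendental K θ → ContainsScalars H) := by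
  have : CharZero K := (algebraMap K ℂ).charZero
  by_cases hn : n = 0
  · subst hn
    have h1 : ∀ g : GL (Fin 0) ℂ, g = 1 := fun g => by
      refine Units.ext ?_
      ext i
      exact i.elim0
    refine ⟨fun g _ _ _ => by rw [h1 g]; exact one_mem _, fun _ z _ => ⟨1, one_mem _, ?_⟩⟩
    ext i
    exact i.elim0
  have : NeZero n := ⟨hn⟩
  have hO := acts_orthC hN hγ.cr hR hB
  have hO' : R * R.transpose = 1 := mul_eq_one_comm.1 hO
  have hθ : θ ≠ 0 := by
    rintro rfl
    rw [zero_smul] at hP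
    have h2 := mul_inv_coe P
    rw [hP, zero_mul] at h2
    exact zero_ne_one h2
  have hPi : ((P⁻¹ : GL (Fin n) ℂ) : Matrix (Fin n) (Fin n) ℂ) = θ⁻¹ • R.transpose := by
    have h2 : (P : Matrix (Fin n) (Fin n) ℂ) * (θ⁻¹ • R.transpose) = 1 := by
      rw [hP, smul_mul_smul_comm, mul_inv_cancel₀ hθ, one_smul, hO']
    calc ((P⁻¹ : GL (Fin n) ℂ) : Matrix (Fin n) (Fin n) ℂ)
        = ((P⁻¹ : GL (Fin n) ℂ) : Matrix (Fin n) (Fin n) ℂ) *
          ((P : Matrix (Fin n) (Fin n) ℂ) * (θ⁻¹ • R.transpose)) := by rw [h2, mul_one]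
      _ = θ⁻¹ • R.transpose := by rw [← mul_assoc, inv_mul_coe, one_mul]
  have hld : ∀ δ : Derivation K ℂ ℂ, ld δ P = dm δ R * R.transpose + (δ θ * θ⁻¹) • 1 := by
    intro δ
    have h2 : dm δ (P : Matrix (Fin n) (Fin n) ℂ) = θ • dm δ R + δ θ • R := by
      rw [hP]
      ext i j
      change δ (θ * R i j) = θ * δ (R i j) + δ θ * R i j
      rw [Derivation.leibniz, smul_eq_mul, smul_eq_mul, mul_comm (R i j)]
    rw [ld, h2, hPi, add_mul, smul_mul_smul_comm, smul_mul_smul_comm, hO',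
      mul_inv_cancel₀ hθ, one_smul]
  have hcomp : ∀ (δ : Derivation K ℂ ℂ) (ν : ℂ →ₗ[K] K),
      (dm δ R * R.transpose).map ν + (ν (δ θ * θ⁻¹)) • 1 ∈ LK K H := by
    intro δ ν
    have h2 := comp_mem_LK hH (ld_mem_LC hH hPH δ) ν
    rwa [hld, map_add_smul_one] at h2
  let 𝔥 : Submodule K (Matrix (Fin n) (Fin n) K) :=
    { carrier := {Z | (Skew Z ∧ Blk c Z) ∧ ∃ s : K, Z + s • 1 ∈ LK K H}
      zero_mem' := by
        refine ⟨⟨?_, Blk.zero⟩, 0, ?_⟩
        · unfold Skew
          rw [Matrix.transpose_zero, neg_zero]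
        · rw [zero_smul, add_zero]
          exact Submodule.zero_mem _
      add_mem' := by
        rintro a b ⟨⟨ha, ha'⟩, s, hs⟩ ⟨⟨hb, hb'⟩, t, ht⟩
        refine ⟨⟨?_, ha'.add hb'⟩, s + t, ?_⟩
        · unfold Skew at ha hb ⊢
          rw [Matrix.transpose_add, ha, hb, neg_add]
        · have h2 := Submodule.add_mem _ hs ht
          have h3 : a + s • 1 + (b + t • 1) = a + b + (s + t) • 1 := by module
          rwa [h3] at h2
      smul_mem' := by
        rintro r a ⟨⟨ha, ha'⟩, s, hs⟩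
        refine ⟨⟨?_, ha'.smul r⟩, r * s, ?_⟩
        · unfold Skew at ha ⊢
          rw [Matrix.transpose_smul, ha, smul_neg]
        · have h2 := Submodule.smul_mem _ r hs
          rwa [smul_add, smul_smul] at h2 }
  have hmem : ∀ i j, c i = c j → skw K i j ∈ 𝔥 := fun i j hij =>
    skwC_mem hN h3 h5 hγ hR hB hx (𝔥 := 𝔥) (fun Z hZ => hZ.1)
    (by
      rintro Z ⟨⟨hZ, hZb⟩, s, hs⟩ Z' ⟨⟨hZ', hZb'⟩, t, ht⟩
      refine ⟨⟨?_, (hZb.mul hZb').sub (hZb'.mul hZb)⟩, 0, ?_⟩
      · unfold Skew at hZ hZ' ⊢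
        rw [Matrix.transpose_sub, Matrix.transpose_mul, Matrix.transpose_mul, hZ, hZ',
          neg_mul_neg, neg_mul_neg, neg_sub]
      · have h2 := LK_bracket hs ht
        have h3 : (Z + s • 1) * (Z' + t • 1) - (Z' + t • 1) * (Z + s • 1) =
            Z * Z' - Z' * Z + (0 : K) • 1 := by
          simp only [add_mul, mul_add, smul_mul_assoc, mul_smul_comm, one_mul, mul_one]
          module
        rwa [h3] at h2)
    (fun δ ν => ⟨⟨skew_map (ld_sgC hN hγ hR hB δ).1 ν, blk_map (ld_sgC hN hγ hR hB δ).2.1 ν⟩,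
      _, hcomp δ ν⟩) hij
  have hLK : ∀ Z : Matrix (Fin n) (Fin n) K, Skew Z → Blk c Z → Z ∈ LK K H := fun Z hZ hZb =>
    perfectC h3 (fun x hx y hy => LK_bracket hx hy) LinearMap.id (fun _ _ _ _ => rfl)
      (fun i j hij => (hmem i j hij).2) hZ hZb
  refine ⟨so_memC hH (fun Z hZ hZb => ?_), fun htr => ?_⟩
  · rw [← ext_LK hH]
    exact fun ν => hLK _ (skew_map hZ ν) (blk_map hZb ν)
  · obtain ⟨δ, hδ⟩ : ∃ δ : Derivation K ℂ ℂ, δ θ ≠ 0 := by
      by_contra hcon
      push Not at hcon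
      obtain ⟨r, hr⟩ := const_of_der hcon
      rw [← hr] at htr
      exact htr (isAlgebraic_algebraMap r)
    refine scalar_mem_LK hH (mul_ne_zero hδ (inv_ne_zero hθ)) fun ν => ?_
    have h2 := Submodule.sub_mem _ (hcomp δ ν) (hLK _ (skew_map (ld_sgC hN hγ hR hB δ).1 ν)
      (blk_map (ld_sgC hN hγ hR hB δ).2.1 ν))
    rwa [add_sub_cancel_left] at h2

end main

end Pool.Agent.Q50.SR
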