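import Mathlib

/-!
# Chevalley generators acting on a vector space

`e i`, `f i`, `h i` are endomorphisms of `S` with the relations of the Chevalley generators of a
semisimple Lie algebra. The span of the words in the `f i` applied to a space which is killed by the
`e i` is stable.
-/

set_option linter.unusedSectionVars false
set_option maxHeartbeats 4000000
set_option synthInstance.maxHeartbeats 400000

namespace Pool.Agent.Q50.SR

open Module

variable {K S ι : Type*} [Field K] [CharZero K] [AddCommGroup S] [Module K S] [Fintype ι]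
  [DecidableEq ι]

/-- the relations of the Chevalley generators -/
structure Chev (e f h : ι → Module.End K S) (A : ι → ι → K) (c : ι → K) : Prop where
  hh : ∀ i j, h i * h j = h j * h i
  he : ∀ i j, h j * e i - e i * h j = A i j • e i
  hf : ∀ i j, h j * f i - f i * h j = -(A i j • f i)
  ef : ∀ i, e i * f i - f i * e i = h i
  ef' : ∀ i j, i ≠ j → e i * f j = f j * e i
  diag : ∀ i, A i i = 2
  zero : ∀ i j, A i j = 0 → A j i = 0
  inj : ∀ i j, (∀ k, A i k = A j k) → i = j
  rho : ∀ i, ∑ j, c j * A i j = 2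

variable {e f h : ι → Module.End K S} {A : ι → ι → K} {c : ι → K}

/-- twice the sum of the fundamental coweights -/
noncomputable def H0 (h : ι → Module.End K S) (c : ι → K) : Module.End K S := ∑ j, c j • h j

/-- the levels -/
noncomputable def lev (h : ι → Module.End K S) (c : ι → K) (μ : K) (k : ℤ) : Submodule K S :=
  (H0 h c).eigenspace (μ - 2 * k)

theorem mem_lev {μ : K} {k : ℤ} {x : S} : x ∈ lev h c μ k ↔ H0 h c x = (μ - 2 * k) • x :=
  Module.End.mem_eigenspace_iff

/-- the span of the words of length `k` -/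
noncomputable def wd (f : ι → Module.End K S) (U : Submodule K S) : ℕ → Submodule K S
  | 0 => U
  | k + 1 => ⨆ i, (wd f U k).map (f i)

theorem wd_succ_mem {U : Submodule K S} {k : ℕ} {x : S} (hx : x ∈ wd f U k) (i : ι) :
    f i x ∈ wd f U (k + 1) :=
  (le_iSup (fun i => (wd f U k).map (f i)) i) ⟨x, hx, rfl⟩

theorem wd_succ_le {U : Submodule K S} {k : ℕ} {T : Submodule K S}
    (h1 : ∀ i, ∀ x ∈ wd f U k, f i x ∈ T) : wd f U (k + 1) ≤ T := by
  refine iSup_le fun i => ?_
  rintro _ ⟨x, hx, rfl⟩
  exact h1 i x hx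

namespace Chev

variable (hC : Chev e f h A c)

include hC

theorem he' (i j : ι) (x : S) : h j (e i x) = e i (h j x) + A i j • e i x := by
  have h1 := congrArg (fun g : Module.End K S => g x) (hC.he i j)
  simp only [LinearMap.sub_apply, Module.End.mul_apply, LinearMap.smul_apply] at h1
  rw [← h1]
  abel

theorem hf' (i j : ι) (x : S) : h j (f i x) = f i (h j x) - A i j • f i x := by
  have h1 := congrArg (fun g : Module.End K S => g x) (hC.hf i j)
  simp only [LinearMap.sub_apply, Module.End.mul_apply, LinearMap.neg_apply,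
    LinearMap.smul_apply] at h1
  rw [sub_eq_iff_eq_add] at h1
  rw [h1]
  abel

theorem efs (i : ι) (x : S) : e i (f i x) = f i (e i x) + h i x := by
  have h1 := congrArg (fun g : Module.End K S => g x) (hC.ef i)
  simp only [LinearMap.sub_apply, Module.End.mul_apply] at h1
  rw [← h1]
  abel

theorem efn {i j : ι} (hij : i ≠ j) (x : S) : e i (f j x) = f j (e i x) :=
  congrArg (fun g : Module.End K S => g x) (hC.ef' i j hij)

theorem wd_h {U : Submodule K S} (hU : ∀ j, ∀ x ∈ U, h j x ∈ U) (k : ℕ) (j : ι) :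
    ∀ x ∈ wd f U k, h j x ∈ wd f U k := by
  induction k with
  | zero => exact hU j
  | succ k ih =>
    have h1 : wd f U (k + 1) ≤ (wd f U (k + 1)).comap (h j) := by
      refine wd_succ_le fun i x hx => ?_
      rw [Submodule.mem_comap, hC.hf']
      exact Submodule.sub_mem _ (wd_succ_mem (ih x hx) i)
        (Submodule.smul_mem _ _ (wd_succ_mem hx i))
    exact fun x hx => h1 hx

theorem wd_e {U : Submodule K S} (hU : ∀ j, ∀ x ∈ U, h j x ∈ U) (hU' : ∀ j, ∀ x ∈ U, e j x = 0)
    (k : ℕ) (j : ι) : ∀ x ∈ wd f U (k + 1), e j x ∈ wd f U k := by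
  induction k with
  | zero =>
    have h1 : wd f U 1 ≤ (wd f U 0).comap (e j) := by
      refine wd_succ_le fun i x hx => ?_
      rw [Submodule.mem_comap]
      by_cases hij : j = i
      · subst hij
        rw [hC.efs, hU' j x hx, map_zero, zero_add]
        exact hU j x hx
      · rw [hC.efn hij, hU' j x hx, map_zero]
        exact Submodule.zero_mem _
    exact fun x hx => h1 hx
  | succ k ih =>
    have h1 : wd f U (k + 1 + 1) ≤ (wd f U (k + 1)).comap (e j) := by
      refine wd_succ_le fun i x hx => ?_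
      rw [Submodule.mem_comap]
      by_cases hij : j = i
      · subst hij
        rw [hC.efs]
        exact Submodule.add_mem _ (wd_succ_mem (ih x hx) j) (hC.wd_h hU _ j x hx)
      · rw [hC.efn hij]
        exact wd_succ_mem (ih x hx) i
    exact fun x hx => h1 hx

/-- the words span a stable subspace -/
theorem iSup_wd {U : Submodule K S} (hU : ∀ j, ∀ x ∈ U, h j x ∈ U)
    (hU' : ∀ j, ∀ x ∈ U, e j x = 0) (j : ι) :
    (∀ x ∈ ⨆ k, wd f U k, e j x ∈ ⨆ k, wd f U k) ∧ (∀ x ∈ ⨆ k, wd f U k, f j x ∈ ⨆ k, wd f U k) := by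
  constructor
  · have h1 : (⨆ k, wd f U k) ≤ (⨆ k, wd f U k).comap (e j) := by
      refine iSup_le fun k x hx => ?_
      rw [Submodule.mem_comap]
      cases k with
      | zero =>
        rw [hU' j x hx]
        exact Submodule.zero_mem _
      | succ k => exact Submodule.mem_iSup_of_mem k (hC.wd_e hU hU' k j x hx)
    exact fun x hx => h1 hx
  · have h1 : (⨆ k, wd f U k) ≤ (⨆ k, wd f U k).comap (f j) := by
      refine iSup_le fun k x hx => ?_
      rw [Submodule.mem_comap]
      exact Submodule.mem_iSup_of_mem (k + 1) (wd_succ_mem hx j)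
    exact fun x hx => h1 hx

theorem H0_e (i : ι) (x : S) : H0 h c (e i x) = e i (H0 h c x) + (2 : K) • e i x := by
  unfold H0
  simp only [LinearMap.sum_apply, LinearMap.smul_apply, map_sum, map_smul]
  rw [← hC.rho i, Finset.sum_smul, ← Finset.sum_add_distrib]
  refine Finset.sum_congr rfl fun j _ => ?_
  rw [hC.he', smul_add, smul_smul]

theorem H0_f (i : ι) (x : S) : H0 h c (f i x) = f i (H0 h c x) - (2 : K) • f i x := by
  unfold H0
  simp only [LinearMap.sum_apply, LinearMap.smul_apply, map_sum, map_smul]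
  rw [← hC.rho i, Finset.sum_smul, ← Finset.sum_sub_distrib]
  refine Finset.sum_congr rfl fun j _ => ?_
  rw [hC.hf', smul_sub, smul_smul]

theorem H0_h (i : ι) (x : S) : H0 h c (h i x) = h i (H0 h c x) := by
  unfold H0
  simp only [LinearMap.sum_apply, LinearMap.smul_apply, map_sum, map_smul]
  refine Finset.sum_congr rfl fun j _ => ?_
  congr 1
  exact congrArg (fun g : Module.End K S => g x) (hC.hh j i)

theorem e_lev {μ : K} {k : ℤ} (i : ι) {x : S} (hx : x ∈ lev h c μ k) :
    e i x ∈ lev h c μ (k - 1) := by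
  rw [mem_lev] at hx ⊢
  rw [hC.H0_e, hx, map_smul, ← add_smul]
  congr 1
  push_cast
  ring

theorem f_lev {μ : K} {k : ℤ} (i : ι) {x : S} (hx : x ∈ lev h c μ k) :
    f i x ∈ lev h c μ (k + 1) := by
  rw [mem_lev] at hx ⊢
  rw [hC.H0_f, hx, map_smul, ← sub_smul]
  congr 1
  push_cast
  ring

theorem h_lev {μ : K} {k : ℤ} (i : ι) {x : S} (hx : x ∈ lev h c μ k) :
    h i x ∈ lev h c μ k := by
  rw [mem_lev] at hx ⊢
  rw [hC.H0_h, hx, map_smul]

theorem wd_lev {U : Submodule K S} {μ : K} {k : ℤ} (hU : U ≤ lev h c μ k) (j : ℕ) :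
    wd f U j ≤ lev h c μ (k + j) := by
  induction j with
  | zero => simpa [wd] using hU
  | succ j ih =>
    refine wd_succ_le fun i x hx => ?_
    have h1 := hC.f_lev i (ih hx)
    have h2 : k + (j : ℤ) + 1 = k + ((j + 1 : ℕ) : ℤ) := by push_cast; ring
    rwa [h2] at h1

end Chev

theorem lev_indep (μ : K) : iSupIndep (lev h c μ) := by
  have h1 := (H0 h c).eigenspaces_iSupIndep
  exact h1.comp (f := fun k : ℤ => μ - 2 * (k : K)) fun a b hab => by
    have h2 : (2 : K) * a = 2 * b := by
      have h3 : μ - 2 * (a : K) = μ - 2 * (b : K) := hab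
      linear_combination -h3
    have h3 := mul_left_cancel₀ two_ne_zero h2
    exact_mod_cast h3

/-- a vector of a level in the sum of subspaces of levels -/
theorem mem_of_lev {μ : K} {k : ℤ} {W : ℕ → Submodule K S} (hW : ∀ j : ℕ, W j ≤ lev h c μ (k + j))
    {x : S} (hx : x ∈ ⨆ j, W j) {l : ℤ} (hl : x ∈ lev h c μ l) :
    (∀ j : ℕ, k + j = l → x ∈ W j) ∧ ((∀ j : ℕ, k + j ≠ l) → x = 0) := by
  have hind := lev_indep (h := h) (c := c) μ
  constructor
  · intro j hj
    have h1 : (⨆ j, W j) ≤ W j ⊔ ⨆ (i : ℤ) (_ : i ≠ l), lev h c μ i := by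
      refine iSup_le fun i => ?_
      by_cases hij : i = j
      · subst hij
        exact le_sup_left
      · refine le_trans (hW i) (le_trans ?_ le_sup_right)
        refine le_iSup₂_of_le (k + i) ?_ le_rfl
        intro h2
        apply hij
        have h3 : (i : ℤ) = j := by linarith
        exact_mod_cast h3
    obtain ⟨a, ha, b, hb, hab⟩ := Submodule.mem_sup.1 (h1 hx)
    have h2 : b ∈ lev h c μ l := by
      have h3 : b = x - a := by rw [← hab]; abel
      rw [h3]
      refine Submodule.sub_mem _ hl ?_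
      have h4 := hW j ha
      rwa [hj] at h4
    have h3 : b = 0 := by
      have h4 := (hind l)
      rw [disjoint_iff] at h4
      have h5 : b ∈ lev h c μ l ⊓ ⨆ (i : ℤ) (_ : i ≠ l), lev h c μ i := ⟨h2, hb⟩
      rw [h4] at h5
      exact (Submodule.mem_bot K).1 h5
    rw [← hab, h3, add_zero]
    exact ha
  · intro hj
    have h1 : (⨆ j, W j) ≤ ⨆ (i : ℤ) (_ : i ≠ l), lev h c μ i :=
      iSup_le fun i => (hW i).trans (le_iSup₂_of_le (k + i) (hj i) le_rfl)
    have h4 := (hind l)
    rw [disjoint_iff] at h4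
    have h5 : x ∈ lev h c μ l ⊓ ⨆ (i : ℤ) (_ : i ≠ l), lev h c μ i := ⟨hl, h1 hx⟩
    rw [h4] at h5
    exact (Submodule.mem_bot K).1 h5

end Pool.Agent.Q50.SR
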