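import Pool.Agent.Q50.SR.Evn9

/-!
# Coloured gamma matrices: averages
-/

set_option linter.unusedSectionVars false
set_option maxHeartbeats 4000000
set_option synthInstance.maxHeartbeats 400000

namespace Pool.Agent.Q50.SR

open Module

variable {K S κ : Type*} [Field K] [CharZero K] [AddCommGroup S] [Module K S] {n : ℕ}

/-- coloured gamma matrices -/
structure CRel (γ : Fin n → Module.End K S) (c : Fin n → κ) : Prop where
  same : ∀ i j, c i = c j → γ i * γ j + γ j * γ i = (if i = j then (2 : K) else 0) • 1
  diff : ∀ i j, c i ≠ c j → γ i * γ j = γ j * γ i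
  schur : ∀ x, (∀ i, x * γ i = γ i * x) → ∃ ν : K, x = ν • 1

/-- the average over the conjugations with the gamma matrices of a list -/
noncomputable def Av (γ : Fin n → Module.End K S) :
    List (Fin n) → Module.End K S →ₗ[K] Module.End K S
  | [] => LinearMap.id
  | k :: l => (2 : K)⁻¹ • (Av γ l +
      (LinearMap.mulLeft K (γ k)).comp ((LinearMap.mulRight K (γ k)).comp (Av γ l)))

variable {γ : Fin n → Module.End K S} {c : Fin n → κ}

theorem Av_nil (z : Module.End K S) : Av γ [] z = z := rfl

theorem Av_cons (k : Fin n) (l : List (Fin n)) (z : Module.End K S) :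
    Av γ (k :: l) z = (2 : K)⁻¹ • (Av γ l z + γ k * (Av γ l z * γ k)) := rfl

/-- the normalised trace -/
noncomputable def tn (z : Module.End K S) : K := (finrank K S : K)⁻¹ * LinearMap.trace K S z

theorem tn_comm (x y : Module.End K S) : tn (x * y) = tn (y * x) := by
  unfold tn
  rw [LinearMap.trace_mul_comm]

theorem tn_sub (x y : Module.End K S) : tn (x - y) = tn x - tn y := by
  unfold tn
  rw [map_sub]
  ring

theorem tn_add (x y : Module.End K S) : tn (x + y) = tn x + tn y := by
  unfold tn
  rw [map_add]
  ring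

theorem tn_smul (r : K) (x : Module.End K S) : tn (r • x) = r * tn x := by
  unfold tn
  rw [map_smul, smul_eq_mul]
  ring

theorem bf_eq_tn (x y : Module.End K S) : bf x y = tn (x * y) := rfl

namespace CRel

variable (h : CRel γ c)

include h

theorem sq (k : Fin n) : γ k * γ k = 1 := by
  have h1 := h.same k k rfl
  rw [if_pos rfl, ← two_smul K] at h1
  exact smul_right_injective _ (two_ne_zero (α := K)) h1

theorem pm (i j : Fin n) : γ i * γ j = γ j * γ i ∨ γ i * γ j = -(γ j * γ i) := by
  by_cases hc : c i = c j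
  · by_cases hij : i = j
    · rw [hij]
      exact Or.inl rfl
    · right
      have h1 := h.same i j hc
      rw [if_neg hij, zero_smul] at h1
      exact eq_neg_of_add_eq_zero_left h1
  · exact Or.inl (h.diff i j hc)

theorem Av_left {l : List (Fin n)} {a : Module.End K S} (ha : ∀ k ∈ l, a * γ k = γ k * a)
    (z : Module.End K S) : Av γ l (a * z) = a * Av γ l z := by
  induction l with
  | nil => rfl
  | cons k l ih =>
    rw [Av_cons, Av_cons, ih fun j hj => ha j (List.mem_cons_of_mem _ hj), mul_smul_comm, mul_add]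
    congr 2
    rw [← mul_assoc, ← mul_assoc, ← ha k List.mem_cons_self, mul_assoc, mul_assoc]

theorem Av_right {l : List (Fin n)} {a : Module.End K S} (ha : ∀ k ∈ l, a * γ k = γ k * a)
    (z : Module.End K S) : Av γ l (z * a) = Av γ l z * a := by
  induction l with
  | nil => rfl
  | cons k l ih =>
    rw [Av_cons, Av_cons, ih fun j hj => ha j (List.mem_cons_of_mem _ hj), smul_mul_assoc, add_mul]
    congr 2
    rw [mul_assoc, mul_assoc, mul_assoc, ha k List.mem_cons_self]

theorem Av_comm {l : List (Fin n)} {a : Module.End K S} (ha : ∀ k ∈ l, a * γ k = γ k * a)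
    {z : Module.End K S} (hz : a * z = z * a) : a * Av γ l z = Av γ l z * a := by
  rw [← h.Av_left ha, ← h.Av_right ha, hz]

theorem Av_fix {l : List (Fin n)} {z : Module.End K S} (hz : ∀ k ∈ l, z * γ k = γ k * z) :
    Av γ l z = z := by
  induction l with
  | nil => rfl
  | cons k l ih =>
    rw [Av_cons, ih fun j hj => hz j (List.mem_cons_of_mem _ hj), hz k List.mem_cons_self,
      ← mul_assoc, h.sq, one_mul, ← two_smul K, smul_smul, inv_mul_cancel₀ two_ne_zero, one_smul]

theorem Av_mem {l : List (Fin n)} (z : Module.End K S) :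
    ∀ k ∈ l, Av γ l z * γ k = γ k * Av γ l z := by
  induction l with
  | nil => exact fun k hk => absurd hk List.not_mem_nil
  | cons k l ih =>
    intro j hj
    rw [Av_cons, smul_mul_assoc, mul_smul_comm, add_mul, mul_add]
    congr 1
    by_cases hjk : j = k
    · subst hjk
      rw [mul_assoc, mul_assoc, h.sq, mul_one, ← mul_assoc, h.sq, one_mul, add_comm]
    · have hjl : j ∈ l := by
        rcases List.mem_cons.1 hj with h1 | h1
        · exact absurd h1 hjk
        · exact h1
      have h1 := ih j hjl
      rw [h1]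
      congr 1
      set w := Av γ l z
      rcases h.pm k j with h2 | h2
      · rw [mul_assoc, mul_assoc, h2, ← mul_assoc w, h1, ← mul_assoc, ← mul_assoc, h2]
        simp only [mul_assoc]
      · rw [mul_assoc, mul_assoc, h2, mul_neg, ← mul_assoc w, h1, mul_neg, ← mul_assoc,
          ← mul_assoc, h2]
        simp only [mul_assoc, neg_mul, neg_neg]

theorem Av_tn (l : List (Fin n)) (z : Module.End K S) : tn (Av γ l z) = tn z := by
  induction l with
  | nil => rfl
  | cons k l ih =>
    rw [Av_cons, tn_smul, tn_add, tn_comm (γ k), mul_assoc, h.sq, mul_one, ih]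
    have h2 : (2 : K) ≠ 0 := two_ne_zero
    field_simp
    ring

theorem tn_one [FiniteDimensional K S] [Nontrivial S] : tn (1 : Module.End K S) = 1 := by
  unfold tn
  rw [LinearMap.trace_one, inv_mul_cancel₀]
  have h4 : 0 < finrank K S := Module.finrank_pos
  exact_mod_cast h4.ne'

/-- a scalar average -/
theorem Av_scalar [FiniteDimensional K S] [Nontrivial S] {l : List (Fin n)}
    {z : Module.End K S} (h1 : ∀ i, i ∉ l → z * γ i = γ i * z)
    (h2 : ∀ i, i ∉ l → ∀ k ∈ l, γ i * γ k = γ k * γ i) : Av γ l z = tn z • 1 := by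
  obtain ⟨ν, hν⟩ := h.schur (Av γ l z) fun i => by
    by_cases hi : i ∈ l
    · exact h.Av_mem z i hi
    · exact (h.Av_comm (h2 i hi) (h1 i hi).symm).symm
  have h3 := h.Av_tn l z
  rw [hν, tn_smul, h.tn_one, mul_one] at h3
  rw [hν, h3]

end CRel

end Pool.Agent.Q50.SR
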