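import Pool.Agent.Q50.SR.Col1

/-!
# Coloured gamma matrices: the projections to the colours
-/

set_option linter.unusedSectionVars false
set_option maxHeartbeats 4000000
set_option synthInstance.maxHeartbeats 400000

namespace Pool.Agent.Q50.SR

open Module

variable {K S κ : Type*} [Field K] [CharZero K] [AddCommGroup S] [Module K S] {n : ℕ}
  [DecidableEq κ] {γ : Fin n → Module.End K S} {c : Fin n → κ}

/-- the indices of the other colours -/
def oth (c : Fin n → κ) (σ : κ) : List (Fin n) := (List.finRange n).filter fun k => c k ≠ σ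

theorem mem_oth {σ : κ} {k : Fin n} : k ∈ oth c σ ↔ c k ≠ σ := by
  unfold oth
  rw [List.mem_filter]
  simp

/-- the orthogonal algebra of the coloured gamma matrices -/
def LamC (γ : Fin n → Module.End K S) (c : Fin n → κ) : Submodule K (Module.End K S) :=
  Submodule.span K {x | ∃ i j, c i = c j ∧ x = γ i * γ j - γ j * γ i}

/-- the orthogonal algebra of one colour -/
def LamS (γ : Fin n → Module.End K S) (c : Fin n → κ) (σ : κ) :
    Submodule K (Module.End K S) :=
  Submodule.span K {x | ∃ i j, c i = σ ∧ c j = σ ∧ x = γ i * γ j - γ j * γ i}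

theorem LamS_le (σ : κ) : LamS γ c σ ≤ LamC γ c :=
  Submodule.span_mono fun _ ⟨i, j, hi, hj, hx⟩ => ⟨i, j, hi.trans hj.symm, hx⟩

theorem LamC_tn {x : Module.End K S} (hx : x ∈ LamC γ c) : tn x = 0 := by
  induction hx using Submodule.span_induction with
  | mem x hx =>
    obtain ⟨i, j, _, rfl⟩ := hx
    rw [tn_sub, tn_comm, sub_self]
  | zero =>
    unfold tn
    rw [map_zero, mul_zero]
  | add x y _ _ hx hy => rw [tn_add, hx, hy, add_zero]
  | smul a x _ hx => rw [tn_smul, hx, mul_zero]

/-- the projection to a colour -/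
noncomputable def Ep (γ : Fin n → Module.End K S) (c : Fin n → κ) (σ : κ) :
    Module.End K S →ₗ[K] Module.End K S := Av γ (oth c σ)

/-- the algebra generated by the other colours -/
def Bo (γ : Fin n → Module.End K S) (c : Fin n → κ) (σ : κ) : Subalgebra K (Module.End K S) :=
  Algebra.adjoin K {x | ∃ k, c k ≠ σ ∧ x = γ k}

namespace CRel

variable (h : CRel γ c)

include h

theorem LamS_comm {σ : κ} {x : Module.End K S} (hx : x ∈ LamS γ c σ) {k : Fin n}
    (hk : c k ≠ σ) : x * γ k = γ k * x := by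
  induction hx using Submodule.span_induction with
  | mem x hx =>
    obtain ⟨i, j, hi, hj, rfl⟩ := hx
    have h1 := h.diff i k (by rw [hi]; exact hk.symm)
    have h2 := h.diff j k (by rw [hj]; exact hk.symm)
    rw [sub_mul, mul_sub, mul_assoc, mul_assoc, h1, h2, ← mul_assoc, ← mul_assoc, h1, h2,
      mul_assoc, mul_assoc]
  | zero => rw [zero_mul, mul_zero]
  | add x y _ _ hx hy => rw [add_mul, mul_add, hx, hy]
  | smul a x _ hx => rw [smul_mul_assoc, mul_smul_comm, hx]

theorem Ep_fix {σ : κ} {z : Module.End K S} (hz : ∀ k, c k ≠ σ → z * γ k = γ k * z) :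
    Ep γ c σ z = z := h.Av_fix fun k hk => hz k (mem_oth.1 hk)

theorem Ep_comm (σ : κ) (z : Module.End K S) {k : Fin n} (hk : c k ≠ σ) :
    Ep γ c σ z * γ k = γ k * Ep γ c σ z := h.Av_mem z k (mem_oth.2 hk)

theorem Ep_scalar [FiniteDimensional K S] [Nontrivial S] {σ : κ} {z : Module.End K S}
    (hz : ∀ i, c i = σ → z * γ i = γ i * z) : Ep γ c σ z = tn z • 1 := by
  refine h.Av_scalar (fun i hi => hz i ?_) fun i hi k hk => h.diff i k ?_
  · by_contra h0
    exact hi (mem_oth.2 h0)
  · have h1 : c i = σ := by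
      by_contra h0
      exact hi (mem_oth.2 h0)
    rw [h1]
    exact (mem_oth.1 hk).symm

theorem Ep_LamS {σ : κ} {x : Module.End K S} (hx : x ∈ LamS γ c σ) : Ep γ c σ x = x :=
  h.Ep_fix fun _ hk => h.LamS_comm hx hk

theorem Ep_ne [FiniteDimensional K S] [Nontrivial S] {σ τ : κ} (hστ : σ ≠ τ)
    {x : Module.End K S} (hx : x ∈ LamS γ c σ) : Ep γ c τ x = 0 := by
  rw [h.Ep_scalar fun i hi => h.LamS_comm hx (by rw [hi]; exact hστ.symm),
    LamC_tn (LamS_le σ hx), zero_smul]

theorem Ep_mem [FiniteDimensional K S] [Nontrivial S] (σ : κ) {x : Module.End K S}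
    (hx : x ∈ LamC γ c) : Ep γ c σ x ∈ LamS γ c σ := by
  induction hx using Submodule.span_induction with
  | mem x hx =>
    obtain ⟨i, j, hij, rfl⟩ := hx
    have h1 : γ i * γ j - γ j * γ i ∈ LamS γ c (c i) :=
      Submodule.subset_span ⟨i, j, rfl, hij.symm, rfl⟩
    by_cases hi : c i = σ
    · rw [hi] at h1
      rw [h.Ep_LamS h1]
      exact h1
    · rw [h.Ep_ne hi h1]
      exact Submodule.zero_mem _
  | zero =>
    rw [map_zero]
    exact Submodule.zero_mem _
  | add x y _ _ hx hy =>
    rw [map_add]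
    exact Submodule.add_mem _ hx hy
  | smul a x _ hx =>
    rw [map_smul]
    exact Submodule.smul_mem _ _ hx

theorem Ep_sum [FiniteDimensional K S] [Nontrivial S] [Fintype κ] {x : Module.End K S}
    (hx : x ∈ LamC γ c) : ∑ σ, Ep γ c σ x = x := by
  induction hx using Submodule.span_induction with
  | mem x hx =>
    obtain ⟨i, j, hij, rfl⟩ := hx
    have h1 : γ i * γ j - γ j * γ i ∈ LamS γ c (c i) :=
      Submodule.subset_span ⟨i, j, rfl, hij.symm, rfl⟩
    rw [Finset.sum_eq_single (c i), h.Ep_LamS h1]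
    · intro σ _ hσ
      exact h.Ep_ne (Ne.symm hσ) h1
    · intro h
      exact absurd (Finset.mem_univ _) h
  | zero =>
    simp only [map_zero, Finset.sum_const_zero]
  | add x y _ _ hx hy =>
    simp only [map_add, Finset.sum_add_distrib, hx, hy]
  | smul a x _ hx =>
    simp only [map_smul, ← Finset.smul_sum, hx]

theorem sub_mem_Bo [FiniteDimensional K S] [Nontrivial S] (σ : κ) {x : Module.End K S}
    (hx : x ∈ LamC γ c) : x - Ep γ c σ x ∈ Bo γ c σ := by
  induction hx using Submodule.span_induction with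
  | mem x hx =>
    obtain ⟨i, j, hij, rfl⟩ := hx
    have h1 : γ i * γ j - γ j * γ i ∈ LamS γ c (c i) :=
      Submodule.subset_span ⟨i, j, rfl, hij.symm, rfl⟩
    by_cases hi : c i = σ
    · rw [hi] at h1
      rw [h.Ep_LamS h1, sub_self]
      exact Subalgebra.zero_mem _
    · rw [h.Ep_ne hi h1, sub_zero]
      have h2 : γ i ∈ Bo γ c σ := Algebra.subset_adjoin ⟨i, hi, rfl⟩
      have h3 : γ j ∈ Bo γ c σ := Algebra.subset_adjoin ⟨j, by rw [← hij]; exact hi, rfl⟩
      exact Subalgebra.sub_mem _ (Subalgebra.mul_mem _ h2 h3) (Subalgebra.mul_mem _ h3 h2)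
  | zero =>
    rw [map_zero, sub_self]
    exact Subalgebra.zero_mem _
  | add x y _ _ hx hy =>
    have h1 : x + y - Ep γ c σ (x + y) = (x - Ep γ c σ x) + (y - Ep γ c σ y) := by
      rw [map_add]
      abel
    rw [h1]
    exact Subalgebra.add_mem _ hx hy
  | smul a x _ hx =>
    have h1 : a • x - Ep γ c σ (a • x) = a • (x - Ep γ c σ x) := by
      rw [map_smul, smul_sub]
    rw [h1]
    exact Subalgebra.smul_mem _ hx a

omit h in
/-- the commutant of the other colours -/
theorem Bo_comm {σ : κ} {a : Module.End K S} (ha : ∀ k, c k ≠ σ → a * γ k = γ k * a)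
    {b : Module.End K S} (hb : b ∈ Bo γ c σ) : a * b = b * a := by
  induction hb using Algebra.adjoin_induction with
  | mem x hx =>
    obtain ⟨k, hk, rfl⟩ := hx
    exact ha k hk
  | algebraMap r => exact (Algebra.commutes r a).symm
  | add x y _ _ hx hy => rw [mul_add, add_mul, hx, hy]
  | mul x y _ _ hx hy => rw [← mul_assoc, hx, mul_assoc, hy, mul_assoc]

theorem Ep_Bo [FiniteDimensional K S] [Nontrivial S] {σ : κ} {b : Module.End K S}
    (hb : b ∈ Bo γ c σ) : Ep γ c σ b = tn b • 1 := by
  refine h.Ep_scalar fun i hi => ?_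
  refine (Bo_comm (c := c) (fun k hk => h.diff i k ?_) hb).symm
  rw [hi]
  exact hk.symm

/-- the projection of the algebra generated by `L` -/
theorem Ep_adjoin [FiniteDimensional K S] [Nontrivial S] {L : Submodule K (Module.End K S)}
    (hL : L ≤ LamC γ c) (σ : κ) {x : Module.End K S}
    (hx : x ∈ Algebra.adjoin K (L : Set (Module.End K S))) :
    Ep γ c σ x ∈ Algebra.adjoin K ((L.map (Ep γ c σ) : Submodule K (Module.End K S)) :
      Set (Module.End K S)) := by
  set A := Algebra.adjoin K ((L.map (Ep γ c σ) : Submodule K (Module.End K S)) :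
      Set (Module.End K S)) with hA
  have hcomm : ∀ a ∈ A, ∀ k, c k ≠ σ → a * γ k = γ k * a := by
    intro a ha k hk
    induction ha using Algebra.adjoin_induction with
    | mem x hx =>
      obtain ⟨y, _, rfl⟩ := hx
      exact h.Ep_comm σ y hk
    | algebraMap r => exact Algebra.commutes r _
    | add x y _ _ hx hy => rw [mul_add, add_mul, hx, hy]
    | mul x y _ _ hx hy => rw [mul_assoc, hy, ← mul_assoc, hx, mul_assoc]
  let W : Submodule K (Module.End K S) := Submodule.span K {w | ∃ a ∈ A, ∃ b ∈ Bo γ c σ, w = a * b}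
  have hone : (1 : Module.End K S) ∈ W :=
    Submodule.subset_span ⟨1, A.one_mem, 1, (Bo γ c σ).one_mem, (mul_one 1).symm⟩
  have hmul : ∀ x ∈ Algebra.adjoin K (L : Set (Module.End K S)), ∀ w ∈ W, x * w ∈ W := by
    intro x hx
    induction hx using Algebra.adjoin_induction with
    | mem x hx =>
      intro w hw
      induction hw using Submodule.span_induction with
      | mem w hw =>
        obtain ⟨a, ha, b, hb, rfl⟩ := hw
        have h1 : x * (a * b) = (Ep γ c σ x * a) * b + a * ((x - Ep γ c σ x) * b) := by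
          have h2 := Bo_comm (hcomm a ha) (h.sub_mem_Bo σ (hL hx))
          rw [← mul_assoc a, h2]
          simp only [sub_mul, mul_assoc]
          abel
        rw [h1]
        exact Submodule.add_mem _ (Submodule.subset_span ⟨_, A.mul_mem
          (Algebra.subset_adjoin ⟨x, hx, rfl⟩) ha, b, hb, rfl⟩)
          (Submodule.subset_span ⟨a, ha, _, (Bo γ c σ).mul_mem (h.sub_mem_Bo σ (hL hx)) hb, rfl⟩)
      | zero =>
        rw [mul_zero]
        exact W.zero_mem
      | add y z _ _ hy hz =>
        rw [mul_add]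
        exact W.add_mem hy hz
      | smul r y _ hy =>
        rw [mul_smul_comm]
        exact W.smul_mem _ hy
    | algebraMap r =>
      intro w hw
      rw [← Algebra.smul_def]
      exact W.smul_mem _ hw
    | add x y _ _ hx hy =>
      intro w hw
      rw [add_mul]
      exact W.add_mem (hx w hw) (hy w hw)
    | mul x y _ _ hx hy =>
      intro w hw
      rw [mul_assoc]
      exact hx _ (hy w hw)
  have hxW := hmul x hx 1 hone
  rw [mul_one] at hxW
  clear hx
  induction hxW using Submodule.span_induction with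
  | mem w hw =>
    obtain ⟨a, ha, b, hb, rfl⟩ := hw
    have h1 : Ep γ c σ (a * b) = a * Ep γ c σ b :=
      h.Av_left (fun k hk => hcomm a ha k (mem_oth.1 hk)) b
    rw [h1, h.Ep_Bo hb, mul_smul_comm, mul_one]
    exact A.smul_mem ha _
  | zero =>
    rw [map_zero]
    exact A.zero_mem
  | add y z _ _ hy hz =>
    rw [map_add]
    exact A.add_mem hy hz
  | smul r y _ hy =>
    rw [map_smul]
    exact A.smul_mem hy r

/-- the projection is a homomorphism -/
theorem Ep_bracket [FiniteDimensional K S] [Nontrivial S] (σ : κ) {x y : Module.End K S}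
    (hx : x ∈ LamC γ c) (hy : y ∈ LamC γ c) :
    Ep γ c σ (x * y - y * x) = Ep γ c σ x * Ep γ c σ y - Ep γ c σ y * Ep γ c σ x := by
  have hx1 := h.sub_mem_Bo σ hx
  have hy1 := h.sub_mem_Bo σ hy
  set x1 := Ep γ c σ x with hx1d
  set y1 := Ep γ c σ y with hy1d
  have hcx : ∀ k, c k ≠ σ → x1 * γ k = γ k * x1 := fun k hk => h.Ep_comm σ x hk
  have hcy : ∀ k, c k ≠ σ → y1 * γ k = γ k * y1 := fun k hk => h.Ep_comm σ y hk
  have h1 := Bo_comm hcx hy1
  have h2 := Bo_comm hcy hx1
  have h3 : x * y - y * x = (x1 * y1 - y1 * x1) +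
      ((x - x1) * (y - y1) - (y - y1) * (x - x1)) := by
    have h4 : x * y - y * x = (x1 * y1 - y1 * x1) +
      ((x - x1) * (y - y1) - (y - y1) * (x - x1)) + (x1 * (y - y1) - (y - y1) * x1) -
      (y1 * (x - x1) - (x - x1) * y1) := by noncomm_ring
    rw [h4, h1, h2, sub_self, sub_self, add_zero, sub_zero]
  rw [h3, map_add, h.Ep_fix (z := x1 * y1 - y1 * x1), h.Ep_Bo
    ((Bo γ c σ).sub_mem ((Bo γ c σ).mul_mem hx1 hy1) ((Bo γ c σ).mul_mem hy1 hx1)), tn_sub,
    tn_comm, sub_self, zero_smul, add_zero]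
  intro k hk
  rw [sub_mul, mul_sub, mul_assoc, mul_assoc, hcx k hk, hcy k hk, ← mul_assoc, ← mul_assoc,
    hcx k hk, hcy k hk, mul_assoc, mul_assoc]

end CRel

end Pool.Agent.Q50.SR
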