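import Pool.Agent.Q50.SR.Col3

/-!
# Coloured gamma matrices: the radical
-/

set_option linter.unusedSectionVars false
set_option maxHeartbeats 4000000
set_option synthInstance.maxHeartbeats 400000

namespace Pool.Agent.Q50.SR

open Module LieAlgebra LieModule

attribute [local instance 100] LieRing.ofAssociativeRing

variable {K S κ : Type*} [Field K] [CharZero K] [AddCommGroup S] [Module K S] {n : ℕ}
  [DecidableEq κ] {γ : Fin n → Module.End K S} {c : Fin n → κ}

namespace CRel

variable (h : CRel γ c)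

include h

theorem bf_gc [FiniteDimensional K S] [Nontrivial S] (σ : κ) (a b : Fin (cnt c σ)) :
    bf (gc γ c σ a) (gc γ c σ b) = if a = b then 1 else 0 := by
  have h1 := congrArg tn (h.gc_rel σ a b)
  rw [tn_add, tn_comm (gc γ c σ b), tn_smul, h.tn_one, mul_one, ← two_mul] at h1
  rw [bf_eq_tn]
  split_ifs at h1 ⊢ with h2
  · exact mul_left_cancel₀ two_ne_zero (by rw [h1, mul_one])
  · exact (mul_eq_zero.1 h1).resolve_left two_ne_zero

/-- the centre of the algebra of a colour is zero -/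
theorem centre [FiniteDimensional K S] [Nontrivial S] {σ : κ} (h3 : 3 ≤ cnt c σ)
    {z : Module.End K S} (hz : z ∈ LamS γ c σ) (hc : ∀ y ∈ LamS γ c σ, z * y = y * z) :
    z = 0 := by
  set g := gc γ c σ with hg
  have hrel := h.gc_rel σ
  rw [← hg] at hrel
  have hcl : Cl (Submodule.span K (Set.range g)) := cl_vec hrel
  have hgV : ∀ a, g a ∈ Submodule.span K (Set.range g) := fun a => Submodule.subset_span ⟨a, rfl⟩
  have hbf : ∀ a b, bf (g a) (g b) = if a = b then 1 else 0 := h.bf_gc σ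
  have h4 : (4 : K) ≠ 0 := by norm_num
  have key : ∀ a b, a ≠ b → ∃ r : K, ad z (g a) = r • g b := by
    intro a b hab
    have hy : g a * g b - g b * g a ∈ LamS γ c σ :=
      Submodule.subset_span ⟨_, _, gc_col σ a, gc_col σ b, rfl⟩
    have h5 := congrArg (fun f : Module.End K (Module.End K S) => f (g b))
      (ad_bracket z (g a * g b - g b * g a))
    simp only [LinearMap.sub_apply, Module.End.mul_apply] at h5
    have hz1 : ad z (g b) ∈ Submodule.span K (Set.range g) :=
      hcl.ad_mem (LamS_Lam σ hz) (hgV b)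
    have hsk : bf (g b) (ad z (g b)) = 0 := by
      have h6 := bf_ad z (g b) (g b)
      rw [bf_comm] at h6
      have h7 : (2 : K) * bf (g b) (ad z (g b)) = 0 := by linear_combination h6
      exact (mul_eq_zero.1 h7).resolve_left two_ne_zero
    rw [hc _ hy, sub_self, hcl.cm (hgV a) (hgV b) (hgV b), hcl.cm (hgV a) (hgV b) hz1, hbf, hbf,
      if_pos rfl, if_neg hab, hsk, mul_zero, zero_smul, sub_zero, zero_smul, mul_one, map_smul,
      zero_sub] at h5
    have h8 : ad (0 : Module.End K S) (g b) = 0 := by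
      rw [ad_apply, zero_mul, mul_zero, sub_zero]
    rw [h8] at h5
    refine ⟨-bf (g a) (ad z (g b)), ?_⟩
    have h9 : (4 : K) • ad z (g a) = (4 : K) • (-bf (g a) (ad z (g b))) • g b := by
      rw [sub_eq_zero.1 h5, smul_smul, ← neg_smul]
      congr 1
      ring
    exact smul_right_injective _ h4 h9
  refine h.LamS_zero hz fun k hk => ?_
  obtain ⟨a, ha⟩ := gc_surj (γ := γ) hk
  rw [← ha]
  obtain ⟨b, b', hab, hab', hbb'⟩ : ∃ b b' : Fin (cnt c σ), a ≠ b ∧ a ≠ b' ∧ b ≠ b' := by
    have h5 : 1 < (Finset.univ.erase a).card := by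
      rw [Finset.card_erase_of_mem (Finset.mem_univ a), Finset.card_univ, Fintype.card_fin]
      omega
    obtain ⟨b, hb, b', hb', hbb'⟩ := Finset.one_lt_card.1 h5
    exact ⟨b, b', (Finset.ne_of_mem_erase hb).symm, (Finset.ne_of_mem_erase hb').symm, hbb'⟩
  obtain ⟨r, hr⟩ := key a b hab
  obtain ⟨r', hr'⟩ := key a b' hab'
  have h5 : r = 0 := by
    have h6 : bf (ad z (g a)) (g b) = r := by rw [hr, bf_smul', hbf, if_pos rfl, mul_one]
    rw [hr', bf_smul', hbf, if_neg hbb'.symm, mul_zero] at h6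
    exact h6.symm
  rw [h5, zero_smul] at hr
  exact sub_eq_zero.1 hr

/-- the stable subspaces are trivial -/
theorem irr [FiniteDimensional K S] {U : Submodule K S} (hU : ∀ k, ∀ s ∈ U, γ k s ∈ U) :
    U = ⊥ ∨ U = ⊤ := by
  obtain ⟨π, hπ⟩ : ∃ π : Module.End K S, (∀ s, π s ∈ U) ∧ ∀ s ∈ U, π s = s := by
    obtain ⟨W, hW⟩ := Submodule.exists_isCompl U
    refine ⟨U.subtype.comp (U.projectionOnto W hW), fun s => ?_, fun s hs => ?_⟩
    · exact (U.projectionOnto W hW s).2
    · have h1 := Submodule.projectionOnto_apply_left hW ⟨s, hs⟩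
      rw [LinearMap.comp_apply]
      exact congrArg Subtype.val h1
  have key : ∀ l : List (Fin n), (∀ s, Av γ l π s ∈ U) ∧ ∀ s ∈ U, Av γ l π s = s := by
    intro l
    induction l with
    | nil => exact hπ
    | cons k l ih =>
      constructor
      · intro s
        rw [Av_cons, LinearMap.smul_apply, LinearMap.add_apply, Module.End.mul_apply,
          Module.End.mul_apply]
        exact U.smul_mem _ (U.add_mem (ih.1 s) (hU k _ (ih.1 _)))
      · intro s hs
        rw [Av_cons, LinearMap.smul_apply, LinearMap.add_apply, Module.End.mul_apply,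
          Module.End.mul_apply, ih.2 s hs, ih.2 _ (hU k s hs)]
        have h1 := congrArg (fun f : Module.End K S => f s) (h.sq k)
        simp only [Module.End.mul_apply, Module.End.one_apply] at h1
        rw [h1, ← two_smul K, smul_smul, inv_mul_cancel₀ two_ne_zero, one_smul]
  obtain ⟨h1, h2⟩ := key (List.finRange n)
  obtain ⟨ν, hν⟩ := h.schur (Av γ (List.finRange n) π) fun k =>
    h.Av_mem π k (List.mem_finRange k)
  by_cases hU0 : U = ⊥
  · exact Or.inl hU0
  · right
    obtain ⟨s, hs, hs0⟩ := (Submodule.ne_bot_iff _).1 hU0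
    have h3 := h2 s hs
    rw [hν, LinearMap.smul_apply, Module.End.one_apply] at h3
    have h4 : ν = 1 := by
      have h5 : (ν - 1) • s = 0 := by rw [sub_smul, one_smul, h3, sub_self]
      exact sub_eq_zero.1 ((smul_eq_zero.1 h5).resolve_right hs0)
    rw [eq_top_iff]
    intro t _
    have h5 := h1 t
    rwa [hν, h4, one_smul, Module.End.one_apply] at h5

/-- the gamma matrices normalise the orthogonal algebra -/
theorem conj {y : Module.End K S} (hy : y ∈ LamC γ c) (k : Fin n) :
    γ k * y * γ k ∈ LamC γ c := by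
  have h1 : ∀ i, ∃ r : K, (r = 1 ∨ r = -1) ∧ γ k * γ i * γ k = r • γ i := by
    intro i
    rcases h.pm k i with h2 | h2
    · exact ⟨1, Or.inl rfl, by rw [h2, mul_assoc, h.sq, mul_one, one_smul]⟩
    · exact ⟨-1, Or.inr rfl, by rw [h2, neg_mul, mul_assoc, h.sq, mul_one, neg_smul, one_smul]⟩
  have h2 : ∀ x y : Module.End K S, γ k * (x * y) * γ k = (γ k * x * γ k) * (γ k * y * γ k) := by
    intro x y
    have h3 : (γ k * x * γ k) * (γ k * y * γ k) = γ k * x * (γ k * γ k) * (y * γ k) := by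
      simp only [mul_assoc]
    rw [h3, h.sq, mul_one]
    simp only [mul_assoc]
  induction hy using Submodule.span_induction with
  | mem y hy =>
    obtain ⟨i, j, hij, rfl⟩ := hy
    obtain ⟨r, _, hr⟩ := h1 i
    obtain ⟨r', _, hr'⟩ := h1 j
    have h3 : γ k * (γ i * γ j - γ j * γ i) * γ k = (r * r') • (γ i * γ j - γ j * γ i) := by
      rw [mul_sub, sub_mul, h2, h2, hr, hr', smul_mul_smul_comm, smul_mul_smul_comm, mul_comm r',
        ← smul_sub]
    rw [h3]
    exact Submodule.smul_mem _ _ (Submodule.subset_span ⟨i, j, hij, rfl⟩)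
  | zero =>
    rw [mul_zero, zero_mul]
    exact Submodule.zero_mem _
  | add x y _ _ hx hy =>
    rw [mul_add, add_mul]
    exact Submodule.add_mem _ hx hy
  | smul r x _ hx =>
    rw [mul_smul_comm, smul_mul_assoc]
    exact Submodule.smul_mem _ _ hx

/-- minimal stable subspaces -/
def Mn (γ : Fin n → Module.End K S) (c : Fin n → κ) (W : Submodule K S) : Prop :=
  W ≠ ⊥ ∧ (∀ y ∈ LamC γ c, ∀ s ∈ W, y s ∈ W) ∧
    ∀ U ≤ W, (∀ y ∈ LamC γ c, ∀ s ∈ U, y s ∈ U) → U = ⊥ ∨ U = W

theorem Mn_map {W : Submodule K S} (hW : Mn γ c W) (k : Fin n) : Mn γ c (W.map (γ k)) := by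
  have hsq : ∀ s, γ k (γ k s) = s := fun s =>
    congrArg (fun f : Module.End K S => f s) (h.sq k)
  have hst : ∀ U : Submodule K S, (∀ y ∈ LamC γ c, ∀ s ∈ U, y s ∈ U) →
      ∀ y ∈ LamC γ c, ∀ s ∈ U.map (γ k), y s ∈ U.map (γ k) := by
    rintro U hU y hy _ ⟨s, hs, rfl⟩
    refine ⟨(γ k * y * γ k) s, hU _ (h.conj hy k) s hs, ?_⟩
    rw [Module.End.mul_apply, Module.End.mul_apply, hsq]
  have hmm : ∀ U : Submodule K S, (U.map (γ k)).map (γ k) = U := by
    intro U
    refine le_antisymm ?_ fun s hs => ⟨γ k s, ⟨s, hs, rfl⟩, hsq s⟩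
    rintro _ ⟨_, ⟨s, hs, rfl⟩, rfl⟩
    rwa [hsq]
  refine ⟨?_, hst W hW.2.1, fun U hU hU' => ?_⟩
  · intro h0
    apply hW.1
    rw [← hmm W, h0, Submodule.map_bot]
  · have h1 : U.map (γ k) ≤ W := by
      rw [← hmm W]
      exact Submodule.map_mono hU
    rcases hW.2.2 _ h1 (hst U hU') with h2 | h2
    · left
      rw [← hmm U, h2, Submodule.map_bot]
    · right
      rw [← hmm U, h2]

theorem sSup_Mn [FiniteDimensional K S] [Nontrivial S] : sSup {W | Mn γ c W} = ⊤ := by
  obtain ⟨W, ⟨hW0, hW⟩, hmin⟩ := (wellFounded_lt (α := Submodule K S)).has_min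
    {U : Submodule K S | U ≠ ⊥ ∧ ∀ y ∈ LamC γ c, ∀ s ∈ U, y s ∈ U}
    ⟨⊤, top_ne_bot, fun _ _ _ _ => trivial⟩
  have hWm : Mn γ c W := by
    refine ⟨hW0, hW, fun U hU hU' => ?_⟩
    by_cases hU0 : U = ⊥
    · exact Or.inl hU0
    · right
      by_contra hne
      exact hmin U ⟨hU0, hU'⟩ (lt_of_le_of_ne hU hne)
  rcases h.irr (U := sSup {W | Mn γ c W}) (fun k => by
    have h1 : (sSup {W | Mn γ c W}).map (γ k) ≤ sSup {W | Mn γ c W} := by
      rw [sSup_eq_iSup, Submodule.map_iSup]
      refine iSup_le fun W => ?_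
      rw [Submodule.map_iSup]
      refine iSup_le fun hW => ?_
      exact le_iSup₂_of_le (W.map (γ k)) (h.Mn_map hW k) le_rfl
    exact fun s hs => h1 ⟨s, hs, rfl⟩) with h1 | h1
  · exfalso
    apply hW0
    rw [eq_bot_iff, ← h1]
    exact le_sSup hWm
  · exact h1

/-- the radical is zero -/
theorem triv [IsAlgClosed K] [FiniteDimensional K S] [Nontrivial S] [Fintype κ]
    (h3 : ∀ i, 3 ≤ cnt c (c i)) {L : Submodule K (Module.End K S)}
    (hLie : ∀ x ∈ L, ∀ y ∈ L, x * y - y * x ∈ L) (hL : L ≤ LamC γ c)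
    (hadj : LamC γ c ≤ Subalgebra.toSubmodule
      (Algebra.adjoin K (L : Set (Module.End K S)))) :
    HasTrivialRadical K (mkL L hLie) := by
  let M := mkL L hLie
  have hst : ∀ U : Submodule K S, (∀ x ∈ L, ∀ s ∈ U, x s ∈ U) →
      ∀ y ∈ LamC γ c, ∀ s ∈ U, y s ∈ U := by
    intro U hU
    have h1 : ∀ y ∈ Algebra.adjoin K (L : Set (Module.End K S)), ∀ s ∈ U, y s ∈ U := by
      intro y hy
      induction hy using Algebra.adjoin_induction with
      | mem x hx => exact hU x hx
      | algebraMap r =>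
        intro s hs
        rw [Module.algebraMap_end_apply]
        exact Submodule.smul_mem _ _ hs
      | add x y _ _ hx hy =>
        intro s hs
        rw [LinearMap.add_apply]
        exact U.add_mem (hx s hs) (hy s hs)
      | mul x y _ _ hx hy =>
        intro s hs
        rw [Module.End.mul_apply]
        exact hx _ (hy s hs)
    exact fun y hy => h1 y (hadj hy)
  -- the radical acts by scalars on the minimal stable subspaces
  have hsc : ∀ x : M, x ∈ radical K M → ∀ W, Mn γ c W → ∃ χ : K, ∀ s ∈ W, x.1 s = χ • s := by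
    intro x hx W hW
    let N : LieSubmodule K M S :=
      { W with lie_mem := fun {x m} hm => hW.2.1 x.1 (hL x.2) m hm }
    have hNnt : Nontrivial N := by
      obtain ⟨s, hs, hs0⟩ := (Submodule.ne_bot_iff _).1 hW.1
      exact ⟨⟨s, hs⟩, 0, fun h => hs0 (congrArg Subtype.val h)⟩
    have hNirr : LieModule.IsIrreducible K M N := by
      refine LieModule.IsIrreducible.mk fun N' hN' => ?_
      let U : Submodule K S := N'.toSubmodule.map N.toSubmodule.subtype
      have hUst : ∀ x ∈ L, ∀ s ∈ U, x s ∈ U := by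
        rintro x hx _ ⟨s, hs, rfl⟩
        let s' : N := s
        let r : N := ⁅(⟨x, hx⟩ : M), s'⁆
        have hr : r ∈ N' := N'.lie_mem (m := s') hs
        exact ⟨r, hr, rfl⟩
      have hUW : U ≤ W := by
        rintro _ ⟨s, _, rfl⟩
        exact s.2
      have hU0 : U ≠ ⊥ := by
        intro h0
        apply hN'
        rw [LieSubmodule.eq_bot_iff]
        intro s hs
        have h4 : (s : S) ∈ U := ⟨s, hs, rfl⟩
        rw [h0, Submodule.mem_bot] at h4
        exact Subtype.ext h4
      have hUeq : W ≤ U := by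
        rcases hW.2.2 U hUW (hst U hUst) with h4 | h4
        · exact absurd h4 hU0
        · exact h4.ge
      rw [eq_top_iff]
      intro s _
      obtain ⟨s', hs', hs2⟩ := hUeq s.2
      have h5 : s' = s := Subtype.ext hs2
      rw [← h5]
      exact hs'
    obtain ⟨χ, hχ⟩ := rad_scalar K M N
    refine ⟨χ ⟨x, hx⟩, fun s hs => ?_⟩
    have h4 := congrArg (fun g : Module.End K N => g ⟨s, hs⟩) (hχ x hx)
    exact congrArg Subtype.val h4
  rw [hasTrivialRadical_iff, LieSubmodule.eq_bot_iff]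
  intro x hx
  have hcomm : ∀ y ∈ LamC γ c, y * x.1 = x.1 * y := by
    intro y hy
    have h1 : (⊤ : Submodule K S) ≤ LinearMap.ker (y * x.1 - x.1 * y) := by
      rw [← h.sSup_Mn]
      refine sSup_le fun W hW s hs => ?_
      obtain ⟨χ, hχ⟩ := hsc x hx W hW
      rw [LinearMap.mem_ker, LinearMap.sub_apply, Module.End.mul_apply, Module.End.mul_apply,
        hχ s hs, hχ _ (hW.2.1 y hy s hs), map_smul, sub_self]
    rw [← sub_eq_zero]
    refine LinearMap.ext fun s => ?_
    exact LinearMap.mem_ker.1 (h1 (x := s) trivial)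
  have hzero : ∀ σ, Ep γ c σ x.1 = 0 := by
    intro σ
    by_cases hσ : ∃ i, c i = σ
    · obtain ⟨i, rfl⟩ := hσ
      refine h.centre (h3 i) (h.Ep_mem _ (hL x.2)) fun y hy => ?_
      exact (h.Av_comm (fun k hk => h.LamS_comm hy (mem_oth.1 hk))
        (hcomm y (LamS_le _ hy))).symm
    · have h4 := h.Ep_mem σ (hL x.2)
      have h5 : LamS γ c σ ≤ ⊥ := by
        refine Submodule.span_le.2 ?_
        rintro _ ⟨i, j, hi, _, _⟩
        exact absurd ⟨i, hi⟩ hσ
      exact (Submodule.mem_bot K).1 (h5 h4)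
  refine Subtype.ext ?_
  rw [← h.Ep_sum (hL x.2)]
  exact Finset.sum_eq_zero fun σ _ => hzero σ

end CRel

end Pool.Agent.Q50.SR
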