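import Pool.Agent.Q50.SR.Vec

/-!
# The chain of the homogeneous vectors
-/

set_option linter.unusedSectionVars false
set_option maxHeartbeats 4000000
set_option synthInstance.maxHeartbeats 400000

namespace Pool.Agent.Q50.SR

open Module

/-- a chain of homogeneous vectors -/
structure Dat {K S ι : Type*} [Field K] [CharZero K] [AddCommGroup S] [Module K S] [Fintype ι]
    [DecidableEq ι] (e f h : ι → Module.End K S) (A : ι → ι → K) (c : ι → K)
    (V : Submodule K (Module.End K S)) (v : ℤ → Module.End K S) (m : ℤ) : Prop where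
  chev : Chev e f h A c
  cl : Cl V
  mem : ∀ k, v k ∈ V
  le : ∀ i, e i ∈ Lam V
  lf : ∀ i, f i ∈ Lam V
  deg : ∀ k : ℤ, ad (H0 h c) (v k) = (2 * (k : K)) • v k
  one : ∀ k : ℤ, ∀ x ∈ V, ad (H0 h c) x = (2 * (k : K)) • x → ∃ a : K, x = a • v k
  span : V ≤ ⨆ k, Submodule.span K {v k}
  ne : ∀ k, -m ≤ k → k ≤ m → v k ≠ 0
  zero : ∀ k, (k < -m ∨ m < k) → v k = 0
  nn : 0 ≤ m

section swap

variable {K S ι : Type*} [Field K] [CharZero K] [AddCommGroup S] [Module K S] [Fintype ι]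
  [DecidableEq ι] {e f h : ι → Module.End K S} {A : ι → ι → K} {c : ι → K}
  {V : Submodule K (Module.End K S)} {v : ℤ → Module.End K S} {m : ℤ}

theorem Chev.swap (hC : Chev e f h A c) : Chev f e (fun i => -h i) A c := by
  refine ⟨?_, ?_, ?_, ?_, ?_, hC.diag, hC.zero, hC.inj, hC.rho⟩
  · intro i j
    rw [neg_mul_neg, neg_mul_neg, hC.hh]
  · intro i j
    rw [neg_mul, mul_neg, sub_neg_eq_add, ← neg_inj, neg_add, neg_neg, ← sub_eq_add_neg, hC.hf]
  · intro i j
    rw [neg_mul, mul_neg, sub_neg_eq_add, ← hC.he]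
    abel
  · intro i
    rw [← hC.ef]
    abel
  · intro i j hij
    exact (hC.ef' j i (Ne.symm hij)).symm

theorem H0_neg : H0 (fun i => -h i) c = -H0 h c := by
  unfold H0
  rw [← Finset.sum_neg_distrib]
  exact Finset.sum_congr rfl fun i _ => smul_neg _ _

theorem Dat.swap (d : Dat e f h A c V v m) :
    Dat f e (fun i => -h i) A c V (fun k => v (-k)) m := by
  refine ⟨d.chev.swap, d.cl, fun k => d.mem _, d.lf, d.le, ?_, ?_, ?_, ?_, ?_, d.nn⟩
  · intro k
    rw [H0_neg, ad_neg, LinearMap.neg_apply, d.deg]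
    push_cast
    module
  · intro k x hx hx'
    refine d.one (-k) x hx ?_
    rw [H0_neg, ad_neg, LinearMap.neg_apply] at hx'
    rw [← neg_inj, hx']
    push_cast
    module
  · refine d.span.trans (iSup_le fun k => ?_)
    have h1 := le_iSup (fun k => Submodule.span K {v (-k)}) (-k)
    simp only [neg_neg] at h1
    exact h1
  · intro k h1 h2
    exact d.ne _ (by omega) (by omega)
  · intro k h1
    exact d.zero _ (by omega)

theorem Irr.swap (hirr : Irr e f) : Irr f e := fun U h1 h2 => hirr U h2 h1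

end swap

section exists_dat

variable {K S ι : Type*} [Field K] [CharZero K] [IsAlgClosed K] [AddCommGroup S] [Module K S]
  [FiniteDimensional K S] [Fintype ι] [DecidableEq ι]
  {e f h : ι → Module.End K S} {A : ι → ι → K} {c : ι → K}

theorem H0_stable (hC : Chev e f h A c) {V : Submodule K (Module.End K S)} (hV : Cl V)
    (he : ∀ i, e i ∈ Lam V) (hf : ∀ i, f i ∈ Lam V) : ∀ x ∈ V, ad (H0 h c) x ∈ V := by
  intro x hx
  unfold H0
  rw [ad_sum, LinearMap.sum_apply]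
  refine Submodule.sum_mem _ fun i _ => ?_
  rw [ad_smul, LinearMap.smul_apply, ← hC.ef, ← ad_bracket, LinearMap.sub_apply,
    Module.End.mul_apply, Module.End.mul_apply]
  exact V.smul_mem _ (V.sub_mem (hV.ad_mem (he i) (hV.ad_mem (hf i) hx))
    (hV.ad_mem (hf i) (hV.ad_mem (he i) hx)))

theorem e_Vl (hC : Chev e f h A c) {V : Submodule K (Module.End K S)} (hV : Cl V)
    (he : ∀ i, e i ∈ Lam V) (i : ι) {k : ℤ} {x : Module.End K S} (hx : x ∈ Vl h c V k) :
    ad (e i) x ∈ Vl h c V (k + 1) := by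
  rw [mem_Vl] at hx ⊢
  refine ⟨hV.ad_mem (he i) hx.1, ?_⟩
  have h1 : H0 h c * e i - e i * H0 h c = (2 : K) • e i := by
    refine LinearMap.ext fun s => ?_
    rw [LinearMap.sub_apply, Module.End.mul_apply, Module.End.mul_apply, hC.H0_e,
      add_sub_cancel_left, LinearMap.smul_apply]
  have h2 := congrArg (fun g : Module.End K (Module.End K S) => g x) (ad_bracket (H0 h c) (e i))
  simp only [LinearMap.sub_apply, Module.End.mul_apply] at h2
  rw [h1, ad_smul, LinearMap.smul_apply, hx.2, map_smul, sub_eq_iff_eq_add] at h2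
  rw [h2, ← add_smul]
  congr 1
  push_cast
  ring

theorem f_Vl (hC : Chev e f h A c) {V : Submodule K (Module.End K S)} (hV : Cl V)
    (hf : ∀ i, f i ∈ Lam V) (i : ι) {k : ℤ} {x : Module.End K S} (hx : x ∈ Vl h c V k) :
    ad (f i) x ∈ Vl h c V (k - 1) := by
  rw [mem_Vl] at hx ⊢
  refine ⟨hV.ad_mem (hf i) hx.1, ?_⟩
  have h1 : H0 h c * f i - f i * H0 h c = (-2 : K) • f i := by
    refine LinearMap.ext fun s => ?_
    rw [LinearMap.sub_apply, Module.End.mul_apply, Module.End.mul_apply, hC.H0_f,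
      LinearMap.smul_apply]
    module
  have h2 := congrArg (fun g : Module.End K (Module.End K S) => g x) (ad_bracket (H0 h c) (f i))
  simp only [LinearMap.sub_apply, Module.End.mul_apply] at h2
  rw [h1, ad_smul, LinearMap.smul_apply, hx.2, map_smul, sub_eq_iff_eq_add] at h2
  rw [h2, ← add_smul]
  congr 1
  push_cast
  ring

theorem E_Vl (hC : Chev e f h A c) {V : Submodule K (Module.End K S)} (hV : Cl V)
    (he : ∀ i, e i ∈ Lam V) {k : ℤ} {x : Module.End K S} (hx : x ∈ Vl h c V k) :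
    ad (∑ i, e i) x ∈ Vl h c V (k + 1) := by
  rw [ad_sum, LinearMap.sum_apply]
  exact Submodule.sum_mem _ fun i _ => e_Vl hC hV he i hx

theorem F_Vl (hC : Chev e f h A c) {V : Submodule K (Module.End K S)} (hV : Cl V)
    (hf : ∀ i, f i ∈ Lam V) {k : ℤ} {x : Module.End K S} (hx : x ∈ Vl h c V k) :
    ad (∑ i, c i • f i) x ∈ Vl h c V (k - 1) := by
  rw [ad_sum, LinearMap.sum_apply]
  refine Submodule.sum_mem _ fun i _ => ?_
  rw [ad_smul, LinearMap.smul_apply]
  exact Submodule.smul_mem _ _ (f_Vl hC hV hf i hx)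

/-- raising is injective in negative degrees -/
theorem E_inj (hC : Chev e f h A c) {k : ℕ} (hk : k ≠ 0) {x : Module.End K S}
    (hx : ad (H0 h c) x = (2 * ((-(k : ℤ) : ℤ) : K)) • x) (h0 : ad (∑ i, e i) x = 0) : x = 0 := by
  refine (ad_tri hC.tri0).not_neg hk ?_ h0
  rw [hx]
  push_cast
  congr 1
  ring

theorem F_inj (hC : Chev e f h A c) {k : ℕ} (hk : k ≠ 0) {x : Module.End K S}
    (hx : ad (H0 h c) x = (2 * ((k : ℤ) : K)) • x) (h0 : ad (∑ i, c i • f i) x = 0) : x = 0 := by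
  refine (ad_tri hC.tri0).symm.not_neg hk ?_ h0
  rw [LinearMap.neg_apply, hx]
  push_cast
  module

variable (hC : Chev e f h A c) (hirr : Irr e f) [Nontrivial S] {V : Submodule K (Module.End K S)}
  (hV : Cl V) (he : ∀ i, e i ∈ Lam V) (hf : ∀ i, f i ∈ Lam V)

include hC hirr hV he hf in
theorem Vl_one (k : ℕ) : (∀ x ∈ Vl h c V (k : ℤ), ∀ y ∈ Vl h c V (k : ℤ), x ≠ 0 →
    ∃ a : K, y = a • x) ∧ (∀ x ∈ Vl h c V (-(k : ℤ)), ∀ y ∈ Vl h c V (-(k : ℤ)), x ≠ 0 →
    ∃ a : K, y = a • x) := by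
  obtain ⟨μ, s0, σ, hs0, hlev, he0, hh0⟩ := exists_top hC
  have hH := H0_stable hC hV he hf
  induction k with
  | zero =>
    have h1 : ∀ x ∈ Vl h c V 0, ∀ y ∈ Vl h c V 0, x ≠ 0 → ∃ a : K, y = a • x :=
      fun x hx y hy hx0 => Vl_zero_one hC hirr hs0 hlev he0 hh0 hV hH hx hy hx0
    exact ⟨by simpa using h1, by simpa using h1⟩
  | succ k ih =>
    constructor
    · intro x hx y hy hx0
      have h1 := F_Vl hC hV hf hx
      have h2 := F_Vl hC hV hf hy
      have h3 : ((k + 1 : ℕ) : ℤ) - 1 = k := by push_cast; ring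
      rw [h3] at h1 h2
      obtain ⟨a, ha⟩ := ih.1 _ h1 _ h2 fun h0 => hx0 (F_inj hC (Nat.succ_ne_zero k)
        (mem_Vl.1 hx).2 h0)
      refine ⟨a, ?_⟩
      rw [← sub_eq_zero]
      have h4 := Submodule.sub_mem _ hy (Submodule.smul_mem _ a hx)
      refine F_inj hC (Nat.succ_ne_zero k) (mem_Vl.1 h4).2 ?_
      rw [map_sub, map_smul, ha, sub_self]
    · intro x hx y hy hx0
      have h1 := E_Vl hC hV he hx
      have h2 := E_Vl hC hV he hy
      have h3 : -((k + 1 : ℕ) : ℤ) + 1 = -(k : ℤ) := by push_cast; ring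
      rw [h3] at h1 h2
      obtain ⟨a, ha⟩ := ih.2 _ h1 _ h2 fun h0 => hx0 (E_inj hC (Nat.succ_ne_zero k)
        (mem_Vl.1 hx).2 h0)
      refine ⟨a, ?_⟩
      rw [← sub_eq_zero]
      have h4 := Submodule.sub_mem _ hy (Submodule.smul_mem _ a hx)
      refine E_inj hC (Nat.succ_ne_zero k) (mem_Vl.1 h4).2 ?_
      rw [map_sub, map_smul, ha, sub_self]

include hC hirr hV he hf in
theorem Vl_one' (k : ℤ) : ∀ x ∈ Vl h c V k, ∀ y ∈ Vl h c V k, x ≠ 0 → ∃ a : K, y = a • x := by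
  obtain ⟨n, rfl | rfl⟩ := Int.eq_nat_or_neg k
  · exact (Vl_one hC hirr hV he hf n).1
  · exact (Vl_one hC hirr hV he hf n).2

include hC hirr hV he hf in
/-- the chain of the homogeneous vectors -/
theorem exists_dat (hodd : Odd (finrank K V)) :
    ∃ (v : ℤ → Module.End K S) (m : ℤ), Dat e f h A c V v m := by
  classical
  obtain ⟨μ, s0, σ, hs0, hlev, he0, hh0⟩ := exists_top hC
  have hH := H0_stable hC hV he hf
  have h1 : ∀ k : ℤ, ∃ x, x ∈ Vl h c V k ∧ (∀ y ∈ Vl h c V k, ∃ a : K, y = a • x) ∧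
      ((∃ y ∈ Vl h c V k, y ≠ 0) → x ≠ 0) := by
    intro k
    by_cases h2 : ∃ y ∈ Vl h c V k, y ≠ 0
    · obtain ⟨x, hx, hx0⟩ := h2
      exact ⟨x, hx, fun y hy => Vl_one' hC hirr hV he hf k x hx y hy hx0, fun _ => hx0⟩
    · push Not at h2
      exact ⟨0, Submodule.zero_mem _, fun y hy => ⟨0, by rw [h2 y hy, smul_zero]⟩,
        fun ⟨y, hy, hy0⟩ => absurd (h2 y hy) hy0⟩
  choose v hv1 hv2 hv3 using h1
  have hspan : V ≤ ⨆ k, Submodule.span K {v k} := by
    refine (Vl_iSup hC hirr hs0 hlev he0 hh0 hH).trans (iSup_mono fun k x hx => ?_)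
    obtain ⟨a, rfl⟩ := hv2 k x hx
    exact Submodule.smul_mem _ _ (Submodule.mem_span_singleton_self _)
  have hsym : ∀ k, v k ≠ 0 → v (-k) ≠ 0 := by
    intro k hk h0
    apply hk
    refine bf_zero_of_Vl hC hirr hs0 hlev he0 hh0 hV hH (hv1 k) fun y hy => ?_
    obtain ⟨a, rfl⟩ := hv2 _ y hy
    rw [h0, smul_zero, bf_zero]
  have h00 : v 0 ≠ 0 := by
    obtain ⟨x, hx, hx0⟩ := Vl_zero_ne hC hirr hs0 hlev he0 hh0 hV hH hodd
    exact hv3 0 ⟨x, hx, hx0⟩
  have hdown : ∀ k : ℕ, v ((k + 1 : ℕ) : ℤ) ≠ 0 → v (k : ℤ) ≠ 0 := by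
    intro k hk
    have h2 := F_Vl hC hV hf (hv1 ((k + 1 : ℕ) : ℤ))
    have h3 : ((k + 1 : ℕ) : ℤ) - 1 = k := by push_cast; ring
    rw [h3] at h2
    exact hv3 k ⟨_, h2, fun h0 => hk (F_inj hC (Nat.succ_ne_zero k)
      (mem_Vl.1 (hv1 ((k + 1 : ℕ) : ℤ))).2 h0)⟩
  have hfin : ∃ M : ℕ, ∀ k : ℕ, M ≤ k → v (k : ℤ) = 0 := by
    by_contra hcon
    push Not at hcon
    have h2 : ∀ k : ℕ, v (k : ℤ) ≠ 0 := by
      intro k
      obtain ⟨n, hn, hn0⟩ := hcon k
      obtain ⟨j, rfl⟩ := Nat.exists_eq_add_of_le hn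
      clear hn
      induction j with
      | zero => simpa using hn0
      | succ j ih => exact ih (hdown _ hn0)
    have hfin : {μ : K | (ad (H0 h c)).HasEigenvalue μ}.Finite :=
      Module.End.finite_hasEigenvalue _
    refine (Set.infinite_of_injective_forall_mem (f := fun k : ℕ => (2 : K) * ((k : ℤ) : K)) ?_
      fun k => ?_) hfin
    · intro a b hab
      have h3 := mul_left_cancel₀ two_ne_zero hab
      exact_mod_cast h3
    · exact Module.End.hasEigenvalue_of_hasEigenvector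
        ⟨Module.End.mem_eigenspace_iff.2 (mem_Vl.1 (hv1 k)).2, h2 k⟩
  obtain ⟨m, hm, hm'⟩ : ∃ m : ℕ, v (m : ℤ) ≠ 0 ∧ ∀ k : ℕ, m < k → v (k : ℤ) = 0 := by
    have h2 := Nat.find_spec hfin
    have h3 : Nat.find hfin ≠ 0 := by
      intro h4
      rw [h4] at h2
      exact h00 (h2 0 le_rfl)
    obtain ⟨m, hm⟩ := Nat.exists_eq_succ_of_ne_zero h3
    rw [hm] at h2
    refine ⟨m, ?_, fun k hk => h2 k hk⟩
    intro h4
    have h5 := Nat.find_min hfin (m := m) (by omega)
    apply h5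
    intro k hk
    rcases Nat.lt_or_ge m k with h6 | h6
    · exact h2 k h6
    · have h7 : k = m := le_antisymm h6 hk
      rw [h7, h4]
  have hle : ∀ k : ℕ, k ≤ m → v (k : ℤ) ≠ 0 := by
    intro k hk
    obtain ⟨j, hj⟩ := Nat.exists_eq_add_of_le hk
    clear hk hm'
    induction j generalizing m with
    | zero => simpa [hj] using hm
    | succ j ih =>
      rw [hj] at hm
      exact ih (k + j) (hdown _ hm) rfl
  refine ⟨v, m, hC, hV, fun k => (mem_Vl.1 (hv1 k)).1, he, hf, fun k => (mem_Vl.1 (hv1 k)).2,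
    fun k x hx hx' => hv2 k x (mem_Vl.2 ⟨hx, hx'⟩), hspan, ?_, ?_, Int.natCast_nonneg m⟩
  · intro k h2 h3
    obtain ⟨n, rfl | rfl⟩ := Int.eq_nat_or_neg k
    · exact hle n (by omega)
    · exact hsym _ (hle n (by omega))
  · intro k h2
    obtain ⟨n, rfl | rfl⟩ := Int.eq_nat_or_neg k
    · exact hm' n (by omega)
    · by_contra h3
      have h4 := hsym _ h3
      rw [neg_neg] at h4
      exact h4 (hm' n (by omega))

end exists_dat

end Pool.Agent.Q50.SR
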