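import Pool.Agent.Q50.SR.Wts

/-!
# The even case: the two half spin representations
-/

set_option linter.unusedSectionVars false
set_option maxHeartbeats 4000000
set_option synthInstance.maxHeartbeats 400000

namespace Pool.Agent.Q50.SR

open Module

variable {K S ι : Type*} [Field K] [CharZero K] [IsAlgClosed K] [AddCommGroup S] [Module K S]
  [FiniteDimensional K S] [Fintype ι] [DecidableEq ι]

/-- two stable subspaces which are exchanged by the vectors -/
structure Pr (e f h : ι → Module.End K S) (A : ι → ι → K) (c : ι → K)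
    (V : Submodule K (Module.End K S)) (P Q : Submodule K S) : Prop where
  chev : Chev e f h A c
  cl : Cl V
  le : ∀ i, e i ∈ Lam V
  lf : ∀ i, f i ∈ Lam V
  vp : ∀ v ∈ V, ∀ x ∈ P, v x ∈ Q
  vq : ∀ v ∈ V, ∀ x ∈ Q, v x ∈ P
  inf : P ⊓ Q = ⊥
  sup : P ⊔ Q = ⊤
  hom : ∀ U : Submodule K S, (∀ i, ∀ x ∈ U, e i x ∈ U) → (∀ i, ∀ x ∈ U, f i x ∈ U) →
    U = ⊥ ∨ U = P ∨ U = Q ∨ U = ⊤
  two : ∀ x w : Module.End K S, ¬ V ≤ Submodule.span K {x, w}

variable {e f h : ι → Module.End K S} {A : ι → ι → K} {c : ι → K}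
  {V : Submodule K (Module.End K S)} {P Q : Submodule K S}

namespace Pr

theorem swap (p : Pr e f h A c V P Q) : Pr e f h A c V Q P := by
  refine ⟨p.chev, p.cl, p.le, p.lf, p.vq, p.vp, ?_, ?_, ?_, p.two⟩
  · rw [inf_comm, p.inf]
  · rw [sup_comm, p.sup]
  · intro U h1 h2
    rcases p.hom U h1 h2 with h3 | h3 | h3 | h3
    · exact Or.inl h3
    · exact Or.inr (Or.inr (Or.inl h3))
    · exact Or.inr (Or.inl h3)
    · exact Or.inr (Or.inr (Or.inr h3))

variable (p : Pr e f h A c V P Q)

include p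

theorem disj {x : S} (h1 : x ∈ P) (h2 : x ∈ Q) : x = 0 := by
  have h3 : x ∈ P ⊓ Q := ⟨h1, h2⟩
  rw [p.inf] at h3
  exact (Submodule.mem_bot K).1 h3

theorem lamP {x : Module.End K S} (hx : x ∈ Lam V) : ∀ s ∈ P, x s ∈ P := by
  induction hx using Submodule.span_induction with
  | mem x hx =>
    obtain ⟨v, hv, w, hw, rfl⟩ := hx
    intro s hs
    exact P.sub_mem (p.vq v hv _ (p.vp w hw s hs)) (p.vq w hw _ (p.vp v hv s hs))
  | zero => exact fun s _ => P.zero_mem
  | add x y _ _ hx hy => exact fun s hs => P.add_mem (hx s hs) (hy s hs)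
  | smul a x _ hx => exact fun s hs => P.smul_mem a (hx s hs)

/-- a vector which is not isotropic -/
theorem exz : ∃ z ∈ V, bf z z ≠ 0 := by
  by_contra hcon
  push Not at hcon
  apply p.two 0 0
  intro v hv
  have h1 : v = 0 := by
    refine p.cl.nd v hv fun w hw => ?_
    have h2 := hcon (v + w) (V.add_mem hv hw)
    rw [bf_add, bf_comm (v + w), bf_comm (v + w), bf_add, bf_add, hcon v hv, hcon w hw,
      bf_comm w v] at h2
    have h3 : (2 : K) * bf v w = 0 := by linear_combination h2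
    exact (mul_eq_zero.1 h3).resolve_left two_ne_zero
  rw [h1]
  exact Submodule.zero_mem _

theorem sq {z : Module.End K S} (hz : z ∈ V) (s : S) : z (z s) = bf z z • s := by
  have h1 := congrArg (fun g : Module.End K S => g s) (p.cl.cl z hz z hz)
  simp only [LinearMap.add_apply, Module.End.mul_apply, LinearMap.smul_apply,
    Module.End.one_apply] at h1
  rw [← two_smul K, ← smul_smul] at h1
  exact smul_right_injective S (two_ne_zero (α := K)) h1

theorem cl_apply {x y : Module.End K S} (hx : x ∈ V) (hy : y ∈ V) (s : S) :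
    x (y s) + y (x s) = (2 * bf x y) • s :=
  congrArg (fun g : Module.End K S => g s) (p.cl.cl x hx y hy)

theorem anti {x y : Module.End K S} (hx : x ∈ V) (hy : y ∈ V) (h : bf x y = 0) (s : S) :
    x (y s) = -(y (x s)) := by
  have h1 := p.cl_apply hx hy s
  rw [h, mul_zero, zero_smul] at h1
  exact eq_neg_of_add_eq_zero_left h1

theorem ne : P ≠ ⊥ := by
  intro h0
  apply p.two 0 0
  intro v hv
  have h1 : v = 0 := by
    refine LinearMap.ext fun s => ?_
    have h2 : s ∈ Q := by
      have h3 := p.sup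
      rw [h0, bot_sup_eq] at h3
      rw [h3]
      trivial
    have h4 := p.vq v hv s h2
    rw [h0] at h4
    rw [LinearMap.zero_apply]
    exact (Submodule.mem_bot K).1 h4
  rw [h1]
  exact Submodule.zero_mem _

theorem ext {x : Module.End K S} (h1 : ∀ s ∈ P, x s = 0) (h2 : ∀ s ∈ Q, x s = 0) : x = 0 := by
  refine LinearMap.ext fun s => ?_
  have h3 : s ∈ P ⊔ Q := by
    rw [p.sup]
    trivial
  obtain ⟨a, ha, b, hb, rfl⟩ := Submodule.mem_sup.1 h3
  rw [map_add, h1 a ha, h2 b hb, add_zero, LinearMap.zero_apply]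

/-- a vector is determined by its restriction -/
theorem inj {x : Module.End K S} (hx : x ∈ V) (h0 : ∀ s ∈ P, x s = 0) : x = 0 := by
  by_contra hne
  obtain ⟨s0, hs0, hs0'⟩ := (Submodule.ne_bot_iff _).1 p.ne
  have hxx : bf x x = 0 := by
    have h1 := p.sq hx s0
    rw [h0 s0 hs0, map_zero] at h1
    exact (smul_eq_zero.1 h1.symm).resolve_right hs0'
  have hiso : ∀ z ∈ V, bf x z = 0 → bf z z = 0 := by
    intro z hz hxz
    by_contra hzz
    apply hne
    refine p.ext h0 fun s hs => ?_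
    have h1 : s = (bf z z)⁻¹ • z (z s) := by
      rw [p.sq hz, smul_smul, inv_mul_cancel₀ hzz, one_smul]
    rw [h1, map_smul, p.anti hx hz hxz, h0 _ (p.vq z hz s hs), map_zero, neg_zero, smul_zero]
  obtain ⟨w, hw, hxw⟩ : ∃ w ∈ V, bf x w ≠ 0 := by
    by_contra hcon
    push Not at hcon
    exact hne (p.cl.nd x hx hcon)
  apply p.two x w
  intro v hv
  set v1 := v - (bf x v * (bf x w)⁻¹) • w with hv1
  set u := v1 - (bf w v1 * (bf x w)⁻¹) • x with hu
  have hsub : ∀ a y z : Module.End K S, ∀ r : K, bf a (y - r • z) = bf a y - r * bf a z := by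
    intro a y z r
    rw [sub_eq_add_neg, ← neg_smul, bf_add, bf_smul]
    ring
  have hv1V : v1 ∈ V := V.sub_mem hv (V.smul_mem _ hw)
  have huV : u ∈ V := V.sub_mem hv1V (V.smul_mem _ hx)
  have hxv1 : bf x v1 = 0 := by
    rw [hv1, hsub, mul_assoc, inv_mul_cancel₀ hxw, mul_one, sub_self]
  have hxu : bf x u = 0 := by
    rw [hu, hsub, hxv1, hxx, mul_zero, sub_zero]
  have hwu : bf w u = 0 := by
    rw [hu, hsub, bf_comm w x, mul_assoc, inv_mul_cancel₀ hxw, mul_one, sub_self]
  have hu0 : u = 0 := by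
    refine p.cl.nd u huV fun y hy => ?_
    set y1 := y - (bf x y * (bf x w)⁻¹) • w with hy1
    have hy1V : y1 ∈ V := V.sub_mem hy (V.smul_mem _ hw)
    have hxy1 : bf x y1 = 0 := by
      rw [hy1, hsub, mul_assoc, inv_mul_cancel₀ hxw, mul_one, sub_self]
    have h1 := hiso (u + y1) (V.add_mem huV hy1V) (by rw [bf_add, hxu, hxy1, add_zero])
    rw [bf_add, bf_comm (u + y1), bf_comm (u + y1), bf_add, bf_add, hiso u huV hxu,
      hiso y1 hy1V hxy1, bf_comm y1 u] at h1
    have h2 : bf u y1 = bf u y := by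
      rw [hy1, hsub, bf_comm u w, hwu, mul_zero, sub_zero]
    rw [h2] at h1
    have h3 : (2 : K) * bf u y = 0 := by linear_combination h1
    exact (mul_eq_zero.1 h3).resolve_left two_ne_zero
  have h1 : v = (bf w v1 * (bf x w)⁻¹) • x + (bf x v * (bf x w)⁻¹) • w := by
    have h2 := sub_eq_zero.1 hu0
    rw [← h2, hv1]
    abel
  rw [h1]
  exact Submodule.mem_span_pair.2 ⟨_, _, rfl⟩

/-- the stable subspace `P` is irreducible -/
theorem qt : ∃ (μ : K) (s0 : S) (σ : ι → K), QT e f h c P μ s0 σ := by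
  refine exists_qt p.chev p.ne (fun i => p.lamP (p.le i)) (fun i => p.lamP (p.lf i)) ?_
  intro U hU h1 h2
  rcases p.hom U h1 h2 with h3 | h3 | h3 | h3
  · exact Or.inl h3
  · exact Or.inr h3
  · left
    rw [h3] at hU ⊢
    have h4 := p.inf
    rwa [inf_eq_right.2 hU] at h4
  · right
    rw [h3] at hU ⊢
    exact (top_le_iff.1 hU).symm

end Pr

section qt

variable {μ : K} {s0 : S} {σ : ι → K}

theorem qt_lev_le (hC : Chev e f h A c) (q : QT e f h c P μ s0 σ) (k : ℕ) :
    wd f (Submodule.span K {s0}) k ≤ lev h c μ k := by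
  have h1 := hC.wd_lev (U := Submodule.span K {s0}) (μ := μ) (k := 0) (by
    rw [Submodule.span_singleton_le_iff_mem]
    exact q.lev) k
  rwa [zero_add] at h1

theorem qt_lev0 (q : QT e f h c P μ s0 σ) {x : S} (hx : x ∈ P) (hl : x ∈ lev h c μ 0) :
    ∃ a : K, x = a • s0 := by
  have h1 := q.wd 0 x hx (by simpa using hl)
  obtain ⟨a, ha⟩ := Submodule.mem_span_singleton.1 h1
  exact ⟨a, ha.symm⟩

end qt

/-- the action on the eigenspaces -/
theorem ad_eigen {x : Module.End K S} {θ : K} (hx : ad (H0 h c) x = θ • x) {ν : K} {s : S}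
    (hs : H0 h c s = ν • s) : H0 h c (x s) = (ν + θ) • x s := by
  have h1 := congrArg (fun g : Module.End K S => g s) hx
  simp only [ad_apply, LinearMap.sub_apply, Module.End.mul_apply, LinearMap.smul_apply, hs,
    map_smul] at h1
  rw [sub_eq_iff_eq_add] at h1
  rw [h1, ← add_smul, add_comm]

theorem bf_orth {x y : Module.End K S} {θ θ' : K} (hx : ad (H0 h c) x = θ • x)
    (hy : ad (H0 h c) y = θ' • y) (hne : θ + θ' ≠ 0) : bf x y = 0 := by
  have h1 := bf_ad (H0 h c) x y
  rw [hx, hy, bf_smul, bf_smul'] at h1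
  have h2 : (θ + θ') * bf x y = 0 := by linear_combination h1
  exact (mul_eq_zero.1 h2).resolve_left hne

/-- the span of the commutators of the eigenvectors -/
def Wt (h : ι → Module.End K S) (c : ι → K) (V : Submodule K (Module.End K S)) (ν : K) :
    Submodule K (Module.End K S) :=
  Submodule.span K {x | ∃ θ θ' : K, θ + θ' = ν ∧ ∃ y ∈ V, ∃ z ∈ V, ad (H0 h c) y = θ • y ∧
    ad (H0 h c) z = θ' • z ∧ x = y * z - z * y}

theorem ad_mul' (x y z : Module.End K S) : ad x (y * z) = ad x y * z + y * ad x z := by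
  rw [ad_apply, ad_apply, ad_apply]
  noncomm_ring

theorem Wt_le (ν : K) : Wt h c V ν ≤ (ad (H0 h c)).eigenspace ν := by
  refine Submodule.span_le.2 ?_
  rintro _ ⟨θ, θ', hν, y, _, z, _, hy, hz, rfl⟩
  rw [SetLike.mem_coe, Module.End.mem_eigenspace_iff, map_sub, ad_mul', ad_mul', hy, hz, ← hν]
  simp only [smul_mul_assoc, mul_smul_comm]
  module

theorem Lam_le_Wt (hV : V ≤ ⨆ θ : K, V ⊓ (ad (H0 h c)).eigenspace θ) :
    Lam V ≤ ⨆ ν : K, Wt h c V ν := by
  refine Submodule.span_le.2 ?_
  rintro _ ⟨x, hx, y, hy, rfl⟩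
  rw [SetLike.mem_coe]
  refine Submodule.iSup_induction (fun θ : K => V ⊓ (ad (H0 h c)).eigenspace θ)
    (motive := fun x => x * y - y * x ∈ ⨆ ν : K, Wt h c V ν) (hV hx) ?_ ?_ ?_
  · intro θ x hx
    refine Submodule.iSup_induction (fun θ : K => V ⊓ (ad (H0 h c)).eigenspace θ)
      (motive := fun y => x * y - y * x ∈ ⨆ ν : K, Wt h c V ν) (hV hy) ?_ ?_ ?_
    · intro θ' y hy
      exact Submodule.mem_iSup_of_mem (θ + θ') (Submodule.subset_span ⟨θ, θ', rfl, x, hx.1, y, hy.1,
        Module.End.mem_eigenspace_iff.1 hx.2, Module.End.mem_eigenspace_iff.1 hy.2, rfl⟩)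
    · rw [mul_zero, zero_mul, sub_zero]
      exact Submodule.zero_mem _
    · intro y z hy hz
      have h1 : x * (y + z) - (y + z) * x = (x * y - y * x) + (x * z - z * x) := by
        rw [mul_add, add_mul]
        abel
      rw [h1]
      exact Submodule.add_mem _ hy hz
  · rw [mul_zero, zero_mul, sub_zero]
    exact Submodule.zero_mem _
  · intro x z hx hz
    have h1 : (x + z) * y - y * (x + z) = (x * y - y * x) + (z * y - y * z) := by
      rw [mul_add, add_mul]
      abel
    rw [h1]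
    exact Submodule.add_mem _ hx hz

theorem f_mem_Wt (hC : Chev e f h A c) (hV : V ≤ ⨆ θ : K, V ⊓ (ad (H0 h c)).eigenspace θ)
    {i : ι} (hf : f i ∈ Lam V) : f i ∈ Wt h c V (-2) := by
  refine mem_of_indep (ad (H0 h c)).eigenspaces_iSupIndep (fun ν => Wt_le ν)
    (Lam_le_Wt hV hf) ?_
  rw [Module.End.mem_eigenspace_iff]
  refine LinearMap.ext fun s => ?_
  rw [ad_apply, LinearMap.sub_apply, Module.End.mul_apply, Module.End.mul_apply, hC.H0_f,
    LinearMap.smul_apply]
  module

namespace Pr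

variable (p : Pr e f h A c V P Q) {μ ν : K} {s t : S} {σ ρ : ι → K} (qp : QT e f h c P μ s σ)
  (qq : QT e f h c Q ν t ρ)

include p

theorem wdP (qp : QT e f h c P μ s σ) (k : ℕ) : wd f (Submodule.span K {s}) k ≤ P := by
  induction k with
  | zero =>
    exact (Submodule.span_singleton_le_iff_mem _ _).2 qp.mem
  | succ k ih => exact wd_succ_le fun i x hx => p.lamP (p.lf i) x (ih hx)

include qp qq

theorem semi : (H0 h c).IsSemisimple := by
  apply semisimple_of_iSup
  rw [eq_top_iff, ← p.sup]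
  refine sup_le ?_ ?_
  · have h2 : (⨆ k, wd f (Submodule.span K {s}) k) ≤ ⨆ ν, (H0 h c).eigenspace ν :=
      iSup_le fun k => ((qt_lev_le p.chev qp k).trans
        (le_iSup (fun ν => (H0 h c).eigenspace ν) (μ - 2 * ((k : ℤ) : K))))
    exact fun x hx => h2 (qp.top x hx)
  · have h2 : (⨆ k, wd f (Submodule.span K {t}) k) ≤ ⨆ ν, (H0 h c).eigenspace ν :=
      iSup_le fun k => ((qt_lev_le p.chev qq k).trans
        (le_iSup (fun ν => (H0 h c).eigenspace ν) (ν - 2 * ((k : ℤ) : K))))
    exact fun x hx => h2 (qq.top x hx)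

theorem iSup : V ≤ ⨆ θ : K, V ⊓ (ad (H0 h c)).eigenspace θ := by
  have h1 : (ad (H0 h c)).IsSemisimple := ad_semisimple (p.semi qp qq)
  have hH := H0_stable p.chev p.cl p.le p.lf
  have hp : V ∈ (ad (H0 h c)).invtSubmodule := fun x hx => hH x hx
  have h2 := (h1.restrict hp).iSup_eigenspace_eq_top
  have h3 : (⊤ : Submodule K V) ≤
      (⨆ θ : K, V ⊓ (ad (H0 h c)).eigenspace θ).comap V.subtype := by
    rw [← h2]
    refine iSup_le fun θ x hx => ?_
    rw [Submodule.mem_comap]
    have h4 := Module.End.mem_eigenspace_iff.1 hx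
    have h5 : ad (H0 h c) (x : Module.End K S) = θ • (x : Module.End K S) :=
      congrArg Subtype.val h4
    exact Submodule.mem_iSup_of_mem θ ⟨x.2, Module.End.mem_eigenspace_iff.2 h5⟩
  intro x hx
  exact h3 (x := ⟨x, hx⟩) trivial

theorem eig {x : Module.End K S} (hx : x ∈ V) (hx0 : x ≠ 0) {θ : K}
    (hθ : ad (H0 h c) x = θ • x) : ∃ k j : ℕ, θ = ν - μ + 2 * k - 2 * j := by
  obtain ⟨k, y, hy, hxy⟩ : ∃ k, ∃ y ∈ wd f (Submodule.span K {s}) k, x y ≠ 0 := by
    by_contra hcon
    push Not at hcon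
    refine hx0 (p.inj hx fun y hy => ?_)
    have h1 := qp.top y hy
    have h2 : (⨆ k, wd f (Submodule.span K {s}) k) ≤ LinearMap.ker x :=
      iSup_le fun k z hz => LinearMap.mem_ker.2 (hcon k z hz)
    exact LinearMap.mem_ker.1 (h2 h1)
  have h1 := mem_lev.1 (qt_lev_le p.chev qp k hy)
  have h2 := ad_eigen hθ h1
  obtain ⟨j, hj⟩ := qq.eig _ _ (p.vp x hx y (p.wdP qp k hy)) h2 hxy
  refine ⟨k, j, ?_⟩
  push_cast at hj
  linear_combination hj

theorem kill {x : Module.End K S} (hx : x ∈ V) {θ : K} (hθ : ad (H0 h c) x = θ • x)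
    (hxs : x s ≠ 0) : ∃ j : ℕ, μ + θ = ν - 2 * j := by
  have h1 : H0 h c s = μ • s := by
    have h2 := mem_lev.1 qp.lev
    rwa [Int.cast_zero, mul_zero, sub_zero] at h2
  exact qq.eig _ _ (p.vp x hx s qp.mem) (ad_eigen hθ h1) hxs

omit qq in
/-- the highest weight vector is not killed by everything -/
theorem not_one : ¬ ∀ i, f i s = 0 := by
  intro h0
  have h1 : Submodule.span K {s} = P ∨ Submodule.span K {s} = ⊤ := by
    have h2 := p.hom (Submodule.span K {s}) (by
      intro i x hx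
      obtain ⟨a, rfl⟩ := Submodule.mem_span_singleton.1 hx
      rw [map_smul, qp.e0, smul_zero]
      exact Submodule.zero_mem _) (by
      intro i x hx
      obtain ⟨a, rfl⟩ := Submodule.mem_span_singleton.1 hx
      rw [map_smul, h0, smul_zero]
      exact Submodule.zero_mem _)
    rcases h2 with h3 | h3 | h3 | h3
    · exact absurd (Submodule.span_singleton_eq_bot.1 h3) qp.ne
    · exact Or.inl h3
    · have h4 : s ∈ Q := by
        rw [← h3]
        exact Submodule.mem_span_singleton_self s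
      exact absurd (p.disj qp.mem h4) qp.ne
    · exact Or.inr h3
  have h2 : ∀ x ∈ P, ∃ a : K, x = a • s := by
    intro x hx
    have h3 : x ∈ Submodule.span K {s} := by
      rcases h1 with h1 | h1
      · rw [h1]
        exact hx
      · rw [h1]
        trivial
    obtain ⟨a, ha⟩ := Submodule.mem_span_singleton.1 h3
    exact ⟨a, ha.symm⟩
  obtain ⟨z, hz, hzz⟩ := p.exz
  apply p.two z z
  intro x hx
  have h3 : ∃ a : K, x s = a • z s := by
    obtain ⟨a, ha⟩ := h2 _ (p.vq z hz _ (p.vp x hx s qp.mem))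
    refine ⟨(bf z z)⁻¹ * a, ?_⟩
    have h4 : x s = (bf z z)⁻¹ • z (z (x s)) := by
      rw [p.sq hz, smul_smul, inv_mul_cancel₀ hzz, one_smul]
    rw [h4, ha, map_smul, smul_smul]
  obtain ⟨a, ha⟩ := h3
  have h4 : x - a • z = 0 := by
    refine p.inj (V.sub_mem hx (V.smul_mem _ hz)) fun y hy => ?_
    obtain ⟨b, rfl⟩ := h2 y hy
    rw [map_smul, LinearMap.sub_apply, LinearMap.smul_apply, ha, sub_self, smul_zero]
  rw [sub_eq_zero.1 h4]
  exact Submodule.smul_mem _ _ (Submodule.subset_span (by simp))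

/-- the highest weight of `P` is not higher than the one of `Q` -/
theorem not_gt (d : ℕ) (hd : μ = ν + (d + 1)) : False := by
  apply p.not_one qp
  intro i
  have h1 := f_mem_Wt p.chev (p.iSup qp qq) (p.lf i)
  have h2 : Wt h c V (-2) ≤ LinearMap.ker (LinearMap.applyₗ s : Module.End K S →ₗ[K] S) := by
    refine Submodule.span_le.2 ?_
    rintro _ ⟨θ, θ', hν, y, hy, z, hz, hyθ, hzθ, rfl⟩
    rw [SetLike.mem_coe, LinearMap.mem_ker, LinearMap.applyₗ_apply_apply, LinearMap.sub_apply,
      Module.End.mul_apply, Module.End.mul_apply]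
    have hyz : bf y z = 0 := bf_orth hyθ hzθ (by rw [hν]; norm_num)
    have hyz' := p.anti hy hz hyz s
    by_cases hzs : z s = 0
    · have h3 : z (y s) = 0 := by
        have h4 := p.anti hz hy (by rw [bf_comm]; exact hyz) s
        rw [h4, hzs, map_zero, neg_zero]
      rw [h3, hzs, map_zero, sub_zero]
    · by_cases hys : y s = 0
      · rw [hyz', hys, map_zero, neg_zero, sub_zero]
      · obtain ⟨j, hj⟩ := p.kill qp qq hy hyθ hys
        obtain ⟨j', hj'⟩ := p.kill qp qq hz hzθ hzs
        have h3 : ((d + j + j' : ℕ) : K) = 0 := by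
          push_cast
          linear_combination (1 / 2 : K) * hj + (1 / 2 : K) * hj' - (1 / 2 : K) * hν - hd
        have h4 : d + j + j' = 0 := by exact_mod_cast h3
        have hd0 : d = 0 := by omega
        have hj0 : j = 0 := by omega
        have hj0' : j' = 0 := by omega
        subst hd0 hj0 hj0'
        have hθ : θ = -1 := by
          push_cast at hd hj
          linear_combination hj - hd
        have hθ' : θ' = -1 := by
          push_cast at hd hj'
          linear_combination hj' - hd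
        have h5 : ∀ x ∈ V, ad (H0 h c) x = (-1 : K) • x → ∃ a : K, x s = a • t := by
          intro x hx hxθ
          refine qt_lev0 qq (p.vp x hx s qp.mem) ?_
          rw [mem_lev]
          have h6 : H0 h c s = μ • s := by
            have h2 := mem_lev.1 qp.lev
            rwa [Int.cast_zero, mul_zero, sub_zero] at h2
          rw [ad_eigen hxθ h6]
          congr 1
          push_cast at hd ⊢
          linear_combination hd
        rw [hθ] at hyθ
        rw [hθ'] at hzθ
        obtain ⟨a, ha⟩ := h5 z hz hzθ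
        obtain ⟨b, hb⟩ := h5 y hy hyθ
        have hb0 : b ≠ 0 := by
          rintro rfl
          exact hys (by rw [hb, zero_smul])
        have hyy : bf y y = 0 := bf_orth hyθ hyθ (by norm_num)
        have h7 : y t = 0 := by
          have h8 : t = b⁻¹ • y s := by
            rw [hb, smul_smul, inv_mul_cancel₀ hb0, one_smul]
          rw [h8, map_smul, p.sq hy, hyy, zero_smul, smul_zero]
        have h8 : y (z s) = 0 := by rw [ha, map_smul, h7, smul_zero]
        rw [h8] at hyz'
        rw [h8, neg_eq_zero.1 hyz'.symm, sub_zero]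
  exact LinearMap.mem_ker.1 (h2 h1)

end Pr

/-- the highest weights agree -/
theorem Pr.top_eq (p : Pr e f h A c V P Q) {μ ν : K} {s t : S} {σ ρ : ι → K}
    (qp : QT e f h c P μ s σ) (qq : QT e f h c Q ν t ρ) : μ = ν := by
  obtain ⟨x, hx, hx0, θ, hθ⟩ : ∃ x ∈ V, x ≠ 0 ∧ ∃ θ : K, ad (H0 h c) x = θ • x := by
    by_contra hcon
    push Not at hcon
    apply p.two 0 0
    intro v hv
    have h1 := p.iSup qp qq hv
    have h2 : (⨆ θ : K, V ⊓ (ad (H0 h c)).eigenspace θ) ≤ ⊥ := by
      refine iSup_le fun θ x hx => ?_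
      rw [Submodule.mem_bot]
      by_contra hx0
      exact hcon x hx.1 hx0 θ (Module.End.mem_eigenspace_iff.1 hx.2)
    have h3 := (Submodule.mem_bot K).1 (h2 h1)
    rw [h3]
    exact Submodule.zero_mem _
  obtain ⟨k, j, h1⟩ := p.eig qp qq hx hx0 hθ
  obtain ⟨k', j', h2⟩ := p.swap.eig qq qp hx hx0 hθ
  have h3 : μ - ν = (((k : ℤ) - j - k' + j' : ℤ) : K) := by
    push_cast
    linear_combination (1 / 2 : K) * h1 - (1 / 2 : K) * h2
  generalize ((k : ℤ) - j - k' + j' : ℤ) = d at h3
  rcases lt_trichotomy d 0 with hd | hd | hd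
  · exfalso
    obtain ⟨n, hn⟩ := Int.eq_ofNat_of_zero_le (show 0 ≤ -d - 1 by omega)
    refine p.swap.not_gt qq qp n ?_
    have h4 : d = -((n : ℤ) + 1) := by omega
    rw [h4] at h3
    push_cast at h3
    linear_combination -h3
  · rw [hd, Int.cast_zero] at h3
    exact sub_eq_zero.1 h3
  · exfalso
    obtain ⟨n, hn⟩ := Int.eq_ofNat_of_zero_le (show 0 ≤ d - 1 by omega)
    refine p.not_gt qp qq n ?_
    have h4 : d = (n : ℤ) + 1 := by omega
    rw [h4] at h3
    push_cast at h3
    linear_combination h3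

end Pool.Agent.Q50.SR
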