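import Pool.Agent.Q50.SR.Evn1

/-!
# The even case: the vectors of degree zero
-/

set_option linter.unusedSectionVars false
set_option maxHeartbeats 4000000
set_option synthInstance.maxHeartbeats 400000

namespace Pool.Agent.Q50.SR

open Module

variable {K S ι : Type*} [Field K] [CharZero K] [IsAlgClosed K] [AddCommGroup S] [Module K S]
  [FiniteDimensional K S] [Fintype ι] [DecidableEq ι]
  {e f h : ι → Module.End K S} {A : ι → ι → K} {c : ι → K}
  {V : Submodule K (Module.End K S)} {P Q : Submodule K S}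

namespace Pr

variable (p : Pr e f h A c V P Q) {μ : K} {s t : S} {σ ρ : ι → K} (qp : QT e f h c P μ s σ)
  (qq : QT e f h c Q μ t ρ)

include p qp qq

theorem even {x : Module.End K S} (hx : x ∈ V) (hx0 : x ≠ 0) {θ : K}
    (hθ : ad (H0 h c) x = θ • x) : ∃ k : ℤ, θ = 2 * (k : K) := by
  obtain ⟨k, j, h1⟩ := p.eig qp qq hx hx0 hθ
  refine ⟨(k : ℤ) - j, ?_⟩
  push_cast
  linear_combination h1

theorem vlSup : V ≤ ⨆ k : ℤ, Vl h c V k := by
  refine (p.iSup qp qq).trans (iSup_le fun θ x hx => ?_)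
  by_cases hx0 : x = 0
  · rw [hx0]
    exact Submodule.zero_mem _
  · have h1 := Module.End.mem_eigenspace_iff.1 hx.2
    obtain ⟨k, rfl⟩ := p.even qp qq hx.1 hx0 h1
    exact Submodule.mem_iSup_of_mem k (mem_Vl.2 ⟨hx.1, h1⟩)

theorem bf0 {k : ℤ} {x : Module.End K S} (hx : x ∈ Vl h c V k)
    (h1 : ∀ y ∈ Vl h c V (-k), bf x y = 0) : x = 0 := by
  refine p.cl.nd x (mem_Vl.1 hx).1 fun w hw => ?_
  refine Submodule.iSup_induction (Vl h c V) (motive := fun w => bf x w = 0)
    (p.vlSup qp qq hw) ?_ (bf_zero x) ?_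
  · intro j y hy
    by_cases hj : k + j = 0
    · have h3 : j = -k := by omega
      subst h3
      exact h1 y hy
    · exact Vl_orth hj (mem_Vl.1 hx).2 (mem_Vl.1 hy).2
  · intro y z hy hz
    rw [bf_add, hy, hz, add_zero]

/-- the two highest weights are different -/
theorem wt_ne : σ ≠ ρ := by
  intro hσ
  have hh : ∀ j, ∀ x ∈ Submodule.span K {s + t}, h j x ∈ Submodule.span K {s + t} := by
    intro j x hx
    obtain ⟨a, rfl⟩ := Submodule.mem_span_singleton.1 hx
    rw [map_smul, map_add, qp.h0, qq.h0, hσ, ← smul_add]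
    exact Submodule.smul_mem _ _ (Submodule.smul_mem _ _ (Submodule.mem_span_singleton_self _))
  have he : ∀ j, ∀ x ∈ Submodule.span K {s + t}, e j x = 0 := by
    intro j x hx
    obtain ⟨a, rfl⟩ := Submodule.mem_span_singleton.1 hx
    rw [map_smul, map_add, qp.e0, qq.e0, add_zero, smul_zero]
  have hmem : s + t ∈ ⨆ k, wd f (Submodule.span K {s + t}) k :=
    Submodule.mem_iSup_of_mem 0 (Submodule.mem_span_singleton_self _)
  have hlev : ∀ j : ℕ, wd f (Submodule.span K {s + t}) j ≤ lev h c μ (0 + j) := by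
    intro j
    refine p.chev.wd_lev ?_ j
    rw [Submodule.span_singleton_le_iff_mem]
    exact Submodule.add_mem _ qp.lev qq.lev
  rcases p.hom _ (fun i => (p.chev.iSup_wd hh he i).1) (fun i => (p.chev.iSup_wd hh he i).2) with
    h1 | h1 | h1 | h1
  · rw [h1, Submodule.mem_bot] at hmem
    have h2 : s ∈ Q := by
      rw [eq_neg_of_add_eq_zero_left hmem]
      exact Q.neg_mem qq.mem
    exact qp.ne (p.disj qp.mem h2)
  · rw [h1] at hmem
    have h2 : t ∈ P := by
      have h3 := P.sub_mem hmem qp.mem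
      rwa [add_sub_cancel_left] at h3
    exact qq.ne (p.disj h2 qq.mem)
  · rw [h1] at hmem
    have h2 : s ∈ Q := by
      have h3 := Q.sub_mem hmem qq.mem
      rwa [add_sub_cancel_right] at h3
    exact qp.ne (p.disj qp.mem h2)
  · have h2 : s ∈ ⨆ k, wd f (Submodule.span K {s + t}) k := by
      rw [h1]
      trivial
    have h3 := (mem_of_lev (k := 0) hlev h2 qp.lev).1 0 (by norm_num)
    obtain ⟨a, ha⟩ := Submodule.mem_span_singleton.1 h3
    have h4 : a • t ∈ P := by
      have h5 : a • t = s - a • s := by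
        rw [eq_sub_iff_add_eq]
        conv_rhs => rw [← ha]
        rw [smul_add, add_comm]
      rw [h5]
      exact P.sub_mem qp.mem (P.smul_mem _ qp.mem)
    have h5 := p.disj h4 (Q.smul_mem _ qq.mem)
    rw [smul_add, h5, add_zero] at ha
    have h6 : a = 0 := (smul_eq_zero.1 h5).resolve_right qq.ne
    rw [h6, zero_smul] at ha
    exact qp.ne ha.symm

theorem s_lev {k : ℤ} {x : Module.End K S} (hx : x ∈ Vl h c V k) : x s ∈ lev h c μ (-k) := by
  have h1 := ad_lev (mem_Vl.1 hx).2 qp.lev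
  rwa [zero_sub] at h1

theorem pos {k : ℤ} (hk : 0 < k) {x : Module.End K S} (hx : x ∈ Vl h c V k) : x s = 0 :=
  qq.neg (-k) (by omega) _ (p.vp x (mem_Vl.1 hx).1 s qp.mem) (p.s_lev qp qq hx)

theorem deg0 {x : Module.End K S} (hx : x ∈ Vl h c V 0) : ∃ a : K, x s = a • t := by
  refine qt_lev0 qq (p.vp x (mem_Vl.1 hx).1 s qp.mem) ?_
  have h1 := p.s_lev qp qq hx
  rwa [neg_zero] at h1

theorem fs_aux (i : ι) : f i s ∈ Submodule.span K {x | ∃ y ∈ Vl h c V (-1), ∃ w ∈ Vl h c V 0,
    x = y (w s)} := by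
  have h1 := f_mem_Wt p.chev (p.iSup qp qq) (p.lf i)
  have h2 : Wt h c V (-2) ≤ (Submodule.span K {x | ∃ y ∈ Vl h c V (-1), ∃ w ∈ Vl h c V 0,
      x = y (w s)}).comap (LinearMap.applyₗ s : Module.End K S →ₗ[K] S) := by
    refine Submodule.span_le.2 ?_
    rintro _ ⟨θ, θ', hν, y, hy, z, hz, hyθ, hzθ, rfl⟩
    rw [SetLike.mem_coe, Submodule.mem_comap, LinearMap.applyₗ_apply_apply, LinearMap.sub_apply,
      Module.End.mul_apply, Module.End.mul_apply]
    have hyz : bf y z = 0 := bf_orth hyθ hzθ (by rw [hν]; norm_num)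
    have hyz1 := p.anti hy hz hyz s
    have hyz2 : z (y s) = -(y (z s)) := by rw [hyz1, neg_neg]
    by_cases hy0 : y = 0
    · rw [hy0, LinearMap.zero_apply, LinearMap.zero_apply, map_zero, sub_zero]
      exact Submodule.zero_mem _
    · by_cases hz0 : z = 0
      · rw [hz0, LinearMap.zero_apply, LinearMap.zero_apply, map_zero, sub_zero]
        exact Submodule.zero_mem _
      · obtain ⟨a, rfl⟩ := p.even qp qq hy hy0 hyθ
        obtain ⟨b, rfl⟩ := p.even qp qq hz hz0 hzθ
        have hab : a + b = -1 := by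
          have h3 : ((a + b : ℤ) : K) = ((-1 : ℤ) : K) := by
            push_cast
            linear_combination (1 / 2 : K) * hν
          exact_mod_cast h3
        have hyV : y ∈ Vl h c V a := mem_Vl.2 ⟨hy, hyθ⟩
        have hzV : z ∈ Vl h c V b := mem_Vl.2 ⟨hz, hzθ⟩
        rcases (show 0 < a ∨ 0 < b ∨ (a = 0 ∧ b = -1) ∨ (a = -1 ∧ b = 0) by omega) with
          h3 | h3 | ⟨rfl, rfl⟩ | ⟨rfl, rfl⟩
        · rw [hyz1, p.pos qp qq h3 hyV, map_zero, neg_zero, sub_zero]
          exact Submodule.zero_mem _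
        · rw [hyz2, p.pos qp qq h3 hzV, map_zero, neg_zero, sub_zero]
          exact Submodule.zero_mem _
        · rw [hyz1]
          exact Submodule.sub_mem _ (Submodule.neg_mem _ (Submodule.subset_span
            ⟨z, hzV, y, hyV, rfl⟩)) (Submodule.subset_span ⟨z, hzV, y, hyV, rfl⟩)
        · rw [hyz2]
          exact Submodule.sub_mem _ (Submodule.subset_span ⟨y, hyV, z, hzV, rfl⟩)
            (Submodule.neg_mem _ (Submodule.subset_span ⟨y, hyV, z, hzV, rfl⟩))
  exact h2 h1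

theorem fs (i : ι) : ∃ y ∈ Vl h c V (-1), f i s = y t := by
  have h1 := p.fs_aux qp qq i
  have h2 : Submodule.span K {x | ∃ y ∈ Vl h c V (-1), ∃ w ∈ Vl h c V 0, x = y (w s)} ≤
      (Vl h c V (-1)).map (LinearMap.applyₗ t : Module.End K S →ₗ[K] S) := by
    refine Submodule.span_le.2 ?_
    rintro _ ⟨y, hy, w, hw, rfl⟩
    obtain ⟨a, ha⟩ := p.deg0 qp qq hw
    refine ⟨a • y, Submodule.smul_mem _ _ hy, ?_⟩
    rw [ha, map_smul, map_smul]
    rfl
  obtain ⟨y, hy, hy'⟩ := h2 h1
  exact ⟨y, hy, hy'.symm⟩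

theorem inj0 {x : Module.End K S} (hx : x ∈ Vl h c V 0) (h1 : x s = 0) (h2 : x t = 0) :
    x = 0 := by
  refine p.bf0 qp qq hx fun w hw => ?_
  rw [neg_zero] at hw
  obtain ⟨a, ha⟩ := p.deg0 qp qq hw
  have h3 := p.cl_apply (mem_Vl.1 hx).1 (mem_Vl.1 hw).1 s
  rw [h1, map_zero, add_zero, ha, map_smul, h2, smul_zero] at h3
  exact (mul_eq_zero.1 ((smul_eq_zero.1 h3.symm).resolve_right qp.ne)).resolve_left two_ne_zero

theorem injk {k : ℤ} (hk : 0 < k) {x : Module.End K S} (hx : x ∈ Vl h c V (-k))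
    (h1 : x s = 0) : x = 0 := by
  refine p.bf0 qp qq hx fun w hw => ?_
  rw [neg_neg] at hw
  have h3 := p.cl_apply (mem_Vl.1 hx).1 (mem_Vl.1 hw).1 s
  rw [h1, map_zero, add_zero, p.pos qp qq hk hw, map_zero] at h3
  exact (mul_eq_zero.1 ((smul_eq_zero.1 h3.symm).resolve_right qp.ne)).resolve_left two_ne_zero

theorem e_Vl' (i : ι) {k : ℤ} {x : Module.End K S} (hx : x ∈ Vl h c V k) :
    ad (e i) x ∈ Vl h c V (k + 1) := e_Vl p.chev p.cl p.le i hx

theorem f_Vl' (i : ι) {k : ℤ} {x : Module.End K S} (hx : x ∈ Vl h c V k) :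
    ad (f i) x ∈ Vl h c V (k - 1) := f_Vl p.chev p.cl p.lf i hx

theorem h_Vl (i : ι) {k : ℤ} {x : Module.End K S} (hx : x ∈ Vl h c V k) :
    ad (h i) x ∈ Vl h c V k := by
  have h1 := p.e_Vl' qp qq i (p.f_Vl' qp qq i hx)
  have h2 := p.f_Vl' qp qq i (p.e_Vl' qp qq i hx)
  rw [sub_add_cancel] at h1
  rw [add_sub_cancel_right] at h2
  rw [← p.chev.ef, ← ad_bracket, LinearMap.sub_apply, Module.End.mul_apply, Module.End.mul_apply]
  exact Submodule.sub_mem _ h1 h2

/-- the vectors of degree zero do not form a line -/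
theorem not_line (x : Module.End K S) (hx : x ∈ Vl h c V 0) :
    ¬ ∀ y ∈ Vl h c V 0, ∃ a : K, y = a • x := by
  intro hall
  by_cases hx0 : x = 0
  · apply p.not_one qp
    intro i
    have h1 := p.fs_aux qp qq i
    have h2 : Submodule.span K {x | ∃ y ∈ Vl h c V (-1), ∃ w ∈ Vl h c V 0, x = y (w s)} ≤ ⊥ := by
      refine Submodule.span_le.2 ?_
      rintro _ ⟨y, hy, w, hw, rfl⟩
      obtain ⟨a, ha⟩ := hall w hw
      rw [hx0, smul_zero] at ha
      rw [ha, LinearMap.zero_apply, map_zero]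
      exact Submodule.zero_mem _
    exact (Submodule.mem_bot K).1 (h2 h1)
  · have hxx : bf x x ≠ 0 := by
      intro h0
      refine hx0 (p.bf0 qp qq hx fun w hw => ?_)
      rw [neg_zero] at hw
      obtain ⟨a, rfl⟩ := hall w hw
      rw [bf_smul, h0, mul_zero]
    obtain ⟨a, ha⟩ := p.deg0 qp qq hx
    have ha0 : a ≠ 0 := by
      rintro rfl
      have h1 := p.sq (mem_Vl.1 hx).1 s
      rw [ha, zero_smul, map_zero] at h1
      exact hxx ((smul_eq_zero.1 h1.symm).resolve_right qp.ne)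
    apply p.wt_ne qp qq
    funext j
    obtain ⟨w, hw⟩ := hall _ (p.h_Vl qp qq j hx)
    have hw0 : w = 0 := by
      have h1 := bf_ad (h j) x x
      rw [hw, bf_smul, bf_smul'] at h1
      have h2 : (2 * bf x x) * w = 0 := by linear_combination h1
      exact (mul_eq_zero.1 h2).resolve_left (mul_ne_zero two_ne_zero hxx)
    rw [hw0, zero_smul] at hw
    have h1 := congrArg (fun g : Module.End K S => g s) hw
    simp only [ad_apply, LinearMap.sub_apply, Module.End.mul_apply, LinearMap.zero_apply, qp.h0,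
      ha, map_smul, qq.h0] at h1
    rw [smul_smul, smul_smul, ← sub_smul] at h1
    have h2 := (smul_eq_zero.1 h1).resolve_right qq.ne
    have h3 : a * (σ j - ρ j) = 0 := by linear_combination -h2
    exact sub_eq_zero.1 ((mul_eq_zero.1 h3).resolve_left ha0)

/-- the two vectors of degree zero -/
theorem exists_pq : ∃ x ∈ Vl h c V 0, ∃ y ∈ Vl h c V 0, x s = t ∧ x t = 0 ∧ y s = 0 ∧ y t = s := by
  obtain ⟨x, hx, hx0⟩ : ∃ x ∈ Vl h c V 0, x ≠ 0 := by
    by_contra hcon
    push Not at hcon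
    exact p.not_line qp qq 0 (Submodule.zero_mem _) fun y hy => ⟨0, by rw [hcon y hy, smul_zero]⟩
  obtain ⟨y, hy, hyx⟩ : ∃ y ∈ Vl h c V 0, ∀ a : K, y ≠ a • x := by
    by_contra hcon
    push Not at hcon
    exact p.not_line qp qq x hx hcon
  obtain ⟨a, ha⟩ := p.deg0 qp qq hx
  obtain ⟨b, hb⟩ := p.swap.deg0 qq qp hx
  obtain ⟨a', ha'⟩ := p.deg0 qp qq hy
  obtain ⟨b', hb'⟩ := p.swap.deg0 qq qp hy
  have hdet : a * b' - a' * b ≠ 0 := by
    intro hd
    by_cases ha0 : a = 0
    · subst ha0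
      have hb0 : b ≠ 0 := by
        rintro rfl
        exact hx0 (p.inj0 qp qq hx (by rw [ha, zero_smul]) (by rw [hb, zero_smul]))
      have ha0' : a' = 0 := by
        have h1 : a' * b = 0 := by linear_combination -hd
        exact (mul_eq_zero.1 h1).resolve_right hb0
      subst ha0'
      apply hyx (b' * b⁻¹)
      rw [← sub_eq_zero]
      refine p.inj0 qp qq (Submodule.sub_mem _ hy (Submodule.smul_mem _ _ hx)) ?_ ?_
      · rw [LinearMap.sub_apply, LinearMap.smul_apply, ha, ha', zero_smul, smul_zero, sub_zero]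
      · rw [LinearMap.sub_apply, LinearMap.smul_apply, hb, hb', smul_smul, mul_assoc,
          inv_mul_cancel₀ hb0, mul_one, sub_self]
    · apply hyx (a' * a⁻¹)
      rw [← sub_eq_zero]
      refine p.inj0 qp qq (Submodule.sub_mem _ hy (Submodule.smul_mem _ _ hx)) ?_ ?_
      · rw [LinearMap.sub_apply, LinearMap.smul_apply, ha, ha', smul_smul, mul_assoc,
          inv_mul_cancel₀ ha0, mul_one, sub_self]
      · rw [LinearMap.sub_apply, LinearMap.smul_apply, hb, hb', smul_smul, ← sub_smul]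
        have h1 : b' - a' * a⁻¹ * b = 0 := by
          field_simp
          linear_combination hd
        rw [h1, zero_smul]
  refine ⟨(a * b' - a' * b)⁻¹ • (b' • x - b • y), Submodule.smul_mem _ _ (Submodule.sub_mem _
    (Submodule.smul_mem _ _ hx) (Submodule.smul_mem _ _ hy)),
    (a * b' - a' * b)⁻¹ • (a • y - a' • x), Submodule.smul_mem _ _ (Submodule.sub_mem _
    (Submodule.smul_mem _ _ hy) (Submodule.smul_mem _ _ hx)), ?_, ?_, ?_, ?_⟩
  · rw [LinearMap.smul_apply, LinearMap.sub_apply, LinearMap.smul_apply, LinearMap.smul_apply, ha,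
      ha', smul_smul, smul_smul, ← sub_smul, smul_smul]
    have h1 : (a * b' - a' * b)⁻¹ * (b' * a - b * a') = 1 := by
      rw [show b' * a - b * a' = a * b' - a' * b by ring]
      exact inv_mul_cancel₀ hdet
    rw [h1, one_smul]
  · rw [LinearMap.smul_apply, LinearMap.sub_apply, LinearMap.smul_apply, LinearMap.smul_apply, hb,
      hb', smul_smul, smul_smul, ← sub_smul, smul_smul]
    have h1 : (a * b' - a' * b)⁻¹ * (b' * b - b * b') = 0 := by ring
    rw [h1, zero_smul]
  · rw [LinearMap.smul_apply, LinearMap.sub_apply, LinearMap.smul_apply, LinearMap.smul_apply, ha,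
      ha', smul_smul, smul_smul, ← sub_smul, smul_smul]
    have h1 : (a * b' - a' * b)⁻¹ * (a * a' - a' * a) = 0 := by ring
    rw [h1, zero_smul]
  · rw [LinearMap.smul_apply, LinearMap.sub_apply, LinearMap.smul_apply, LinearMap.smul_apply, hb,
      hb', smul_smul, smul_smul, ← sub_smul, smul_smul]
    rw [inv_mul_cancel₀ hdet, one_smul]

end Pr

end Pool.Agent.Q50.SR
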