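import Pool.Agent.Q50.SR.Evn2

/-!
# The even case: the vectors of degree one
-/

set_option linter.unusedSectionVars false
set_option maxHeartbeats 4000000
set_option synthInstance.maxHeartbeats 400000

namespace Pool.Agent.Q50.SR

open Module

variable {K S ι : Type*} [Field K] [CharZero K] [IsAlgClosed K] [AddCommGroup S] [Module K S]
  [FiniteDimensional K S] [Fintype ι] [DecidableEq ι]
  {e f h : ι → Module.End K S} {A : ι → ι → K} {c : ι → K}
  {V : Submodule K (Module.End K S)} {P Q : Submodule K S}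

theorem Chev.he_ad (hC : Chev e f h A c) (i j : ι) (x : Module.End K S) :
    ad (h j) (ad (e i) x) = ad (e i) (ad (h j) x) + A i j • ad (e i) x := by
  have h1 := congrArg (fun g : Module.End K (Module.End K S) => g x) (ad_bracket (h j) (e i))
  simp only [LinearMap.sub_apply, Module.End.mul_apply] at h1
  rw [hC.he, ad_smul, LinearMap.smul_apply, sub_eq_iff_eq_add] at h1
  rw [h1, add_comm]

theorem Chev.hf_ad (hC : Chev e f h A c) (i j : ι) (x : Module.End K S) :
    ad (h j) (ad (f i) x) = ad (f i) (ad (h j) x) - A i j • ad (f i) x := by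
  have h1 := congrArg (fun g : Module.End K (Module.End K S) => g x) (ad_bracket (h j) (f i))
  simp only [LinearMap.sub_apply, Module.End.mul_apply] at h1
  rw [hC.hf, ad_neg, ad_smul, LinearMap.neg_apply, LinearMap.smul_apply,
    sub_eq_iff_eq_add] at h1
  rw [h1]
  abel

theorem Chev.ef_ad (hC : Chev e f h A c) (i : ι) (x : Module.End K S) :
    ad (e i) (ad (f i) x) = ad (f i) (ad (e i) x) + ad (h i) x := by
  have h1 := congrArg (fun g : Module.End K (Module.End K S) => g x) (ad_bracket (e i) (f i))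
  simp only [LinearMap.sub_apply, Module.End.mul_apply] at h1
  rw [hC.ef, sub_eq_iff_eq_add] at h1
  rw [h1, add_comm]

theorem Chev.efn_ad (hC : Chev e f h A c) {i j : ι} (hij : i ≠ j) (x : Module.End K S) :
    ad (e i) (ad (f j) x) = ad (f j) (ad (e i) x) := by
  have h1 := congrArg (fun g : Module.End K (Module.End K S) => g x) (ad_bracket (e i) (f j))
  simp only [LinearMap.sub_apply, Module.End.mul_apply] at h1
  rw [hC.ef' i j hij, sub_self] at h1
  have h2 : ad (0 : Module.End K S) x = 0 := by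
    rw [ad_apply, zero_mul, mul_zero, sub_zero]
  rw [h2] at h1
  exact sub_eq_zero.1 h1

namespace Pr

variable (p : Pr e f h A c V P Q) {μ : K} {s t : S} {σ ρ : ι → K} (qp : QT e f h c P μ s σ)
  (qq : QT e f h c Q μ t ρ) {u u' : Module.End K S} (hu : u ∈ Vl h c V 0) (hu' : u' ∈ Vl h c V 0)
  (us : u s = t) (ut : u t = 0) (us' : u' s = 0) (ut' : u' t = s)

include p qp qq

omit qq in
theorem buu (hu : u ∈ Vl h c V 0) (us : u s = t) (ut : u t = 0) : bf u u = 0 := by
  have h1 := p.sq (mem_Vl.1 hu).1 s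
  rw [us, ut] at h1
  exact (smul_eq_zero.1 h1.symm).resolve_right qp.ne

include hu hu' us ut us' ut'

theorem buu' : bf u u' = 2⁻¹ := by
  have h1 := p.cl_apply (mem_Vl.1 hu).1 (mem_Vl.1 hu').1 s
  rw [us, us', map_zero, zero_add, ut'] at h1
  have h2 : (2 * bf u u' - 1) • s = 0 := by rw [sub_smul, one_smul, ← h1, sub_self]
  have h3 := (smul_eq_zero.1 h2).resolve_right qp.ne
  have h4 : (2 : K) ≠ 0 := two_ne_zero
  field_simp
  linear_combination h3

theorem zro0 {x : Module.End K S} (hx : x ∈ Vl h c V 0) : ∃ r r' : K, x = r • u + r' • u' := by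
  obtain ⟨a, ha⟩ := p.deg0 qp qq hx
  obtain ⟨b, hb⟩ := p.swap.deg0 qq qp hx
  refine ⟨a, b, ?_⟩
  rw [← sub_eq_zero]
  refine p.inj0 qp qq (Submodule.sub_mem _ hx (Submodule.add_mem _ (Submodule.smul_mem _ _ hu)
    (Submodule.smul_mem _ _ hu'))) ?_ ?_
  · rw [LinearMap.sub_apply, LinearMap.add_apply, LinearMap.smul_apply, LinearMap.smul_apply, us,
      us', ha, smul_zero, add_zero, sub_self]
  · rw [LinearMap.sub_apply, LinearMap.add_apply, LinearMap.smul_apply, LinearMap.smul_apply, ut,
      ut', hb, smul_zero, zero_add, sub_self]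

theorem wu (j : ι) : ad (h j) u = (ρ j - σ j) • u := by
  rw [← sub_eq_zero]
  refine p.inj0 qp qq (Submodule.sub_mem _ (p.h_Vl qp qq j hu) (Submodule.smul_mem _ _ hu)) ?_ ?_
  · rw [LinearMap.sub_apply, LinearMap.smul_apply, ad_apply, LinearMap.sub_apply,
      Module.End.mul_apply, Module.End.mul_apply, qp.h0, map_smul, us, qq.h0]
    module
  · rw [LinearMap.sub_apply, LinearMap.smul_apply, ad_apply, LinearMap.sub_apply,
      Module.End.mul_apply, Module.End.mul_apply, qq.h0, map_smul, ut, map_zero, smul_zero,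
      smul_zero, sub_zero, sub_zero]

theorem wu' (j : ι) : ad (h j) u' = -((ρ j - σ j) • u') := by
  rw [← neg_smul, neg_sub]
  exact p.swap.wu qq qp hu' hu ut' us' ut us j

/-- the action of `f i` on the highest weight vector -/
theorem f_s (i : ι) : f i s = ad (f i) u' t := by
  obtain ⟨y, hy, hy'⟩ := p.swap.fs qq qp i
  have h1 : bf u' y = 0 := Vl_orth (by norm_num) (mem_Vl.1 hu').2 (mem_Vl.1 hy).2
  rw [ad_apply, LinearMap.sub_apply, Module.End.mul_apply, Module.End.mul_apply, ut', hy',
    p.anti (mem_Vl.1 hu').1 (mem_Vl.1 hy).1 h1, us', map_zero, neg_zero, sub_zero]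

theorem f_t (i : ι) : f i t = ad (f i) u s := p.swap.f_s qq qp hu' hu ut' us' ut us i

/-- the vectors of degree minus one -/
theorem low {y : Module.End K S} (hy : y ∈ Vl h c V (-1)) :
    y ∈ Submodule.span K (Set.range fun i => ad (f i) u') := by
  have h1 : y t ∈ lev h c μ ((1 : ℕ) : ℤ) := by
    have h2 := p.swap.s_lev qq qp hy
    rw [neg_neg] at h2
    exact_mod_cast h2
  have h2 := qp.wd 1 (y t) (p.vq y (mem_Vl.1 hy).1 t qq.mem) h1
  have h3 : wd f (Submodule.span K {s}) 1 ≤
      (Submodule.span K (Set.range fun i => ad (f i) u')).map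
        (LinearMap.applyₗ t : Module.End K S →ₗ[K] S) := by
    refine wd_succ_le fun i x hx => ?_
    obtain ⟨a, rfl⟩ := Submodule.mem_span_singleton.1 hx
    refine ⟨a • ad (f i) u', Submodule.smul_mem _ _ (Submodule.subset_span ⟨i, rfl⟩), ?_⟩
    rw [map_smul, map_smul, p.f_s qp qq hu hu' us ut us' ut']
    rfl
  obtain ⟨z, hz, hz'⟩ := h3 h2
  have h4 : z ∈ Vl h c V (-1) := by
    refine (Submodule.span_le.2 ?_) hz
    rintro _ ⟨i, rfl⟩
    have h5 := p.f_Vl' qp qq i hu'
    rwa [zero_sub] at h5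
  have h5 : y - z = 0 := by
    refine p.swap.injk qq qp one_pos (Submodule.sub_mem _ hy h4) ?_
    rw [LinearMap.sub_apply, sub_eq_zero]
    exact hz'.symm
  rw [sub_eq_zero.1 h5]
  exact hz

theorem wf (i j : ι) : ad (h j) (ad (f i) u) = ((ρ j - σ j) - A i j) • ad (f i) u := by
  rw [p.chev.hf_ad, p.wu qp qq hu hu' us ut us' ut', map_smul, ← sub_smul]

theorem wf' (i j : ι) : ad (h j) (ad (f i) u') = (-(ρ j - σ j) - A i j) • ad (f i) u' := by
  rw [p.chev.hf_ad, p.wu' qp qq hu hu' us ut us' ut', map_neg, map_smul]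
  module

theorem step {i : ι} (hi : ad (f i) u' ≠ 0) :
    ∃ j, ad (f j) u ≠ 0 ∧ ∀ l, 2 * (ρ l - σ l) = A j l - A i l := by
  have h1 : ad (f i) u' ∈ Vl h c V (-1) := by
    have h5 := p.f_Vl' qp qq i hu'
    rwa [zero_sub] at h5
  have h2 := p.swap.low qq qp hu' hu ut' us' ut us h1
  obtain ⟨j, -, hj, hj'⟩ := weight_mem (h := fun l => ad (h l)) (y := fun j => ad (f j) u)
    (β := fun j l => (ρ l - σ l) - A j l) (fun j l => p.wf qp qq hu hu' us ut us' ut' j l)
    (z := ad (f i) u') (w := fun l => -(ρ l - σ l) - A i l)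
    (fun l => p.wf' qp qq hu hu' us ut us' ut' i l) hi Finset.univ (by
      rw [Finset.coe_univ, Set.image_univ]
      exact h2)
  refine ⟨j, hj, fun l => ?_⟩
  have h3 := congrFun hj' l
  linear_combination h3

theorem exi : ∃ i, ad (f i) u' ≠ 0 := by
  by_contra hcon
  push Not at hcon
  apply p.not_one qp
  intro i
  rw [p.f_s qp qq hu hu' us ut us' ut', hcon i, LinearMap.zero_apply]

/-- the two labels -/
theorem exab (hlin : ∀ x : ι → K, (∀ j, ∑ i, x i * A i j = 0) → x = 0) :
    ∃ a b : ι, a ≠ b ∧ (∀ l, 2 * (ρ l - σ l) = A b l - A a l) ∧ (∀ i, ad (f i) u' ≠ 0 ↔ i = a) ∧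
      ∀ i, ad (f i) u ≠ 0 ↔ i = b := by
  classical
  obtain ⟨a, ha⟩ := p.exi qp qq hu hu' us ut us' ut'
  obtain ⟨b, hb, hab⟩ := p.step qp qq hu hu' us ut us' ut' ha
  have hne : a ≠ b := by
    rintro rfl
    apply p.wt_ne qp qq
    funext l
    have h1 := hab l
    rw [sub_self] at h1
    have h2 := (mul_eq_zero.1 h1).resolve_left two_ne_zero
    exact (sub_eq_zero.1 h2).symm
  have huniq : ∀ a' b' : ι, (∀ l, 2 * (ρ l - σ l) = A b' l - A a' l) → a' = a ∧ b' = b := by
    intro a' b' h1
    have h2 := hlin (fun i => (if i = b then 1 else 0) - (if i = a then 1 else 0) -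
      (if i = b' then 1 else 0) + (if i = a' then 1 else 0)) (fun j => by
        simp only [add_mul, sub_mul, ite_mul, one_mul, zero_mul, Finset.sum_add_distrib,
          Finset.sum_sub_distrib, Finset.sum_ite_eq', Finset.mem_univ, if_true]
        linear_combination h1 j - hab j)
    have h3 := congrFun h2 a
    have h4 := congrFun h2 b
    simp only [Pi.zero_apply, if_true] at h3 h4
    rw [if_neg hne] at h3
    rw [if_neg (Ne.symm hne)] at h4
    constructor
    · by_contra h5
      rw [if_neg (Ne.symm h5)] at h3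
      split_ifs at h3 with h6
      · norm_num at h3
      · norm_num at h3
    · by_contra h5
      rw [if_neg (Ne.symm h5)] at h4
      split_ifs at h4 with h6
      · norm_num at h4
      · norm_num at h4
  refine ⟨a, b, hne, hab, fun i => ⟨fun hi => ?_, ?_⟩, fun i => ⟨fun hi => ?_, ?_⟩⟩
  · obtain ⟨j, _, hj⟩ := p.step qp qq hu hu' us ut us' ut' hi
    exact (huniq i j hj).1
  · rintro rfl
    exact ha
  · obtain ⟨j, _, hj⟩ := p.swap.step qq qp hu' hu ut' us' ut us hi
    refine (huniq j i fun l => ?_).2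
    linear_combination -(hj l)
  · rintro rfl
    exact hb

end Pr

end Pool.Agent.Q50.SR
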