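import Pool.Agent.Q50.SR.Evn3

/-!
# The even case: the chain of the homogeneous vectors
-/

set_option linter.unusedSectionVars false
set_option maxHeartbeats 4000000
set_option synthInstance.maxHeartbeats 400000

namespace Pool.Agent.Q50.SR

open Module

/-- the homogeneous vectors in the even case -/
structure Ev {K S ι : Type*} [Field K] [CharZero K] [AddCommGroup S] [Module K S] [Fintype ι]
    [DecidableEq ι] (e f h : ι → Module.End K S) (A : ι → ι → K) (c : ι → K)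
    (V : Submodule K (Module.End K S)) (u u' : Module.End K S) (τ : ι → K) (a b : ι)
    (v : ℤ → Module.End K S) (m : ℤ) : Prop where
  chev : Chev e f h A c
  cl : Cl V
  mem : ∀ k, v k ∈ V
  mu : u ∈ V
  mu' : u' ∈ V
  le : ∀ i, e i ∈ Lam V
  lf : ∀ i, f i ∈ Lam V
  deg : ∀ k : ℤ, ad (H0 h c) (v k) = (2 * (k : K)) • v k
  du : ad (H0 h c) u = 0
  du' : ad (H0 h c) u' = 0
  one : ∀ k : ℤ, k ≠ 0 → ∀ x ∈ V, ad (H0 h c) x = (2 * (k : K)) • x → ∃ r : K, x = r • v k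
  zro : ∀ x ∈ V, ad (H0 h c) x = 0 → ∃ r r' : K, x = r • u + r' • u'
  span : V ≤ Submodule.span K {u} ⊔ Submodule.span K {u'} ⊔ ⨆ k, Submodule.span K {v k}
  ne : ∀ k, -m ≤ k → k ≤ m → k ≠ 0 → v k ≠ 0
  zero : ∀ k, (k < -m ∨ m < k) → v k = 0
  v0 : v 0 = 0
  hm : 1 ≤ m
  buu : bf u u = 0
  buu' : bf u' u' = 0
  bu : bf u u' = 2⁻¹
  wu : ∀ j, ad (h j) u = τ j • u
  wu' : ∀ j, ad (h j) u' = -(τ j • u')
  tau : ∀ j, 2 * τ j = A b j - A a j
  hab : a ≠ b
  eu : ∀ i, ad (e i) u ≠ 0 ↔ i = a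
  eu' : ∀ i, ad (e i) u' ≠ 0 ↔ i = b
  fu : ∀ i, ad (f i) u ≠ 0 ↔ i = b
  fu' : ∀ i, ad (f i) u' ≠ 0 ↔ i = a

section swap

variable {K S ι : Type*} [Field K] [CharZero K] [AddCommGroup S] [Module K S] [Fintype ι]
  [DecidableEq ι] {e f h : ι → Module.End K S} {A : ι → ι → K} {c : ι → K}
  {V : Submodule K (Module.End K S)} {u u' : Module.End K S} {τ : ι → K} {a b : ι}
  {v : ℤ → Module.End K S} {m : ℤ}

theorem Ev.swap1 (d : Ev e f h A c V u u' τ a b v m) :
    Ev f e (fun i => -h i) A c V u' u τ a b (fun k => v (-k)) m := by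
  refine ⟨d.chev.swap, d.cl, fun k => d.mem _, d.mu', d.mu, d.lf, d.le, ?_, ?_, ?_, ?_, ?_, ?_,
    ?_, ?_, ?_, d.hm, d.buu', d.buu, ?_, ?_, ?_, d.tau, d.hab, d.fu', d.fu, d.eu', d.eu⟩
  · intro k
    rw [H0_neg, ad_neg, LinearMap.neg_apply, d.deg]
    push_cast
    module
  · rw [H0_neg, ad_neg, LinearMap.neg_apply, d.du', neg_zero]
  · rw [H0_neg, ad_neg, LinearMap.neg_apply, d.du, neg_zero]
  · intro k hk x hx hx'
    refine d.one (-k) (by omega) x hx ?_
    rw [H0_neg, ad_neg, LinearMap.neg_apply] at hx'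
    rw [← neg_inj, hx']
    push_cast
    module
  · intro x hx hx'
    rw [H0_neg, ad_neg, LinearMap.neg_apply, neg_eq_zero] at hx'
    obtain ⟨r, r', h1⟩ := d.zro x hx hx'
    exact ⟨r', r, by rw [h1, add_comm]⟩
  · refine d.span.trans (sup_le ?_ (iSup_le fun k => ?_))
    · rw [sup_comm (Submodule.span K {u})]
      exact le_sup_left
    · have h1 := le_iSup (fun k => Submodule.span K {v (-k)}) (-k)
      simp only [neg_neg] at h1
      exact h1.trans le_sup_right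
  · intro k h1 h2 h3
    exact d.ne _ (by omega) (by omega) (by omega)
  · intro k h1
    exact d.zero _ (by omega)
  · simp only [neg_zero]
    exact d.v0
  · rw [bf_comm]
    exact d.bu
  · intro j
    rw [ad_neg, LinearMap.neg_apply, d.wu', neg_neg]
  · intro j
    rw [ad_neg, LinearMap.neg_apply, d.wu]

theorem Ev.swap2 (d : Ev e f h A c V u u' τ a b v m) :
    Ev e f h A c V u' u (fun j => -τ j) b a v m := by
  refine ⟨d.chev, d.cl, d.mem, d.mu', d.mu, d.le, d.lf, d.deg, d.du', d.du, d.one, ?_, ?_,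
    d.ne, d.zero, d.v0, d.hm, d.buu', d.buu, ?_, ?_, ?_, ?_, d.hab.symm, d.eu', d.eu, d.fu', d.fu⟩
  · intro x hx hx'
    obtain ⟨r, r', h1⟩ := d.zro x hx hx'
    exact ⟨r', r, by rw [h1, add_comm]⟩
  · rw [sup_comm (Submodule.span K {u'})]
    exact d.span
  · rw [bf_comm]
    exact d.bu
  · intro j
    rw [d.wu', neg_smul]
  · intro j
    rw [d.wu, neg_smul, neg_neg]
  · intro j
    linear_combination -(d.tau j)

end swap

variable {K S ι : Type*} [Field K] [CharZero K] [IsAlgClosed K] [AddCommGroup S] [Module K S]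
  [FiniteDimensional K S] [Fintype ι] [DecidableEq ι]
  {e f h : ι → Module.End K S} {A : ι → ι → K} {c : ι → K}
  {V : Submodule K (Module.End K S)} {P Q : Submodule K S}

namespace Pr

variable (p : Pr e f h A c V P Q) {μ : K} {s t : S} {σ ρ : ι → K} (qp : QT e f h c P μ s σ)
  (qq : QT e f h c Q μ t ρ)

include p qp qq

theorem dual1 {k : ℤ} {y : Module.End K S} (hall : ∀ z ∈ Vl h c V (-k), ∃ r : K, z = r • y) :
    ∀ x ∈ Vl h c V k, ∀ x' ∈ Vl h c V k, x ≠ 0 → ∃ r : K, x' = r • x := by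
  intro x hx x' hx' hx0
  have h1 : bf x y ≠ 0 := by
    intro h0
    refine hx0 (p.bf0 qp qq hx fun z hz => ?_)
    obtain ⟨r, rfl⟩ := hall z hz
    rw [bf_smul, h0, mul_zero]
  refine ⟨bf x' y * (bf x y)⁻¹, ?_⟩
  rw [← sub_eq_zero]
  refine p.bf0 qp qq (Submodule.sub_mem _ hx' (Submodule.smul_mem _ _ hx)) fun z hz => ?_
  obtain ⟨r, rfl⟩ := hall z hz
  rw [bf_smul, sub_eq_add_neg, ← neg_smul, bf_comm, bf_add, bf_smul, bf_comm y x', bf_comm y x]
  field_simp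
  ring

/-- the higher degrees -/
theorem higher (h1 : ∀ x ∈ Vl h c V 1, ∀ y ∈ Vl h c V 1, x ≠ 0 → ∃ a : K, y = a • x)
    (h2 : ∀ x ∈ Vl h c V (-1), ∀ y ∈ Vl h c V (-1), x ≠ 0 → ∃ a : K, y = a • x) (k : ℕ) :
    (∀ x ∈ Vl h c V ((k + 1 : ℕ) : ℤ), ∀ y ∈ Vl h c V ((k + 1 : ℕ) : ℤ), x ≠ 0 →
      ∃ a : K, y = a • x) ∧
    (∀ x ∈ Vl h c V (-((k + 1 : ℕ) : ℤ)), ∀ y ∈ Vl h c V (-((k + 1 : ℕ) : ℤ)), x ≠ 0 →
      ∃ a : K, y = a • x) := by
  induction k with
  | zero =>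
    rw [zero_add, Nat.cast_one]
    exact ⟨h1, h2⟩
  | succ k ih =>
    constructor
    · intro x hx y hy hx0
      have h1 := F_Vl p.chev p.cl p.lf hx
      have h2 := F_Vl p.chev p.cl p.lf hy
      have h3 : ((k + 1 + 1 : ℕ) : ℤ) - 1 = ((k + 1 : ℕ) : ℤ) := by push_cast; ring
      rw [h3] at h1 h2
      obtain ⟨a, ha⟩ := ih.1 _ h1 _ h2 fun h0 => hx0 (F_inj p.chev (Nat.succ_ne_zero (k + 1))
        (mem_Vl.1 hx).2 h0)
      refine ⟨a, ?_⟩
      rw [← sub_eq_zero]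
      have h4 := Submodule.sub_mem _ hy (Submodule.smul_mem _ a hx)
      refine F_inj p.chev (Nat.succ_ne_zero (k + 1)) (mem_Vl.1 h4).2 ?_
      rw [map_sub, map_smul, ha, sub_self]
    · intro x hx y hy hx0
      have h1 := E_Vl p.chev p.cl p.le hx
      have h2 := E_Vl p.chev p.cl p.le hy
      have h3 : -((k + 1 + 1 : ℕ) : ℤ) + 1 = -((k + 1 : ℕ) : ℤ) := by push_cast; ring
      rw [h3] at h1 h2
      obtain ⟨a, ha⟩ := ih.2 _ h1 _ h2 fun h0 => hx0 (E_inj p.chev (Nat.succ_ne_zero (k + 1))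
        (mem_Vl.1 hx).2 h0)
      refine ⟨a, ?_⟩
      rw [← sub_eq_zero]
      have h4 := Submodule.sub_mem _ hy (Submodule.smul_mem _ a hx)
      refine E_inj p.chev (Nat.succ_ne_zero (k + 1)) (mem_Vl.1 h4).2 ?_
      rw [map_sub, map_smul, ha, sub_self]

theorem exists_ev {u u' : Module.End K S} (hu : u ∈ Vl h c V 0) (hu' : u' ∈ Vl h c V 0)
    (us : u s = t) (ut : u t = 0) (us' : u' s = 0) (ut' : u' t = s)
    (hlin : ∀ x : ι → K, (∀ j, ∑ i, x i * A i j = 0) → x = 0) :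
    ∃ (a b : ι) (v : ℤ → Module.End K S) (m : ℤ),
      Ev e f h A c V u u' (fun j => ρ j - σ j) a b v m := by
  classical
  obtain ⟨a, b, hab, htau, hfa, hfb⟩ := p.exab qp qq hu hu' us ut us' ut' hlin
  have hbu := p.buu' qp qq hu hu' us ut us' ut'
  have hbuu := p.buu qp hu us ut
  have hbuu' := p.swap.buu qq hu' ut' us'
  -- degree minus one
  have hfaz : ∀ i, i ≠ a → ad (f i) u' = 0 := fun i hi => by
    by_contra h0
    exact hi ((hfa i).1 h0)
  have hfbz : ∀ i, i ≠ b → ad (f i) u = 0 := fun i hi => by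
    by_contra h0
    exact hi ((hfb i).1 h0)
  have hlow1 : ∀ y ∈ Vl h c V (-1), ∃ r : K, y = r • ad (f a) u' := by
    intro y hy
    have h1 := p.low qp qq hu hu' us ut us' ut' hy
    have h2 : Submodule.span K (Set.range fun i => ad (f i) u') ≤
        Submodule.span K {ad (f a) u'} := by
      refine Submodule.span_le.2 ?_
      rintro _ ⟨i, rfl⟩
      by_cases hi : i = a
      · rw [hi]
        exact Submodule.mem_span_singleton_self _
      · change ad (f i) u' ∈ _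
        rw [hfaz i hi]
        exact Submodule.zero_mem _
    obtain ⟨r, hr⟩ := Submodule.mem_span_singleton.1 (h2 h1)
    exact ⟨r, hr.symm⟩
  have hlow2 : ∀ y ∈ Vl h c V (-1), ∃ r : K, y = r • ad (f b) u := by
    intro y hy
    have h1 := p.swap.low qq qp hu' hu ut' us' ut us hy
    have h2 : Submodule.span K (Set.range fun i => ad (f i) u) ≤
        Submodule.span K {ad (f b) u} := by
      refine Submodule.span_le.2 ?_
      rintro _ ⟨i, rfl⟩
      by_cases hi : i = b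
      · rw [hi]
        exact Submodule.mem_span_singleton_self _
      · change ad (f i) u ∈ _
        rw [hfbz i hi]
        exact Submodule.zero_mem _
    obtain ⟨r, hr⟩ := Submodule.mem_span_singleton.1 (h2 h1)
    exact ⟨r, hr.symm⟩
  -- the raising operators
  have heu' : ∀ i, i ≠ b → ad (e i) u' = 0 := by
    intro i hi
    have h1 := p.e_Vl' qp qq i hu'
    rw [zero_add] at h1
    refine p.bf0 qp qq h1 fun y hy => ?_
    obtain ⟨r, rfl⟩ := hlow2 y hy
    rw [bf_smul, bf_ad, p.chev.efn_ad hi, ← neg_neg (bf u' _), ← bf_ad, hfaz b hab.symm,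
      bf_zero', neg_zero, neg_zero, mul_zero]
  have heu : ∀ i, i ≠ a → ad (e i) u = 0 := by
    intro i hi
    have h1 := p.e_Vl' qp qq i hu
    rw [zero_add] at h1
    refine p.bf0 qp qq h1 fun y hy => ?_
    obtain ⟨r, rfl⟩ := hlow1 y hy
    rw [bf_smul, bf_ad, p.chev.efn_ad hi, ← neg_neg (bf u _), ← bf_ad, hfbz a hab,
      bf_zero', neg_zero, neg_zero, mul_zero]
  have h2inv : (2 : K)⁻¹ ≠ 0 := inv_ne_zero two_ne_zero
  have hτa : ρ a - σ a ≠ 0 := by
    intro h0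
    apply (hfa a).2 rfl
    refine (ad_tri (p.chev.tri a)).zero ?_ (heu' a hab)
    rw [p.wu' qp qq hu hu' us ut us' ut', h0, zero_smul, neg_zero]
  have hτb : ρ b - σ b ≠ 0 := by
    intro h0
    apply (hfb b).2 rfl
    refine (ad_tri (p.chev.tri b)).zero ?_ (heu b hab.symm)
    rw [p.wu qp qq hu hu' us ut us' ut', h0, zero_smul]
  have hea : ad (e a) u ≠ 0 := by
    intro h0
    have h1 := bf_ad (e a) u (ad (f a) u')
    rw [h0, bf_zero', p.chev.ef_ad, heu' a hab, map_zero, zero_add,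
      p.wu' qp qq hu hu' us ut us' ut', ← neg_smul, bf_smul, hbu] at h1
    have h2 : (ρ a - σ a) * (2 : K)⁻¹ = 0 := by linear_combination -h1
    exact mul_ne_zero hτa h2inv h2
  have heb : ad (e b) u' ≠ 0 := by
    intro h0
    have h1 := bf_ad (e b) u' (ad (f b) u)
    rw [h0, bf_zero', p.chev.ef_ad, heu b hab.symm, map_zero, zero_add,
      p.wu qp qq hu hu' us ut us' ut', bf_smul, bf_comm u' u, hbu] at h1
    have h2 : (ρ b - σ b) * (2 : K)⁻¹ = 0 := by linear_combination h1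
    exact mul_ne_zero hτb h2inv h2
  -- all the degrees are lines
  have hneg1 : ∀ x ∈ Vl h c V (-1), ∀ y ∈ Vl h c V (-1), x ≠ 0 → ∃ r : K, y = r • x := by
    intro x hx y hy hx0
    obtain ⟨r, hr⟩ := hlow1 x hx
    obtain ⟨r', hr'⟩ := hlow1 y hy
    have hr0 : r ≠ 0 := by
      rintro rfl
      exact hx0 (by rw [hr, zero_smul])
    refine ⟨r' * r⁻¹, ?_⟩
    rw [hr, hr', smul_smul, mul_assoc, inv_mul_cancel₀ hr0, mul_one]
  have hpos1 := p.dual1 qp qq (k := 1) hlow1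
  have hline : ∀ k : ℤ, k ≠ 0 → ∀ x ∈ Vl h c V k, ∀ y ∈ Vl h c V k, x ≠ 0 →
      ∃ r : K, y = r • x := by
    intro k hk
    obtain ⟨n, rfl | rfl⟩ := Int.eq_nat_or_neg k
    · obtain ⟨j, rfl⟩ : ∃ j, n = j + 1 := ⟨n - 1, by omega⟩
      exact (p.higher qp qq hpos1 hneg1 j).1
    · obtain ⟨j, rfl⟩ : ∃ j, n = j + 1 := ⟨n - 1, by omega⟩
      exact (p.higher qp qq hpos1 hneg1 j).2
  have h1 : ∀ k : ℤ, ∃ x, x ∈ Vl h c V k ∧ (k ≠ 0 → ∀ y ∈ Vl h c V k, ∃ a : K, y = a • x) ∧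
      (k ≠ 0 → (∃ y ∈ Vl h c V k, y ≠ 0) → x ≠ 0) ∧ (k = 0 → x = 0) := by
    intro k
    by_cases h2 : k ≠ 0 ∧ ∃ y ∈ Vl h c V k, y ≠ 0
    · obtain ⟨hk, x, hx, hx0⟩ := h2
      exact ⟨x, hx, fun _ y hy => hline k hk x hx y hy hx0, fun _ _ => hx0,
        fun h0 => absurd h0 hk⟩
    · refine ⟨0, Submodule.zero_mem _, ?_, ?_, fun _ => rfl⟩
      · intro hk y hy
        refine ⟨0, ?_⟩
        rw [smul_zero]
        by_contra h0
        exact h2 ⟨hk, y, hy, h0⟩
      · intro hk hy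
        exact absurd ⟨hk, hy⟩ h2
  choose v hv1 hv2 hv3 hv4 using h1
  have hspan : V ≤ Submodule.span K {u} ⊔ Submodule.span K {u'} ⊔ ⨆ k, Submodule.span K {v k} := by
    refine (p.vlSup qp qq).trans (iSup_le fun k x hx => ?_)
    by_cases hk : k = 0
    · subst hk
      obtain ⟨r, r', rfl⟩ := p.zro0 qp qq hu hu' us ut us' ut' hx
      exact Submodule.mem_sup_left (Submodule.add_mem_sup
        (Submodule.smul_mem _ _ (Submodule.mem_span_singleton_self _))
        (Submodule.smul_mem _ _ (Submodule.mem_span_singleton_self _)))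
    · obtain ⟨r, rfl⟩ := hv2 k hk x hx
      exact Submodule.mem_sup_right (Submodule.mem_iSup_of_mem k
        (Submodule.smul_mem _ _ (Submodule.mem_span_singleton_self _)))
  have hsym : ∀ k, v k ≠ 0 → v (-k) ≠ 0 := by
    intro k hk h0
    have hk0 : k ≠ 0 := fun h => hk (hv4 k h)
    apply hk
    refine p.bf0 qp qq (hv1 k) fun y hy => ?_
    obtain ⟨r, rfl⟩ := hv2 _ (by omega) y hy
    rw [h0, smul_zero, bf_zero]
  have h10 : v 1 ≠ 0 := by
    have h2 := p.e_Vl' qp qq a hu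
    rw [zero_add] at h2
    exact hv3 1 one_ne_zero ⟨_, h2, hea⟩
  have hdown : ∀ k : ℕ, v ((k + 2 : ℕ) : ℤ) ≠ 0 → v ((k + 1 : ℕ) : ℤ) ≠ 0 := by
    intro k hk
    have h2 := F_Vl p.chev p.cl p.lf (hv1 ((k + 2 : ℕ) : ℤ))
    have h3 : ((k + 2 : ℕ) : ℤ) - 1 = ((k + 1 : ℕ) : ℤ) := by push_cast; ring
    rw [h3] at h2
    exact hv3 _ (by omega) ⟨_, h2, fun h0 => hk (F_inj p.chev (Nat.succ_ne_zero (k + 1))
      (mem_Vl.1 (hv1 ((k + 2 : ℕ) : ℤ))).2 h0)⟩
  have hfin : ∃ M : ℕ, ∀ k : ℕ, M ≤ k → v ((k + 1 : ℕ) : ℤ) = 0 := by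
    by_contra hcon
    push Not at hcon
    have h2 : ∀ k : ℕ, v ((k + 1 : ℕ) : ℤ) ≠ 0 := by
      intro k
      obtain ⟨n, hn, hn0⟩ := hcon k
      obtain ⟨j, rfl⟩ := Nat.exists_eq_add_of_le hn
      clear hn
      induction j with
      | zero => simpa using hn0
      | succ j ih => exact ih (hdown _ hn0)
    have hfin : {μ : K | (ad (H0 h c)).HasEigenvalue μ}.Finite :=
      Module.End.finite_hasEigenvalue _
    refine (Set.infinite_of_injective_forall_mem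
      (f := fun k : ℕ => (2 : K) * (((k + 1 : ℕ) : ℤ) : K)) ?_ fun k => ?_) hfin
    · intro a b hab
      have h3 := mul_left_cancel₀ two_ne_zero hab
      have h4 : ((a + 1 : ℕ) : ℤ) = ((b + 1 : ℕ) : ℤ) := by exact_mod_cast h3
      have h5 : a + 1 = b + 1 := by exact_mod_cast h4
      omega
    · exact Module.End.hasEigenvalue_of_hasEigenvector
        ⟨Module.End.mem_eigenspace_iff.2 (mem_Vl.1 (hv1 _)).2, h2 k⟩
  obtain ⟨m, hm, hm'⟩ : ∃ m : ℕ, v ((m + 1 : ℕ) : ℤ) ≠ 0 ∧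
      ∀ k : ℕ, m < k → v ((k + 1 : ℕ) : ℤ) = 0 := by
    have h2 := Nat.find_spec hfin
    have h3 : Nat.find hfin ≠ 0 := by
      intro h4
      rw [h4] at h2
      exact h10 (by simpa using h2 0 le_rfl)
    obtain ⟨m, hm⟩ := Nat.exists_eq_succ_of_ne_zero h3
    rw [hm] at h2
    refine ⟨m, ?_, fun k hk => h2 k hk⟩
    intro h4
    have h5 := Nat.find_min hfin (m := m) (by omega)
    apply h5
    intro k hk
    rcases Nat.lt_or_ge m k with h6 | h6
    · exact h2 k h6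
    · have h7 : k = m := le_antisymm h6 hk
      rw [h7, h4]
  have hle : ∀ k : ℕ, k ≤ m → v ((k + 1 : ℕ) : ℤ) ≠ 0 := by
    intro k hk
    obtain ⟨j, hj⟩ := Nat.exists_eq_add_of_le hk
    clear hk hm'
    induction j generalizing m with
    | zero => simpa [hj] using hm
    | succ j ih =>
      rw [hj] at hm
      exact ih (k + j) (hdown _ hm) rfl
  refine ⟨a, b, v, ((m + 1 : ℕ) : ℤ), p.chev, p.cl, fun k => (mem_Vl.1 (hv1 k)).1,
    (mem_Vl.1 hu).1, (mem_Vl.1 hu').1, p.le, p.lf, fun k => (mem_Vl.1 (hv1 k)).2, ?_, ?_,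
    fun k hk x hx hx' => hv2 k hk x (mem_Vl.2 ⟨hx, hx'⟩), ?_, hspan, ?_, ?_, hv4 0 rfl,
    by push_cast; omega, hbuu, hbuu', hbu, p.wu qp qq hu hu' us ut us' ut',
    p.wu' qp qq hu hu' us ut us' ut', htau, hab, ?_, ?_, hfb, hfa⟩
  · have h2 := (mem_Vl.1 hu).2
    rwa [Int.cast_zero, mul_zero, zero_smul] at h2
  · have h2 := (mem_Vl.1 hu').2
    rwa [Int.cast_zero, mul_zero, zero_smul] at h2
  · intro x hx hx'
    refine p.zro0 qp qq hu hu' us ut us' ut' (mem_Vl.2 ⟨hx, ?_⟩)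
    rw [Int.cast_zero, mul_zero, zero_smul]
    exact hx'
  · intro k h2 h3 h4
    obtain ⟨n, rfl | rfl⟩ := Int.eq_nat_or_neg k
    · obtain ⟨j, rfl⟩ : ∃ j, n = j + 1 := ⟨n - 1, by omega⟩
      exact hle j (by omega)
    · obtain ⟨j, rfl⟩ : ∃ j, n = j + 1 := ⟨n - 1, by omega⟩
      exact hsym _ (hle j (by omega))
  · intro k h2
    obtain ⟨n, rfl | rfl⟩ := Int.eq_nat_or_neg k
    · obtain ⟨j, rfl⟩ : ∃ j, n = j + 1 := ⟨n - 1, by omega⟩
      exact hm' j (by omega)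
    · by_contra h3
      have h4 := hsym _ h3
      rw [neg_neg] at h4
      obtain ⟨j, rfl⟩ : ∃ j, n = j + 1 := ⟨n - 1, by omega⟩
      exact h4 (hm' j (by omega))
  · intro i
    constructor
    · intro hi
      by_contra h0
      exact hi (heu i h0)
    · rintro rfl
      exact hea
  · intro i
    constructor
    · intro hi
      by_contra h0
      exact hi (heu' i h0)
    · rintro rfl
      exact heb

end Pr

end Pool.Agent.Q50.SR
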