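import Pool.Agent.Q50.SR.Evn4

/-!
# The even case: the labels of the steps of the chain
-/

set_option linter.unusedSectionVars false
set_option maxHeartbeats 4000000
set_option synthInstance.maxHeartbeats 400000

namespace Pool.Agent.Q50.SR

open Module

/-- labels and weights in the even case -/
structure Le {K S ι : Type*} [Field K] [CharZero K] [AddCommGroup S] [Module K S] [Fintype ι]
    [DecidableEq ι] (e f h : ι → Module.End K S) (v : ℤ → Module.End K S) (m : ℤ) (l : ℤ → ι)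
    (w : ℤ → ι → K) : Prop where
  wt : ∀ (k : ℤ) (j : ι), ad (h j) (v k) = w k j • v k
  le : ∀ k : ℤ, 2 ≤ k → k ≤ m → ∀ j, ad (e j) (v (k - 1)) ≠ 0 ↔ j = l k
  lf : ∀ k : ℤ, 2 ≤ k → k ≤ m → ∀ j, ad (f j) (v k) ≠ 0 ↔ j = l k
  le' : ∀ k : ℤ, 2 ≤ k → k ≤ m → ∀ j, ad (e j) (v (-k)) ≠ 0 ↔ j = l k
  lf' : ∀ k : ℤ, 2 ≤ k → k ≤ m → ∀ j, ad (f j) (v (-(k - 1))) ≠ 0 ↔ j = l k

theorem Le.swap {K S ι : Type*} [Field K] [CharZero K] [AddCommGroup S] [Module K S] [Fintype ι]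
    [DecidableEq ι] {e f h : ι → Module.End K S} {v : ℤ → Module.End K S} {m : ℤ} {l : ℤ → ι}
    {w : ℤ → ι → K} (b : Le e f h v m l w) :
    Le f e (fun i => -h i) (fun k => v (-k)) m l (fun k j => -w (-k) j) := by
  refine ⟨?_, b.lf', ?_, ?_, ?_⟩
  · intro k j
    rw [ad_neg, LinearMap.neg_apply, b.wt, neg_smul]
  · exact b.le'
  · intro k h1 h2 j
    simp only [neg_neg]
    exact b.lf k h1 h2 j
  · intro k h1 h2 j
    simp only [neg_neg]
    exact b.le k h1 h2 j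

variable {K S ι : Type*} [Field K] [CharZero K] [IsAlgClosed K] [AddCommGroup S] [Module K S]
  [FiniteDimensional K S] [Fintype ι] [DecidableEq ι]
  {e f h : ι → Module.End K S} {A : ι → ι → K} {c : ι → K}
  {V : Submodule K (Module.End K S)} {u u' : Module.End K S} {τ : ι → K} {a b : ι}
  {v : ℤ → Module.End K S} {m : ℤ} {l : ℤ → ι} {w : ℤ → ι → K}

namespace Ev

variable (d : Ev e f h A c V u u' τ a b v m)

include d

theorem orth {i j : ℤ} (hij : i + j ≠ 0) : bf (v i) (v j) = 0 := Vl_orth hij (d.deg i) (d.deg j)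

theorem du0 : ad (H0 h c) u = (2 * ((0 : ℤ) : K)) • u := by
  rw [d.du, Int.cast_zero, mul_zero, zero_smul]

theorem du0' : ad (H0 h c) u' = (2 * ((0 : ℤ) : K)) • u' := by
  rw [d.du', Int.cast_zero, mul_zero, zero_smul]

theorem orthu (k : ℤ) : bf u (v k) = 0 := by
  by_cases hk : k = 0
  · rw [hk, d.v0, bf_zero]
  · exact Vl_orth (by omega) d.du0 (d.deg k)

theorem orthu' (k : ℤ) : bf u' (v k) = 0 := by
  by_cases hk : k = 0
  · rw [hk, d.v0, bf_zero]
  · exact Vl_orth (by omega) d.du0' (d.deg k)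

theorem pair {k : ℤ} (h1 : -m ≤ k) (h2 : k ≤ m) (h3 : k ≠ 0) : bf (v k) (v (-k)) ≠ 0 := by
  intro h0
  apply d.ne k h1 h2 h3
  refine d.cl.nd _ (d.mem k) fun x hx => ?_
  obtain ⟨y, hy, z, hz, rfl⟩ := Submodule.mem_sup.1 (d.span hx)
  obtain ⟨y1, hy1, y2, hy2, rfl⟩ := Submodule.mem_sup.1 hy
  obtain ⟨r, rfl⟩ := Submodule.mem_span_singleton.1 hy1
  obtain ⟨r', rfl⟩ := Submodule.mem_span_singleton.1 hy2
  have hz0 : bf (v k) z = 0 := by
    refine Submodule.iSup_induction (fun k => Submodule.span K {v k})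
      (motive := fun x => bf (v k) x = 0) hz ?_ (bf_zero _) ?_
    · intro j y hy
      obtain ⟨a, rfl⟩ := Submodule.mem_span_singleton.1 hy
      rw [bf_smul]
      by_cases hj : k + j = 0
      · have h3 : j = -k := by omega
        rw [h3, h0, mul_zero]
      · rw [d.orth hj, mul_zero]
    · intro y z hy hz
      rw [bf_add, hy, hz, add_zero]
  rw [bf_add, bf_add, bf_smul, bf_smul, bf_comm _ u, bf_comm _ u', d.orthu, d.orthu', hz0]
  ring

theorem vl (k : ℤ) : v k ∈ Vl h c V k := mem_Vl.2 ⟨d.mem k, d.deg k⟩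

theorem raise (i : ι) {k : ℤ} (hk : k ≠ -1) : ∃ r : K, ad (e i) (v k) = r • v (k + 1) := by
  have h1 := mem_Vl.1 (e_Vl d.chev d.cl d.le i (d.vl k))
  exact d.one _ (by omega) _ h1.1 h1.2

theorem lower (i : ι) {k : ℤ} (hk : k ≠ 1) : ∃ r : K, ad (f i) (v k) = r • v (k - 1) := by
  have h1 := mem_Vl.1 (f_Vl d.chev d.cl d.lf i (d.vl k))
  exact d.one _ (by omega) _ h1.1 h1.2

theorem hwt (i : ι) (k : ℤ) : ∃ r : K, ad (h i) (v k) = r • v k := by
  by_cases hk : k = 0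
  · refine ⟨0, ?_⟩
    rw [hk, d.v0, map_zero, smul_zero]
  · have h1 := e_Vl d.chev d.cl d.le i (f_Vl d.chev d.cl d.lf i (d.vl k))
    have h2 := f_Vl d.chev d.cl d.lf i (e_Vl d.chev d.cl d.le i (d.vl k))
    rw [sub_add_cancel] at h1
    rw [add_sub_cancel_right] at h2
    have h3 : ad (h i) (v k) ∈ Vl h c V k := by
      rw [← d.chev.ef, ← ad_bracket, LinearMap.sub_apply, Module.End.mul_apply,
        Module.End.mul_apply]
      exact Submodule.sub_mem _ h1 h2
    have h4 := mem_Vl.1 h3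
    exact d.one _ hk _ h4.1 h4.2

theorem E_ne {k : ℤ} (h1 : -m ≤ k) (h2 : k < m) (h3 : k ≠ -1) (h4 : k ≠ 0) :
    ad (∑ i, e i) (v k) ≠ 0 := by
  have neg : ∀ k : ℤ, -m ≤ k → k < 0 → ad (∑ i, e i) (v k) ≠ 0 := by
    intro k h1 h2 h0
    obtain ⟨n, rfl | rfl⟩ := Int.eq_nat_or_neg k
    · omega
    · exact d.ne _ h1 (by have := d.hm; omega) (by omega) (E_inj d.chev (by omega) (d.deg _) h0)
  rcases lt_or_ge k 0 with h5 | h5
  · exact neg k h1 h5
  · intro h0
    have h6 := neg (-(k + 1)) (by omega) (by omega)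
    have h7 : ∃ r : K, ad (∑ i, e i) (v (-(k + 1))) = r • v (-k) := by
      have h6 := mem_Vl.1 (E_Vl d.chev d.cl d.le (d.vl (-(k + 1))))
      have h7 : -(k + 1) + 1 = -k := by ring
      rw [h7] at h6
      exact d.one _ (by omega) _ h6.1 h6.2
    obtain ⟨r, hr⟩ := h7
    have hr0 : r ≠ 0 := by
      rintro rfl
      exact h6 (by rw [hr, zero_smul])
    have h8 := bf_ad (∑ i, e i) (v (-(k + 1))) (v k)
    rw [h0, bf_zero, neg_zero, hr, bf_smul'] at h8
    have h9 := d.pair (k := -k) (by omega) (by omega) (by omega)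
    rw [neg_neg] at h9
    exact mul_ne_zero hr0 h9 h8

theorem exE {k : ℤ} (h1 : -m ≤ k) (h2 : k < m) (h3 : k ≠ -1) (h4 : k ≠ 0) :
    ∃ i, ad (e i) (v k) ≠ 0 := by
  by_contra hcon
  push Not at hcon
  apply d.E_ne h1 h2 h3 h4
  rw [ad_sum, LinearMap.sum_apply]
  exact Finset.sum_eq_zero fun i _ => hcon i

theorem exF {k : ℤ} (h1 : -m < k) (h2 : k ≤ m) (h3 : k ≠ 1) (h4 : k ≠ 0) :
    ∃ i, ad (f i) (v k) ≠ 0 := by
  have h5 := d.swap1.exE (k := -k) (by omega) (by omega) (by omega) (by omega)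
  simpa using h5

theorem wt_e (hw : ∀ (k : ℤ) (j : ι), ad (h j) (v k) = w k j • v k) {i : ι} {k : ℤ}
    (hk : k ≠ 0) (hi : ad (e i) (v (k - 1)) ≠ 0) (j : ι) : w k j = w (k - 1) j + A i j := by
  obtain ⟨r, hr⟩ := d.raise i (k := k - 1) (by omega)
  rw [sub_add_cancel] at hr
  have h1 := d.chev.he_ad i j (v (k - 1))
  rw [hw, map_smul, ← add_smul, hr, map_smul, hw] at h1
  have h2 : (r * (w k j - (w (k - 1) j + A i j))) • v k = 0 := by
    rw [mul_sub, sub_smul, sub_eq_zero, mul_smul, h1, smul_smul, mul_comm]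
  have h3 : r • v k ≠ 0 := by rwa [hr] at hi
  have h4 : r ≠ 0 := fun h5 => h3 (by rw [h5, zero_smul])
  have h5 : v k ≠ 0 := fun h5 => h3 (by rw [h5, smul_zero])
  rcases smul_eq_zero.1 h2 with h6 | h6
  · exact sub_eq_zero.1 ((mul_eq_zero.1 h6).resolve_left h4)
  · exact absurd h6 h5

theorem wt_f (hw : ∀ (k : ℤ) (j : ι), ad (h j) (v k) = w k j • v k) {i : ι} {k : ℤ}
    (hk : k ≠ 1) (hi : ad (f i) (v k) ≠ 0) (j : ι) : w k j = w (k - 1) j + A i j := by
  obtain ⟨r, hr⟩ := d.lower i hk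
  have h1 := d.chev.hf_ad i j (v k)
  rw [hw, map_smul, ← sub_smul, hr, map_smul, hw] at h1
  have h2 : (r * (w (k - 1) j - (w k j - A i j))) • v (k - 1) = 0 := by
    rw [mul_sub, sub_smul, sub_eq_zero, mul_smul, h1, smul_smul, mul_comm]
  have h3 : r • v (k - 1) ≠ 0 := by rwa [hr] at hi
  have h4 : r ≠ 0 := fun h5 => h3 (by rw [h5, zero_smul])
  have h5 : v (k - 1) ≠ 0 := fun h5 => h3 (by rw [h5, smul_zero])
  rcases smul_eq_zero.1 h2 with h6 | h6
  · have h7 := sub_eq_zero.1 ((mul_eq_zero.1 h6).resolve_left h4)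
    rw [h7]
    ring
  · exact absurd h6 h5

/-- duality of the raising operators -/
theorem dualE (i : ι) {k : ℤ} (h1 : 2 ≤ k) (h2 : k ≤ m) :
    ad (e i) (v (-k)) ≠ 0 ↔ ad (e i) (v (k - 1)) ≠ 0 := by
  obtain ⟨r, hr⟩ := d.raise i (k := -k) (by omega)
  obtain ⟨r', hr'⟩ := d.raise i (k := k - 1) (by omega)
  rw [sub_add_cancel] at hr'
  have h3 : -k + 1 = -(k - 1) := by ring
  rw [h3] at hr
  have h4 := bf_ad (e i) (v (k - 1)) (v (-k))
  rw [hr, hr', bf_smul, bf_smul'] at h4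
  have h5 := d.pair (k := k) (by omega) h2 (by omega)
  have h6 := d.pair (k := k - 1) (by omega) (by omega) (by omega)
  have h7 := d.ne (-(k - 1)) (by omega) (by omega) (by omega)
  have h8 := d.ne k (by omega) h2 (by omega)
  rw [hr, hr']
  constructor
  · intro h9 h10
    have h11 := (smul_eq_zero.1 h10).resolve_right h8
    rw [h11, zero_mul, eq_comm, neg_eq_zero] at h4
    have h12 := (mul_eq_zero.1 h4).resolve_right h6
    exact h9 (by rw [h12, zero_smul])
  · intro h9 h10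
    have h11 := (smul_eq_zero.1 h10).resolve_right h7
    rw [h11, zero_mul, neg_zero] at h4
    have h12 := (mul_eq_zero.1 h4).resolve_right h5
    exact h9 (by rw [h12, zero_smul])

theorem labels : ∃ (l : ℤ → ι) (w : ℤ → ι → K), Le e f h v m l w := by
  classical
  choose w hw using fun (k : ℤ) (j : ι) => d.hwt j k
  have h1 : ∀ k : ℤ, ∃ i, 2 ≤ k → k ≤ m → (∀ j, ad (e j) (v (k - 1)) ≠ 0 ↔ j = i) ∧
      (∀ j, ad (f j) (v k) ≠ 0 ↔ j = i) := by
    intro k
    by_cases hk : 2 ≤ k ∧ k ≤ m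
    · obtain ⟨i, hi⟩ := d.exE (k := k - 1) (by omega) (by omega) (by omega) (by omega)
      obtain ⟨i', hi'⟩ := d.exF (k := k) (by omega) hk.2 (by omega) (by omega)
      have key : ∀ a b : ι, ad (e a) (v (k - 1)) ≠ 0 → ad (f b) (v k) ≠ 0 → a = b := by
        intro a b ha hb
        refine d.chev.inj a b fun j => ?_
        have h2 := d.wt_e hw (by omega) ha j
        rw [d.wt_f hw (by omega) hb j] at h2
        exact (add_left_cancel h2).symm
      have h2 := key i i' hi hi'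
      subst h2
      refine ⟨i, fun _ _ => ⟨fun j => ⟨fun hj => key j i hj hi', ?_⟩,
        fun j => ⟨fun hj => (key i j hi hj).symm, ?_⟩⟩⟩
      · rintro rfl
        exact hi
      · rintro rfl
        exact hi'
    · exact ⟨a, fun h2 h3 => absurd ⟨h2, h3⟩ hk⟩
  choose l hl using h1
  refine ⟨l, w, fun k j => hw k j, fun k h2 h3 => (hl k h2 h3).1, fun k h2 h3 => (hl k h2 h3).2,
    fun k h2 h3 j => ?_, fun k h2 h3 j => ?_⟩
  · rw [d.dualE j h2 h3]
    exact (hl k h2 h3).1 j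
  · have h4 := d.swap1.dualE j h2 h3
    simp only [neg_neg] at h4
    rw [← h4]
    exact (hl k h2 h3).2 j

theorem une : u ≠ 0 := by
  intro h0
  have h1 := d.bu
  rw [h0, bf_zero'] at h1
  exact inv_ne_zero two_ne_zero h1.symm

theorem une' : u' ≠ 0 := by
  intro h0
  have h1 := d.bu
  rw [h0, bf_zero] at h1
  exact inv_ne_zero two_ne_zero h1.symm

theorem eu0 {i : ι} (hi : i ≠ a) : ad (e i) u = 0 := by
  by_contra h0
  exact hi ((d.eu i).1 h0)

theorem eu0' {i : ι} (hi : i ≠ b) : ad (e i) u' = 0 := by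
  by_contra h0
  exact hi ((d.eu' i).1 h0)

theorem fu0 {i : ι} (hi : i ≠ b) : ad (f i) u = 0 := by
  by_contra h0
  exact hi ((d.fu i).1 h0)

theorem fu0' {i : ι} (hi : i ≠ a) : ad (f i) u' = 0 := by
  by_contra h0
  exact hi ((d.fu' i).1 h0)

theorem ulow (i : ι) : ∃ r : K, ad (f i) u = r • v (-1) := by
  have h1 := mem_Vl.1 (f_Vl d.chev d.cl d.lf i (mem_Vl.2 ⟨d.mu, d.du0⟩))
  rw [zero_sub] at h1
  exact d.one _ (by norm_num) _ h1.1 h1.2

theorem ulow' (i : ι) : ∃ r : K, ad (f i) u' = r • v (-1) := d.swap2.ulow i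

theorem uup (i : ι) : ∃ r : K, ad (e i) u = r • v 1 := by
  have h1 := d.swap1.ulow' i
  simpa using h1

theorem uup' (i : ι) : ∃ r : K, ad (e i) u' = r • v 1 := by
  have h1 := d.swap1.ulow i
  simpa using h1

/-- two applications of `f a` -/
theorem twice (n : ℕ) (hn : -τ a = n) (hn1 : n ≠ 1) : ad (f a) (v (-1)) ≠ 0 := by
  have h1 : ad (f a) u' ≠ 0 := (d.fu' a).2 rfl
  obtain ⟨r, hr⟩ := d.ulow' a
  have hr0 : r ≠ 0 := by
    rintro rfl
    exact h1 (by rw [hr, zero_smul])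
  have h2 := (ad_tri (d.chev.tri a)).pow_e (w := u') (θ := -τ a) (by rw [d.wu', neg_smul])
    (d.eu0' d.hab) 1
  intro h0
  have h3 : (ad (f a) ^ (1 + 1)) u' = 0 := by
    rw [pow_succ', Module.End.mul_apply, pow_one, hr, map_smul, h0, smul_zero]
  rw [h3, map_zero, pow_one, eq_comm, smul_eq_zero] at h2
  rcases h2 with h2 | h2
  · rw [hn] at h2
    have h4 : ((n : K) - 1) = 0 := by
      push_cast at h2
      linear_combination (1 / 2 : K) * h2
    apply hn1
    have h5 : (n : K) = 1 := by linear_combination h4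
    exact_mod_cast h5
  · exact h1 h2

end Ev

namespace Le

variable (d : Ev e f h A c V u u' τ a b v m) (B : Le e f h v m l w)

include d B

theorem f_zero {k : ℤ} (h1 : 2 ≤ k) (h2 : k ≤ m) {i : ι} (hi : i ≠ l k) : ad (f i) (v k) = 0 := by
  by_contra h0
  exact hi ((B.lf k h1 h2 i).1 h0)

theorem e_zero {k : ℤ} (h1 : 1 ≤ k) (h2 : k < m) {i : ι} (hi : i ≠ l (k + 1)) :
    ad (e i) (v k) = 0 := by
  by_contra h0
  have h3 := (B.le (k + 1) (by omega) (by omega) i).1 (by rwa [add_sub_cancel_right])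
  exact hi h3

theorem e_zero' {k : ℤ} (h2 : m ≤ k) (i : ι) : ad (e i) (v k) = 0 := by
  have := d.hm
  obtain ⟨r, hr⟩ := d.raise i (k := k) (by omega)
  rw [hr, d.zero (k + 1) (by omega), smul_zero]

theorem w_zero {k : ℤ} (h1 : v k ≠ 0) {i : ι} (he : ad (e i) (v k) = 0)
    (hf : ad (f i) (v k) = 0) : w k i = 0 := by
  have h3 := B.wt k i
  rw [← d.chev.ef, ← ad_bracket, LinearMap.sub_apply, Module.End.mul_apply, Module.End.mul_apply,
    he, hf, map_zero, map_zero, sub_zero] at h3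
  exact (smul_eq_zero.1 h3.symm).resolve_right h1

theorem wstep {k : ℤ} (h1 : 2 ≤ k) (h2 : k ≤ m) (j : ι) : w k j = w (k - 1) j + A (l k) j :=
  d.wt_e B.wt (by omega) ((B.le k h1 h2 (l k)).2 rfl) j

/-- the weight of the vector of degree one -/
theorem w1 (j : ι) : 2 * w 1 j = A a j + A b j := by
  obtain ⟨r, hr⟩ := d.uup a
  have h1 : ad (e a) u ≠ 0 := (d.eu a).2 rfl
  have hr0 : r ≠ 0 := by
    rintro rfl
    exact h1 (by rw [hr, zero_smul])
  have h2 := d.chev.he_ad a j u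
  rw [d.wu, map_smul, ← add_smul, hr, map_smul, B.wt, smul_smul, smul_smul, ← sub_eq_zero,
    ← sub_smul] at h2
  have h3 := (smul_eq_zero.1 h2).resolve_right (d.ne 1 (by have := d.hm; omega) d.hm one_ne_zero)
  have h4 : r * (w 1 j - (τ j + A a j)) = 0 := by linear_combination h3
  have h5 := (mul_eq_zero.1 h4).resolve_left hr0
  linear_combination 2 * h5 + d.tau j

/-- the first two labels are orthogonal -/
theorem Aba : A b a = 0 := by
  obtain ⟨n, hn, -⟩ := (ad_tri (d.chev.tri a)).nat (w := u') (θ := -τ a) d.une'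
    (by rw [d.wu', neg_smul]) (d.eu0' d.hab)
  obtain ⟨n', hn', -⟩ := (ad_tri (d.chev.tri b)).nat (w := u) (θ := τ b) d.une (d.wu b)
    (d.eu0 d.hab.symm)
  have h1 := d.tau a
  have h2 := d.tau b
  rw [d.chev.diag] at h1 h2
  by_contra h0
  have hn1 : n ≠ 1 := by
    rintro rfl
    rw [Nat.cast_one] at hn
    exact h0 (by linear_combination -h1 - 2 * hn)
  have hn1' : n' ≠ 1 := by
    rintro rfl
    rw [Nat.cast_one] at hn'
    exact h0 (d.chev.zero _ _ (by linear_combination h2 - 2 * hn'))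
  have h3 := d.twice n hn hn1
  have h4 := d.swap2.twice n' (by rw [neg_neg]; exact hn') hn1'
  have h5 : 2 ≤ m := by
    by_contra h6
    obtain ⟨r, hr⟩ := d.lower a (k := -1) (by norm_num)
    apply h3
    rw [hr, d.zero (-1 - 1) (by omega), smul_zero]
  have h6 := (B.lf' 2 le_rfl h5 a).1 (by
    have h7 : -((2 : ℤ) - 1) = -1 := by norm_num
    rwa [h7])
  have h7 := (B.lf' 2 le_rfl h5 b).1 (by
    have h7 : -((2 : ℤ) - 1) = -1 := by norm_num
    rwa [h7])
  exact d.hab (h6.trans h7.symm)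

theorem l2a (hm : 2 ≤ m) : l 2 ≠ a := by
  intro hl
  have h1 := d.tau a
  rw [d.chev.diag, Aba d B] at h1
  obtain ⟨n, hn, hn'⟩ := (ad_tri (d.chev.tri a)).nat (w := u') (θ := -τ a) d.une'
    (by rw [d.wu', neg_smul]) (d.eu0' d.hab)
  have h2 : n = 1 := by
    have h3 : (n : K) = 1 := by linear_combination -hn - (1 / 2 : K) * h1
    exact_mod_cast h3
  subst h2
  obtain ⟨r, hr⟩ := d.ulow' a
  have h3 : ad (f a) u' ≠ 0 := (d.fu' a).2 rfl
  have hr0 : r ≠ 0 := by
    rintro rfl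
    exact h3 (by rw [hr, zero_smul])
  rw [pow_succ', Module.End.mul_apply, pow_one, hr, map_smul] at hn'
  have h4 := (smul_eq_zero.1 hn').resolve_left hr0
  refine (B.lf' 2 le_rfl hm a).2 hl.symm ?_
  have h7 : -((2 : ℤ) - 1) = -1 := by norm_num
  rwa [h7]

theorem l2b (hm : 2 ≤ m) : l 2 ≠ b := l2a d.swap2 B hm

/-- the action on the vector of degree one -/
theorem f1 {i : ι} (ha : i ≠ a) (hb : i ≠ b) : ad (f i) (v 1) = 0 := by
  obtain ⟨r, hr⟩ := d.uup a
  have h1 : ad (e a) u ≠ 0 := (d.eu a).2 rfl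
  have hr0 : r ≠ 0 := by
    rintro rfl
    exact h1 (by rw [hr, zero_smul])
  have h2 : v 1 = r⁻¹ • ad (e a) u := by rw [hr, smul_smul, inv_mul_cancel₀ hr0, one_smul]
  rw [h2, map_smul, ← d.chev.efn_ad (Ne.symm ha), d.fu0 hb, map_zero, smul_zero]

/-- the off-diagonal entries are negative -/
theorem neg {i j : ι} (hij : i ≠ j) {x : Module.End K S} (hx : ad (e i) x ≠ 0) :
    ∃ n : ℕ, A i j = -n := by
  have hei : e i ≠ 0 := by
    intro h0
    apply hx
    rw [h0, ad_apply, zero_mul, mul_zero, sub_zero]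
  obtain ⟨n, hn, -⟩ := (ad_tri (d.chev.tri j)).symm.nat (w := e i) (θ := -A i j) hei (by
    rw [LinearMap.neg_apply, ad_apply, d.chev.he, neg_smul]) (by
    rw [ad_apply, d.chev.ef' i j hij, sub_self])
  exact ⟨n, by rw [← hn, neg_neg]⟩

end Le

end Pool.Agent.Q50.SR
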