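import Pool.Agent.Q50.SR.Evn5

/-!
# The even case: the first two labels do not come back
-/

set_option linter.unusedSectionVars false
set_option maxHeartbeats 4000000
set_option synthInstance.maxHeartbeats 400000

namespace Pool.Agent.Q50.SR

open Module

variable {K S ι : Type*} [Field K] [CharZero K] [IsAlgClosed K] [AddCommGroup S] [Module K S]
  [FiniteDimensional K S] [Fintype ι] [DecidableEq ι]
  {e f h : ι → Module.End K S} {A : ι → ι → K} {c : ι → K}
  {V : Submodule K (Module.End K S)} {P Q : Submodule K S} {u u' : Module.End K S} {τ : ι → K}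
  {a b : ι} {v : ℤ → Module.End K S} {m : ℤ} {l : ℤ → ι} {w : ℤ → ι → K}

theorem ad_app (x y : Module.End K S) (s : S) : x (y s) = ad x y s + y (x s) := by
  rw [ad_apply, LinearMap.sub_apply, Module.End.mul_apply, Module.End.mul_apply, sub_add_cancel]

section spin

variable (p : Pr e f h A c V P Q) {μ : K} {s t : S} {σ ρ : ι → K} (qp : QT e f h c P μ s σ)
  (qq : QT e f h c Q μ t ρ) (hu : u ∈ Vl h c V 0) (hu' : u' ∈ Vl h c V 0)
  (us : u s = t) (ut : u t = 0) (us' : u' s = 0) (ut' : u' t = s)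
  (d : Ev e f h A c V u u' τ a b v m) (B : Le e f h v m l w)

include p qp qq hu hu' us ut us' ut' d B

/-- the third label is not the second special one -/
theorem l3b (hm : 3 ≤ m) : l 3 ≠ b := by
  intro hl
  have v1sq : v (-1) (v (-1) s) = 0 := by
    rw [p.sq (d.mem _), d.orth (by norm_num), zero_smul]
  have anti : ∀ {i j : ℤ}, i + j ≠ 0 → ∀ x : S, v i (v j x) = -(v j (v i x)) :=
    fun hij x => p.anti (d.mem _) (d.mem _) (d.orth hij) x
  have hfs : ∀ i, ∃ r : K, f i s = r • v (-1) t := by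
    intro i
    obtain ⟨r, hr⟩ := d.ulow' i
    exact ⟨r, by rw [p.f_s qp qq hu hu' us ut us' ut', hr, LinearMap.smul_apply]⟩
  have hft : ∀ i, ∃ r : K, f i t = r • v (-1) s := by
    intro i
    obtain ⟨r, hr⟩ := d.ulow i
    exact ⟨r, by rw [p.f_t qp qq hu hu' us ut us' ut', hr, LinearMap.smul_apply]⟩
  have hft0 : ∀ i, i ≠ b → f i t = 0 := by
    intro i hi
    rw [p.f_t qp qq hu hu' us ut us' ut', d.fu0 hi, LinearMap.zero_apply]
  have w1 : wd f (Submodule.span K {s}) 1 ≤ Submodule.span K {v (-1) t} := by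
    refine wd_succ_le fun i x hx => ?_
    obtain ⟨r, rfl⟩ := Submodule.mem_span_singleton.1 hx
    obtain ⟨r', hr'⟩ := hfs i
    rw [map_smul, hr']
    exact Submodule.smul_mem _ _ (Submodule.smul_mem _ _ (Submodule.mem_span_singleton_self _))
  have w2 : wd f (Submodule.span K {s}) 2 ≤ Submodule.span K {v (-2) t} := by
    refine wd_succ_le fun i x hx => ?_
    obtain ⟨r, rfl⟩ := Submodule.mem_span_singleton.1 (w1 hx)
    obtain ⟨r', hr'⟩ := hft i
    obtain ⟨r2, hr2⟩ := d.lower i (k := -1) (by norm_num)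
    have h1 : (-1 : ℤ) - 1 = -2 := by norm_num
    rw [h1] at hr2
    rw [map_smul, ad_app (f i), hr2, hr', map_smul, v1sq, smul_zero, add_zero,
      LinearMap.smul_apply]
    exact Submodule.smul_mem _ _ (Submodule.smul_mem _ _ (Submodule.mem_span_singleton_self _))
  have hfz : ∀ i, i ≠ b → f i (v (-2) t) = 0 := by
    intro i hi
    have h1 : ad (f i) (v (-2)) = 0 := by
      by_contra h0
      have h2 := (B.lf' 3 (by norm_num) hm i).1 (by
        have h7 : -((3 : ℤ) - 1) = -2 := by norm_num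
        rwa [h7])
      exact hi (by rw [h2, hl])
    rw [ad_app (f i), h1, hft0 i hi, map_zero, add_zero, LinearMap.zero_apply]
  have w3 : wd f (Submodule.span K {s}) 3 ≤ Submodule.span K {f b (v (-2) t)} := by
    refine wd_succ_le fun i x hx => ?_
    obtain ⟨r, rfl⟩ := Submodule.mem_span_singleton.1 (w2 hx)
    rw [map_smul]
    by_cases hi : i = b
    · rw [hi]
      exact Submodule.smul_mem _ _ (Submodule.mem_span_singleton_self _)
    · rw [hfz i hi, smul_zero]
      exact Submodule.zero_mem _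
  have h3 : v (-3) t ∈ lev h c μ ((3 : ℕ) : ℤ) := by
    have h4 := ad_lev (d.deg (-3)) qq.lev
    simpa using h4
  have h4 : v (-2) (v (-1) s) ∈ lev h c μ ((3 : ℕ) : ℤ) := by
    have h5 := ad_lev (d.deg (-2)) (ad_lev (d.deg (-1)) qp.lev)
    simpa using h5
  obtain ⟨α, hα⟩ := Submodule.mem_span_singleton.1
    (w3 (qp.wd 3 _ (p.vq _ (d.mem _) t qq.mem) h3))
  obtain ⟨β, hβ⟩ := Submodule.mem_span_singleton.1
    (w3 (qp.wd 3 _ (p.vq _ (d.mem _) _ (p.vp _ (d.mem _) s qp.mem)) h4))
  have h5 : β • v (-3) t = α • v (-2) (v (-1) s) := by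
    rw [← hα, ← hβ, smul_comm]
  -- apply `v 3`
  have h6 := congrArg (v 3) h5
  rw [map_smul, map_smul, anti (i := 3) (j := -2) (by norm_num),
    anti (i := 3) (j := -1) (by norm_num), p.pos qp qq (k := 3) (by norm_num) (d.vl 3), map_zero,
    neg_zero, map_zero, neg_zero, smul_zero] at h6
  have h7 := p.cl_apply (d.mem 3) (d.mem (-3)) t
  rw [p.swap.pos qq qp (k := 3) (by norm_num) (d.vl 3), map_zero, add_zero] at h7
  rw [h7, smul_smul] at h6
  have h8 : (2 * bf (v 3) (v (-3))) ≠ 0 :=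
    mul_ne_zero two_ne_zero (d.pair (k := 3) (by omega) hm (by norm_num))
  have h9 : β = 0 := by
    rcases smul_eq_zero.1 h6 with h10 | h10
    · exact (mul_eq_zero.1 h10).resolve_right h8
    · exact absurd h10 qq.ne
  rw [h9, zero_smul] at hβ
  have h10 := congrArg (v 1) hβ
  rw [map_zero, anti (i := 1) (j := -2) (by norm_num)] at h10
  have h11 := p.cl_apply (d.mem 1) (d.mem (-1)) s
  rw [p.pos qp qq (k := 1) one_pos (d.vl 1), map_zero, add_zero] at h11
  rw [h11, map_smul, eq_comm, neg_eq_zero] at h10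
  rcases smul_eq_zero.1 h10 with h12 | h12
  · exact mul_ne_zero two_ne_zero (d.pair (k := 1) (by omega) (by omega) one_ne_zero) h12
  · exact d.ne (-2) (by omega) (by omega) (by norm_num)
      (p.injk qp qq (k := 2) (by norm_num) (d.vl (-2)) h12)

end spin

/-- the first two labels do not come back, one half -/
theorem geo_aux (d : Ev e f h A c V u u' τ a b v m) (B : Le e f h v m l w) {k : ℤ} (hk : 4 ≤ k)
    (hkm : k ≤ m) (hka : l k = a) (hmin : ∀ j, 2 ≤ j → j < k → l j ≠ a ∧ l j ≠ b) : False := by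
  have t := ad_tri (d.chev.tri a)
  have hz : ∀ j : ℤ, 2 ≤ j → j ≤ k - 2 → w j a = 0 ∧ w j b = 0 := by
    intro j hj1 hj2
    have h1 := hmin (j + 1) (by omega) (by omega)
    have h2 := hmin j hj1 (by omega)
    exact ⟨Le.w_zero d B (d.ne j (by omega) (by omega) (by omega))
      (Le.e_zero d B (by omega) (by omega) h1.1.symm)
      (Le.f_zero d B hj1 (by omega) h2.1.symm),
      Le.w_zero d B (d.ne j (by omega) (by omega) (by omega))
      (Le.e_zero d B (by omega) (by omega) h1.2.symm)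
      (Le.f_zero d B hj1 (by omega) h2.2.symm)⟩
  have hstep : ∀ j, w (k - 1) j = w (k - 2) j + A (l (k - 1)) j := by
    intro j
    have h4 := Le.wstep d B (k := k - 1) (by omega) (by omega) j
    have h5 : k - 1 - 1 = k - 2 := by ring
    rwa [h5] at h4
  have hwa : w (k - 1) a = A (l (k - 1)) a := by
    rw [hstep, (hz (k - 2) (by omega) le_rfl).1, zero_add]
  have hwb : w (k - 1) b = A (l (k - 1)) b := by
    rw [hstep, (hz (k - 2) (by omega) le_rfl).2, zero_add]
  have hmk := hmin (k - 1) (by omega) (by omega)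
  have hfa : ad (f a) (v (k - 1)) = 0 := Le.f_zero d B (by omega) (by omega) hmk.1.symm
  have hfb : ad (f b) (v (k - 1)) = 0 := Le.f_zero d B (by omega) (by omega) hmk.2.symm
  have hea : ad (e a) (v (k - 1)) ≠ 0 := (B.le k (by omega) hkm a).2 hka.symm
  have hA : A (l (k - 1)) a ≠ 0 := by
    intro h0
    apply hea
    refine t.symm.zero ?_ hfa
    rw [LinearMap.neg_apply, B.wt, hwa, h0, zero_smul, neg_zero]
  have hA' : A a (l (k - 1)) ≠ 0 := fun h0 => hA (d.chev.zero _ _ h0)
  have hl2 : l 2 = l (k - 1) := by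
    by_contra hne
    apply hA'
    have h4 : w 1 (l (k - 1)) = 0 := by
      refine Le.w_zero d B (d.ne 1 (by omega) (by omega) one_ne_zero)
        (Le.e_zero d B le_rfl (by omega) ?_) (Le.f1 d B hmk.1 hmk.2)
      exact fun h5 => hne h5.symm
    have h5 := Le.w1 d B (l (k - 1))
    rw [h4, mul_zero] at h5
    obtain ⟨n, hn⟩ := Le.neg d B (i := a) (j := l (k - 1)) hmk.1.symm (x := u)
      ((d.eu a).2 rfl)
    obtain ⟨n', hn'⟩ := Le.neg d B (i := b) (j := l (k - 1)) hmk.2.symm (x := u')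
      ((d.eu' b).2 rfl)
    rw [hn, hn'] at h5
    have h6 : ((n + n' : ℕ) : K) = 0 := by
      push_cast
      linear_combination h5
    have h7 : n + n' = 0 := by exact_mod_cast h6
    have h8 : n = 0 := by omega
    rw [hn, h8, Nat.cast_zero, neg_zero]
  have hAb : A (l (k - 1)) b = -1 := by
    have h4 := Le.wstep d B (k := 2) le_rfl (by omega) b
    have h5 : (2 : ℤ) - 1 = 1 := by norm_num
    have h6 := Le.w1 d B b
    have h7 : A a b = 0 := d.chev.zero _ _ (Le.Aba d B)
    rw [h7, d.chev.diag] at h6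
    rw [(hz 2 le_rfl (by omega)).2, h5, hl2] at h4
    linear_combination -h4 - (1 / 2 : K) * h6
  have heb : ad (e b) (v (k - 1)) ≠ 0 := by
    intro h0
    have h1 := Le.w_zero d B (d.ne (k - 1) (by omega) (by omega) (by omega)) h0 hfb
    rw [hwb, hAb] at h1
    norm_num at h1
  have h1 := (B.le k (by omega) hkm b).1 heb
  exact d.hab (hka.symm.trans h1.symm)

/-- the first two labels do not come back -/
theorem geo2 (d : Ev e f h A c V u u' τ a b v m) (B : Le e f h v m l w)
    (h3 : 3 ≤ m → l 3 ≠ a ∧ l 3 ≠ b) : ∀ k, 2 ≤ k → k ≤ m → l k ≠ a ∧ l k ≠ b := by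
  classical
  by_contra hcon
  push Not at hcon
  have hex : ∃ n : ℕ, 2 ≤ (n : ℤ) ∧ (n : ℤ) ≤ m ∧ (l n = a ∨ l n = b) := by
    obtain ⟨k, h4, h5, h6⟩ := hcon
    obtain ⟨n, rfl⟩ := Int.eq_ofNat_of_zero_le (show 0 ≤ k by omega)
    refine ⟨n, h4, h5, ?_⟩
    by_cases h7 : l n = a
    · exact Or.inl h7
    · exact Or.inr (h6 h7)
  obtain ⟨hk2, hkm, hka⟩ := Nat.find_spec hex
  have hmin : ∀ j : ℤ, 2 ≤ j → j < (Nat.find hex : ℤ) → l j ≠ a ∧ l j ≠ b := by
    intro j hj1 hj2
    obtain ⟨n, rfl⟩ := Int.eq_ofNat_of_zero_le (show 0 ≤ j by omega)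
    constructor
    · intro hj3
      exact Nat.find_min hex (m := n) (by exact_mod_cast hj2) ⟨hj1, by omega, Or.inl hj3⟩
    · intro hj3
      exact Nat.find_min hex (m := n) (by exact_mod_cast hj2) ⟨hj1, by omega, Or.inr hj3⟩
  generalize ((Nat.find hex : ℕ) : ℤ) = k at hk2 hkm hka hmin
  have hk4 : 4 ≤ k := by
    have h4 : k ≠ 2 := by
      rintro rfl
      rcases hka with h5 | h5
      · exact Le.l2a d B hkm h5
      · exact Le.l2b d B hkm h5
    have h5 : k ≠ 3 := by
      rintro rfl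
      rcases hka with h5 | h5
      · exact (h3 hkm).1 h5
      · exact (h3 hkm).2 h5
    omega
  rcases hka with h5 | h5
  · exact geo_aux d B hk4 hkm h5 hmin
  · exact geo_aux d.swap2 B hk4 hkm h5 fun j h6 h7 => ⟨(hmin j h6 h7).2, (hmin j h6 h7).1⟩

end Pool.Agent.Q50.SR
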