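import Pool.Agent.Q50.SR.Evn6

/-!
# The even case: the generators generate everything
-/

set_option linter.unusedSectionVars false
set_option maxHeartbeats 4000000
set_option synthInstance.maxHeartbeats 400000

namespace Pool.Agent.Q50.SR

open Module

variable {K S ι : Type*} [Field K] [CharZero K] [IsAlgClosed K] [AddCommGroup S] [Module K S]
  [FiniteDimensional K S] [Fintype ι] [DecidableEq ι]
  {e f h : ι → Module.End K S} {A : ι → ι → K} {c : ι → K}
  {V : Submodule K (Module.End K S)} {P Q : Submodule K S} {u u' : Module.End K S} {τ : ι → K}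
  {a b : ι} {v : ℤ → Module.End K S} {m : ℤ} {l : ℤ → ι} {w : ℤ → ι → K}

theorem trace_Lam {x : Module.End K S} (hx : x ∈ Lam V) : LinearMap.trace K S x = 0 := by
  induction hx using Submodule.span_induction with
  | mem x hx =>
    obtain ⟨v, _, w, _, rfl⟩ := hx
    rw [map_sub, LinearMap.trace_mul_comm, sub_self]
  | zero => exact map_zero _
  | add x y _ _ hx hy => rw [map_add, hx, hy, add_zero]
  | smul a x _ hx => rw [map_smul, hx, smul_zero]

/-- an element which commutes with the vectors commutes with their commutators -/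
theorem comm_Lam {x : Module.End K S} (hc : ∀ u ∈ V, x * u = u * x) :
    ∀ y ∈ Lam V, x * y = y * x := by
  intro y hy
  induction hy using Submodule.span_induction with
  | mem y hy =>
    obtain ⟨v, hv, w, hw, rfl⟩ := hy
    rw [mul_sub, sub_mul, ← mul_assoc, ← mul_assoc, hc v hv, hc w hw, mul_assoc, mul_assoc,
      hc v hv, hc w hw, mul_assoc, mul_assoc]
  | zero => rw [mul_zero, zero_mul]
  | add y z _ _ hy hz => rw [mul_add, add_mul, hy, hz]
  | smul a y _ hy => rw [mul_smul_comm, smul_mul_assoc, hy]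

theorem Pr.central (p : Pr e f h A c V P Q) {x : Module.End K S} (hx : x ∈ Lam V)
    (hc : ∀ u ∈ V, x * u = u * x) : x = 0 := by
  have hc' := comm_Lam hc
  obtain ⟨s1, hs1, hs10⟩ := (Submodule.ne_bot_iff _).1 p.ne
  have : Nontrivial S := ⟨s1, 0, hs10⟩
  obtain ⟨ν, hν⟩ := Module.End.exists_eigenvalue x
  have hst : ∀ y : Module.End K S, x * y = y * x → ∀ s ∈ x.eigenspace ν,
      y s ∈ x.eigenspace ν := by
    intro y hy s hs
    rw [Module.End.mem_eigenspace_iff] at hs ⊢
    have h1 := congrArg (fun g : Module.End K S => g s) hy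
    simp only [Module.End.mul_apply] at h1
    rw [h1, hs, map_smul]
  obtain ⟨z, hz, hzz⟩ := p.exz
  have key : ∀ R T : Submodule K S, R ≠ ⊥ → R ⊓ T = ⊥ → (∀ v ∈ V, ∀ y ∈ R, v y ∈ T) →
      x.eigenspace ν ≠ R := by
    intro R T h1 h2 h3 h4
    apply h1
    rw [eq_bot_iff]
    intro s hs
    rw [Submodule.mem_bot]
    have h5 : z s ∈ R := by
      rw [← h4]
      exact hst z (hc z hz) s (by rw [h4]; exact hs)
    have h6 : z s ∈ R ⊓ T := ⟨h5, h3 z hz s hs⟩
    rw [h2, Submodule.mem_bot] at h6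
    have h7 := p.sq hz s
    rw [h6, map_zero] at h7
    exact (smul_eq_zero.1 h7.symm).resolve_left hzz
  have htop : x.eigenspace ν = ⊤ := by
    rcases p.hom (x.eigenspace ν) (fun i => hst _ (hc' _ (p.le i)))
      (fun i => hst _ (hc' _ (p.lf i))) with h1 | h1 | h1 | h1
    · exact absurd h1 hν
    · exact absurd h1 (key P Q p.ne p.inf p.vp)
    · exact absurd h1 (key Q P p.swap.ne p.swap.inf p.swap.vp)
    · exact h1
  have hxν : x = ν • 1 := by
    refine LinearMap.ext fun s => ?_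
    have h1 : s ∈ x.eigenspace ν := by rw [htop]; trivial
    rw [LinearMap.smul_apply, Module.End.one_apply]
    exact Module.End.mem_eigenspace_iff.1 h1
  have h1 := trace_Lam hx
  rw [hxν, map_smul, LinearMap.trace_one, smul_eq_mul] at h1
  rcases mul_eq_zero.1 h1 with h2 | h2
  · rw [hxν, h2, zero_smul]
  · have h3 : finrank K S = 0 := by exact_mod_cast h2
    have h4 : 0 < finrank K S := Module.finrank_pos
    omega

theorem comm_basis (d : Ev e f h A c V u u' τ a b v m) {x : Module.End K S}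
    (h1 : ad x u = 0) (h2 : ad x u' = 0) (hx : ∀ k, ad x (v k) = 0) :
    ∀ y ∈ V, x * y = y * x := by
  intro y hy
  obtain ⟨y0, hy0, z, hz, rfl⟩ := Submodule.mem_sup.1 (d.span hy)
  obtain ⟨y1, hy1, y2, hy2, rfl⟩ := Submodule.mem_sup.1 hy0
  obtain ⟨r, rfl⟩ := Submodule.mem_span_singleton.1 hy1
  obtain ⟨r', rfl⟩ := Submodule.mem_span_singleton.1 hy2
  have h3 : ad x z = 0 := by
    refine Submodule.iSup_induction (fun k => Submodule.span K {v k})
      (motive := fun z => ad x z = 0) hz ?_ (map_zero _) ?_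
    · intro j y hy
      obtain ⟨a, rfl⟩ := Submodule.mem_span_singleton.1 hy
      rw [map_smul, hx, smul_zero]
    · intro y z hy hz
      rw [map_add, hy, hz, add_zero]
  have h4 : ad x (r • u + r' • u' + z) = 0 := by
    rw [map_add, map_add, map_smul, map_smul, h1, h2, h3, smul_zero, smul_zero, add_zero, add_zero]
  exact sub_eq_zero.1 h4

variable (p : Pr e f h A c V P Q) (d : Ev e f h A c V u u' τ a b v m) (B : Le e f h v m l w)
  (hl : ∀ k, 2 ≤ k → k ≤ m → l k ≠ a ∧ l k ≠ b) {L : Submodule K (Module.End K S)}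

include p d B hl

/-- the first commutator -/
theorem first2 (he : ∀ i, e i ∈ L) : v 1 * u' - u' * v 1 ∈ L := by
  have hm := d.hm
  obtain ⟨α, hα⟩ := d.uup a
  have hα0 : α ≠ 0 := by
    rintro rfl
    exact (d.eu a).2 rfl (by rw [hα, zero_smul])
  -- the action on `v (-1)`
  have h0 : ad (e a) (v (-1)) ∈ V := d.cl.ad_mem (d.le a) (d.mem _)
  obtain ⟨r1, r2, hr⟩ := d.zro _ h0 (by
    have h1 := (mem_Vl.1 (e_Vl d.chev d.cl d.le a (d.vl (-1)))).2
    rw [neg_add_cancel, Int.cast_zero, mul_zero, zero_smul] at h1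
    exact h1)
  have hr2 : r2 * 2⁻¹ = -(α * bf (v 1) (v (-1))) := by
    have h1 := bf_ad (e a) (v (-1)) u
    rw [hr, hα, bf_comm, bf_add, bf_smul, bf_smul, bf_smul, d.buu, d.bu, bf_comm (v (-1))] at h1
    linear_combination h1
  have hr1 : r1 = 0 := by
    have h1 := bf_ad (e a) (v (-1)) u'
    rw [hr, d.eu0' d.hab, bf_zero, bf_comm, bf_add, bf_smul, bf_smul, d.buu', bf_comm u' u,
      d.bu] at h1
    have h2 : r1 * (2 : K)⁻¹ = 0 := by linear_combination h1
    exact (mul_eq_zero.1 h2).resolve_right (inv_ne_zero two_ne_zero)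
  set y := v 1 * u' - u' * v 1 with hy
  have hyL : y ∈ Lam V := Submodule.subset_span ⟨_, d.mem 1, _, d.mu', rfl⟩
  have hyad : ∀ x ∈ V, ad y x = (4 * bf u' x) • v 1 - (4 * bf (v 1) x) • u' :=
    fun x hx => d.cl.cm (d.mem 1) d.mu' hx
  have hbu' : bf u' u = 2⁻¹ := by rw [bf_comm]; exact d.bu
  have h2 : (2 : K) ≠ 0 := two_ne_zero
  have hrr : r2 = -(2 * α * bf (v 1) (v (-1))) := by
    field_simp at hr2
    linear_combination hr2
  have hk1 : ad (e a - (α * 2⁻¹) • y) u = 0 := by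
    rw [sub_eq_add_neg, ad_add, ad_neg, ad_smul, LinearMap.add_apply, LinearMap.neg_apply,
      LinearMap.smul_apply, hyad _ d.mu, hα, hbu', bf_comm (v 1) u, d.orthu, mul_zero, zero_smul,
      sub_zero, smul_smul, ← sub_eq_add_neg, ← sub_smul]
    have h3 : α - α * 2⁻¹ * (4 * 2⁻¹) = 0 := by
      field_simp
      ring
    rw [h3, zero_smul]
  have hk2 : ad (e a - (α * 2⁻¹) • y) u' = 0 := by
    rw [sub_eq_add_neg, ad_add, ad_neg, ad_smul, LinearMap.add_apply, LinearMap.neg_apply,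
      LinearMap.smul_apply, hyad _ d.mu', d.eu0' d.hab, d.buu', bf_comm (v 1) u', d.orthu',
      mul_zero, zero_smul, zero_smul, sub_zero, smul_zero, neg_zero, add_zero]
  have hk3 : ∀ k, ad (e a - (α * 2⁻¹) • y) (v k) = 0 := by
    intro k
    rw [sub_eq_add_neg, ad_add, ad_neg, ad_smul, LinearMap.add_apply, LinearMap.neg_apply,
      LinearMap.smul_apply, hyad _ (d.mem k), d.orthu']
    by_cases hk : k = -1
    · subst hk
      rw [hr, hr1, hrr, mul_zero, zero_smul, zero_smul, zero_add, zero_sub, smul_neg, neg_neg,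
        smul_smul, ← add_smul]
      have h3 : -(2 * α * bf (v 1) (v (-1))) + α * 2⁻¹ * (4 * bf (v 1) (v (-1))) = 0 := by
        field_simp
        ring
      rw [h3, zero_smul]
    · rw [d.orth (i := 1) (j := k) (by omega), mul_zero, zero_smul, zero_smul, sub_zero,
        smul_zero, neg_zero, add_zero]
      rcases (show k < -m ∨ (-m ≤ k ∧ k ≤ -2) ∨ k = 0 ∨ (1 ≤ k ∧ k < m) ∨ m ≤ k by omega) with
        h3 | ⟨h3, h4⟩ | h3 | ⟨h3, h4⟩ | h3
      · rw [d.zero k (Or.inl h3), map_zero]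
      · by_contra h0
        have h5 := (B.le' (-k) (by omega) (by omega) a).1 (by rwa [neg_neg])
        exact (hl (-k) (by omega) (by omega)).1 h5.symm
      · rw [h3, d.v0, map_zero]
      · exact Le.e_zero d B h3 h4 (hl (k + 1) (by omega) (by omega)).1.symm
      · exact Le.e_zero' d B h3 a
  have h4 := p.central (Submodule.sub_mem _ (d.le a) (Submodule.smul_mem _ (α * 2⁻¹) hyL))
    (comm_basis d hk1 hk2 hk3)
  have hα2 : α * 2⁻¹ ≠ 0 := mul_ne_zero hα0 (inv_ne_zero two_ne_zero)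
  have h5 : y = (α * 2⁻¹)⁻¹ • e a := by
    rw [sub_eq_zero.1 h4, smul_smul, inv_mul_cancel₀ hα2, one_smul]
  rw [h5]
  exact Submodule.smul_mem _ _ (he _)

/-- climbing -/
theorem climb2 (hL : ∀ x ∈ L, ∀ y ∈ L, x * y - y * x ∈ L) (he : ∀ i, e i ∈ L) (n : ℕ) :
    ((n : ℤ) + 1 ≤ m) → v (n + 1) * u' - u' * v (n + 1) ∈ L := by
  induction n with
  | zero =>
    intro hn
    have h1 : ((0 : ℕ) : ℤ) + 1 = 1 := by norm_num
    rw [h1] at hn ⊢
    exact first2 p d B hl he
  | succ n ih =>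
    intro hn
    push_cast at hn ⊢
    have h1 := ih (by omega)
    have hk := hl ((n : ℤ) + 1 + 1) (by omega) hn
    obtain ⟨r, hr⟩ := d.raise (l ((n : ℤ) + 1 + 1)) (k := (n : ℤ) + 1) (by omega)
    have hr0 : r ≠ 0 := by
      rintro rfl
      have h2 := (B.le ((n : ℤ) + 1 + 1) (by omega) hn (l ((n : ℤ) + 1 + 1))).2 rfl
      rw [add_sub_cancel_right] at h2
      exact h2 (by rw [hr, zero_smul])
    have h2 : ad (e (l ((n : ℤ) + 1 + 1))) u' = 0 := d.eu0' hk.2
    have h3 := hL _ (he (l ((n : ℤ) + 1 + 1))) _ h1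
    have h4 : e (l ((n : ℤ) + 1 + 1)) * (v (n + 1) * u' - u' * v (n + 1)) -
        (v (n + 1) * u' - u' * v (n + 1)) * e (l ((n : ℤ) + 1 + 1)) =
        r • (v (n + 1 + 1) * u' - u' * v (n + 1 + 1)) := by
      rw [← ad_apply, map_sub, ad_mul', ad_mul', hr, h2]
      simp only [mul_zero, zero_mul, add_zero, zero_add, smul_mul_assoc, mul_smul_comm, smul_sub]
    rw [h4] at h3
    have h5 := Submodule.smul_mem _ r⁻¹ h3
    rwa [smul_smul, inv_mul_cancel₀ hr0, one_smul] at h5

omit B hl in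
theorem bracket2 {x y z t : Module.End K S} (hx : x ∈ V) (hy : y ∈ V) (hz : z ∈ V) (ht : t ∈ V) :
    (x * y - y * x) * (z * t - t * z) - (z * t - t * z) * (x * y - y * x) =
      (4 * bf y z) • (x * t - t * x) - (4 * bf x z) • (y * t - t * y) +
      ((4 * bf y t) • (z * x - x * z) - (4 * bf x t) • (z * y - y * z)) := by
  rw [← ad_apply, map_sub, ad_mul', ad_mul', d.cl.cm hx hy hz, d.cl.cm hx hy ht]
  simp only [sub_mul, mul_sub, smul_mul_assoc, mul_smul_comm]
  module

/-- the commutators with the two vectors of degree zero -/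
theorem all_u' (hL : ∀ x ∈ L, ∀ y ∈ L, x * y - y * x ∈ L) (he : ∀ i, e i ∈ L)
    (hf : ∀ i, f i ∈ L) (k : ℤ) : v k * u' - u' * v k ∈ L := by
  have hm := d.hm
  rcases (show (k < -m ∨ m < k) ∨ k = 0 ∨ (1 ≤ k ∧ k ≤ m) ∨ (-m ≤ k ∧ k ≤ -1) by omega) with
    h1 | h1 | ⟨h1, h2⟩ | ⟨h1, h2⟩
  · rw [d.zero k h1, zero_mul, mul_zero, sub_zero]
    exact L.zero_mem
  · rw [h1, d.v0, zero_mul, mul_zero, sub_zero]
    exact L.zero_mem
  · obtain ⟨n, hn⟩ := Int.eq_ofNat_of_zero_le (show 0 ≤ k - 1 by omega)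
    have h3 := climb2 p d B hl hL he n (by omega)
    have h4 : (n : ℤ) + 1 = k := by omega
    rwa [h4] at h3
  · obtain ⟨n, hn⟩ := Int.eq_ofNat_of_zero_le (show 0 ≤ -k - 1 by omega)
    have p' : Pr f e (fun i => -h i) A c V P Q := ⟨p.chev.swap, p.cl, p.lf, p.le, p.vp, p.vq,
      p.inf, p.sup, fun U h1 h2 => p.hom U h2 h1, p.two⟩
    have h3 := climb2 p' d.swap2.swap1 B.swap (fun k hk1 hk2 => (hl k hk1 hk2).symm) hL hf n
      (by omega)
    have h4 : -((n : ℤ) + 1) = k := by omega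
    rwa [h4] at h3

theorem all2 (hL : ∀ x ∈ L, ∀ y ∈ L, x * y - y * x ∈ L) (he : ∀ i, e i ∈ L)
    (hf : ∀ i, f i ∈ L) : Lam V ≤ L := by
  have hm := d.hm
  have h1 := fun k => all_u' p d B hl hL he hf k
  have h2 := fun k => all_u' p d.swap2 B (fun k hk1 hk2 => (hl k hk1 hk2).symm) hL he hf k
  have hbu' : bf u' u = 2⁻¹ := by rw [bf_comm]; exact d.bu
  have hvu : ∀ k, bf (v k) u = 0 := fun k => by rw [bf_comm]; exact d.orthu k
  have hvu' : ∀ k, bf (v k) u' = 0 := fun k => by rw [bf_comm]; exact d.orthu' k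
  have h2K : (2 : K) ≠ 0 := two_ne_zero
  have h8K : (8 : K) ≠ 0 := by norm_num
  -- the commutator of the two vectors of degree zero
  have huu : u * u' - u' * u ∈ L := by
    have h3 := hL _ (h1 1) _ (h2 (-1))
    have h4 := hL _ (h2 1) _ (h1 (-1))
    rw [bracket2 p d (d.mem 1) d.mu' (d.mem (-1)) d.mu, d.orthu', hbu', hvu] at h3
    rw [bracket2 p d (d.mem 1) d.mu (d.mem (-1)) d.mu', d.orthu, d.bu, hvu'] at h4
    have h5 := L.sub_mem h3 h4
    have hβ : 8 * bf (v 1) (v (-1)) ≠ 0 := mul_ne_zero h8K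
      (d.pair (k := 1) (by omega) (by omega) one_ne_zero)
    have h6 := L.smul_mem (8 * bf (v 1) (v (-1)))⁻¹ h5
    have h7 : (8 * bf (v 1) (v (-1)))⁻¹ • ((4 * 0 : K) • (v 1 * u - u * v 1) -
        (4 * bf (v 1) (v (-1))) • (u' * u - u * u') +
        ((4 * 2⁻¹ : K) • (v (-1) * v 1 - v 1 * v (-1)) - (4 * 0 : K) • (v (-1) * u' - u' * v (-1))) -
        ((4 * 0 : K) • (v 1 * u' - u' * v 1) - (4 * bf (v 1) (v (-1))) • (u * u' - u' * u) +
        ((4 * 2⁻¹ : K) • (v (-1) * v 1 - v 1 * v (-1)) - (4 * 0 : K) • (v (-1) * u - u * v (-1))))) =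
        u * u' - u' * u := by
      have h9 : ((4 * 0 : K) • (v 1 * u - u * v 1) -
        (4 * bf (v 1) (v (-1))) • (u' * u - u * u') +
        ((4 * 2⁻¹ : K) • (v (-1) * v 1 - v 1 * v (-1)) - (4 * 0 : K) • (v (-1) * u' - u' * v (-1))) -
        ((4 * 0 : K) • (v 1 * u' - u' * v 1) - (4 * bf (v 1) (v (-1))) • (u * u' - u' * u) +
        ((4 * 2⁻¹ : K) • (v (-1) * v 1 - v 1 * v (-1)) - (4 * 0 : K) • (v (-1) * u - u * v (-1)))) :
          Module.End K S) = (8 * bf (v 1) (v (-1))) • (u * u' - u' * u) := by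
        module
      rw [h9, smul_smul, inv_mul_cancel₀ hβ, one_smul]
    rwa [h7] at h6
  have hvv : ∀ j k, v k * v j - v j * v k ∈ L := by
    intro j k
    have h3 := hL _ (h2 j) _ (h1 k)
    rw [bracket2 p d (d.mem j) d.mu (d.mem k) d.mu', d.orthu, d.bu, hvu'] at h3
    have h4 := L.smul_mem (2 : K)⁻¹ (L.add_mem h3 (L.smul_mem (4 * bf (v j) (v k)) huu))
    have h5 : (2 : K)⁻¹ • ((4 * 0 : K) • (v j * u' - u' * v j) - (4 * bf (v j) (v k)) •
        (u * u' - u' * u) + ((4 * 2⁻¹ : K) • (v k * v j - v j * v k) -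
        (4 * 0 : K) • (v k * u - u * v k)) + (4 * bf (v j) (v k)) • (u * u' - u' * u)) =
        v k * v j - v j * v k := by
      have h6 : (4 : K) * 2⁻¹ = 2 := by norm_num
      rw [h6]
      have h7 : ((4 * 0 : K) • (v j * u' - u' * v j) - (4 * bf (v j) (v k)) •
        (u * u' - u' * u) + ((2 : K) • (v k * v j - v j * v k) -
        (4 * 0 : K) • (v k * u - u * v k)) + (4 * bf (v j) (v k)) • (u * u' - u' * u) :
          Module.End K S) = (2 : K) • (v k * v j - v j * v k) := by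
        module
      rw [h7, smul_smul, inv_mul_cancel₀ h2K, one_smul]
    rwa [h5] at h4
  -- the conclusion
  have hG : V ≤ Submodule.span K ({u, u'} ∪ Set.range v) := by
    refine d.span.trans (sup_le (sup_le ?_ ?_) (iSup_le fun k => ?_))
    · rw [Submodule.span_singleton_le_iff_mem]
      exact Submodule.subset_span (by simp)
    · rw [Submodule.span_singleton_le_iff_mem]
      exact Submodule.subset_span (by simp)
    · rw [Submodule.span_singleton_le_iff_mem]
      exact Submodule.subset_span (Or.inr ⟨k, rfl⟩)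
  have hneg : ∀ x y : Module.End K S, x * y - y * x ∈ L → y * x - x * y ∈ L := by
    intro x y hxy
    have h3 := L.neg_mem hxy
    rwa [neg_sub] at h3
  have hGG : ∀ x ∈ ({u, u'} ∪ Set.range v : Set (Module.End K S)),
      ∀ y ∈ ({u, u'} ∪ Set.range v : Set (Module.End K S)), x * y - y * x ∈ L := by
    rintro x (hx | ⟨j, rfl⟩) y (hy | ⟨k, rfl⟩)
    · rcases hx with rfl | hx
      · rcases hy with rfl | hy
        · rw [sub_self]
          exact L.zero_mem
        · rw [Set.mem_singleton_iff.1 hy]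
          exact huu
      · rw [Set.mem_singleton_iff.1 hx]
        rcases hy with rfl | hy
        · exact hneg _ _ huu
        · rw [Set.mem_singleton_iff.1 hy, sub_self]
          exact L.zero_mem
    · rcases hx with rfl | hx
      · exact hneg _ _ (h2 k)
      · rw [Set.mem_singleton_iff.1 hx]
        exact hneg _ _ (h1 k)
    · rcases hy with rfl | hy
      · exact h2 j
      · rw [Set.mem_singleton_iff.1 hy]
        exact h1 j
    · exact hvv k j
  refine Submodule.span_le.2 ?_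
  rintro _ ⟨x, hx, y, hy, rfl⟩
  have hx' := hG hx
  have hy' := hG hy
  clear hx hy
  rw [SetLike.mem_coe]
  induction hx' using Submodule.span_induction with
  | mem x hx =>
    induction hy' using Submodule.span_induction with
    | mem y hy => exact hGG x hx y hy
    | zero =>
      rw [mul_zero, zero_mul, sub_zero]
      exact L.zero_mem
    | add y z _ _ hy hz =>
      have h3 : x * (y + z) - (y + z) * x = (x * y - y * x) + (x * z - z * x) := by
        rw [mul_add, add_mul]
        abel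
      rw [h3]
      exact L.add_mem hy hz
    | smul r y _ hy =>
      rw [mul_smul_comm, smul_mul_assoc, ← smul_sub]
      exact L.smul_mem _ hy
  | zero =>
    rw [mul_zero, zero_mul, sub_zero]
    exact L.zero_mem
  | add x z _ _ hx hz =>
    have h3 : (x + z) * y - y * (x + z) = (x * y - y * x) + (z * y - y * z) := by
      rw [mul_add, add_mul]
      abel
    rw [h3]
    exact L.add_mem hx hz
  | smul r x _ hx =>
    rw [mul_smul_comm, smul_mul_assoc, ← smul_sub]
    exact L.smul_mem _ hx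

omit d B hl in
/-- **Rigidity**, even case: the Chevalley generators of an algebra for which the two half spin
representations are irreducible and not isomorphic generate the orthogonal algebra. -/
theorem rigid2 (hlin : ∀ x : ι → K, (∀ j, ∑ i, x i * A i j = 0) → x = 0)
    (hL : ∀ x ∈ L, ∀ y ∈ L, x * y - y * x ∈ L) (he : ∀ i, e i ∈ L) (hf : ∀ i, f i ∈ L) :
    Lam V ≤ L := by
  obtain ⟨μ, s, σ, qp⟩ := p.qt
  obtain ⟨ν, t, ρ, qq⟩ := p.swap.qt
  have hμ := p.top_eq qp qq
  subst hμ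
  obtain ⟨u, hu, u', hu', us, ut, us', ut'⟩ := p.exists_pq qp qq
  obtain ⟨a, b, v, m, d⟩ := p.exists_ev qp qq hu hu' us ut us' ut' hlin
  obtain ⟨l, w, B⟩ := d.labels
  refine all2 p d B (geo2 d B fun hm => ⟨?_, ?_⟩) hL he hf
  · exact l3b p.swap qq qp hu' hu ut' us' ut us d.swap2 B hm
  · exact l3b p qp qq hu hu' us ut us' ut' d B hm

end Pool.Agent.Q50.SR
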