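import Pool.Agent.Q50.SR.Rgd

/-!
# Gamma matrices
-/

set_option linter.unusedSectionVars false
set_option maxHeartbeats 4000000
set_option synthInstance.maxHeartbeats 400000

namespace Pool.Agent.Q50.SR

open Module

section gam

variable {K S : Type*} [Field K] [CharZero K] [AddCommGroup S] [Module K S]
  [FiniteDimensional K S] {n : ℕ} {γ : Fin n → Module.End K S}

/-- the vector with the coordinates `a` -/
noncomputable def vec (γ : Fin n → Module.End K S) (a : Fin n → K) : Module.End K S :=
  ∑ i, a i • γ i

theorem vec_mul (hγ : ∀ i j, γ i * γ j + γ j * γ i = (if i = j then (2 : K) else 0) • 1)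
    (a b : Fin n → K) : vec γ a * vec γ b + vec γ b * vec γ a = (2 * ∑ i, a i * b i) • 1 := by
  have h1 : vec γ a * vec γ b + vec γ b * vec γ a =
      ∑ i, ∑ j, (a i * b j) • (γ i * γ j + γ j * γ i) := by
    unfold vec
    rw [Finset.sum_mul_sum, Finset.sum_mul_sum, Finset.sum_comm (f := fun i j =>
      b i • γ i * a j • γ j), ← Finset.sum_add_distrib]
    refine Finset.sum_congr rfl fun i _ => ?_
    rw [← Finset.sum_add_distrib]
    refine Finset.sum_congr rfl fun j _ => ?_
    simp only [smul_mul_assoc, mul_smul_comm, smul_add]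
    module
  rw [h1, Finset.mul_sum, Finset.sum_smul]
  refine Finset.sum_congr rfl fun i _ => ?_
  rw [Finset.sum_eq_single i]
  · rw [hγ, if_pos rfl, smul_smul]
    congr 1
    ring
  · intro j _ hj
    rw [hγ, if_neg (Ne.symm hj), zero_smul, smul_zero]
  · intro h
    exact absurd (Finset.mem_univ _) h

theorem bf_vec [Nontrivial S]
    (hγ : ∀ i j, γ i * γ j + γ j * γ i = (if i = j then (2 : K) else 0) • 1)
    (a b : Fin n → K) : bf (vec γ a) (vec γ b) = ∑ i, a i * b i := by
  have h1 := congrArg (LinearMap.trace K S) (vec_mul hγ a b)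
  rw [map_add, LinearMap.trace_mul_comm K (vec γ b), map_smul, LinearMap.trace_one,
    smul_eq_mul] at h1
  have h2 : (finrank K S : K) ≠ 0 := by
    have h4 : 0 < finrank K S := Module.finrank_pos
    exact_mod_cast h4.ne'
  unfold bf
  have h3 : LinearMap.trace K S (vec γ a * vec γ b) = (∑ i, a i * b i) * finrank K S := by
    have h4 : (2 : K) * LinearMap.trace K S (vec γ a * vec γ b) =
        2 * ((∑ i, a i * b i) * finrank K S) := by linear_combination h1
    exact mul_left_cancel₀ two_ne_zero h4
  rw [h3]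
  field_simp

theorem mem_vec {v : Module.End K S} (hv : v ∈ Submodule.span K (Set.range γ)) :
    ∃ a, v = vec γ a := by
  obtain ⟨a, ha⟩ := (Submodule.mem_span_range_iff_exists_fun K).1 hv
  exact ⟨a, ha.symm⟩

theorem vec_mem (a : Fin n → K) : vec γ a ∈ Submodule.span K (Set.range γ) :=
  Submodule.sum_mem _ fun i _ => Submodule.smul_mem _ _ (Submodule.subset_span ⟨i, rfl⟩)

theorem vec_single (i : Fin n) : vec γ (Pi.single i 1) = γ i := by
  unfold vec
  rw [Finset.sum_eq_single i]
  · rw [Pi.single_eq_same, one_smul]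
  · intro j _ hj
    rw [Pi.single_eq_of_ne hj, zero_smul]
  · intro h
    exact absurd (Finset.mem_univ _) h

theorem cl_vec [Nontrivial S]
    (hγ : ∀ i j, γ i * γ j + γ j * γ i = (if i = j then (2 : K) else 0) • 1) :
    Cl (Submodule.span K (Set.range γ)) := by
  refine ⟨?_, ?_⟩
  · intro v hv w hw
    obtain ⟨a, rfl⟩ := mem_vec hv
    obtain ⟨b, rfl⟩ := mem_vec hw
    rw [vec_mul hγ, bf_vec hγ]
  · intro v hv h
    obtain ⟨a, rfl⟩ := mem_vec hv
    have h1 : a = 0 := by
      funext i
      have h2 := h (vec γ (Pi.single i 1)) (vec_mem _)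
      rw [bf_vec hγ, Finset.sum_eq_single i] at h2
      · rwa [Pi.single_eq_same, mul_one] at h2
      · intro j _ hj
        rw [Pi.single_eq_of_ne hj, mul_zero]
      · intro h
        exact absurd (Finset.mem_univ _) h
    rw [h1]
    unfold vec
    exact Finset.sum_eq_zero fun i _ => zero_smul _ _

theorem finrank_vec [Nontrivial S]
    (hγ : ∀ i j, γ i * γ j + γ j * γ i = (if i = j then (2 : K) else 0) • 1) :
    finrank K (Submodule.span K (Set.range γ)) = n := by
  rw [finrank_span_eq_card, Fintype.card_fin]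
  rw [Fintype.linearIndependent_iff]
  intro a ha i
  have h1 : vec γ a = 0 := ha
  have h2 := bf_vec hγ a (Pi.single i 1)
  rw [h1, bf_zero', Finset.sum_eq_single i] at h2
  · rwa [Pi.single_eq_same, mul_one, eq_comm] at h2
  · intro j _ hj
    rw [Pi.single_eq_of_ne hj, mul_zero]
  · intro h
    exact absurd (Finset.mem_univ _) h

end gam

section mat

variable {K : Type*} [Field K] [CharZero K] [IsAlgClosed K] {n N : ℕ}
  {γ : Fin n → Matrix (Fin N) (Fin N) K}

/-- **Rigidity** for matrices -/
theorem rig_mat (hN : N ≠ 0) (hodd : Odd n) (h5 : n ≠ 5)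
    (hγ : ∀ i j, γ i * γ j + γ j * γ i = (if i = j then (2 : K) else 0) • 1)
    {L : Submodule K (Matrix (Fin N) (Fin N) K)}
    (hL : ∀ x ∈ L, ∀ y ∈ L, x * y - y * x ∈ L)
    (hLV : ∀ x ∈ L, x ∈ Submodule.span K {y | ∃ i j, y = γ i * γ j - γ j * γ i})
    (hgen : Algebra.adjoin K (L : Set (Matrix (Fin N) (Fin N) K)) = ⊤) (i j : Fin n) :
    γ i * γ j - γ j * γ i ∈ L := by
  let τ : Matrix (Fin N) (Fin N) K ≃ₐ[K] Module.End K (Fin N → K) := Matrix.toLinAlgEquiv'
  have : NeZero N := ⟨hN⟩
  have hnt : Nontrivial (Fin N → K) := inferInstance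
  let g : Fin n → Module.End K (Fin N → K) := fun i => τ (γ i)
  have hg : ∀ i j, g i * g j + g j * g i = (if i = j then (2 : K) else 0) • 1 := by
    intro i j
    have h1 := congrArg τ (hγ i j)
    rw [map_add, map_mul, map_mul, map_smul, map_one] at h1
    exact h1
  let L' : Submodule K (Module.End K (Fin N → K)) := L.map τ.toLinearMap
  have hmem : ∀ x, x ∈ L → τ x ∈ L' := fun x hx => ⟨x, hx, rfl⟩
  have h1 : Lam (Submodule.span K (Set.range g)) ≤ L' := by
    refine rigidity (cl_vec hg) (by rwa [finrank_vec hg]) (by rwa [finrank_vec hg]) ?_ ?_ ?_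
    · rintro _ ⟨x, hx, rfl⟩ _ ⟨y, hy, rfl⟩
      refine ⟨x * y - y * x, hL x hx y hy, ?_⟩
      change τ (x * y - y * x) = τ x * τ y - τ y * τ x
      rw [map_sub, map_mul, map_mul]
    · rintro _ ⟨x, hx, rfl⟩
      have h2 := hLV x hx
      change τ x ∈ _
      clear hx
      induction h2 using Submodule.span_induction with
      | mem x hx =>
        obtain ⟨i, j, rfl⟩ := hx
        rw [map_sub, map_mul, map_mul]
        exact Submodule.subset_span ⟨g i, Submodule.subset_span ⟨i, rfl⟩, g j,
          Submodule.subset_span ⟨j, rfl⟩, rfl⟩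
      | zero =>
        rw [map_zero]
        exact Submodule.zero_mem _
      | add x y _ _ hx hy =>
        rw [map_add]
        exact Submodule.add_mem _ hx hy
      | smul a x _ hx =>
        rw [map_smul]
        exact Submodule.smul_mem _ _ hx
    · intro U hU
      have h2 : ∀ x : Matrix (Fin N) (Fin N) K, ∀ s ∈ U, τ x s ∈ U := by
        intro x
        have h3 : x ∈ Algebra.adjoin K (L : Set (Matrix (Fin N) (Fin N) K)) := by
          rw [hgen]
          trivial
        induction h3 using Algebra.adjoin_induction with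
        | mem x hx => exact hU _ (hmem x hx)
        | algebraMap r =>
          intro s hs
          rw [AlgEquiv.commutes, Module.algebraMap_end_apply]
          exact U.smul_mem _ hs
        | add x y _ _ hx hy =>
          intro s hs
          rw [map_add, LinearMap.add_apply]
          exact U.add_mem (hx s hs) (hy s hs)
        | mul x y _ _ hx hy =>
          intro s hs
          rw [map_mul, Module.End.mul_apply]
          exact hx _ (hy s hs)
      by_cases hU0 : U = ⊥
      · exact Or.inl hU0
      · right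
        obtain ⟨s, hs, hs0⟩ := (Submodule.ne_bot_iff _).1 hU0
        rw [eq_top_iff]
        intro t _
        obtain ⟨φ, hφ⟩ : ∃ φ : Module.End K (Fin N → K), φ s = t := by
          obtain ⟨i, hi⟩ : ∃ i, s i ≠ 0 := by
            by_contra hcon
            push Not at hcon
            exact hs0 (funext hcon)
          refine ⟨(s i)⁻¹ • (LinearMap.proj i).smulRight t, ?_⟩
          rw [LinearMap.smul_apply, LinearMap.smulRight_apply, LinearMap.proj_apply, smul_smul,
            inv_mul_cancel₀ hi, one_smul]
        have h3 := h2 (τ.symm φ) s hs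
        rw [AlgEquiv.apply_symm_apply, hφ] at h3
        exact h3
  obtain ⟨x, hx, hx'⟩ := h1 (Submodule.subset_span ⟨g i, Submodule.subset_span ⟨i, rfl⟩, g j,
    Submodule.subset_span ⟨j, rfl⟩, rfl⟩)
  have h2 : τ x = τ (γ i * γ j - γ j * γ i) := by
    rw [map_sub, map_mul, map_mul]
    exact hx'
  rwa [← τ.injective h2]

end mat

end Pool.Agent.Q50.SR
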