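import Pool.Agent.Q50.SR.Evn7
import Pool.Agent.Q50.SR.Gen2
import Pool.Agent.Q50.SR.Mat

/-!
# Rigidity of the irreducible representations of the Clifford algebras, both parities
-/

set_option linter.unusedSectionVars false
set_option maxHeartbeats 4000000
set_option synthInstance.maxHeartbeats 400000

namespace Pool.Agent.Q50.SR

open Module

section rad

open LieAlgebra LieModule LieSubmodule

/-- the radical acts by scalars on an irreducible module -/
theorem rad_scalar (k L M : Type*) [Field k] [CharZero k]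
    [LieRing L] [LieAlgebra k L] [Module.Finite k L]
    [AddCommGroup M] [Module k M] [LieRingModule L M] [LieModule k L M] [Module.Finite k M]
    [IsIrreducible k L M] [IsTriangularizable k L M] :
    ∃ χ : Module.Dual k (radical k L), ∀ (x : L) (hx : x ∈ radical k L),
      toEnd k _ M x = χ ⟨x, hx⟩ • LinearMap.id := by
  have _i := nontrivial_of_isIrreducible k L M
  obtain ⟨χ, hχ⟩ : ∃ χ : Module.Dual k (radical k L), Nontrivial (weightSpace M χ) :=
    exists_nontrivial_weightSpace_of_isSolvable k (radical k L) M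
  let N : LieSubmodule k L M := weightSpaceOfIsLieTower k M χ
  replace hχ : Nontrivial N := hχ
  replace hχ : N = ⊤ := N.eq_top_of_isIrreducible k L M
  refine ⟨χ, fun x hx => ?_⟩
  ext m
  have hm : ∀ (y : L) (hy : y ∈ radical k L), ⁅y, m⁆ = χ ⟨y, hy⟩ • m := by
    simpa [N, weightSpaceOfIsLieTower, mem_weightSpace] using (hχ ▸ mem_top _ : m ∈ N)
  simpa using hm x hx

end rad

/-- a vector is determined by its restriction to one half -/
theorem half_inj {K S : Type*} [Field K] [CharZero K] [AddCommGroup S] [Module K S]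
    {V : Submodule K (Module.End K S)} {P Q : Submodule K S} (hV : Cl V)
    (vq : ∀ v ∈ V, ∀ x ∈ Q, v x ∈ P) (sup : P ⊔ Q = ⊤) (hP : P ≠ ⊥)
    (two : ∀ x w : Module.End K S, ¬ V ≤ Submodule.span K {x, w}) {x : Module.End K S}
    (hx : x ∈ V) (h0 : ∀ s ∈ P, x s = 0) : x = 0 := by
  have sq : ∀ z ∈ V, ∀ s : S, z (z s) = bf z z • s := by
    intro z hz s
    have h1 := congrArg (fun g : Module.End K S => g s) (hV.cl z hz z hz)
    simp only [LinearMap.add_apply, Module.End.mul_apply, LinearMap.smul_apply,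
      Module.End.one_apply] at h1
    rw [← two_smul K, ← smul_smul] at h1
    exact smul_right_injective S (two_ne_zero (α := K)) h1
  by_contra hne
  obtain ⟨s0, hs0, hs0'⟩ := (Submodule.ne_bot_iff _).1 hP
  have hxx : bf x x = 0 := by
    have h1 := sq x hx s0
    rw [h0 s0 hs0, map_zero] at h1
    exact (smul_eq_zero.1 h1.symm).resolve_right hs0'
  have hiso : ∀ z ∈ V, bf x z = 0 → bf z z = 0 := by
    intro z hz hxz
    by_contra hzz
    apply hne
    have h2 : ∀ s ∈ Q, x s = 0 := by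
      intro s hs
      have h1 : s = (bf z z)⁻¹ • z (z s) := by
        rw [sq z hz, smul_smul, inv_mul_cancel₀ hzz, one_smul]
      have h3 := congrArg (fun g : Module.End K S => g (z s)) (hV.anti hx hz hxz)
      simp only [Module.End.mul_apply, LinearMap.neg_apply] at h3
      rw [h1, map_smul, h3, h0 _ (vq z hz s hs), map_zero, neg_zero, smul_zero]
    refine LinearMap.ext fun s => ?_
    have h3 : s ∈ P ⊔ Q := by
      rw [sup]
      trivial
    obtain ⟨a, ha, b, hb, rfl⟩ := Submodule.mem_sup.1 h3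
    rw [map_add, h0 a ha, h2 b hb, add_zero, LinearMap.zero_apply]
  obtain ⟨w, hw, hxw⟩ : ∃ w ∈ V, bf x w ≠ 0 := by
    by_contra hcon
    push Not at hcon
    exact hne (hV.nd x hx hcon)
  apply two x w
  intro v hv
  set v1 := v - (bf x v * (bf x w)⁻¹) • w with hv1
  set u := v1 - (bf w v1 * (bf x w)⁻¹) • x with hu
  have hsub : ∀ a y z : Module.End K S, ∀ r : K, bf a (y - r • z) = bf a y - r * bf a z := by
    intro a y z r
    rw [sub_eq_add_neg, ← neg_smul, bf_add, bf_smul]
    ring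
  have hv1V : v1 ∈ V := V.sub_mem hv (V.smul_mem _ hw)
  have huV : u ∈ V := V.sub_mem hv1V (V.smul_mem _ hx)
  have hxv1 : bf x v1 = 0 := by
    rw [hv1, hsub, mul_assoc, inv_mul_cancel₀ hxw, mul_one, sub_self]
  have hxu : bf x u = 0 := by
    rw [hu, hsub, hxv1, hxx, mul_zero, sub_zero]
  have hwu : bf w u = 0 := by
    rw [hu, hsub, bf_comm w x, mul_assoc, inv_mul_cancel₀ hxw, mul_one, sub_self]
  have hu0 : u = 0 := by
    refine hV.nd u huV fun y hy => ?_
    set y1 := y - (bf x y * (bf x w)⁻¹) • w with hy1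
    have hy1V : y1 ∈ V := V.sub_mem hy (V.smul_mem _ hw)
    have hxy1 : bf x y1 = 0 := by
      rw [hy1, hsub, mul_assoc, inv_mul_cancel₀ hxw, mul_one, sub_self]
    have h1 := hiso (u + y1) (V.add_mem huV hy1V) (by rw [bf_add, hxu, hxy1, add_zero])
    rw [bf_add, bf_comm (u + y1), bf_comm (u + y1), bf_add, bf_add, hiso u huV hxu,
      hiso y1 hy1V hxy1, bf_comm y1 u] at h1
    have h2 : bf u y1 = bf u y := by
      rw [hy1, hsub, bf_comm u w, hwu, mul_zero, sub_zero]
    rw [h2] at h1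
    have h3 : (2 : K) * bf u y = 0 := by linear_combination h1
    exact (mul_eq_zero.1 h3).resolve_left two_ne_zero
  have h1 : v = (bf w v1 * (bf x w)⁻¹) • x + (bf x v * (bf x w)⁻¹) • w := by
    have h2 := sub_eq_zero.1 hu0
    rw [← h2, hv1]
    abel
  rw [h1]
  exact Submodule.mem_span_pair.2 ⟨_, _, rfl⟩

section clif

variable {K T : Type*} [Field K] [CharZero K] [IsAlgClosed K] [AddCommGroup T] [Module K T]
  [FiniteDimensional K T] [Nontrivial T] {n : ℕ} {γ : Fin n → Module.End K T}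

/-- the product of a list of gamma matrices -/
noncomputable def gp (γ : Fin n → Module.End K T) (l : List (Fin n)) : Module.End K T :=
  (l.map γ).prod

theorem gp_cons (a : Fin n) (l : List (Fin n)) : gp γ (a :: l) = γ a * gp γ l := by
  unfold gp
  rw [List.map_cons, List.prod_cons]

theorem gp_nil : gp γ [] = 1 := rfl

variable (hγ : ∀ i j, γ i * γ j + γ j * γ i = (if i = j then (2 : K) else 0) • 1)

include hγ

theorem gam_sq (i : Fin n) : γ i * γ i = 1 := by
  have h1 := hγ i i
  rw [if_pos rfl, ← two_smul K] at h1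
  exact smul_right_injective _ (two_ne_zero (α := K)) h1

theorem gam_anti {i j : Fin n} (hij : i ≠ j) : γ i * γ j = -(γ j * γ i) := by
  have h1 := hγ i j
  rw [if_neg hij, zero_smul] at h1
  exact eq_neg_of_add_eq_zero_left h1

theorem gp_comm {l : List (Fin n)} (hl : l.Nodup) (j : Fin n) :
    γ j * gp γ l = ((-1 : K) ^ l.length * (if j ∈ l then -1 else 1)) • (gp γ l * γ j) := by
  induction l with
  | nil =>
    rw [gp_nil, List.length_nil, if_neg List.not_mem_nil, pow_zero, mul_one, mul_one, one_smul,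
      one_mul]
  | cons a l ih =>
    have h1 := ih hl.of_cons
    have ha : a ∉ l := (List.nodup_cons.1 hl).1
    rw [gp_cons, List.length_cons]
    by_cases hj : j = a
    · subst hj
      rw [if_neg ha, mul_one] at h1
      conv_lhs => rw [h1]
      rw [if_pos List.mem_cons_self, mul_smul_comm, ← mul_assoc]
      congr 1
      ring
    · have h2 : (j ∈ a :: l) = (j ∈ l) := by
        rw [List.mem_cons]
        simp [hj]
      rw [← mul_assoc, gam_anti hγ hj, neg_mul, mul_assoc, h1, mul_smul_comm, ← mul_assoc,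
        pow_succ]
      simp only [h2]
      rw [← neg_smul]
      congr 1
      ring

theorem gp_unit (l : List (Fin n)) : IsUnit (gp γ l) := by
  induction l with
  | nil => exact isUnit_one
  | cons a l ih =>
    rw [gp_cons]
    exact IsUnit.mul (⟨⟨γ a, γ a, gam_sq hγ a, gam_sq hγ a⟩, rfl⟩ : IsUnit (γ a)) ih

theorem gam_Lam (i j : Fin n) : ∃ r : K, ∃ x ∈ Lam (Submodule.span K (Set.range γ)),
    γ i * γ j = x + r • 1 := by
  by_cases hij : i = j
  · subst hij
    exact ⟨1, 0, Submodule.zero_mem _, by rw [gam_sq hγ, zero_add, one_smul]⟩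
  · refine ⟨0, (2 : K)⁻¹ • (γ i * γ j - γ j * γ i), Submodule.smul_mem _ _
      (Submodule.subset_span ⟨γ i, Submodule.subset_span ⟨i, rfl⟩, γ j,
        Submodule.subset_span ⟨j, rfl⟩, rfl⟩), ?_⟩
    rw [zero_smul, add_zero, eq_comm, gam_anti hγ (Ne.symm hij), sub_neg_eq_add, ← two_smul K,
      smul_smul, inv_mul_cancel₀ two_ne_zero, one_smul]

/-- the stable subspaces are stable under the products of two gamma matrices -/
theorem stab2 {U : Submodule K T}
    (hU : ∀ x ∈ Lam (Submodule.span K (Set.range γ)), ∀ s ∈ U, x s ∈ U) (i j : Fin n) :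
    ∀ s ∈ U, γ i (γ j s) ∈ U := by
  intro s hs
  obtain ⟨r, x, hx, h1⟩ := gam_Lam hγ i j
  have h2 := congrArg (fun g : Module.End K T => g s) h1
  simp only [Module.End.mul_apply, LinearMap.add_apply, LinearMap.smul_apply,
    Module.End.one_apply] at h2
  rw [h2]
  exact U.add_mem (hU x hx s hs) (U.smul_mem _ hs)

theorem gp_stab {U : Submodule K T}
    (hU : ∀ x ∈ Lam (Submodule.span K (Set.range γ)), ∀ s ∈ U, x s ∈ U) (l : List (Fin n)) :
    (Even l.length → ∀ s ∈ U, gp γ l s ∈ U) ∧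
      (Odd l.length → ∀ i, ∀ s ∈ U, γ i (gp γ l s) ∈ U) := by
  induction l with
  | nil =>
    refine ⟨fun _ s hs => hs, fun h => ?_⟩
    rw [List.length_nil] at h
    exact absurd h (by decide)
  | cons a l ih =>
    rw [gp_cons, List.length_cons]
    constructor
    · intro h s hs
      rw [Nat.even_add_one, Nat.not_even_iff_odd] at h
      rw [Module.End.mul_apply]
      exact ih.2 h a s hs
    · intro h i s hs
      rw [Nat.odd_add_one, Nat.not_odd_iff_even] at h
      rw [Module.End.mul_apply]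
      exact stab2 hγ hU i a _ (ih.1 h s hs)

omit hγ in
theorem schur (hirr : ∀ U : Submodule K T, (∀ i, ∀ s ∈ U, γ i s ∈ U) → U = ⊥ ∨ U = ⊤)
    {x : Module.End K T} (hx : ∀ i, x * γ i = γ i * x) : ∃ ν : K, x = ν • 1 := by
  obtain ⟨ν, hν⟩ := Module.End.exists_eigenvalue x
  refine ⟨ν, ?_⟩
  have htop : x.eigenspace ν = ⊤ := by
    rcases hirr (x.eigenspace ν) (fun i s hs => by
      rw [Module.End.mem_eigenspace_iff] at hs ⊢
      have h1 := congrArg (fun g : Module.End K T => g s) (hx i)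
      simp only [Module.End.mul_apply] at h1
      rw [h1, hs, map_smul]) with h1 | h1
    · exact absurd h1 hν
    · exact h1
  refine LinearMap.ext fun s => ?_
  have h1 : s ∈ x.eigenspace ν := by rw [htop]; trivial
  rw [LinearMap.smul_apply, Module.End.one_apply]
  exact Module.End.mem_eigenspace_iff.1 h1

variable (hirr : ∀ U : Submodule K T, (∀ i, ∀ s ∈ U, γ i s ∈ U) → U = ⊥ ∨ U = ⊤)

include hirr

/-- the stable subspaces: three cases -/
theorem tri_stab {U : Submodule K T}
    (hU : ∀ x ∈ Lam (Submodule.span K (Set.range γ)), ∀ s ∈ U, x s ∈ U) (k : Fin n) :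
    U = ⊥ ∨ U = ⊤ ∨ (U ⊓ U.map (γ k) = ⊥ ∧ U ⊔ U.map (γ k) = ⊤) := by
  have h1 : ∀ i, ∀ s ∈ U, γ i s ∈ U.map (γ k) := by
    intro i s hs
    refine ⟨γ k (γ i s), stab2 hγ hU k i s hs, ?_⟩
    have h2 := congrArg (fun g : Module.End K T => g (γ i s)) (gam_sq hγ k)
    exact h2
  have h2 : ∀ i, ∀ s ∈ U.map (γ k), γ i s ∈ U := by
    rintro i _ ⟨s, hs, rfl⟩
    exact stab2 hγ hU i k s hs
  rcases hirr (U ⊓ U.map (γ k)) (fun i s hs => ⟨h2 i s hs.2, h1 i s hs.1⟩) with h3 | h3
  · rcases hirr (U ⊔ U.map (γ k)) (fun i s hs => by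
      obtain ⟨x, hx, y, hy, rfl⟩ := Submodule.mem_sup.1 hs
      rw [map_add, add_comm]
      exact Submodule.add_mem_sup (h2 i y hy) (h1 i x hx)) with h4 | h4
    · left
      rw [eq_bot_iff, ← h4]
      exact le_sup_left
    · exact Or.inr (Or.inr ⟨h3, h4⟩)
  · right
    left
    rw [eq_top_iff, ← h3]
    exact inf_le_left

/-- in the odd case the stable subspaces are trivial -/
theorem odd_irr (hodd : Odd n) {U : Submodule K T}
    (hU : ∀ x ∈ Lam (Submodule.span K (Set.range γ)), ∀ s ∈ U, x s ∈ U) : U = ⊥ ∨ U = ⊤ := by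
  have hn : 0 < n := hodd.pos
  have hl : (List.finRange n).length = n := List.length_finRange
  rcases tri_stab hγ hirr hU ⟨0, hn⟩ with h1 | h1 | ⟨h1, h2⟩
  · exact Or.inl h1
  · exact Or.inr h1
  · left
    obtain ⟨ν, hν⟩ := schur hirr (x := gp γ (List.finRange n)) (fun i => by
      have h3 := gp_comm hγ (List.nodup_finRange n) i
      rw [hl, if_pos (List.mem_finRange i), hodd.neg_one_pow, neg_one_mul, neg_neg, one_smul] at h3
      exact h3.symm)
    have hν0 : ν ≠ 0 := by
      rintro rfl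
      have h3 := gp_unit hγ (List.finRange n)
      rw [hν, zero_smul] at h3
      exact not_isUnit_zero h3
    have h3 : ∀ s ∈ U, s ∈ U.map (γ ⟨0, hn⟩) := by
      intro s hs
      have h4 := (gp_stab hγ hU (List.finRange n)).2 (by rwa [hl]) ⟨0, hn⟩ s hs
      rw [hν, LinearMap.smul_apply, Module.End.one_apply, map_smul] at h4
      have h5 := U.smul_mem ν⁻¹ h4
      rw [smul_smul, inv_mul_cancel₀ hν0, one_smul] at h5
      refine ⟨_, h5, ?_⟩
      exact congrArg (fun g : Module.End K T => g s) (gam_sq hγ ⟨0, hn⟩)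
    rw [eq_bot_iff, ← h1]
    exact fun s hs => ⟨hs, h3 s hs⟩

/-- in the even case there are two half spin representations -/
theorem even_halves (heven : Even n) (hn : 0 < n) : ∃ P Q : Submodule K T, P ⊓ Q = ⊥ ∧ P ⊔ Q = ⊤ ∧
    (∀ i, ∀ s ∈ P, γ i s ∈ Q) ∧ (∀ i, ∀ s ∈ Q, γ i s ∈ P) ∧
    ∀ U : Submodule K T, (∀ x ∈ Lam (Submodule.span K (Set.range γ)), ∀ s ∈ U, x s ∈ U) →
      U = ⊥ ∨ U = P ∨ U = Q ∨ U = ⊤ := by
  have hl : (List.finRange n).length = n := List.length_finRange
  set ω := gp γ (List.finRange n) with hω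
  have hanti : ∀ i, γ i * ω = -(ω * γ i) := by
    intro i
    have h3 := gp_comm hγ (List.nodup_finRange n) i
    rw [hl, if_pos (List.mem_finRange i), heven.neg_one_pow, one_mul, neg_smul, one_smul] at h3
    exact h3
  have hanti' : ∀ i s, ω (γ i s) = -(γ i (ω s)) := by
    intro i s
    have h1 := congrArg (fun g : Module.End K T => g s) (hanti i)
    simp only [Module.End.mul_apply, LinearMap.neg_apply] at h1
    rw [h1, neg_neg]
  obtain ⟨r, hr⟩ := schur hirr (x := ω * ω) (fun i => by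
    have h1 := hanti i
    rw [mul_assoc, ← neg_neg (ω * γ i), ← h1, mul_neg, ← mul_assoc, ← neg_mul, ← neg_neg (ω * γ i),
      ← h1, neg_neg, mul_assoc])
  obtain ⟨q, hq⟩ := IsAlgClosed.exists_pow_nat_eq r (n := 2) (by norm_num)
  have hu := gp_unit hγ (List.finRange n)
  rw [← hω] at hu
  have hq0 : q ≠ 0 := by
    rintro rfl
    have h1 : r = 0 := by rw [← hq]; norm_num
    have h2 := hu.mul hu
    rw [hr, h1, zero_smul] at h2
    exact not_isUnit_zero h2
  have hωω : ∀ s, ω (ω s) = (q * q) • s := by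
    intro s
    have h1 := congrArg (fun g : Module.End K T => g s) hr
    simp only [Module.End.mul_apply, LinearMap.smul_apply, Module.End.one_apply] at h1
    rw [h1, ← hq, pow_two]
  have h2K : (2 : K) ≠ 0 := two_ne_zero
  let P := ω.eigenspace q
  let Q := ω.eigenspace (-q)
  have hP : ∀ s, s ∈ P ↔ ω s = q • s := fun s => Module.End.mem_eigenspace_iff
  have hQ : ∀ s, s ∈ Q ↔ ω s = (-q) • s := fun s => Module.End.mem_eigenspace_iff
  have hPQ : ∀ s ∈ P, s ∈ Q → s = 0 := by
    intro s h1 h2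
    have h3 : (2 * q) • s = 0 := by
      have h4 := (hP s).1 h1
      rw [(hQ s).1 h2] at h4
      have h5 : (2 * q) • s = q • s - (-q) • s := by module
      rw [h5, h4, sub_self]
    exact (smul_eq_zero.1 h3).resolve_left (mul_ne_zero h2K hq0)
  have hdec : ∀ s : T, (2 : K)⁻¹ • (s + q⁻¹ • ω s) ∈ P ∧ (2 : K)⁻¹ • (s - q⁻¹ • ω s) ∈ Q ∧
      s = (2 : K)⁻¹ • (s + q⁻¹ • ω s) + (2 : K)⁻¹ • (s - q⁻¹ • ω s) := by
    intro s
    have e1 : q • q⁻¹ • ω s = ω s := by rw [smul_smul, mul_inv_cancel₀ hq0, one_smul]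
    have e2 : ω (q⁻¹ • ω s) = q • s := by
      rw [map_smul, hωω, smul_smul, ← mul_assoc, inv_mul_cancel₀ hq0, one_mul]
    refine ⟨?_, ?_, ?_⟩
    · rw [hP, map_smul, map_add, e2, smul_comm q, smul_add q, e1, add_comm]
    · rw [hQ, map_smul, map_sub, e2, smul_comm (-q), neg_smul, smul_sub q, e1, neg_sub]
    · have h1 : (2 : K)⁻¹ • (s + q⁻¹ • ω s) + (2 : K)⁻¹ • (s - q⁻¹ • ω s) =
          ((2 : K)⁻¹ * 2) • s := by module
      rw [h1, inv_mul_cancel₀ h2K, one_smul]
  have hgP : ∀ i, ∀ s ∈ P, γ i s ∈ Q := by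
    intro i s hs
    rw [hQ, hanti', (hP s).1 hs, map_smul, neg_smul]
  have hgQ : ∀ i, ∀ s ∈ Q, γ i s ∈ P := by
    intro i s hs
    rw [hP, hanti', (hQ s).1 hs, map_smul, neg_smul, neg_neg]
  have hLP : ∀ x ∈ Lam (Submodule.span K (Set.range γ)), ω * x = x * ω := by
    intro x hx
    have h1 : ∀ v ∈ Submodule.span K (Set.range γ), v * ω = -(ω * v) := by
      intro v hv
      induction hv using Submodule.span_induction with
      | mem v hv =>
        obtain ⟨i, rfl⟩ := hv
        exact hanti i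
      | zero => rw [zero_mul, mul_zero, neg_zero]
      | add x y _ _ hx hy => rw [add_mul, mul_add, hx, hy, neg_add]
      | smul a x _ hx => rw [smul_mul_assoc, mul_smul_comm, hx, smul_neg]
    induction hx using Submodule.span_induction with
    | mem x hx =>
      obtain ⟨v, hv, w, hw, rfl⟩ := hx
      have h2 : ∀ v ∈ Submodule.span K (Set.range γ), ∀ w ∈ Submodule.span K (Set.range γ),
          ω * (v * w) = v * w * ω := by
        intro v hv w hw
        rw [mul_assoc, h1 w hw, mul_neg, ← mul_assoc v, h1 v hv, neg_mul, neg_neg, mul_assoc]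
      rw [mul_sub, sub_mul, h2 v hv w hw, h2 w hw v hv]
    | zero => rw [zero_mul, mul_zero]
    | add x y _ _ hx hy => rw [add_mul, mul_add, hx, hy]
    | smul a x _ hx => rw [smul_mul_assoc, mul_smul_comm, hx]
  have hirrP : ∀ R R' : Submodule K T, (∀ s ∈ R, s ∈ R' → s = 0) →
      (∀ i, ∀ s ∈ R, γ i s ∈ R') → ∀ U ≤ R,
      (∀ x ∈ Lam (Submodule.span K (Set.range γ)), ∀ s ∈ U, x s ∈ U) → U = ⊥ ∨ U = R := by
    intro R R' h1 h2 U hUR hU
    rcases tri_stab hγ hirr hU ⟨0, hn⟩ with h3 | h3 | ⟨-, h3⟩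
    · exact Or.inl h3
    · right
      rw [h3] at hUR ⊢
      exact (top_le_iff.1 hUR).symm
    · right
      refine le_antisymm hUR fun s hs => ?_
      have h4 : s ∈ U ⊔ U.map (γ ⟨0, hn⟩) := by
        rw [h3]
        trivial
      obtain ⟨x, hx, y, ⟨y', hy', rfl⟩, hxy⟩ := Submodule.mem_sup.1 h4
      have h5 : γ ⟨0, hn⟩ y' = 0 := by
        refine h1 _ ?_ (h2 _ _ (hUR hy'))
        have h6 : γ ⟨0, hn⟩ y' = s - x := by rw [← hxy]; abel
        rw [h6]
        exact R.sub_mem hs (hUR hx)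
      rw [← hxy, h5, add_zero]
      exact hx
  refine ⟨P, Q, ?_, ?_, hgP, hgQ, ?_⟩
  · rw [eq_bot_iff]
    intro s hs
    rw [Submodule.mem_bot]
    exact hPQ s hs.1 hs.2
  · rw [eq_top_iff]
    intro s _
    obtain ⟨h1, h2, h3⟩ := hdec s
    rw [h3]
    exact Submodule.add_mem_sup h1 h2
  · intro U hU
    have hUω : ∀ s ∈ U, ω s ∈ U := (gp_stab hγ hU (List.finRange n)).1 (by rwa [hl])
    have h1 : U ⊓ P = ⊥ ∨ U ⊓ P = P := by
      refine hirrP P Q hPQ hgP (U ⊓ P) inf_le_right fun x hx s hs => ⟨hU x hx s hs.1, ?_⟩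
      refine (hP _).2 ?_
      have h2 := congrArg (fun g : Module.End K T => g s) (hLP x hx)
      simp only [Module.End.mul_apply] at h2
      rw [h2, (hP s).1 hs.2, map_smul]
    have h2 : U ⊓ Q = ⊥ ∨ U ⊓ Q = Q := by
      refine hirrP Q P (fun s h3 h4 => hPQ s h4 h3) hgQ (U ⊓ Q) inf_le_right
        fun x hx s hs => ⟨hU x hx s hs.1, ?_⟩
      refine (hQ _).2 ?_
      have h2 := congrArg (fun g : Module.End K T => g s) (hLP x hx)
      simp only [Module.End.mul_apply] at h2
      rw [h2, (hQ s).1 hs.2, map_smul]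
    have h3 : U = (U ⊓ P) ⊔ (U ⊓ Q) := by
      refine le_antisymm (fun s hs => ?_) (sup_le inf_le_left inf_le_left)
      obtain ⟨h3, h4, h5⟩ := hdec s
      rw [h5]
      exact Submodule.add_mem_sup
        ⟨U.smul_mem _ (U.add_mem hs (U.smul_mem _ (hUω s hs))), h3⟩
        ⟨U.smul_mem _ (U.sub_mem hs (U.smul_mem _ (hUω s hs))), h4⟩
    have hsup : P ⊔ Q = ⊤ := by
      rw [eq_top_iff]
      intro s _
      obtain ⟨h1, h2, h3⟩ := hdec s
      rw [h3]
      exact Submodule.add_mem_sup h1 h2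
    rcases h1 with h1 | h1
    · rcases h2 with h2 | h2
      · left
        rw [h3, h1, h2, sup_bot_eq]
      · right; right; left
        rw [h3, h1, h2, bot_sup_eq]
    · rcases h2 with h2 | h2
      · right; left
        rw [h3, h1, h2, sup_bot_eq]
      · right; right; right
        rw [h3, h1, h2, hsup]

end clif

end Pool.Agent.Q50.SR
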