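import Pool.Agent.Q50.SR.Evn8

/-!
# Rigidity of the spin representations, both parities
-/

set_option linter.unusedSectionVars false
set_option maxHeartbeats 4000000
set_option synthInstance.maxHeartbeats 400000

namespace Pool.Agent.Q50.SR

open Module LieAlgebra LieModule

attribute [local instance 100] LieRing.ofAssociativeRing

variable {K T : Type*} [Field K] [CharZero K] [IsAlgClosed K] [AddCommGroup T] [Module K T]
  [FiniteDimensional K T] [Nontrivial T] {n : ℕ} {γ : Fin n → Module.End K T}

/-- **Rigidity**: a Lie subalgebra of the orthogonal algebra for which the stable subspaces of the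
spin representation are the same is everything, if the number of variables is not two or five. -/
theorem rig_gen (hγ : ∀ i j, γ i * γ j + γ j * γ i = (if i = j then (2 : K) else 0) • 1)
    (hirr : ∀ U : Submodule K T, (∀ i, ∀ s ∈ U, γ i s ∈ U) → U = ⊥ ∨ U = ⊤)
    (hn2 : n ≠ 2) (hn5 : n ≠ 5) {L : Submodule K (Module.End K T)}
    (hL : ∀ x ∈ L, ∀ y ∈ L, x * y - y * x ∈ L)
    (hLV : L ≤ Lam (Submodule.span K (Set.range γ)))
    (hst : ∀ U : Submodule K T, (∀ x ∈ L, ∀ s ∈ U, x s ∈ U) →
      ∀ x ∈ Lam (Submodule.span K (Set.range γ)), ∀ s ∈ U, x s ∈ U) :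
    Lam (Submodule.span K (Set.range γ)) ≤ L := by
  classical
  have hV := cl_vec hγ
  have hfr := finrank_vec hγ
  rcases Nat.even_or_odd n with heven | hodd
  · rcases Nat.eq_zero_or_pos n with hn0 | hn0
    · subst hn0
      refine Submodule.span_le.2 ?_
      rintro _ ⟨v, hv, w, hw, rfl⟩
      have h1 : v = 0 := by
        rw [Set.range_eq_empty, Submodule.span_empty, Submodule.mem_bot] at hv
        exact hv
      rw [h1, zero_mul, mul_zero, sub_zero]
      exact L.zero_mem
    · obtain ⟨P, Q, hinf, hsup, hgP, hgQ, hom⟩ := even_halves hγ hirr heven hn0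
      set V := Submodule.span K (Set.range γ) with hVdef
      have hvp : ∀ R R' : Submodule K T, (∀ i, ∀ s ∈ R, γ i s ∈ R') → ∀ v ∈ V, ∀ s ∈ R,
          v s ∈ R' := by
        intro R R' h1 v hv
        induction hv using Submodule.span_induction with
        | mem v hv =>
          obtain ⟨i, rfl⟩ := hv
          exact h1 i
        | zero => exact fun s _ => R'.zero_mem
        | add x y _ _ hx hy => exact fun s hs => R'.add_mem (hx s hs) (hy s hs)
        | smul a x _ hx => exact fun s hs => R'.smul_mem a (hx s hs)
      have vp := hvp P Q hgP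
      have vq := hvp Q P hgQ
      have hn4 : 4 ≤ n := by
        obtain ⟨k, hk⟩ := heven
        omega
      have htwo : ∀ x w : Module.End K T, ¬ V ≤ Submodule.span K {x, w} := by
        intro x w h1
        have h2 := Submodule.finrank_mono h1
        rw [hfr] at h2
        have h3 : finrank K (Submodule.span K ({x, w} : Set (Module.End K T))) ≤ 2 := by
          refine (finrank_span_le_card _).trans ?_
          rw [Set.toFinset_insert, Set.toFinset_singleton]
          exact Finset.card_le_two
        omega
      have hPne : ∀ R R' : Submodule K T, R ⊔ R' = ⊤ → (∀ v ∈ V, ∀ s ∈ R', v s ∈ R) → R ≠ ⊥ := by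
        intro R R' h1 h2 h0
        rw [h0, bot_sup_eq] at h1
        apply htwo 0 0
        intro v hv
        have h3 : v = 0 := by
          refine LinearMap.ext fun s => ?_
          have h4 := h2 v hv s (by rw [h1]; trivial)
          rw [h0, Submodule.mem_bot] at h4
          rw [h4, LinearMap.zero_apply]
        rw [h3]
        exact Submodule.zero_mem _
      have hP0 := hPne P Q hsup vq
      have hQ0 := hPne Q P (by rw [sup_comm]; exact hsup) vp
      have hlamP : ∀ R R' : Submodule K T, (∀ v ∈ V, ∀ s ∈ R, v s ∈ R') →
          (∀ v ∈ V, ∀ s ∈ R', v s ∈ R) → ∀ x ∈ Lam V, ∀ s ∈ R, x s ∈ R := by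
        intro R R' h1 h2 x hx
        induction hx using Submodule.span_induction with
        | mem x hx =>
          obtain ⟨v, hv, w, hw, rfl⟩ := hx
          intro s hs
          exact R.sub_mem (h2 v hv _ (h1 w hw s hs)) (h2 w hw _ (h1 v hv s hs))
        | zero => exact fun s _ => R.zero_mem
        | add x y _ _ hx hy => exact fun s hs => R.add_mem (hx s hs) (hy s hs)
        | smul a x _ hx => exact fun s hs => R.smul_mem a (hx s hs)
      -- the Lie algebra is semisimple
      let M := mkL L hL
      have sub : ∀ R R' : Submodule K T, R ≠ ⊥ → R ⊓ R' = ⊥ → R' ≠ ⊥ →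
          (∀ v ∈ V, ∀ s ∈ R, v s ∈ R') → (∀ v ∈ V, ∀ s ∈ R', v s ∈ R) →
          (∀ U : Submodule K T, (∀ x ∈ Lam V, ∀ s ∈ U, x s ∈ U) →
            U = ⊥ ∨ U = R ∨ U = R' ∨ U = ⊤) →
          ∀ x : M, x ∈ radical K M → ∃ χ : K, ∀ s ∈ R, x.1 s = χ • s := by
        intro R R' hR hRR' hR' h1 h2 h3 x hx
        let N : LieSubmodule K M T :=
          { R with lie_mem := fun {x m} hm => hlamP R R' h1 h2 x.1 (hLV x.2) m hm }
        have hNR : ∀ s : T, s ∈ N ↔ s ∈ R := fun s => Iff.rfl
        have hNnt : Nontrivial N := by
          obtain ⟨s, hs, hs0⟩ := (Submodule.ne_bot_iff _).1 hR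
          exact ⟨⟨s, hs⟩, 0, fun h => hs0 (congrArg Subtype.val h)⟩
        have hNirr : LieModule.IsIrreducible K M N := by
          refine LieModule.IsIrreducible.mk fun N' hN' => ?_
          let U : Submodule K T := N'.toSubmodule.map N.toSubmodule.subtype
          have hUst : ∀ x ∈ L, ∀ s ∈ U, x s ∈ U := by
            rintro x hx _ ⟨s, hs, rfl⟩
            let s' : N := s
            let r : N := ⁅(⟨x, hx⟩ : M), s'⁆
            have hr : r ∈ N' := N'.lie_mem (m := s') hs
            exact ⟨r, hr, rfl⟩
          have hUR : U ≤ R := by
            rintro _ ⟨s, _, rfl⟩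
            exact s.2
          have hU0 : U ≠ ⊥ := by
            intro h0
            apply hN'
            rw [LieSubmodule.eq_bot_iff]
            intro s hs
            have h4 : (s : T) ∈ U := ⟨s, hs, rfl⟩
            rw [h0, Submodule.mem_bot] at h4
            exact Subtype.ext h4
          have hUeq : R ≤ U := by
            rcases h3 U (hst U hUst) with h4 | h4 | h4 | h4
            · exact absurd h4 hU0
            · exact h4.ge
            · exfalso
              rw [h4] at hUR
              apply hR'
              rw [eq_bot_iff, ← hRR']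
              exact le_inf hUR le_rfl
            · rw [h4]
              exact le_top
          rw [eq_top_iff]
          intro s _
          obtain ⟨s', hs', hs2⟩ := hUeq s.2
          have h5 : s' = s := Subtype.ext hs2
          rw [← h5]
          exact hs'
        obtain ⟨χ, hχ⟩ := rad_scalar K M N
        refine ⟨χ ⟨x, hx⟩, fun s hs => ?_⟩
        have h4 := congrArg (fun g : Module.End K N => g ⟨s, hs⟩) (hχ x hx)
        exact congrArg Subtype.val h4
      have htriv : HasTrivialRadical K M := by
        rw [hasTrivialRadical_iff, LieSubmodule.eq_bot_iff]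
        intro x hx
        obtain ⟨α, hα⟩ := sub P Q hP0 hinf hQ0 vp vq hom x hx
        obtain ⟨β, hβ⟩ := sub Q P hQ0 (by rw [inf_comm]; exact hinf) hP0 vq vp
          (fun U hU => by
            rcases hom U hU with h3 | h3 | h3 | h3
            · exact Or.inl h3
            · exact Or.inr (Or.inr (Or.inl h3))
            · exact Or.inr (Or.inl h3)
            · exact Or.inr (Or.inr (Or.inr h3))) x hx
        have hαβ : α = β := by
          by_contra hne
          apply hPne P Q hsup vq
          have hv0 : ∀ v ∈ V, v = 0 := by
            intro v hv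
            have h1 : ad x.1 v - (β - α) • v = 0 := by
              refine half_inj hV vq hsup hP0 htwo (V.sub_mem (hV.ad_mem (hLV x.2) hv)
                (V.smul_mem _ hv)) fun s hs => ?_
              rw [LinearMap.sub_apply, ad_apply, LinearMap.sub_apply, Module.End.mul_apply,
                Module.End.mul_apply, LinearMap.smul_apply, hα s hs, hβ _ (vp v hv s hs), map_smul]
              module
            refine half_inj hV vp (by rw [sup_comm]; exact hsup) hQ0 htwo hv fun s hs => ?_
            have h2 := congrArg (fun g : Module.End K T => g s) h1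
            simp only [LinearMap.sub_apply, ad_apply, Module.End.mul_apply, LinearMap.smul_apply,
              LinearMap.zero_apply, hβ s hs, hα _ (vq v hv s hs), map_smul] at h2
            have h3 : (2 * (α - β)) • v s = 0 := by
              rw [← h2]
              module
            exact (smul_eq_zero.1 h3).resolve_left
              (mul_ne_zero two_ne_zero (sub_ne_zero.2 hne))
          exfalso
          apply htwo 0 0
          intro v hv
          rw [hv0 v hv]
          exact Submodule.zero_mem _
        have hxα : x.1 = α • (1 : Module.End K T) := by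
          refine LinearMap.ext fun s => ?_
          have h3 : s ∈ P ⊔ Q := by
            rw [hsup]
            trivial
          obtain ⟨s1, hs1, s2, hs2, rfl⟩ := Submodule.mem_sup.1 h3
          rw [map_add, hα s1 hs1, hβ s2 hs2, ← hαβ, LinearMap.smul_apply, Module.End.one_apply,
            smul_add]
        have h1 := trace_Lam (hLV x.2)
        have h2 : LinearMap.trace K T (α • (1 : Module.End K T)) = 0 := by rw [← hxα]; exact h1
        rw [map_smul, LinearMap.trace_one, smul_eq_mul] at h2
        have h3 : α = 0 := by
          rcases mul_eq_zero.1 h2 with h3 | h3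
          · exact h3
          · have h4 : finrank K T = 0 := by exact_mod_cast h3
            have h5 : 0 < finrank K T := Module.finrank_pos
            omega
        refine Subtype.ext ?_
        rw [hxα, h3, zero_smul]
        rfl
      obtain ⟨ι, _, e, f, h, A, c, hc, hlin⟩ := exists_lchev2 K M
      have hC : Chev (fun i => (e i : Module.End K T)) (fun i => (f i : Module.End K T))
          (fun i => (h i : Module.End K T)) A c := by
        refine ⟨?_, ?_, ?_, ?_, ?_, hc.diag, hc.zero, hc.inj, hc.rho⟩
        · intro i j
          exact sub_eq_zero.1 (congrArg Subtype.val (hc.hh i j))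
        · intro i j
          exact congrArg Subtype.val (hc.he i j)
        · intro i j
          exact congrArg Subtype.val (hc.hf i j)
        · intro i
          exact congrArg Subtype.val (hc.ef i)
        · intro i j hij
          exact sub_eq_zero.1 (congrArg Subtype.val (hc.ef' i j hij))
      have hI : ∀ U : Submodule K T, (∀ i, ∀ x ∈ U, (e i : Module.End K T) x ∈ U) →
          (∀ i, ∀ x ∈ U, (f i : Module.End K T) x ∈ U) → ∀ x ∈ L, ∀ s ∈ U, x s ∈ U := by
        intro U h1 h2 x hx
        have h3 : (⟨x, hx⟩ : M) ∈ LieSubalgebra.lieSpan K M (Set.range e ∪ Set.range f) := by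
          rw [hc.gen]
          trivial
        have h4 : ∀ y : M, y ∈ LieSubalgebra.lieSpan K M (Set.range e ∪ Set.range f) →
            ∀ s ∈ U, y.1 s ∈ U := by
          intro y hy
          induction hy using LieSubalgebra.lieSpan_induction with
          | mem u hu =>
            rcases hu with ⟨i, rfl⟩ | ⟨i, rfl⟩
            · exact h1 i
            · exact h2 i
          | zero => exact fun s _ => U.zero_mem
          | add u v _ _ hu hv => exact fun s hs => U.add_mem (hu s hs) (hv s hs)
          | smul t u _ hu => exact fun s hs => U.smul_mem t (hu s hs)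
          | lie u v _ _ hu hv => exact fun s hs => U.sub_mem (hu _ (hv s hs)) (hv _ (hu s hs))
        exact h4 _ h3
      have p : Pr (fun i => (e i : Module.End K T)) (fun i => (f i : Module.End K T))
          (fun i => (h i : Module.End K T)) A c V P Q :=
        ⟨hC, hV, fun i => hLV (e i).2, fun i => hLV (f i).2, vp, vq, hinf, hsup,
          fun U h1 h2 => hom U (hst U (hI U h1 h2)), htwo⟩
      exact rigid2 p hlin hL (fun i => (e i).2) (fun i => (f i).2)
  · refine rigidity hV (by rwa [hfr]) (by rwa [hfr]) hL hLV fun U hU => ?_
    exact odd_irr hγ hirr hodd (hst U hU)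

end Pool.Agent.Q50.SR
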