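import Pool.Agent.Q50.SR.Lab

/-!
# The first label does not come back
-/

set_option linter.unusedSectionVars false
set_option maxHeartbeats 4000000
set_option synthInstance.maxHeartbeats 400000

namespace Pool.Agent.Q50.SR

open Module

variable {K S ι : Type*} [Field K] [CharZero K] [IsAlgClosed K] [AddCommGroup S] [Module K S]
  [FiniteDimensional K S] [Fintype ι] [DecidableEq ι] {e f h : ι → Module.End K S}
  {A : ι → ι → K} {c : ι → K} {V : Submodule K (Module.End K S)} {v : ℤ → Module.End K S} {m : ℤ}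
  {l : ℤ → ι} {w : ℤ → ι → K}

theorem geo (d : Dat e f h A c V v m) (b : Lb e f h v m l w) (hm : 3 ≤ m) (h2 : l 2 ≠ l 1)
    (h3 : l 3 ≠ l 1) : ∀ k, 2 ≤ k → k ≤ m → l k ≠ l 1 := by
  classical
  by_contra hcon
  push Not at hcon
  have hex : ∃ n : ℕ, 2 ≤ (n : ℤ) ∧ (n : ℤ) ≤ m ∧ l n = l 1 := by
    obtain ⟨k, h4, h5, h6⟩ := hcon
    obtain ⟨n, rfl⟩ := Int.eq_ofNat_of_zero_le (show 0 ≤ k by omega)
    exact ⟨n, h4, h5, h6⟩
  obtain ⟨hk2, hkm, hka⟩ := Nat.find_spec hex
  have hmin : ∀ j : ℤ, 2 ≤ j → j < (Nat.find hex : ℤ) → l j ≠ l 1 := by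
    intro j hj1 hj2 hj3
    obtain ⟨n, rfl⟩ := Int.eq_ofNat_of_zero_le (show 0 ≤ j by omega)
    exact Nat.find_min hex (m := n) (by exact_mod_cast hj2) ⟨hj1, by omega, hj3⟩
  generalize ((Nat.find hex : ℕ) : ℤ) = k at hk2 hkm hka hmin
  have hk4 : 4 ≤ k := by
    have h4 : k ≠ 2 := fun h => h2 (by rw [← h, hka])
    have h5 : k ≠ 3 := fun h => h3 (by rw [← h, hka])
    omega
  have t := ad_tri (d.chev.tri (l 1))
  have hz : ∀ j : ℤ, 2 ≤ j → j ≤ k - 2 → w j (l 1) = 0 := by
    intro j hj1 hj2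
    exact Lb.w_zero d b (by omega) (by omega)
      (Lb.e_zero d b (by omega) (by omega) (Ne.symm (hmin (j + 1) (by omega) (by omega))))
      (Lb.f_zero d b (by omega) (by omega) (Ne.symm (hmin j (by omega) (by omega))))
  have hw1 : w (k - 1) (l 1) = A (l (k - 1)) (l 1) := by
    have h4 := Lb.wstep d b (k := k - 1) (by omega) (by omega) (l 1)
    have h5 : k - 1 - 1 = k - 2 := by ring
    rw [h5, hz (k - 2) (by omega) le_rfl, zero_add] at h4
    exact h4
  have hf1 : ad (f (l 1)) (v (k - 1)) = 0 :=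
    Lb.f_zero d b (by omega) (by omega) (Ne.symm (hmin (k - 1) (by omega) (by omega)))
  have he1 : ad (e (l 1)) (v (k - 1)) ≠ 0 := (b.le k (by omega) hkm (l 1)).2 hka.symm
  have hA : A (l (k - 1)) (l 1) ≠ 0 := by
    intro h0
    apply he1
    refine t.symm.zero ?_ hf1
    rw [LinearMap.neg_apply, b.wt, hw1, h0, zero_smul, neg_zero]
  have hA' : A (l 1) (l (k - 1)) ≠ 0 := fun h0 => hA (d.chev.zero _ _ h0)
  have hl2 : l 2 = l (k - 1) := by
    by_contra hne
    apply hA'
    have h4 := Lb.wstep d b (k := 1) (by omega) (by omega) (l (k - 1))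
    rw [sub_self, Lb.w0 d b, zero_add] at h4
    rw [← h4]
    refine Lb.w_zero d b (by omega) (by omega)
      (Lb.e_zero d b (by omega) (by omega) ?_) (Lb.f_zero d b (by omega) (by omega) ?_)
    · exact fun h5 => hne h5.symm
    · exact hmin (k - 1) (by omega) (by omega)
  have hw11 : w 1 (l 1) = 2 := by
    have h4 := Lb.wstep d b (k := 1) (by omega) (by omega) (l 1)
    rw [sub_self, Lb.w0 d b, zero_add, d.chev.diag] at h4
    exact h4
  have hAm : A (l (k - 1)) (l 1) = -2 := by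
    have h4 := Lb.wstep d b (k := 2) (by omega) (by omega) (l 1)
    have h5 : (2 : ℤ) - 1 = 1 := by norm_num
    rw [hz 2 le_rfl (by omega), h5, hw11, hl2] at h4
    linear_combination -h4
  rw [hAm] at hw1
  have he2 : ad (e (l 1)) (ad (e (l 1)) (v (k - 1))) ≠ 0 := by
    intro h0
    have h4 : ad (h (l 1)) (ad (e (l 1)) (v (k - 1))) = 0 := by
      rw [t.he', b.wt, hw1, map_smul]
      module
    have h5 := t.zero h4 h0
    have h6 := t.ef' (v (k - 1))
    rw [hf1, map_zero, h5, zero_add, b.wt, hw1] at h6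
    exact d.ne (k - 1) (by omega) (by omega)
      ((smul_eq_zero.1 h6.symm).resolve_left (neg_ne_zero.2 two_ne_zero))
  have he3 : ad (e (l 1)) (v k) ≠ 0 := by
    intro h0
    obtain ⟨a, ha⟩ := d.raise (l 1) (k - 1)
    rw [sub_add_cancel] at ha
    rw [ha, map_smul, h0, smul_zero] at he2
    exact he2 rfl
  have hkm' : k < m := by
    by_contra h0
    exact he3 (Lb.e_zero' d b (by omega) _)
  have hl3 : l 1 = l (k + 1) :=
    (b.le (k + 1) (by omega) (by omega) (l 1)).1 (by rwa [add_sub_cancel_right])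
  have hw2 : ∀ j, w k j = 0 := by
    intro j
    by_cases hj : j = l 1
    · subst hj
      rw [Lb.wstep d b (by omega) hkm, hw1, hka, d.chev.diag]
      ring
    · refine Lb.w_zero d b (by omega) hkm (Lb.e_zero d b (by omega) hkm' ?_)
        (Lb.f_zero d b (by omega) hkm ?_)
      · rwa [← hl3]
      · rwa [hka]
  have h4 := Lb.wH d b (k := k) (by omega) hkm
  simp only [hw2, mul_zero, Finset.sum_const_zero] at h4
  have h5 : (k : K) = 0 := (mul_eq_zero.1 h4.symm).resolve_left two_ne_zero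
  have h6 : k = 0 := by exact_mod_cast h5
  omega

end Pool.Agent.Q50.SR
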