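import Pool.Agent.Q50.SR.Dat

/-!
# The labels of the steps of the chain
-/

set_option linter.unusedSectionVars false
set_option maxHeartbeats 4000000
set_option synthInstance.maxHeartbeats 400000

namespace Pool.Agent.Q50.SR

open Module

/-- labels and weights -/
structure Lb {K S ι : Type*} [Field K] [CharZero K] [AddCommGroup S] [Module K S] [Fintype ι]
    [DecidableEq ι] (e f h : ι → Module.End K S) (v : ℤ → Module.End K S) (m : ℤ) (l : ℤ → ι)
    (w : ℤ → ι → K) : Prop where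
  wt : ∀ (k : ℤ) (j : ι), ad (h j) (v k) = w k j • v k
  le : ∀ k : ℤ, -m < k → k ≤ m → ∀ j, ad (e j) (v (k - 1)) ≠ 0 ↔ j = l k
  lf : ∀ k : ℤ, -m < k → k ≤ m → ∀ j, ad (f j) (v k) ≠ 0 ↔ j = l k

variable {K S ι : Type*} [Field K] [CharZero K] [IsAlgClosed K] [AddCommGroup S] [Module K S]
  [FiniteDimensional K S] [Fintype ι] [DecidableEq ι] {e f h : ι → Module.End K S}
  {A : ι → ι → K} {c : ι → K} {V : Submodule K (Module.End K S)} {v : ℤ → Module.End K S} {m : ℤ}
  {l : ℤ → ι} {w : ℤ → ι → K}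

namespace Dat

variable (d : Dat e f h A c V v m)

include d

theorem orth {a b : ℤ} (hab : a + b ≠ 0) : bf (v a) (v b) = 0 := Vl_orth hab (d.deg a) (d.deg b)

theorem pair {k : ℤ} (h1 : -m ≤ k) (h2 : k ≤ m) : bf (v k) (v (-k)) ≠ 0 := by
  intro h0
  apply d.ne k h1 h2
  refine d.cl.nd _ (d.mem k) fun x hx => ?_
  refine Submodule.iSup_induction (fun k => Submodule.span K {v k})
    (motive := fun x => bf (v k) x = 0) (d.span hx) ?_ (bf_zero _) ?_
  · intro j y hy
    obtain ⟨a, rfl⟩ := Submodule.mem_span_singleton.1 hy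
    rw [bf_smul]
    by_cases hj : k + j = 0
    · have h3 : j = -k := by omega
      rw [h3, h0, mul_zero]
    · rw [d.orth hj, mul_zero]
  · intro y z hy hz
    rw [bf_add, hy, hz, add_zero]

theorem vl (k : ℤ) : v k ∈ Vl h c V k := mem_Vl.2 ⟨d.mem k, d.deg k⟩

theorem raise (i : ι) (k : ℤ) : ∃ a : K, ad (e i) (v k) = a • v (k + 1) := by
  have h1 := mem_Vl.1 (e_Vl d.chev d.cl d.le i (d.vl k))
  exact d.one _ _ h1.1 h1.2

theorem lower (i : ι) (k : ℤ) : ∃ a : K, ad (f i) (v k) = a • v (k - 1) := by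
  have h1 := mem_Vl.1 (f_Vl d.chev d.cl d.lf i (d.vl k))
  exact d.one _ _ h1.1 h1.2

theorem hwt (i : ι) (k : ℤ) : ∃ a : K, ad (h i) (v k) = a • v k := by
  obtain ⟨a, ha⟩ := d.raise i k
  obtain ⟨b, hb⟩ := d.lower i k
  obtain ⟨a', ha'⟩ := d.raise i (k - 1)
  obtain ⟨b', hb'⟩ := d.lower i (k + 1)
  rw [sub_add_cancel] at ha'
  rw [add_sub_cancel_right] at hb'
  refine ⟨b * a' - a * b', ?_⟩
  rw [← d.chev.ef, ← ad_bracket, LinearMap.sub_apply, Module.End.mul_apply, Module.End.mul_apply,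
    ha, hb, map_smul, map_smul, ha', hb', smul_smul, smul_smul, sub_smul]

theorem E_ne {k : ℤ} (h1 : -m ≤ k) (h2 : k < m) : ad (∑ i, e i) (v k) ≠ 0 := by
  have neg : ∀ k : ℤ, -m ≤ k → k < 0 → ad (∑ i, e i) (v k) ≠ 0 := by
    intro k h1 h2 h0
    obtain ⟨n, rfl | rfl⟩ := Int.eq_nat_or_neg k
    · omega
    · exact d.ne _ h1 (by have := d.nn; omega) (E_inj d.chev (by omega) (d.deg _) h0)
  rcases lt_or_ge k 0 with h3 | h3
  · exact neg k h1 h3
  · intro h0
    have h4 := neg (-(k + 1)) (by omega) (by omega)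
    have h5 : ∃ a : K, ad (∑ i, e i) (v (-(k + 1))) = a • v (-k) := by
      have h6 := mem_Vl.1 (E_Vl d.chev d.cl d.le (d.vl (-(k + 1))))
      have h7 : -(k + 1) + 1 = -k := by ring
      rw [h7] at h6
      exact d.one _ _ h6.1 h6.2
    obtain ⟨a, ha⟩ := h5
    have ha0 : a ≠ 0 := by
      rintro rfl
      exact h4 (by rw [ha, zero_smul])
    have h6 := bf_ad (∑ i, e i) (v (-(k + 1))) (v k)
    rw [h0, bf_zero, neg_zero, ha, bf_smul'] at h6
    have h7 := d.pair (k := -k) (by omega) (by omega)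
    rw [neg_neg] at h7
    exact mul_ne_zero ha0 h7 h6

theorem exE {k : ℤ} (h1 : -m ≤ k) (h2 : k < m) : ∃ i, ad (e i) (v k) ≠ 0 := by
  by_contra hcon
  push Not at hcon
  apply d.E_ne h1 h2
  rw [ad_sum, LinearMap.sum_apply]
  exact Finset.sum_eq_zero fun i _ => hcon i

theorem exF {k : ℤ} (h1 : -m < k) (h2 : k ≤ m) : ∃ i, ad (f i) (v k) ≠ 0 := by
  have h3 := d.swap.exE (k := -k) (by omega) (by omega)
  simpa using h3

theorem he_ad (i j : ι) (x : Module.End K S) :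
    ad (h j) (ad (e i) x) = ad (e i) (ad (h j) x) + A i j • ad (e i) x := by
  have h1 := congrArg (fun g : Module.End K (Module.End K S) => g x) (ad_bracket (h j) (e i))
  simp only [LinearMap.sub_apply, Module.End.mul_apply] at h1
  rw [d.chev.he, ad_smul, LinearMap.smul_apply, sub_eq_iff_eq_add] at h1
  rw [h1, add_comm]

theorem hf_ad (i j : ι) (x : Module.End K S) :
    ad (h j) (ad (f i) x) = ad (f i) (ad (h j) x) - A i j • ad (f i) x := by
  have h1 := congrArg (fun g : Module.End K (Module.End K S) => g x) (ad_bracket (h j) (f i))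
  simp only [LinearMap.sub_apply, Module.End.mul_apply] at h1
  rw [d.chev.hf, ad_neg, ad_smul, LinearMap.neg_apply, LinearMap.smul_apply,
    sub_eq_iff_eq_add] at h1
  rw [h1]
  abel

theorem wt_e (hw : ∀ (k : ℤ) (j : ι), ad (h j) (v k) = w k j • v k) {i : ι} {k : ℤ}
    (hi : ad (e i) (v (k - 1)) ≠ 0) (j : ι) : w k j = w (k - 1) j + A i j := by
  obtain ⟨a, ha⟩ := d.raise i (k - 1)
  rw [sub_add_cancel] at ha
  have h1 := d.he_ad i j (v (k - 1))
  rw [hw, map_smul, ← add_smul, ha, map_smul, hw] at h1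
  have h2 : (a * (w k j - (w (k - 1) j + A i j))) • v k = 0 := by
    rw [mul_sub, sub_smul, sub_eq_zero, mul_smul, h1, smul_smul, mul_comm]
  have h3 : a • v k ≠ 0 := by rwa [ha] at hi
  have h4 : a ≠ 0 := fun h5 => h3 (by rw [h5, zero_smul])
  have h5 : v k ≠ 0 := fun h5 => h3 (by rw [h5, smul_zero])
  rcases smul_eq_zero.1 h2 with h6 | h6
  · exact sub_eq_zero.1 ((mul_eq_zero.1 h6).resolve_left h4)
  · exact absurd h6 h5

theorem wt_f (hw : ∀ (k : ℤ) (j : ι), ad (h j) (v k) = w k j • v k) {i : ι} {k : ℤ}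
    (hi : ad (f i) (v k) ≠ 0) (j : ι) : w k j = w (k - 1) j + A i j := by
  obtain ⟨a, ha⟩ := d.lower i k
  have h1 := d.hf_ad i j (v k)
  rw [hw, map_smul, ← sub_smul, ha, map_smul, hw] at h1
  have h2 : (a * (w (k - 1) j - (w k j - A i j))) • v (k - 1) = 0 := by
    rw [mul_sub, sub_smul, sub_eq_zero, mul_smul, h1, smul_smul, mul_comm]
  have h3 : a • v (k - 1) ≠ 0 := by rwa [ha] at hi
  have h4 : a ≠ 0 := fun h5 => h3 (by rw [h5, zero_smul])
  have h5 : v (k - 1) ≠ 0 := fun h5 => h3 (by rw [h5, smul_zero])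
  rcases smul_eq_zero.1 h2 with h6 | h6
  · have h7 := sub_eq_zero.1 ((mul_eq_zero.1 h6).resolve_left h4)
    rw [h7]
    ring
  · exact absurd h6 h5

theorem labels (hm : 1 ≤ m) : ∃ (l : ℤ → ι) (w : ℤ → ι → K), Lb e f h v m l w := by
  classical
  choose w hw using fun (k : ℤ) (j : ι) => d.hwt j k
  have h1 : ∀ k : ℤ, ∃ i, -m < k → k ≤ m → (∀ j, ad (e j) (v (k - 1)) ≠ 0 ↔ j = i) ∧
      (∀ j, ad (f j) (v k) ≠ 0 ↔ j = i) := by
    intro k
    by_cases hk : -m < k ∧ k ≤ m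
    · obtain ⟨i, hi⟩ := d.exE (k := k - 1) (by omega) (by omega)
      obtain ⟨i', hi'⟩ := d.exF hk.1 hk.2
      have key : ∀ a b : ι, ad (e a) (v (k - 1)) ≠ 0 → ad (f b) (v k) ≠ 0 → a = b := by
        intro a b ha hb
        refine d.chev.inj a b fun j => ?_
        have h2 := d.wt_e hw ha j
        rw [d.wt_f hw hb j] at h2
        exact (add_left_cancel h2).symm
      have h2 := key i i' hi hi'
      subst h2
      refine ⟨i, fun _ _ => ⟨fun j => ⟨fun hj => key j i hj hi', ?_⟩,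
        fun j => ⟨fun hj => (key i j hi hj).symm, ?_⟩⟩⟩
      · rintro rfl
        exact hi
      · rintro rfl
        exact hi'
    · obtain ⟨i, -⟩ := d.exE (k := 0) (by omega) (by omega)
      exact ⟨i, fun h2 h3 => absurd ⟨h2, h3⟩ hk⟩
  choose l hl using h1
  exact ⟨l, w, hw, fun k h2 h3 => (hl k h2 h3).1, fun k h2 h3 => (hl k h2 h3).2⟩

end Dat

namespace Lb

variable (d : Dat e f h A c V v m) (b : Lb e f h v m l w)

include d b

theorem wneg {k : ℤ} (h1 : -m ≤ k) (h2 : k ≤ m) (j : ι) : w (-k) j = -w k j := by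
  have h3 := bf_ad (h j) (v k) (v (-k))
  rw [b.wt, b.wt, bf_smul, bf_smul'] at h3
  have h4 : (w k j + w (-k) j) * bf (v k) (v (-k)) = 0 := by
    linear_combination h3
  have h5 := (mul_eq_zero.1 h4).resolve_right (d.pair h1 h2)
  linear_combination h5

theorem w0 (j : ι) : w 0 j = 0 := by
  have h1 := wneg d b (k := 0) (by have := d.nn; omega) d.nn j
  rw [neg_zero] at h1
  have h2 : (2 : K) * w 0 j = 0 := by linear_combination h1
  exact (mul_eq_zero.1 h2).resolve_left two_ne_zero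

theorem wstep {k : ℤ} (h1 : -m < k) (h2 : k ≤ m) (j : ι) : w k j = w (k - 1) j + A (l k) j :=
  d.wt_e b.wt ((b.le k h1 h2 (l k)).2 rfl) j

theorem wH {k : ℤ} (h1 : -m ≤ k) (h2 : k ≤ m) : ∑ j, c j * w k j = 2 * k := by
  have h3 := d.deg k
  unfold H0 at h3
  rw [ad_sum, LinearMap.sum_apply] at h3
  have h4 : ∑ j, ad (c j • h j) (v k) = (∑ j, c j * w k j) • v k := by
    rw [Finset.sum_smul]
    refine Finset.sum_congr rfl fun j _ => ?_
    rw [ad_smul, LinearMap.smul_apply, b.wt, smul_smul]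
  rw [h4] at h3
  exact smul_left_injective K (d.ne k h1 h2) h3

/-- the `e i` kill the other vectors -/
theorem e_zero {k : ℤ} (h1 : -m ≤ k) (h2 : k < m) {i : ι} (hi : i ≠ l (k + 1)) :
    ad (e i) (v k) = 0 := by
  by_contra h0
  have h3 := (b.le (k + 1) (by omega) (by omega) i).1 (by rwa [add_sub_cancel_right])
  exact hi h3

theorem e_zero' {k : ℤ} (h2 : m ≤ k) (i : ι) : ad (e i) (v k) = 0 := by
  obtain ⟨a, ha⟩ := d.raise i k
  rw [ha, d.zero (k + 1) (by omega), smul_zero]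

theorem f_zero {k : ℤ} (h1 : -m < k) (h2 : k ≤ m) {i : ι} (hi : i ≠ l k) :
    ad (f i) (v k) = 0 := by
  by_contra h0
  exact hi ((b.lf k h1 h2 i).1 h0)

theorem f_zero' {k : ℤ} (h2 : k ≤ -m) (i : ι) : ad (f i) (v k) = 0 := by
  obtain ⟨a, ha⟩ := d.lower i k
  rw [ha, d.zero (k - 1) (by omega), smul_zero]

/-- the step upwards -/
theorem up {k : ℤ} (h1 : -m ≤ k) (h2 : k < m) :
    ∃ a : K, a ≠ 0 ∧ ad (e (l (k + 1))) (v k) = a • v (k + 1) := by
  obtain ⟨a, ha⟩ := d.raise (l (k + 1)) k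
  refine ⟨a, ?_, ha⟩
  rintro rfl
  rw [zero_smul] at ha
  exact (b.le (k + 1) (by omega) (by omega) (l (k + 1))).2 rfl (by rwa [add_sub_cancel_right])

theorem down {k : ℤ} (h1 : -m < k) (h2 : k ≤ m) :
    ∃ a : K, a ≠ 0 ∧ ad (f (l k)) (v k) = a • v (k - 1) := by
  obtain ⟨a, ha⟩ := d.lower (l k) k
  refine ⟨a, ?_, ha⟩
  rintro rfl
  rw [zero_smul] at ha
  exact (b.lf k h1 h2 (l k)).2 rfl ha

theorem w_zero {k : ℤ} (h1 : -m ≤ k) (h2 : k ≤ m) {i : ι} (he : ad (e i) (v k) = 0)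
    (hf : ad (f i) (v k) = 0) : w k i = 0 := by
  have h3 := b.wt k i
  rw [← d.chev.ef, ← ad_bracket, LinearMap.sub_apply, Module.End.mul_apply, Module.End.mul_apply,
    he, hf, map_zero, map_zero, sub_zero] at h3
  exact (smul_eq_zero.1 h3.symm).resolve_right (d.ne k h1 h2)

theorem lsym {k : ℤ} (h1 : -m < k) (h2 : k ≤ m) : l (1 - k) = l k := by
  have h3 : ad (e (l k)) (v (1 - k - 1)) ≠ 0 := by
    intro h0
    have h4 : (1 : ℤ) - k - 1 = -k := by ring
    rw [h4] at h0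
    obtain ⟨a, ha0, ha⟩ := up d b (k := k - 1) (by omega) (by omega)
    rw [sub_add_cancel] at ha
    have h5 := bf_ad (e (l k)) (v (k - 1)) (v (-k))
    rw [h0, bf_zero, neg_zero, ha, bf_smul'] at h5
    exact mul_ne_zero ha0 (d.pair (by omega) (by omega)) h5
  exact ((b.le (1 - k) (by omega) (by omega) (l k)).1 h3).symm

theorem swap : Lb f e (fun i => -h i) (fun k => v (-k)) m (fun k => l (1 - k))
    (fun k j => -w (-k) j) := by
  refine ⟨?_, ?_, ?_⟩
  · intro k j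
    rw [ad_neg, LinearMap.neg_apply, b.wt, neg_smul]
  · intro k h1 h2 j
    have h3 : -(k - 1) = 1 - k := by ring
    simp only [h3]
    exact b.lf (1 - k) (by omega) (by omega) j
  · intro k h1 h2 j
    have h3 := b.le (1 - k) (by omega) (by omega) j
    have h4 : (1 : ℤ) - k - 1 = -k := by ring
    rw [h4] at h3
    exact h3

end Lb

end Pool.Agent.Q50.SR
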