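import Pool.Agent.Q50.SR.Sl2

/-!
# Some linear algebra
-/

set_option linter.unusedSectionVars false
set_option maxHeartbeats 4000000
set_option synthInstance.maxHeartbeats 400000

namespace Pool.Agent.Q50.SR

open Module

theorem mem_of_indep {R M κ : Type*} [Ring R] [AddCommGroup M] [Module R M]
    {E W : κ → Submodule R M} (hE : iSupIndep E) (hW : ∀ k, W k ≤ E k) {x : M}
    (hx : x ∈ ⨆ k, W k) {l : κ} (hl : x ∈ E l) : x ∈ W l := by
  have h1 : (⨆ j, W j) ≤ W l ⊔ ⨆ (i) (_ : i ≠ l), E i := by
    refine iSup_le fun i => ?_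
    by_cases hij : i = l
    · subst hij
      exact le_sup_left
    · exact le_trans (hW i) (le_trans (le_iSup₂_of_le i hij le_rfl) le_sup_right)
  obtain ⟨a, ha, b, hb, hab⟩ := Submodule.mem_sup.1 (h1 hx)
  have h2 : b ∈ E l := by
    have h3 : b = x - a := by rw [← hab]; abel
    rw [h3]
    exact Submodule.sub_mem _ hl (hW l ha)
  have h3 : b = 0 := by
    have h4 := hE l
    rw [disjoint_iff] at h4
    have h5 : b ∈ E l ⊓ ⨆ (i) (_ : i ≠ l), E i := ⟨h2, hb⟩
    rw [h4] at h5
    exact (Submodule.mem_bot R).1 h5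
  rw [← hab, h3, add_zero]
  exact ha

theorem semisimple_of_iSup {K W : Type*} [Field K] [AddCommGroup W] [Module K W]
    [FiniteDimensional K W] {T : End K W} (h : ⨆ μ, T.eigenspace μ = ⊤) : T.IsSemisimple := by
  classical
  have hfin : {μ : K | T.HasEigenvalue μ}.Finite := Module.End.finite_hasEigenvalue _
  let p : Polynomial K := ∏ μ ∈ hfin.toFinset, (Polynomial.X - Polynomial.C μ)
  refine Module.End.isSemisimple_of_squarefree_aeval_eq_zero (p := p) ?_ ?_
  · exact (Polynomial.separable_prod_X_sub_C_iff'.2 fun x _ y _ hxy => hxy).squarefree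
  · have h1 : (⊤ : Submodule K W) ≤ LinearMap.ker (Polynomial.aeval T p) := by
      rw [← h]
      refine iSup_le fun μ x hx => ?_
      rw [LinearMap.mem_ker]
      by_cases hx0 : x = 0
      · rw [hx0, map_zero]
      · have hx1 : T.HasEigenvector μ x := ⟨hx, hx0⟩
        rw [Module.End.aeval_apply_of_hasEigenvector hx1]
        have h2 : μ ∈ hfin.toFinset := by
          rw [Set.Finite.mem_toFinset]
          exact Module.End.hasEigenvalue_of_hasEigenvector hx1
        have h3 : Polynomial.eval μ p = 0 := by
          rw [Polynomial.eval_prod]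
          refine Finset.prod_eq_zero h2 ?_
          rw [Polynomial.eval_sub, Polynomial.eval_X, Polynomial.eval_C, sub_self]
        rw [h3, zero_smul]
    refine LinearMap.ext fun x => ?_
    exact h1 (x := x) trivial

theorem ad_semisimple {K S : Type*} [Field K] [CharZero K] [AddCommGroup S] [Module K S]
    [FiniteDimensional K S] {H : End K S} (h : H.IsSemisimple) : (ad H).IsSemisimple := by
  have h1 := LieAlgebra.ad_isSemisimple_of_isSemisimple h
  rwa [LieAlgebra.ad_eq_lmul_left_sub_lmul_right] at h1

/-- a skew operator on a space of odd dimension has a kernel -/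
theorem odd_kernel {K W : Type*} [Field K] [CharZero K] [AddCommGroup W] [Module K W]
    [FiniteDimensional K W] (B : LinearMap.BilinForm K W) (hB : B.Nondegenerate) (T : End K W)
    (hT : ∀ x y, B (T x) y = -B x (T y)) (hodd : Odd (finrank K W)) : ∃ x ≠ 0, T x = 0 := by
  classical
  let b := finBasis K W
  have h1 : (LinearMap.toMatrix b b T).transpose * LinearMap.BilinForm.toMatrix b B =
      -(LinearMap.BilinForm.toMatrix b B * LinearMap.toMatrix b b T) := by
    rw [← LinearMap.BilinForm.toMatrix_compLeft, ← LinearMap.BilinForm.toMatrix_compRight]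
    ext i j
    rw [Matrix.neg_apply, LinearMap.BilinForm.toMatrix_apply, LinearMap.BilinForm.toMatrix_apply]
    exact hT (b i) (b j)
  have h2 := congrArg Matrix.det h1
  rw [Matrix.det_neg, Matrix.det_mul, Matrix.det_mul, Matrix.det_transpose, Fintype.card_fin,
    hodd.neg_one_pow] at h2
  have h3 := (LinearMap.BilinForm.nondegenerate_iff_det_ne_zero b).1 hB
  have h4 : (LinearMap.toMatrix b b T).det = 0 := by
    have h5 : (2 : K) * ((LinearMap.toMatrix b b T).det *
        (LinearMap.BilinForm.toMatrix b B).det) = 0 := by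
      linear_combination h2
    rcases mul_eq_zero.1 h5 with h6 | h6
    · exact absurd h6 two_ne_zero
    · rcases mul_eq_zero.1 h6 with h7 | h7
      · exact h7
      · exact absurd h7 h3
  rw [LinearMap.det_toMatrix] at h4
  have h5 := LinearMap.bot_lt_ker_of_det_eq_zero h4
  obtain ⟨x, hx, hx0⟩ := (Submodule.ne_bot_iff _).1 h5.ne'
  exact ⟨x, hx0, LinearMap.mem_ker.1 hx⟩

end Pool.Agent.Q50.SR
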