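import Pool.Agent.Q50.SR.Spn

/-!
# The generators generate everything
-/

set_option linter.unusedSectionVars false
set_option maxHeartbeats 4000000
set_option synthInstance.maxHeartbeats 400000

namespace Pool.Agent.Q50.SR

open Module

variable {K S ι : Type*} [Field K] [CharZero K] [IsAlgClosed K] [AddCommGroup S] [Module K S]
  [FiniteDimensional K S] [Fintype ι] [DecidableEq ι] {e f h : ι → Module.End K S}
  {A : ι → ι → K} {c : ι → K} {V : Submodule K (Module.End K S)} {v : ℤ → Module.End K S} {m : ℤ}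
  {l : ℤ → ι} {w : ℤ → ι → K}

theorem Lam_trace {x : Module.End K S} (hx : x ∈ Lam V) : LinearMap.trace K S x = 0 := by
  induction hx using Submodule.span_induction with
  | mem x hx =>
    obtain ⟨v, _, w, _, rfl⟩ := hx
    rw [map_sub, LinearMap.trace_mul_comm, sub_self]
  | zero => exact map_zero _
  | add x y _ _ hx hy => rw [map_add, hx, hy, add_zero]
  | smul a x _ hx => rw [map_smul, hx, smul_zero]

/-- an element of `Lam V` which commutes with the vectors is zero -/
theorem Lam_central [Nontrivial S] (hirr : Irr e f) (hle : ∀ i, e i ∈ Lam V)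
    (hlf : ∀ i, f i ∈ Lam V) {x : Module.End K S} (hx : x ∈ Lam V) (hc : ∀ u ∈ V, x * u = u * x) :
    x = 0 := by
  have hc' : ∀ y ∈ Lam V, x * y = y * x := by
    intro y hy
    induction hy using Submodule.span_induction with
    | mem y hy =>
      obtain ⟨v, hv, w, hw, rfl⟩ := hy
      rw [mul_sub, sub_mul, ← mul_assoc, ← mul_assoc, hc v hv, hc w hw, mul_assoc, mul_assoc,
        hc v hv, hc w hw, mul_assoc, mul_assoc]
    | zero => rw [mul_zero, zero_mul]
    | add y z _ _ hy hz => rw [mul_add, add_mul, hy, hz]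
    | smul a y _ hy => rw [mul_smul_comm, smul_mul_assoc, hy]
  obtain ⟨ν, hν⟩ := Module.End.exists_eigenvalue x
  have hst : ∀ y ∈ Lam V, ∀ s ∈ x.eigenspace ν, y s ∈ x.eigenspace ν := by
    intro y hy s hs
    rw [Module.End.mem_eigenspace_iff] at hs ⊢
    have h1 := congrArg (fun g : Module.End K S => g s) (hc' y hy)
    simp only [Module.End.mul_apply] at h1
    rw [h1, hs, map_smul]
  have htop : x.eigenspace ν = ⊤ := by
    rcases hirr (x.eigenspace ν) (fun i => hst _ (hle i)) (fun i => hst _ (hlf i)) with h1 | h1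
    · exact absurd h1 hν
    · exact h1
  have hxν : x = ν • 1 := by
    refine LinearMap.ext fun s => ?_
    have h1 : s ∈ x.eigenspace ν := by rw [htop]; trivial
    rw [LinearMap.smul_apply, Module.End.one_apply]
    exact Module.End.mem_eigenspace_iff.1 h1
  have h1 := Lam_trace hx
  rw [hxν, map_smul, LinearMap.trace_one, smul_eq_mul] at h1
  rcases mul_eq_zero.1 h1 with h2 | h2
  · rw [hxν, h2, zero_smul]
  · have h3 : finrank K S = 0 := by exact_mod_cast h2
    have h4 : 0 < finrank K S := Module.finrank_pos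
    omega

theorem commute_of_basis (d : Dat e f h A c V v m) {x : Module.End K S}
    (hx : ∀ k, ad x (v k) = 0) : ∀ u ∈ V, x * u = u * x := by
  intro u hu
  refine Submodule.iSup_induction (fun k => Submodule.span K {v k})
    (motive := fun u => x * u = u * x) (d.span hu) ?_ ?_ ?_
  · intro k y hy
    obtain ⟨r, rfl⟩ := Submodule.mem_span_singleton.1 hy
    rw [mul_smul_comm, smul_mul_assoc]
    congr 1
    exact sub_eq_zero.1 (hx k)
  · rw [mul_zero, zero_mul]
  · intro y z hy hz
    rw [mul_add, add_mul, hy, hz]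

/-- the first commutator -/
theorem first [Nontrivial S] (d : Dat e f h A c V v m) (b : Lb e f h v m l w) (hirr : Irr e f)
    (hm : 1 ≤ m) (hl : ∀ k, 2 ≤ k → k ≤ m → l k ≠ l 1) {L : Submodule K (Module.End K S)}
    (he : ∀ i, e i ∈ L) : v 1 * v 0 - v 0 * v 1 ∈ L := by
  have hl0 : l 0 = l 1 := by
    have h1 := Lb.lsym d b (k := 1) (by omega) (by omega)
    rwa [sub_self] at h1
  obtain ⟨α, hα0, hα⟩ := Lb.up d b (k := 0) (by omega) (by omega)
  rw [zero_add] at hα
  obtain ⟨β, hβ0, hβ⟩ := Lb.up d b (k := -1) (by omega) (by omega)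
  have h10 : (-1 : ℤ) + 1 = 0 := by norm_num
  rw [h10, hl0] at hβ
  have hb0 : bf (v 0) (v 0) ≠ 0 := by
    have h1 := d.pair (k := 0) (by omega) (by omega)
    rwa [neg_zero] at h1
  have hdual : β * bf (v 0) (v 0) = -(α * bf (v 1) (v (-1))) := by
    have h1 := bf_ad (e (l 1)) (v (-1)) (v 0)
    rw [hα, hβ, bf_smul, bf_smul', bf_comm (v (-1))] at h1
    exact h1
  set y := v 1 * v 0 - v 0 * v 1 with hy
  have hyL : y ∈ Lam V := Submodule.subset_span ⟨_, d.mem 1, _, d.mem 0, rfl⟩
  have hyad : ∀ k, ad y (v k) = (4 * bf (v 0) (v k)) • v 1 - (4 * bf (v 1) (v k)) • v 0 :=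
    fun k => d.cl.cm (d.mem 1) (d.mem 0) (d.mem k)
  set r : K := α * (4 * bf (v 0) (v 0))⁻¹ with hr
  have h4K : (4 : K) ≠ 0 := by norm_num
  have hb4 : (4 * bf (v 0) (v 0)) ≠ 0 := mul_ne_zero h4K hb0
  have hr0 : r ≠ 0 := mul_ne_zero hα0 (inv_ne_zero hb4)
  have hrα : r * (4 * bf (v 0) (v 0)) = α := by
    rw [hr, mul_assoc, inv_mul_cancel₀ hb4, mul_one]
  have hkey : ∀ k, ad (e (l 1) - r • y) (v k) = 0 := by
    intro k
    rw [sub_eq_add_neg, ad_add, ad_neg, ad_smul, LinearMap.add_apply, LinearMap.neg_apply,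
      LinearMap.smul_apply, hyad]
    by_cases hk0 : k = 0
    · subst hk0
      rw [hα, d.orth (a := 1) (b := 0) (by norm_num), ← hrα]
      module
    · by_cases hk1 : k = -1
      · subst hk1
        rw [hβ, d.orth (a := 0) (b := -1) (by norm_num)]
        have h1 : β = -(r * (4 * bf (v 1) (v (-1)))) := by
          refine mul_right_cancel₀ hb0 ?_
          rw [hdual, ← hrα]
          ring
        rw [h1]
        module
      · rw [d.orth (a := 0) (b := k) (by omega), d.orth (a := 1) (b := k) (by omega), mul_zero,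
          zero_smul, zero_smul, sub_zero, smul_zero, neg_zero, add_zero]
        rcases lt_or_ge k (-m) with h1 | h1
        · rw [d.zero k (Or.inl h1), map_zero]
        · rcases lt_or_ge k m with h2 | h2
          · refine Lb.e_zero d b h1 h2 ?_
            rcases lt_or_ge k 0 with h3 | h3
            · have h4 := Lb.lsym d b (k := -k) (by omega) (by omega)
              have h5 : (1 : ℤ) - -k = k + 1 := by ring
              rw [h5] at h4
              rw [h4]
              exact (hl (-k) (by omega) (by omega)).symm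
            · exact (hl (k + 1) (by omega) (by omega)).symm
          · exact Lb.e_zero' d b h2 _
  have h1 := Lam_central hirr d.le d.lf (Submodule.sub_mem _ (d.le (l 1))
    (Submodule.smul_mem _ r hyL)) (commute_of_basis d hkey)
  have h2 : y = r⁻¹ • e (l 1) := by
    rw [sub_eq_zero.1 h1, smul_smul, inv_mul_cancel₀ hr0, one_smul]
  rw [h2]
  exact Submodule.smul_mem _ _ (he _)

/-- climbing -/
theorem climb [Nontrivial S] (d : Dat e f h A c V v m) (b : Lb e f h v m l w) (hirr : Irr e f)
    (hl : ∀ k, 2 ≤ k → k ≤ m → l k ≠ l 1) {L : Submodule K (Module.End K S)}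
    (hL : ∀ x ∈ L, ∀ y ∈ L, x * y - y * x ∈ L) (he : ∀ i, e i ∈ L) (n : ℕ) :
    ((n : ℤ) + 1 ≤ m) → v (n + 1) * v 0 - v 0 * v (n + 1) ∈ L := by
  induction n with
  | zero =>
    intro hn
    have h1 : ((0 : ℕ) : ℤ) + 1 = 1 := by norm_num
    rw [h1] at hn ⊢
    exact first d b hirr hn hl he
  | succ n ih =>
    intro hn
    have h1 := ih (by push_cast at hn; omega)
    obtain ⟨a, ha0, ha⟩ := Lb.up d b (k := (n : ℤ) + 1) (by omega) (by push_cast at hn; omega)
    have h2 : ad (e (l ((n : ℤ) + 1 + 1))) (v 0) = 0 := by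
      refine Lb.e_zero d b (by omega) (by omega) ?_
      rw [zero_add]
      exact hl _ (by omega) (by push_cast at hn; omega)
    have h3 := hL _ (he (l ((n : ℤ) + 1 + 1))) _ h1
    have h4 : e (l ((n : ℤ) + 1 + 1)) * (v (n + 1) * v 0 - v 0 * v (n + 1)) -
        (v (n + 1) * v 0 - v 0 * v (n + 1)) * e (l ((n : ℤ) + 1 + 1)) =
        a • (v (n + 1 + 1) * v 0 - v 0 * v (n + 1 + 1)) := by
      rw [← ad_apply, map_sub, ad_mul, ad_mul, ha, h2]
      simp only [mul_zero, zero_mul, add_zero, zero_add, smul_mul_assoc, mul_smul_comm, smul_sub]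
    rw [h4] at h3
    have h5 := Submodule.smul_mem _ a⁻¹ h3
    rw [smul_smul, inv_mul_cancel₀ ha0, one_smul] at h5
    push_cast
    exact h5

/-- the commutators with `v 0` -/
theorem all_v0 [Nontrivial S] (d : Dat e f h A c V v m) (b : Lb e f h v m l w) (hirr : Irr e f)
    (hl : ∀ k, 2 ≤ k → k ≤ m → l k ≠ l 1) {L : Submodule K (Module.End K S)}
    (hL : ∀ x ∈ L, ∀ y ∈ L, x * y - y * x ∈ L) (he : ∀ i, e i ∈ L) (hf : ∀ i, f i ∈ L) (a : ℤ) :
    v a * v 0 - v 0 * v a ∈ L := by
  by_cases ha : -m ≤ a ∧ a ≤ m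
  · rcases lt_trichotomy a 0 with h1 | h1 | h1
    · obtain ⟨n, hn⟩ := Int.eq_ofNat_of_zero_le (show 0 ≤ -a - 1 by omega)
      have hl' : ∀ k, 2 ≤ k → k ≤ m → (fun k => l (1 - k)) k ≠ (fun k => l (1 - k)) 1 := by
        intro k hk1 hk2
        have h2 := Lb.lsym d b (k := k) (by omega) hk2
        have h3 := Lb.lsym d b (k := 1) (by omega) (by omega)
        simp only
        rw [h2, h3]
        exact hl k hk1 hk2
      have h2 := climb d.swap (Lb.swap d b) hirr.swap hl' hL hf n (by omega)
      have h3 : -((n : ℤ) + 1) = a := by omega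
      rw [h3, neg_zero] at h2
      exact h2
    · subst h1
      rw [sub_self]
      exact Submodule.zero_mem _
    · obtain ⟨n, hn⟩ := Int.eq_ofNat_of_zero_le (show 0 ≤ a - 1 by omega)
      have h2 := climb d b hirr hl hL he n (by omega)
      have h3 : (n : ℤ) + 1 = a := by omega
      rwa [h3] at h2
  · rw [d.zero a (by omega), zero_mul, mul_zero, sub_zero]
    exact Submodule.zero_mem _

/-- the whole algebra from the commutators with `v 0` -/
theorem all (d : Dat e f h A c V v m) {L : Submodule K (Module.End K S)}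
    (hL : ∀ x ∈ L, ∀ y ∈ L, x * y - y * x ∈ L) (h0 : ∀ a, v a * v 0 - v 0 * v a ∈ L) :
    Lam V ≤ L := by
  have hb0 : bf (v 0) (v 0) ≠ 0 := by
    have h1 := d.pair (k := 0) (by have := d.nn; omega) d.nn
    rwa [neg_zero] at h1
  have h4K : (4 : K) ≠ 0 := by norm_num
  have key : ∀ a b : ℤ, v b * v a - v a * v b ∈ L := by
    intro a b
    by_cases ha : a = 0
    · subst ha
      exact h0 b
    · by_cases hb : b = 0
      · subst hb
        have h1 := Submodule.neg_mem _ (h0 a)
        rwa [neg_sub] at h1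
      · have h1 := hL _ (h0 a) _ (h0 b)
        have h2 : ad (v a * v 0 - v 0 * v a) (v b) = -((4 * bf (v a) (v b)) • v 0) := by
          rw [d.cl.cm (d.mem a) (d.mem 0) (d.mem b), d.orth (a := 0) (b := b) (by omega)]
          module
        have h3 : ad (v a * v 0 - v 0 * v a) (v 0) = (4 * bf (v 0) (v 0)) • v a := by
          rw [d.cl.cm (d.mem a) (d.mem 0) (d.mem 0), d.orth (a := a) (b := 0) (by omega)]
          module
        rw [← ad_apply, map_sub, ad_mul, ad_mul, h2, h3] at h1
        have h4 : -((4 * bf (v a) (v b)) • v 0) * v 0 + v b * (4 * bf (v 0) (v 0)) • v a -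
            ((4 * bf (v 0) (v 0)) • v a * v b + v 0 * -((4 * bf (v a) (v b)) • v 0)) =
            (4 * bf (v 0) (v 0)) • (v b * v a - v a * v b) := by
          simp only [neg_mul, mul_neg, smul_mul_assoc, mul_smul_comm]
          module
        rw [h4] at h1
        have h5 := Submodule.smul_mem _ (4 * bf (v 0) (v 0))⁻¹ h1
        rwa [smul_smul, inv_mul_cancel₀ (mul_ne_zero h4K hb0), one_smul] at h5
  refine d.Lam_le.trans (iSup_le fun k => Submodule.span_le.2 ?_)
  rintro _ ⟨a, b, -, rfl⟩
  exact key b a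

/-- the dimension of `V` -/
theorem Dat.finrank_two (d : Dat e f h A c V v 2) : finrank K V = 5 := by
  classical
  have hspan : V = Submodule.span K (Set.range fun i : Fin 5 => v ((i : ℤ) - 2)) := by
    apply le_antisymm
    · refine d.span.trans (iSup_le fun k => ?_)
      rw [Submodule.span_singleton_le_iff_mem]
      by_cases hk : -2 ≤ k ∧ k ≤ 2
      · refine Submodule.subset_span ⟨⟨(k + 2).toNat, by omega⟩, ?_⟩
        simp only
        congr 1
        omega
      · rw [d.zero k (by omega)]
        exact Submodule.zero_mem _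
    · refine Submodule.span_le.2 ?_
      rintro _ ⟨i, rfl⟩
      exact d.mem _
  have hind : LinearIndependent K fun i : Fin 5 => v ((i : ℤ) - 2) := by
    refine Module.End.eigenvectors_linearIndependent' (ad (H0 h c))
      (fun i : Fin 5 => 2 * (((i : ℤ) - 2 : ℤ) : K)) ?_ _ fun i => ⟨?_, ?_⟩
    · intro i j hij
      have h1 := mul_left_cancel₀ two_ne_zero hij
      have h2 : (i : ℤ) - 2 = (j : ℤ) - 2 := by exact_mod_cast h1
      exact Fin.ext (by omega)
    · exact Module.End.mem_eigenspace_iff.2 (d.deg _)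
    · have h1 := i.2
      exact d.ne _ (by omega) (by omega)
  rw [hspan, finrank_span_eq_card hind, Fintype.card_fin]

/-- **Rigidity**: the Chevalley generators of an algebra which acts irreducibly on the spin
representation generate the orthogonal algebra. -/
theorem rigid [Nontrivial S] (hC : Chev e f h A c) (hirr : Irr e f) (hV : Cl V)
    (hle : ∀ i, e i ∈ Lam V) (hlf : ∀ i, f i ∈ Lam V) (hodd : Odd (finrank K V))
    (h5 : finrank K V ≠ 5) {L : Submodule K (Module.End K S)}
    (hL : ∀ x ∈ L, ∀ y ∈ L, x * y - y * x ∈ L) (he : ∀ i, e i ∈ L) (hf : ∀ i, f i ∈ L) :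
    Lam V ≤ L := by
  obtain ⟨v, m, d⟩ := exists_dat hC hirr hV hle hlf hodd
  refine all d hL fun a => ?_
  have hnn := d.nn
  rcases (show m = 0 ∨ 1 ≤ m by omega) with hm0 | hm1
  · subst hm0
    by_cases ha : a = 0
    · rw [ha, sub_self]
      exact Submodule.zero_mem _
    · rw [d.zero a (by omega), zero_mul, mul_zero, sub_zero]
      exact Submodule.zero_mem _
  · obtain ⟨l, w, b⟩ := d.labels hm1
    refine all_v0 d b hirr ?_ hL he hf a
    rcases (show m = 1 ∨ m = 2 ∨ 3 ≤ m by omega) with hm | hm | hm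
    · intro k h1 h2
      omega
    · subst hm
      exact absurd d.finrank_two h5
    · obtain ⟨μ, s0, σ, hs0, hlev, he0, hh0⟩ := exists_top hC
      exact geo d b hm (l2 d b hirr hs0 hlev he0 hh0 hm) (l3 d b hirr hs0 hlev he0 hh0 hm)

end Pool.Agent.Q50.SR
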