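import Pool.Agent.Q50.SR.Top

/-!
# Representations of `sl₂`, and the adjoint action
-/

set_option linter.unusedSectionVars false
set_option maxHeartbeats 4000000
set_option synthInstance.maxHeartbeats 400000

namespace Pool.Agent.Q50.SR

open Module

section sl2

variable {K W : Type*} [Field K] [CharZero K] [AddCommGroup W] [Module K W]
  [FiniteDimensional K W]

/-- relations of `sl₂` -/
structure Tri (E F H : Module.End K W) : Prop where
  ef : E * F - F * E = H
  he : H * E - E * H = (2 : K) • E
  hf : H * F - F * H = -((2 : K) • F)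

variable {E F H : Module.End K W}

theorem Tri.symm (t : Tri E F H) : Tri F E (-H) := by
  refine ⟨?_, ?_, ?_⟩
  · rw [← t.ef]
    abel
  · rw [neg_mul, mul_neg, sub_neg_eq_add, ← neg_inj, neg_add, neg_neg, ← sub_eq_add_neg, t.hf]
  · rw [neg_mul, mul_neg, sub_neg_eq_add, ← t.he]
    abel

theorem Tri.ef' (t : Tri E F H) (x : W) : E (F x) = F (E x) + H x := by
  have h1 := congrArg (fun g : Module.End K W => g x) t.ef
  simp only [LinearMap.sub_apply, Module.End.mul_apply] at h1
  rw [← h1]
  abel

theorem Tri.he' (t : Tri E F H) (x : W) : H (E x) = E (H x) + (2 : K) • E x := by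
  have h1 := congrArg (fun g : Module.End K W => g x) t.he
  simp only [LinearMap.sub_apply, Module.End.mul_apply, LinearMap.smul_apply] at h1
  rw [← h1]
  abel

theorem Tri.hf' (t : Tri E F H) (x : W) : H (F x) = F (H x) - (2 : K) • F x := by
  have h1 := congrArg (fun g : Module.End K W => g x) t.hf
  simp only [LinearMap.sub_apply, Module.End.mul_apply, LinearMap.smul_apply,
    LinearMap.neg_apply] at h1
  rw [sub_eq_iff_eq_add] at h1
  rw [h1]
  abel

theorem Tri.pow_h (t : Tri E F H) {w : W} {θ : K} (hH : H w = θ • w) (k : ℕ) :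
    H ((F ^ k) w) = (θ - 2 * k) • (F ^ k) w := by
  induction k with
  | zero => simpa using hH
  | succ k ih =>
    rw [pow_succ', Module.End.mul_apply, t.hf', ih, map_smul, ← sub_smul]
    congr 1
    push_cast
    ring

theorem Tri.pow_e (t : Tri E F H) {w : W} {θ : K} (hH : H w = θ • w) (hE : E w = 0) (k : ℕ) :
    E ((F ^ (k + 1)) w) = ((k + 1) * (θ - k)) • (F ^ k) w := by
  induction k with
  | zero =>
    rw [zero_add, pow_one, t.ef', hE, map_zero, zero_add, hH, pow_zero, Module.End.one_apply]
    congr 1
    push_cast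
    ring
  | succ k ih =>
    rw [pow_succ' F (k + 1), Module.End.mul_apply, t.ef', ih, map_smul, t.pow_h hH,
      ← Module.End.mul_apply, ← pow_succ', ← add_smul]
    congr 1
    push_cast
    ring

/-- the weight of a primitive vector is a natural number -/
theorem Tri.nat (t : Tri E F H) {w : W} {θ : K} (hw : w ≠ 0) (hH : H w = θ • w) (hE : E w = 0) :
    ∃ n : ℕ, θ = n ∧ (F ^ (n + 1)) w = 0 := by
  have h1 : ∃ k : ℕ, (F ^ (k + 1)) w = 0 := by
    by_contra hcon
    push Not at hcon
    have h2 : ∀ k : ℕ, (F ^ k) w ≠ 0 := by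
      intro k
      cases k with
      | zero => simpa using hw
      | succ k => exact hcon k
    have hfin : {μ : K | H.HasEigenvalue μ}.Finite := Module.End.finite_hasEigenvalue _
    refine (Set.infinite_of_injective_forall_mem (f := fun k : ℕ => θ - 2 * (k : K)) ?_
      fun k => ?_) hfin
    · intro a b hab
      have h3 : (2 : K) * a = 2 * b := by
        have h4 : θ - 2 * (a : K) = θ - 2 * (b : K) := hab
        linear_combination -h4
      exact_mod_cast mul_left_cancel₀ two_ne_zero h3
    · exact Module.End.hasEigenvalue_of_hasEigenvector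
        ⟨Module.End.mem_eigenspace_iff.2 (t.pow_h hH k), h2 k⟩
  classical
  let n := Nat.find h1
  have hn : (F ^ (n + 1)) w = 0 := Nat.find_spec h1
  have hn' : (F ^ n) w ≠ 0 := by
    rcases Nat.eq_zero_or_pos n with h2 | h2
    · rw [h2]
      simpa using hw
    · obtain ⟨k, hk⟩ : ∃ k, n = k + 1 := ⟨n - 1, by omega⟩
      have h3 := Nat.find_min h1 (m := k) (by omega)
      rwa [← hk] at h3
  refine ⟨n, ?_, hn⟩
  have h2 := t.pow_e hH hE n
  rw [hn, map_zero, eq_comm, smul_eq_zero_iff_left hn', mul_eq_zero] at h2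
  rcases h2 with h2 | h2
  · exact absurd h2 (Nat.cast_add_one_ne_zero n)
  · exact sub_eq_zero.1 h2

/-- a primitive vector of weight zero is killed by everything -/
theorem Tri.zero (t : Tri E F H) {w : W} (hH : H w = 0) (hE : E w = 0) : F w = 0 := by
  by_cases hw : w = 0
  · rw [hw, map_zero]
  · obtain ⟨n, h1, h2⟩ := t.nat (θ := 0) hw (by rw [hH, zero_smul]) hE
    have h3 : n = 0 := by exact_mod_cast h1.symm
    subst h3
    simpa using h2

/-- a primitive vector does not have a negative weight -/
theorem Tri.not_neg (t : Tri E F H) {w : W} {k : ℕ} (hk : k ≠ 0) (hH : H w = (-(2 * k) : K) • w)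
    (hE : E w = 0) : w = 0 := by
  by_contra hw
  obtain ⟨n, h1, -⟩ := t.nat hw hH hE
  have h2 : ((2 * k + n : ℕ) : K) = 0 := by
    push_cast
    linear_combination -h1
  have h3 := Nat.cast_eq_zero.1 h2
  omega

end sl2

section ad

variable {K S : Type*} [Field K] [CharZero K] [AddCommGroup S] [Module K S]

/-- the adjoint action -/
noncomputable def ad (x : Module.End K S) : Module.End K (Module.End K S) :=
  LinearMap.mulLeft K x - LinearMap.mulRight K x

theorem ad_apply (x y : Module.End K S) : ad x y = x * y - y * x := rfl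

theorem ad_add (x y : Module.End K S) : ad (x + y) = ad x + ad y := by
  refine LinearMap.ext fun v => ?_
  rw [LinearMap.add_apply, ad_apply, ad_apply, ad_apply]
  noncomm_ring

theorem ad_smul (a : K) (x : Module.End K S) : ad (a • x) = a • ad x := by
  refine LinearMap.ext fun v => ?_
  rw [LinearMap.smul_apply, ad_apply, ad_apply, smul_mul_assoc, mul_smul_comm, smul_sub]

theorem ad_sum {ι : Type*} (s : Finset ι) (x : ι → Module.End K S) :
    ad (∑ i ∈ s, x i) = ∑ i ∈ s, ad (x i) := by
  refine LinearMap.ext fun v => ?_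
  rw [LinearMap.sum_apply, ad_apply, Finset.sum_mul, Finset.mul_sum, ← Finset.sum_sub_distrib]
  rfl

theorem ad_bracket (x y : Module.End K S) : ad x * ad y - ad y * ad x = ad (x * y - y * x) := by
  refine LinearMap.ext fun v => ?_
  rw [LinearMap.sub_apply, Module.End.mul_apply, Module.End.mul_apply, ad_apply, ad_apply,
    ad_apply, ad_apply, ad_apply]
  noncomm_ring

theorem ad_neg (x : Module.End K S) : ad (-x) = -ad x := by
  refine LinearMap.ext fun v => ?_
  rw [LinearMap.neg_apply, ad_apply, ad_apply]
  noncomm_ring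

theorem ad_tri {E F H : Module.End K S} (t : Tri E F H) : Tri (ad E) (ad F) (ad H) := by
  refine ⟨?_, ?_, ?_⟩
  · rw [ad_bracket, t.ef]
  · rw [ad_bracket, t.he, ad_smul]
  · rw [ad_bracket, t.hf, ad_neg, ad_smul]

variable {ι : Type*} [Fintype ι] [DecidableEq ι] {e f h : ι → Module.End K S} {A : ι → ι → K}
  {c : ι → K}

theorem Chev.tri (hC : Chev e f h A c) (i : ι) : Tri (e i) (f i) (h i) := by
  refine ⟨hC.ef i, ?_, ?_⟩
  · rw [hC.he, hC.diag]
  · rw [hC.hf, hC.diag]

/-- the principal triple -/
theorem Chev.tri0 (hC : Chev e f h A c) : Tri (∑ i, e i) (∑ i, c i • f i) (H0 h c) := by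
  refine ⟨?_, ?_, ?_⟩
  · unfold H0
    rw [Finset.sum_mul_sum, Finset.sum_mul_sum,
      Finset.sum_comm (f := fun i j => c i • f i * e j), ← Finset.sum_sub_distrib]
    refine Finset.sum_congr rfl fun i _ => ?_
    rw [← Finset.sum_sub_distrib, Finset.sum_eq_single i]
    · rw [mul_smul_comm, smul_mul_assoc, ← smul_sub, hC.ef]
    · intro j _ hij
      rw [mul_smul_comm, smul_mul_assoc, hC.ef' i j (Ne.symm hij), sub_self]
    · intro h
      exact absurd (Finset.mem_univ _) h
  · refine LinearMap.ext fun x => ?_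
    simp only [LinearMap.sub_apply, Module.End.mul_apply, LinearMap.sum_apply,
      LinearMap.smul_apply, map_sum, Finset.smul_sum]
    rw [← Finset.sum_sub_distrib]
    refine Finset.sum_congr rfl fun i _ => ?_
    rw [hC.H0_e, add_sub_cancel_left]
  · refine LinearMap.ext fun x => ?_
    simp only [LinearMap.sub_apply, Module.End.mul_apply, LinearMap.sum_apply,
      LinearMap.smul_apply, LinearMap.neg_apply, map_sum, map_smul, Finset.smul_sum]
    rw [← Finset.sum_sub_distrib, ← Finset.sum_neg_distrib]
    refine Finset.sum_congr rfl fun i _ => ?_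
    rw [hC.H0_f, smul_sub, smul_comm (2 : K) (c i)]
    abel

/-- the bilinear form -/
noncomputable def bf (v w : Module.End K S) : K :=
  (finrank K S : K)⁻¹ * LinearMap.trace K S (v * w)

theorem bf_comm (v w : Module.End K S) : bf v w = bf w v := by
  unfold bf
  rw [LinearMap.trace_mul_comm]

theorem bf_add (v w w' : Module.End K S) : bf v (w + w') = bf v w + bf v w' := by
  unfold bf
  rw [mul_add, map_add, mul_add]

theorem bf_smul (a : K) (v w : Module.End K S) : bf v (a • w) = a * bf v w := by
  unfold bf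
  rw [mul_smul_comm, map_smul, smul_eq_mul]
  ring

theorem bf_smul' (a : K) (v w : Module.End K S) : bf (a • v) w = a * bf v w := by
  rw [bf_comm, bf_smul, bf_comm]

theorem bf_zero (v : Module.End K S) : bf v 0 = 0 := by
  unfold bf
  rw [mul_zero, map_zero, mul_zero]

theorem bf_zero' (v : Module.End K S) : bf 0 v = 0 := by
  rw [bf_comm, bf_zero]

theorem bf_ad (x v w : Module.End K S) : bf (ad x v) w = -bf v (ad x w) := by
  unfold bf
  rw [ad_apply, ad_apply, sub_mul, mul_sub, map_sub, map_sub, ← mul_neg, neg_sub]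
  congr 2
  rw [mul_assoc, LinearMap.trace_mul_comm, mul_assoc]

end ad

end Pool.Agent.Q50.SR
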