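import Pool.Agent.Q50.SR.Geo

/-!
# The first levels of the spin representation
-/

set_option linter.unusedSectionVars false
set_option maxHeartbeats 4000000
set_option synthInstance.maxHeartbeats 400000

namespace Pool.Agent.Q50.SR

open Module

variable {K S ι : Type*} [Field K] [CharZero K] [IsAlgClosed K] [AddCommGroup S] [Module K S]
  [FiniteDimensional K S] [Fintype ι] [DecidableEq ι] {e f h : ι → Module.End K S}
  {A : ι → ι → K} {c : ι → K} {V : Submodule K (Module.End K S)} {v : ℤ → Module.End K S} {m : ℤ}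
  {l : ℤ → ι} {w : ℤ → ι → K}

/-- the homogeneous parts of the span of the commutators -/
def Wg (v : ℤ → Module.End K S) (k : ℤ) : Submodule K (Module.End K S) :=
  Submodule.span K {x | ∃ a b : ℤ, a + b = k ∧ x = v a * v b - v b * v a}

theorem ad_mul (x y z : Module.End K S) : ad x (y * z) = ad x y * z + y * ad x z := by
  rw [ad_apply, ad_apply, ad_apply]
  noncomm_ring

theorem Dat.Wg_le (d : Dat e f h A c V v m) (k : ℤ) :
    Wg v k ≤ (ad (H0 h c)).eigenspace (2 * (k : K)) := by
  refine Submodule.span_le.2 ?_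
  rintro _ ⟨a, b, hab, rfl⟩
  rw [SetLike.mem_coe, Module.End.mem_eigenspace_iff, map_sub, ad_mul, ad_mul, d.deg, d.deg,
    ← hab]
  simp only [smul_mul_assoc, mul_smul_comm]
  push_cast
  module

theorem Dat.Lam_le (d : Dat e f h A c V v m) : Lam V ≤ ⨆ k, Wg v k := by
  refine Submodule.span_le.2 ?_
  rintro _ ⟨x, hx, y, hy, rfl⟩
  rw [SetLike.mem_coe]
  refine Submodule.iSup_induction (fun k => Submodule.span K {v k})
    (motive := fun x => x * y - y * x ∈ ⨆ k, Wg v k) (d.span hx) ?_ ?_ ?_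
  · intro a x hx
    obtain ⟨r, rfl⟩ := Submodule.mem_span_singleton.1 hx
    refine Submodule.iSup_induction (fun k => Submodule.span K {v k})
      (motive := fun y => (r • v a) * y - y * (r • v a) ∈ ⨆ k, Wg v k) (d.span hy) ?_ ?_ ?_
    · intro b y hy
      obtain ⟨s, rfl⟩ := Submodule.mem_span_singleton.1 hy
      have h1 : (r • v a) * (s • v b) - (s • v b) * (r • v a) =
          (r * s) • (v a * v b - v b * v a) := by
        simp only [smul_mul_assoc, mul_smul_comm]
        module
      rw [h1]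
      exact Submodule.smul_mem _ _ (Submodule.mem_iSup_of_mem (a + b)
        (Submodule.subset_span ⟨a, b, rfl, rfl⟩))
    · rw [mul_zero, zero_mul, sub_zero]
      exact Submodule.zero_mem _
    · intro y z hy hz
      have h1 : (r • v a) * (y + z) - (y + z) * (r • v a) =
          ((r • v a) * y - y * (r • v a)) + ((r • v a) * z - z * (r • v a)) := by
        rw [mul_add, add_mul]
        abel
      rw [h1]
      exact Submodule.add_mem _ hy hz
  · rw [mul_zero, zero_mul, sub_zero]
    exact Submodule.zero_mem _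
  · intro x z hx hz
    have h1 : (x + z) * y - y * (x + z) = (x * y - y * x) + (z * y - y * z) := by
      rw [mul_add, add_mul]
      abel
    rw [h1]
    exact Submodule.add_mem _ hx hz

theorem Dat.f_Wg (d : Dat e f h A c V v m) (i : ι) : f i ∈ Wg v (-1) := by
  have hE : iSupIndep fun k : ℤ => (ad (H0 h c)).eigenspace (2 * (k : K)) := by
    refine (ad (H0 h c)).eigenspaces_iSupIndep.comp (f := fun k : ℤ => 2 * (k : K)) ?_
    intro a b hab
    exact_mod_cast mul_left_cancel₀ two_ne_zero hab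
  refine mem_of_indep hE d.Wg_le (d.Lam_le (d.lf i)) ?_
  rw [Module.End.mem_eigenspace_iff]
  refine LinearMap.ext fun s => ?_
  rw [ad_apply, LinearMap.sub_apply, Module.End.mul_apply, Module.End.mul_apply, d.chev.H0_f,
    LinearMap.smul_apply]
  push_cast
  module

section spin

variable (d : Dat e f h A c V v m) (b : Lb e f h v m l w) (hirr : Irr e f) {μ : K} {s0 : S}
  {σ : ι → K} (hs0 : s0 ≠ 0) (hlev : s0 ∈ lev h c μ 0) (he0 : ∀ i, e i s0 = 0)
  (hh0 : ∀ i, h i s0 = σ i • s0)

include d hirr hs0 hlev he0 hh0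

theorem pos_kill {a : ℤ} (ha : 0 < a) : v a s0 = 0 :=
  lev_neg d.chev hirr hs0 hlev he0 hh0 (k := 0 - a) (by omega) (ad_lev (d.deg a) hlev)

theorem anti_apply {a b : ℤ} (hab : a + b ≠ 0) (s : S) : v a (v b s) = -(v b (v a s)) :=
  congrArg (fun g : Module.End K S => g s) (d.cl.anti (d.mem a) (d.mem b) (d.orth hab))

theorem cl_apply (a b : ℤ) (s : S) : v a (v b s) + v b (v a s) = (2 * bf (v a) (v b)) • s :=
  congrArg (fun g : Module.End K S => g s) (d.cl.cl (v a) (d.mem a) (v b) (d.mem b))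

theorem f_s0 (i : ι) : ∃ a : K, f i s0 = a • v (-1) s0 := by
  have h1 : Wg v (-1) ≤ (Submodule.span K {v (-1) s0}).comap (LinearMap.applyₗ s0) := by
    refine Submodule.span_le.2 ?_
    rintro _ ⟨a, b, hab, rfl⟩
    rw [SetLike.mem_coe, Submodule.mem_comap, LinearMap.applyₗ_apply_apply, LinearMap.sub_apply,
      Module.End.mul_apply, Module.End.mul_apply]
    obtain ⟨r, hr⟩ := Vl_zero_scalar d.chev hirr hs0 hlev he0 hh0 (d.vl 0)
    have h2 : v (-1) (v 0 s0) ∈ Submodule.span K {v (-1) s0} := by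
      rw [hr, map_smul]
      exact Submodule.smul_mem _ _ (Submodule.mem_span_singleton_self _)
    have h3 : v 0 (v (-1) s0) ∈ Submodule.span K {v (-1) s0} := by
      rw [anti_apply d hirr hs0 hlev he0 hh0 (by norm_num)]
      exact Submodule.neg_mem _ h2
    rcases lt_trichotomy 0 a with ha | ha | ha
    · rw [anti_apply d hirr hs0 hlev he0 hh0 (a := a) (b := b) (by omega),
        pos_kill d hirr hs0 hlev he0 hh0 ha, map_zero, neg_zero, sub_zero]
      exact Submodule.zero_mem _
    · subst ha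
      have hb : b = -1 := by omega
      subst hb
      exact Submodule.sub_mem _ h3 h2
    · by_cases hb : b = 0
      · subst hb
        have hb : a = -1 := by omega
        subst hb
        exact Submodule.sub_mem _ h2 h3
      · have hb' : 0 < b ∨ b < 0 := by omega
        rcases hb' with hb' | hb'
        · rw [anti_apply d hirr hs0 hlev he0 hh0 (a := b) (b := a) (by omega),
            pos_kill d hirr hs0 hlev he0 hh0 hb', map_zero, neg_zero, sub_zero]
          exact Submodule.zero_mem _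
        · omega
  obtain ⟨a, ha⟩ := Submodule.mem_span_singleton.1 (h1 (d.f_Wg i))
  exact ⟨a, ha.symm⟩

theorem neg_ne {a : ℤ} (ha : 0 < a) (ha' : a ≤ m) : v (-a) s0 ≠ 0 := by
  intro h0
  have h1 := cl_apply d hirr hs0 hlev he0 hh0 a (-a) s0
  rw [h0, pos_kill d hirr hs0 hlev he0 hh0 ha, map_zero, map_zero, add_zero] at h1
  rcases smul_eq_zero.1 h1.symm with h2 | h2
  · exact mul_ne_zero two_ne_zero (d.pair (by omega) ha') h2
  · exact hs0 h2

theorem v1_sq (s : S) : v (-1) (v (-1) s) = 0 := by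
  have h1 := cl_apply d hirr hs0 hlev he0 hh0 (-1) (-1) s
  rw [d.orth (by norm_num), mul_zero, zero_smul, ← two_smul K] at h1
  exact (smul_eq_zero.1 h1).resolve_left two_ne_zero

theorem ad_s (x y : Module.End K S) (s : S) : x (y s) = ad x y s + y (x s) := by
  rw [ad_apply, LinearMap.sub_apply, Module.End.mul_apply, Module.End.mul_apply, sub_add_cancel]

include b

/-- `f j` kills the highest weight vector if `j` is not the first label -/
theorem f_s0_zero (hm : 1 ≤ m) {j : ι} (hj : j ≠ l 1) : f j s0 = 0 := by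
  obtain ⟨a, ha⟩ := f_s0 d hirr hs0 hlev he0 hh0 j
  by_cases ha0 : a = 0
  · rw [ha, ha0, zero_smul]
  · exfalso
    apply hj
    refine d.chev.inj j (l 1) fun i => ?_
    have h1 := d.chev.hf' j i s0
    have h2 := ad_s d hirr hs0 hlev he0 hh0 (h i) (v (-1)) s0
    rw [b.wt, hh0, LinearMap.smul_apply, map_smul, ← add_smul] at h2
    rw [hh0, map_smul, ha, map_smul, h2, smul_smul, smul_smul, smul_smul, ← sub_smul] at h1
    have h3 := smul_left_injective K (neg_ne d hirr hs0 hlev he0 hh0 one_pos hm) h1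
    have h4 := Lb.wneg d b (k := 1) (by omega) hm i
    have h5 := Lb.wstep d b (k := 1) (by omega) hm i
    rw [sub_self, Lb.w0 d b, zero_add] at h5
    rw [h4, h5] at h3
    have h6 : a * (A j i - A (l 1) i) = 0 := by linear_combination h3
    exact sub_eq_zero.1 ((mul_eq_zero.1 h6).resolve_left ha0)

theorem wd_one : wd f (Submodule.span K {s0}) 1 ≤ Submodule.span K {v (-1) s0} := by
  refine wd_succ_le fun i x hx => ?_
  obtain ⟨r, rfl⟩ := Submodule.mem_span_singleton.1 hx
  obtain ⟨a, ha⟩ := f_s0 d hirr hs0 hlev he0 hh0 i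
  rw [map_smul, ha]
  exact Submodule.smul_mem _ _ (Submodule.smul_mem _ _ (Submodule.mem_span_singleton_self _))

theorem f_v1 (i : ι) : f i (v (-1) s0) = ad (f i) (v (-1)) s0 := by
  rw [ad_s d hirr hs0 hlev he0 hh0 (f i)]
  obtain ⟨a, ha⟩ := f_s0 d hirr hs0 hlev he0 hh0 i
  rw [ha, map_smul, v1_sq d hirr hs0 hlev he0 hh0, smul_zero, add_zero]

theorem wd_two : wd f (Submodule.span K {s0}) 2 ≤ Submodule.span K {v (-2) s0} := by
  refine wd_succ_le fun i x hx => ?_
  obtain ⟨r, rfl⟩ := Submodule.mem_span_singleton.1 (wd_one d b hirr hs0 hlev he0 hh0 hx)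
  rw [map_smul, f_v1 d b hirr hs0 hlev he0 hh0]
  obtain ⟨a, ha⟩ := d.lower i (-1)
  have h1 : (-1 : ℤ) - 1 = -2 := by norm_num
  rw [ha, h1, LinearMap.smul_apply]
  exact Submodule.smul_mem _ _ (Submodule.smul_mem _ _ (Submodule.mem_span_singleton_self _))

/-- the third label is not the first one -/
theorem l3 (hm : 3 ≤ m) : l 3 ≠ l 1 := by
  intro hl
  have hl3 : l (-2) = l 1 := by
    have h1 := Lb.lsym d b (k := 3) (by omega) hm
    have h2 : (1 : ℤ) - 3 = -2 := by norm_num
    rw [h2, hl] at h1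
    exact h1
  have h1 : ∀ j, j ≠ l 1 → f j (v (-2) s0) = 0 := by
    intro j hj
    rw [ad_s d hirr hs0 hlev he0 hh0 (f j), f_s0_zero d b hirr hs0 hlev he0 hh0 (by omega) hj,
      map_zero, add_zero, Lb.f_zero d b (by omega) (by omega) (by rwa [hl3]), LinearMap.zero_apply]
  have h2 : wd f (Submodule.span K {s0}) 3 ≤ Submodule.span K {f (l 1) (v (-2) s0)} := by
    refine wd_succ_le fun i x hx => ?_
    obtain ⟨r, rfl⟩ := Submodule.mem_span_singleton.1 (wd_two d b hirr hs0 hlev he0 hh0 hx)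
    rw [map_smul]
    by_cases hi : i = l 1
    · rw [hi]
      exact Submodule.smul_mem _ _ (Submodule.mem_span_singleton_self _)
    · rw [h1 i hi, smul_zero]
      exact Submodule.zero_mem _
  have h3 : v (-3) s0 ∈ lev h c μ (3 : ℕ) := by
    have h4 := ad_lev (d.deg (-3)) hlev
    simpa using h4
  have h4 : v (-2) (v (-1) s0) ∈ lev h c μ (3 : ℕ) := by
    have h5 := ad_lev (d.deg (-2)) (ad_lev (d.deg (-1)) hlev)
    simpa using h5
  obtain ⟨α, hα⟩ := Submodule.mem_span_singleton.1
    (h2 (lev_wd d.chev hirr hs0 hlev he0 hh0 h3))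
  obtain ⟨β, hβ⟩ := Submodule.mem_span_singleton.1
    (h2 (lev_wd d.chev hirr hs0 hlev he0 hh0 h4))
  have h5 : β • v (-3) s0 = α • v (-2) (v (-1) s0) := by
    rw [← hα, ← hβ, smul_comm]
  have h6 := congrArg (v 1) h5
  rw [map_smul, map_smul, anti_apply d hirr hs0 hlev he0 hh0 (a := 1) (b := -3) (by norm_num),
    pos_kill d hirr hs0 hlev he0 hh0 one_pos, map_zero, neg_zero, smul_zero,
    anti_apply d hirr hs0 hlev he0 hh0 (a := 1) (b := -2) (by norm_num)] at h6
  have h7 := cl_apply d hirr hs0 hlev he0 hh0 1 (-1) s0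
  rw [pos_kill d hirr hs0 hlev he0 hh0 one_pos, map_zero, add_zero] at h7
  rw [h7, map_smul, ← smul_neg, smul_smul, eq_comm] at h6
  rcases smul_eq_zero.1 h6 with h8 | h8
  · rcases mul_eq_zero.1 h8 with h9 | h9
    · rw [h9, zero_smul] at hα
      exact neg_ne d hirr hs0 hlev he0 hh0 (a := 3) (by norm_num) hm hα.symm
    · exact mul_ne_zero two_ne_zero (d.pair (k := 1) (by omega) (by omega)) h9
  · exact neg_ne d hirr hs0 hlev he0 hh0 (a := 2) (by norm_num) (by omega) (neg_eq_zero.1 h8)

/-- the second label is not the first one -/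
theorem l2 (hm : 3 ≤ m) : l 2 ≠ l 1 := by
  intro hl
  have hl0 : l 0 = l 1 := by
    have h1 := Lb.lsym d b (k := 1) (by omega) (by omega)
    rwa [sub_self] at h1
  have hl1 : l (-1) = l 1 := by
    have h1 := Lb.lsym d b (k := 2) (by omega) (by omega)
    have h2 : (1 : ℤ) - 2 = -1 := by norm_num
    rwa [h2, hl] at h1
  have hl2 : l (-2) = l 3 := by
    have h1 := Lb.lsym d b (k := 3) (by omega) hm
    have h2 : (1 : ℤ) - 3 = -2 := by norm_num
    rwa [h2] at h1
  have hj := l3 d b hirr hs0 hlev he0 hh0 hm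
  have hfj := f_s0_zero d b hirr hs0 hlev he0 hh0 (by omega) hj
  -- the weights of `s0` and of `v 1`
  have hσ : σ (l 3) = 0 := by
    have h1 := hh0 (l 3)
    rw [← d.chev.ef, LinearMap.sub_apply, Module.End.mul_apply, Module.End.mul_apply, hfj, he0,
      map_zero, map_zero, sub_zero] at h1
    exact (smul_eq_zero.1 h1.symm).resolve_right hs0
  have hA : A (l 1) (l 3) = 0 := by
    have h1 : w (-1) (l 3) = 0 :=
      Lb.w_zero d b (by omega) (by omega)
        (Lb.e_zero d b (by omega) (by omega) (by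
          have h2 : (-1 : ℤ) + 1 = 0 := by norm_num
          rw [h2, hl0]
          exact hj))
        (Lb.f_zero d b (by omega) (by omega) (by rw [hl1]; exact hj))
    rw [Lb.wneg d b (by omega) (by omega), Lb.wstep d b (by omega) (by omega), sub_self,
      Lb.w0 d b, zero_add, neg_eq_zero] at h1
    exact h1
  -- `f (l 1)` applied twice to `s0`
  have hf0 : f (l 1) s0 ≠ 0 := by
    intro h0
    have h1 : wd f (Submodule.span K {s0}) 1 ≤ ⊥ := by
      refine wd_succ_le fun i x hx => ?_
      obtain ⟨r, rfl⟩ := Submodule.mem_span_singleton.1 hx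
      rw [Submodule.mem_bot, map_smul]
      by_cases hi : i = l 1
      · rw [hi, h0, smul_zero]
      · rw [f_s0_zero d b hirr hs0 hlev he0 hh0 (by omega) hi, smul_zero]
    have h3 : v (-1) s0 ∈ lev h c μ (1 : ℕ) := by
      have h4 := ad_lev (d.deg (-1)) hlev
      simpa using h4
    exact neg_ne d hirr hs0 hlev he0 hh0 (a := 1) (by norm_num) (by omega)
      ((Submodule.mem_bot K).1 (h1 (lev_wd d.chev hirr hs0 hlev he0 hh0 h3)))
  obtain ⟨r, hr⟩ := f_s0 d hirr hs0 hlev he0 hh0 (l 1)
  have hr0 : r ≠ 0 := by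
    rintro rfl
    exact hf0 (by rw [hr, zero_smul])
  obtain ⟨s, hs, hs'⟩ := Lb.down d b (k := -1) (by omega) (by omega)
  have h12 : (-1 : ℤ) - 1 = -2 := by norm_num
  rw [hl1, h12] at hs'
  have hff : f (l 1) (f (l 1) s0) = (r * s) • v (-2) s0 := by
    rw [hr, map_smul, f_v1 d b hirr hs0 hlev he0 hh0, hs', LinearMap.smul_apply, smul_smul]
  -- `f (l 3)` does not kill it
  obtain ⟨q, hq, hq'⟩ := Lb.down d b (k := -2) (by omega) (by omega)
  have h23 : (-2 : ℤ) - 1 = -3 := by norm_num
  rw [hl2, h23] at hq'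
  have h1 : f (l 3) (f (l 1) (f (l 1) s0)) = (r * s * q) • v (-3) s0 := by
    rw [hff, map_smul, ad_s d hirr hs0 hlev he0 hh0 (f (l 3)), hfj, map_zero, add_zero, hq',
      LinearMap.smul_apply, smul_smul]
  have h2 : f (l 3) (f (l 1) (f (l 1) s0)) = 0 := by
    refine (d.chev.tri (l 3)).zero ?_ ?_
    · rw [d.chev.hf', d.chev.hf', hh0, hσ, hA]
      simp
    · rw [d.chev.efn hj, d.chev.efn hj, he0, map_zero, map_zero]
  rw [h1] at h2
  rcases smul_eq_zero.1 h2 with h3 | h3
  · exact mul_ne_zero (mul_ne_zero hr0 hs) hq h3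
  · exact neg_ne d hirr hs0 hlev he0 hh0 (a := 3) (by norm_num) hm h3

end spin

end Pool.Agent.Q50.SR
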