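import Pool.Agent.Q50.SR.Chev

/-!
# The highest weight vector of an irreducible representation
-/

set_option linter.unusedSectionVars false
set_option maxHeartbeats 4000000
set_option synthInstance.maxHeartbeats 400000

namespace Pool.Agent.Q50.SR

open Module

variable {K S ι : Type*} [Field K] [CharZero K] [IsAlgClosed K] [AddCommGroup S] [Module K S]
  [FiniteDimensional K S] [Fintype ι] [DecidableEq ι]
  {e f h : ι → Module.End K S} {A : ι → ι → K} {c : ι → K}

/-- commuting endomorphisms have a common eigenvector in a stable subspace -/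
theorem common (hh : ∀ i j, h i * h j = h j * h i) {E : Submodule K S} (hE : E ≠ ⊥)
    (hE' : ∀ j, ∀ x ∈ E, h j x ∈ E) (s : Finset ι) :
    ∃ U : Submodule K S, U ≠ ⊥ ∧ U ≤ E ∧ (∀ j, ∀ x ∈ U, h j x ∈ U) ∧
      ∀ i ∈ s, ∃ σ : K, ∀ x ∈ U, h i x = σ • x := by
  induction s using Finset.induction_on with
  | empty => exact ⟨E, hE, le_rfl, hE', fun i hi => absurd hi (Finset.notMem_empty i)⟩
  | insert i s _ ih =>
    obtain ⟨U, h1, h2, h3, h4⟩ := ih
    have : Nontrivial U := Submodule.nontrivial_iff_ne_bot.2 h1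
    obtain ⟨σ, hσ⟩ := Module.End.exists_eigenvalue ((h i).restrict (h3 i))
    obtain ⟨⟨x, hx⟩, hx1⟩ := hσ.exists_hasEigenvector
    have hx2 : h i x = σ • x := congrArg Subtype.val hx1.apply_eq_smul
    have hx3 : x ≠ 0 := fun h0 => hx1.2 (Subtype.ext h0)
    refine ⟨U ⊓ (h i).eigenspace σ, ?_, inf_le_left.trans h2, ?_, ?_⟩
    · intro h0
      have h5 : x ∈ U ⊓ (h i).eigenspace σ := ⟨hx, Module.End.mem_eigenspace_iff.2 hx2⟩
      rw [h0] at h5
      exact hx3 ((Submodule.mem_bot K).1 h5)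
    · intro j y hy
      refine ⟨h3 j y hy.1, Module.End.mem_eigenspace_iff.2 ?_⟩
      have h5 := Module.End.mem_eigenspace_iff.1 hy.2
      have h6 := congrArg (fun g : Module.End K S => g y) (hh i j)
      simp only [Module.End.mul_apply] at h6
      rw [h6, h5, map_smul]
    · intro j hj
      rcases Finset.mem_insert.1 hj with rfl | hj
      · exact ⟨σ, fun y hy => Module.End.mem_eigenspace_iff.1 hy.2⟩
      · obtain ⟨τ, hτ⟩ := h4 j hj
        exact ⟨τ, fun y hy => hτ y hy.1⟩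

/-- the stable subspaces are trivial -/
def Irr (e f : ι → Module.End K S) : Prop :=
  ∀ U : Submodule K S, (∀ i, ∀ x ∈ U, e i x ∈ U) → (∀ i, ∀ x ∈ U, f i x ∈ U) → U = ⊥ ∨ U = ⊤

theorem exists_top (hC : Chev e f h A c) [Nontrivial S] :
    ∃ (μ : K) (s0 : S) (σ : ι → K), s0 ≠ 0 ∧ s0 ∈ lev h c μ 0 ∧ (∀ i, e i s0 = 0) ∧
      ∀ i, h i s0 = σ i • s0 := by
  have hfin : {μ : K | (H0 h c).HasEigenvalue μ}.Finite := Module.End.finite_hasEigenvalue _
  obtain ⟨μ0, hμ0⟩ := Module.End.exists_eigenvalue (H0 h c)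
  obtain ⟨μ, hμ, hμ'⟩ : ∃ μ : K, (H0 h c).HasEigenvalue μ ∧ ¬ (H0 h c).HasEigenvalue (μ + 2) := by
    by_contra hcon
    push Not at hcon
    have h1 : ∀ k : ℕ, (H0 h c).HasEigenvalue (μ0 + 2 * k) := by
      intro k
      induction k with
      | zero => simpa using hμ0
      | succ k ih =>
        have h2 := hcon _ ih
        have h3 : μ0 + 2 * (k : K) + 2 = μ0 + 2 * ((k + 1 : ℕ) : K) := by push_cast; ring
        rwa [h3] at h2
    have h2 : Set.Infinite {μ : K | (H0 h c).HasEigenvalue μ} := by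
      refine Set.infinite_of_injective_forall_mem (f := fun k : ℕ => μ0 + 2 * (k : K)) ?_ h1
      intro a b hab
      have h3 : (2 : K) * a = 2 * b := by
        have h4 : μ0 + 2 * (a : K) = μ0 + 2 * (b : K) := hab
        linear_combination h4
      exact_mod_cast mul_left_cancel₀ two_ne_zero h3
    exact h2 hfin
  have hE' : ∀ j, ∀ x ∈ (H0 h c).eigenspace μ, h j x ∈ (H0 h c).eigenspace μ := by
    intro j x hx
    rw [Module.End.mem_eigenspace_iff] at hx ⊢
    rw [hC.H0_h, hx, map_smul]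
  obtain ⟨U, h1, h2, h3, h4⟩ := common hC.hh hμ hE' Finset.univ
  obtain ⟨s0, hs0, hs0'⟩ := (Submodule.ne_bot_iff _).1 h1
  choose σ hσ using fun i => h4 i (Finset.mem_univ i)
  refine ⟨μ, s0, σ, hs0', ?_, ?_, fun i => hσ i s0 hs0⟩
  · rw [mem_lev]
    rw [Int.cast_zero, mul_zero, sub_zero]
    exact Module.End.mem_eigenspace_iff.1 (h2 hs0)
  · intro i
    by_contra h0
    apply hμ'
    refine Module.End.hasEigenvalue_of_hasEigenvector (x := e i s0) ⟨?_, h0⟩
    rw [Module.End.mem_eigenspace_iff, hC.H0_e, Module.End.mem_eigenspace_iff.1 (h2 hs0), map_smul,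
      ← add_smul]

section top

variable (hC : Chev e f h A c) (hirr : Irr e f) {μ : K} {s0 : S} {σ : ι → K} (hs0 : s0 ≠ 0)
  (hlev : s0 ∈ lev h c μ 0) (he0 : ∀ i, e i s0 = 0) (hh0 : ∀ i, h i s0 = σ i • s0)

include hC hirr in
/-- the words on a nonzero space which is killed by the `e i` span everything -/
theorem wd_top {U : Submodule K S} (hU0 : U ≠ ⊥) (hU : ∀ j, ∀ x ∈ U, h j x ∈ U)
    (hU' : ∀ j, ∀ x ∈ U, e j x = 0) : ⨆ k, wd f U k = ⊤ := by
  rcases hirr (⨆ k, wd f U k) (fun i => (hC.iSup_wd hU hU' i).1)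
    (fun i => (hC.iSup_wd hU hU' i).2) with h1 | h1
  · exfalso
    apply hU0
    rw [eq_bot_iff, ← h1]
    exact le_iSup (wd f U) 0
  · exact h1

include hC hirr hs0 he0 hh0 in
theorem span_top : ⨆ k, wd f (Submodule.span K {s0}) k = ⊤ := by
  refine wd_top hC hirr ?_ ?_ ?_
  · rwa [Ne, Submodule.span_singleton_eq_bot]
  · intro j x hx
    obtain ⟨a, rfl⟩ := Submodule.mem_span_singleton.1 hx
    rw [map_smul, hh0]
    exact Submodule.smul_mem _ _ (Submodule.smul_mem _ _ (Submodule.mem_span_singleton_self s0))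
  · intro j x hx
    obtain ⟨a, rfl⟩ := Submodule.mem_span_singleton.1 hx
    rw [map_smul, he0, smul_zero]

include hC hlev in
theorem span_lev (k : ℕ) : wd f (Submodule.span K {s0}) k ≤ lev h c μ (0 + k) := by
  refine hC.wd_lev ?_ k
  rw [Submodule.span_singleton_le_iff_mem]
  exact hlev

include hC hirr hs0 hlev he0 hh0 in
theorem lev_wd {k : ℕ} {x : S} (hx : x ∈ lev h c μ k) : x ∈ wd f (Submodule.span K {s0}) k := by
  have h1 : x ∈ ⨆ k, wd f (Submodule.span K {s0}) k := by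
    rw [span_top hC hirr hs0 he0 hh0]
    trivial
  exact (mem_of_lev (k := 0) (fun j => span_lev hC hlev j) h1 hx).1 k (zero_add _)

include hC hirr hs0 hlev he0 hh0 in
theorem lev_zero {x : S} (hx : x ∈ lev h c μ 0) : ∃ a : K, x = a • s0 := by
  have h1 := lev_wd hC hirr hs0 hlev he0 hh0 (k := 0) (x := x) (by simpa using hx)
  obtain ⟨a, ha⟩ := Submodule.mem_span_singleton.1 h1
  exact ⟨a, ha.symm⟩

include hC hirr hs0 hlev he0 hh0 in
theorem lev_neg {k : ℤ} (hk : k < 0) {x : S} (hx : x ∈ lev h c μ k) : x = 0 := by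
  have h1 : x ∈ ⨆ k, wd f (Submodule.span K {s0}) k := by
    rw [span_top hC hirr hs0 he0 hh0]
    trivial
  exact (mem_of_lev (k := 0) (fun j => span_lev hC hlev j) h1 hx).2 fun j hj => by omega

include hC hirr hs0 hlev in
/-- no singular vectors in the lower levels -/
theorem no_singular {U : Submodule K S} (hU : ∀ j, ∀ x ∈ U, h j x ∈ U)
    (hU' : ∀ j, ∀ x ∈ U, e j x = 0) {k : ℕ} (hk : k ≠ 0) (hUk : U ≤ lev h c μ k) : U = ⊥ := by
  by_contra hU0
  have h1 : s0 ∈ ⨆ j, wd f U j := by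
    rw [wd_top hC hirr hU0 hU hU']
    trivial
  exact hs0 ((mem_of_lev (k := (k : ℤ)) (fun j => hC.wd_lev hUk j) h1 hlev).2 fun j hj => by omega)

include hC hirr hs0 hlev he0 hh0 in
/-- the levels span -/
theorem iSup_lev : ⨆ k : ℕ, lev h c μ k = ⊤ := by
  rw [eq_top_iff, ← span_top hC hirr hs0 he0 hh0]
  refine iSup_mono fun k => ?_
  have h1 := span_lev (s0 := s0) hC hlev k
  rwa [zero_add] at h1

end top

end Pool.Agent.Q50.SR
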