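import Pool.Agent.Q50.SR.Lin

/-!
# The vector representation inside the endomorphisms of the spin representation
-/

set_option linter.unusedSectionVars false
set_option maxHeartbeats 4000000
set_option synthInstance.maxHeartbeats 400000

namespace Pool.Agent.Q50.SR

open Module

section cl

variable {K S : Type*} [Field K] [CharZero K] [AddCommGroup S] [Module K S]

/-- a space of endomorphisms with the relations of a Clifford algebra -/
structure Cl (V : Submodule K (Module.End K S)) : Prop where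
  cl : ∀ v ∈ V, ∀ w ∈ V, v * w + w * v = (2 * bf v w) • 1
  nd : ∀ v ∈ V, (∀ w ∈ V, bf v w = 0) → v = 0

/-- the space spanned by the commutators of vectors -/
def Lam (V : Submodule K (Module.End K S)) : Submodule K (Module.End K S) :=
  Submodule.span K {x | ∃ v ∈ V, ∃ w ∈ V, x = v * w - w * v}

variable {V : Submodule K (Module.End K S)}

theorem Cl.cm1 (hV : Cl V) {v w u : Module.End K S} (hv : v ∈ V) (hw : w ∈ V) (hu : u ∈ V) :
    v * w * u - u * (v * w) = (2 * bf w u) • v - (2 * bf v u) • w := by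
  have h1 : v * w * u - u * (v * w) = v * (w * u + u * w) - (v * u + u * v) * w := by
    noncomm_ring
  rw [h1, hV.cl w hw u hu, hV.cl v hv u hu, mul_smul_comm, mul_one, smul_mul_assoc, one_mul]

theorem Cl.cm (hV : Cl V) {v w u : Module.End K S} (hv : v ∈ V) (hw : w ∈ V) (hu : u ∈ V) :
    ad (v * w - w * v) u = (4 * bf w u) • v - (4 * bf v u) • w := by
  have h1 : ad (v * w - w * v) u = (v * w * u - u * (v * w)) - (w * v * u - u * (w * v)) := by
    rw [ad_apply]
    noncomm_ring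
  rw [h1, hV.cm1 hv hw hu, hV.cm1 hw hv hu]
  module

theorem Cl.ad_mem (hV : Cl V) {x u : Module.End K S} (hx : x ∈ Lam V) (hu : u ∈ V) :
    ad x u ∈ V := by
  induction hx using Submodule.span_induction with
  | mem x hx =>
    obtain ⟨v, hv, w, hw, rfl⟩ := hx
    rw [hV.cm hv hw hu]
    exact V.sub_mem (V.smul_mem _ hv) (V.smul_mem _ hw)
  | zero =>
    rw [ad_apply, zero_mul, mul_zero, sub_zero]
    exact V.zero_mem
  | add x y _ _ hx hy =>
    rw [ad_add, LinearMap.add_apply]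
    exact V.add_mem hx hy
  | smul a x _ hx =>
    rw [ad_smul, LinearMap.smul_apply]
    exact V.smul_mem _ hx

theorem Cl.anti (hV : Cl V) {v w : Module.End K S} (hv : v ∈ V) (hw : w ∈ V) (h : bf v w = 0) :
    v * w = -(w * v) := by
  have h1 := hV.cl v hv w hw
  rw [h, mul_zero, zero_smul] at h1
  exact eq_neg_of_add_eq_zero_left h1

end cl

section vl

variable {K S ι : Type*} [Field K] [CharZero K] [AddCommGroup S] [Module K S]
  [Fintype ι] [DecidableEq ι] {e f h : ι → Module.End K S} {A : ι → ι → K} {c : ι → K}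

/-- the homogeneous vectors of degree `k` -/
noncomputable def Vl (h : ι → Module.End K S) (c : ι → K) (V : Submodule K (Module.End K S))
    (k : ℤ) : Submodule K (Module.End K S) :=
  V ⊓ (ad (H0 h c)).eigenspace (2 * (k : K))

theorem mem_Vl {V : Submodule K (Module.End K S)} {k : ℤ} {x : Module.End K S} :
    x ∈ Vl h c V k ↔ x ∈ V ∧ ad (H0 h c) x = (2 * (k : K)) • x := by
  unfold Vl
  rw [Submodule.mem_inf, Module.End.mem_eigenspace_iff]

theorem ad_lev {x : Module.End K S} {k : ℤ} (hx : ad (H0 h c) x = (2 * (k : K)) • x) {μ : K}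
    {j : ℤ} {s : S} (hs : s ∈ lev h c μ j) : x s ∈ lev h c μ (j - k) := by
  rw [mem_lev] at hs ⊢
  have h1 := congrArg (fun g : Module.End K S => g s) hx
  simp only [ad_apply, LinearMap.sub_apply, Module.End.mul_apply, LinearMap.smul_apply, hs,
    map_smul] at h1
  rw [sub_eq_iff_eq_add] at h1
  rw [h1, ← add_smul]
  congr 1
  push_cast
  ring

theorem Vl_orth {j k : ℤ} (hjk : j + k ≠ 0)
    {x y : Module.End K S} (hx : ad (H0 h c) x = (2 * (j : K)) • x)
    (hy : ad (H0 h c) y = (2 * (k : K)) • y) : bf x y = 0 := by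
  have h1 := bf_ad (H0 h c) x y
  rw [hx, hy, bf_smul, bf_smul'] at h1
  have h2 : (2 * ((j + k : ℤ) : K)) * bf x y = 0 := by
    push_cast
    linear_combination h1
  rcases mul_eq_zero.1 h2 with h3 | h3
  · rcases mul_eq_zero.1 h3 with h4 | h4
    · exact absurd h4 two_ne_zero
    · exact absurd (by exact_mod_cast h4) hjk
  · exact h3

end vl

section dec

variable {K S ι : Type*} [Field K] [CharZero K] [IsAlgClosed K] [AddCommGroup S] [Module K S]
  [FiniteDimensional K S] [Fintype ι] [DecidableEq ι]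
  {e f h : ι → Module.End K S} {A : ι → ι → K} {c : ι → K}
  (hC : Chev e f h A c) (hirr : Irr e f) {μ : K} {s0 : S} {σ : ι → K} (hs0 : s0 ≠ 0)
  (hlev : s0 ∈ lev h c μ 0) (he0 : ∀ i, e i s0 = 0) (hh0 : ∀ i, h i s0 = σ i • s0)

include hC hirr hs0 hlev he0 hh0

theorem H0_semisimple : (H0 h c).IsSemisimple := by
  apply semisimple_of_iSup
  rw [eq_top_iff, ← iSup_lev hC hirr hs0 hlev he0 hh0]
  exact iSup_le fun k => le_iSup (fun ν => (H0 h c).eigenspace ν) (μ - 2 * ((k : ℤ) : K))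

theorem H0_eig {ν : K} {x : S} (hx : H0 h c x = ν • x) (hx0 : x ≠ 0) : ∃ j : ℕ, ν = μ - 2 * j := by
  by_contra hcon
  push Not at hcon
  have h1 := (H0 h c).eigenspaces_iSupIndep ν
  rw [disjoint_iff] at h1
  have h2 : (⊤ : Submodule K S) ≤ ⨆ (i : K) (_ : i ≠ ν), (H0 h c).eigenspace i := by
    rw [← iSup_lev hC hirr hs0 hlev he0 hh0]
    refine iSup_le fun k => ?_
    refine le_iSup₂_of_le (μ - 2 * ((k : ℤ) : K)) ?_ le_rfl
    intro h3
    exact hcon k (by rw [← h3]; push_cast; rfl)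
  have h3 : x ∈ (H0 h c).eigenspace ν ⊓ ⨆ (i : K) (_ : i ≠ ν), (H0 h c).eigenspace i :=
    ⟨Module.End.mem_eigenspace_iff.2 hx, h2 trivial⟩
  rw [h1] at h3
  exact hx0 ((Submodule.mem_bot K).1 h3)

theorem ad_eig {θ : K} {x : Module.End K S} (hx : ad (H0 h c) x = θ • x) (hx0 : x ≠ 0) :
    ∃ k : ℤ, θ = 2 * k := by
  obtain ⟨k, s, hs, hxs⟩ : ∃ (k : ℕ) (s : S), s ∈ lev h c μ k ∧ x s ≠ 0 := by
    by_contra hcon
    push Not at hcon
    apply hx0
    have h1 : (⊤ : Submodule K S) ≤ LinearMap.ker x := by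
      rw [← iSup_lev hC hirr hs0 hlev he0 hh0]
      exact iSup_le fun k s hs => LinearMap.mem_ker.2 (hcon k s hs)
    exact LinearMap.ext fun s => h1 (x := s) trivial
  rw [mem_lev] at hs
  have h1 := congrArg (fun g : Module.End K S => g s) hx
  simp only [ad_apply, LinearMap.sub_apply, Module.End.mul_apply, LinearMap.smul_apply, hs,
    map_smul] at h1
  rw [sub_eq_iff_eq_add, ← add_smul] at h1
  obtain ⟨j, hj⟩ := H0_eig hC hirr hs0 hlev he0 hh0 h1 hxs
  refine ⟨(k : ℤ) - j, ?_⟩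
  push_cast at hj ⊢
  linear_combination hj

theorem Vl_iSup {V : Submodule K (Module.End K S)} (hH : ∀ x ∈ V, ad (H0 h c) x ∈ V) :
    V ≤ ⨆ k : ℤ, Vl h c V k := by
  have h1 : (ad (H0 h c)).IsSemisimple :=
    ad_semisimple (H0_semisimple hC hirr hs0 hlev he0 hh0)
  have hp : V ∈ (ad (H0 h c)).invtSubmodule := fun x hx => hH x hx
  have h2 := (h1.restrict hp).iSup_eigenspace_eq_top
  have h3 : (⊤ : Submodule K V) ≤ (⨆ k : ℤ, Vl h c V k).comap V.subtype := by
    rw [← h2]
    refine iSup_le fun θ x hx => ?_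
    rw [Submodule.mem_comap]
    have h4 := Module.End.mem_eigenspace_iff.1 hx
    have h5 : ad (H0 h c) (x : Module.End K S) = θ • (x : Module.End K S) :=
      congrArg Subtype.val h4
    by_cases hx0 : (x : Module.End K S) = 0
    · rw [Submodule.subtype_apply, hx0]
      exact Submodule.zero_mem _
    · obtain ⟨k, rfl⟩ := ad_eig hC hirr hs0 hlev he0 hh0 h5 hx0
      exact Submodule.mem_iSup_of_mem k (mem_Vl.2 ⟨x.2, h5⟩)
  intro x hx
  exact h3 (x := ⟨x, hx⟩) trivial

theorem bf_zero_of_Vl {V : Submodule K (Module.End K S)} (hV : Cl V)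
    (hH : ∀ x ∈ V, ad (H0 h c) x ∈ V) {k : ℤ} {x : Module.End K S} (hx : x ∈ Vl h c V k)
    (h1 : ∀ y ∈ Vl h c V (-k), bf x y = 0) : x = 0 := by
  refine hV.nd x (mem_Vl.1 hx).1 fun w hw => ?_
  have h2 := Vl_iSup hC hirr hs0 hlev he0 hh0 hH hw
  refine Submodule.iSup_induction (Vl h c V) (motive := fun w => bf x w = 0) h2 ?_ (bf_zero x) ?_
  · intro j y hy
    by_cases hj : k + j = 0
    · have h3 : j = -k := by omega
      subst h3
      exact h1 y hy
    · exact Vl_orth hj (mem_Vl.1 hx).2 (mem_Vl.1 hy).2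
  · intro y z hy hz
    rw [bf_add, hy, hz, add_zero]

theorem Vl_zero_scalar {V : Submodule K (Module.End K S)} {x : Module.End K S}
    (hx : x ∈ Vl h c V 0) : ∃ a : K, x s0 = a • s0 := by
  have h1 := ad_lev (k := 0) (mem_Vl.1 hx).2 hlev
  exact lev_zero hC hirr hs0 hlev he0 hh0 (by simpa using h1)

theorem Vl_zero_one {V : Submodule K (Module.End K S)} (hV : Cl V)
    (hH : ∀ x ∈ V, ad (H0 h c) x ∈ V) {x y : Module.End K S} (hx : x ∈ Vl h c V 0)
    (hy : y ∈ Vl h c V 0) (hx0 : x ≠ 0) : ∃ a : K, y = a • x := by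
  have key : ∀ z ∈ Vl h c V 0, z s0 = 0 → z = 0 := by
    intro z hz hz0
    refine bf_zero_of_Vl hC hirr hs0 hlev he0 hh0 hV hH hz fun w hw => ?_
    rw [neg_zero] at hw
    obtain ⟨a, ha⟩ := Vl_zero_scalar hC hirr hs0 hlev he0 hh0 hw
    have h1 := congrArg (fun g : Module.End K S => g s0) (hV.cl z (mem_Vl.1 hz).1 w (mem_Vl.1 hw).1)
    simp only [LinearMap.add_apply, Module.End.mul_apply, LinearMap.smul_apply,
      Module.End.one_apply, ha, hz0, map_smul, map_zero, smul_zero, add_zero] at h1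
    have h2 := (smul_eq_zero.1 h1.symm).resolve_right hs0
    exact (mul_eq_zero.1 h2).resolve_left two_ne_zero
  obtain ⟨a, ha⟩ := Vl_zero_scalar hC hirr hs0 hlev he0 hh0 hx
  obtain ⟨b, hb⟩ := Vl_zero_scalar hC hirr hs0 hlev he0 hh0 hy
  have ha0 : a ≠ 0 := by
    rintro rfl
    exact hx0 (key x hx (by rw [ha, zero_smul]))
  refine ⟨b * a⁻¹, ?_⟩
  rw [← sub_eq_zero]
  refine key _ (Submodule.sub_mem _ hy (Submodule.smul_mem _ _ hx)) ?_
  rw [LinearMap.sub_apply, LinearMap.smul_apply, ha, hb, smul_smul, mul_assoc,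
    inv_mul_cancel₀ ha0, mul_one, sub_self]

theorem Vl_zero_ne {V : Submodule K (Module.End K S)} (hV : Cl V)
    (hH : ∀ x ∈ V, ad (H0 h c) x ∈ V) (hodd : Odd (finrank K V)) : ∃ x ∈ Vl h c V 0, x ≠ 0 := by
  let B : LinearMap.BilinForm K V := LinearMap.mk₂ K (fun x y => bf (x : Module.End K S) y)
    (fun x y z => by
      rw [bf_comm, Submodule.coe_add, bf_add, bf_comm, bf_comm (z : Module.End K S)])
    (fun a x y => by rw [Submodule.coe_smul, bf_smul', smul_eq_mul])
    (fun x y z => by rw [Submodule.coe_add, bf_add])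
    (fun a x y => by rw [Submodule.coe_smul, bf_smul, smul_eq_mul])
  have hB : B.Nondegenerate := by
    refine ⟨?_, ?_⟩
    · intro x hx
      exact Subtype.ext (hV.nd x x.2 fun w hw => hx ⟨w, hw⟩)
    · intro x hx
      refine Subtype.ext (hV.nd x x.2 fun w hw => ?_)
      rw [bf_comm]
      exact hx ⟨w, hw⟩
  obtain ⟨x, hx0, hx⟩ := odd_kernel B hB ((ad (H0 h c)).restrict hH)
    (fun x y => bf_ad (H0 h c) x y) hodd
  refine ⟨x, mem_Vl.2 ⟨x.2, ?_⟩, fun h0 => hx0 (Subtype.ext h0)⟩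
  rw [Int.cast_zero, mul_zero, zero_smul]
  exact congrArg Subtype.val hx

end dec

end Pool.Agent.Q50.SR
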